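import Pool.Agent.R826.SPDefs

set_option autoImplicit false

/-!
# MP_fc9311_an: masses of small sets for a deterministic schedule of types
-/

namespace Pool.Agent.R826.SP

open MeasureTheory Set Filter Topology
open scoped ENNReal

/-- mass distribution principle -/
theorem dimH_ge_of_mass {Y : Type*} [EMetricSpace Y] [MeasurableSpace Y] [BorelSpace Y]
    (ν : Measure Y) (T : Set Y) (hT : ν T ≠ 0) (t : NNReal) (C b0 : ℝ) (hC : 0 < C)
    (h : ∀ b : ℝ, b0 ≤ b → ∀ U : Set Y, IsClosed U → Metric.ediam U ≤ ENNReal.ofReal (Real.exp (-b)) →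
      ν U ≤ ENNReal.ofReal (C * Real.exp (-(b * t)))) : (t : ℝ≥0∞) ≤ dimH T := by
  rcases eq_or_ne t 0 with rfl | ht0
  · simp
  have ht : (0:ℝ) < t := by positivity
  have hC' : ENNReal.ofReal C ≠ 0 := by simpa using hC
  have hall : ∀ U : Set Y, Metric.ediam U ≤ ENNReal.ofReal (Real.exp (-b0)) →
      ((ENNReal.ofReal C)⁻¹ • ν) U ≤ Metric.ediam U ^ (t : ℝ) := by
    intro U hU
    rw [Measure.smul_apply, smul_eq_mul, ENNReal.inv_mul_le_iff hC' ENNReal.ofReal_ne_top]
    have hcl : Metric.ediam (closure U) = Metric.ediam U := Metric.ediam_closure U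
    have hmono : ν U ≤ ν (closure U) := measure_mono subset_closure
    refine hmono.trans ?_
    rw [← hcl] at hU ⊢
    have hcc : IsClosed (closure U) := isClosed_closure
    generalize closure U = V at *
    rcases eq_or_ne (Metric.ediam V) 0 with h0 | h0
    · rw [h0]
      have hz : ν V = 0 := by
        have hlim : Tendsto (fun b : ℝ => ENNReal.ofReal (C * Real.exp (-(b * t)))) atTop (𝓝 0) := by
          have h1 : Tendsto (fun b : ℝ => C * Real.exp (-(b * t))) atTop (𝓝 (C * 0)) := by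
            apply Tendsto.const_mul
            apply Real.tendsto_exp_neg_atTop_nhds_zero.comp
            exact tendsto_id.atTop_mul_const ht
          rw [mul_zero] at h1
          have h2 := ENNReal.tendsto_ofReal h1
          rwa [ENNReal.ofReal_zero] at h2
        have h3 : ν V ≤ 0 := by
          refine ge_of_tendsto hlim ?_
          filter_upwards [eventually_ge_atTop b0] with b hb
          exact h b hb V hcc (by rw [h0]; exact zero_le)
        exact le_antisymm h3 zero_le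
      rw [hz]
      exact zero_le
    · have htop : Metric.ediam V ≠ ⊤ := ne_top_of_le_ne_top ENNReal.ofReal_ne_top hU
      set r := (Metric.ediam V).toReal with hr
      have hr0 : 0 < r := ENNReal.toReal_pos h0 htop
      have hV : Metric.ediam V = ENNReal.ofReal r := (ENNReal.ofReal_toReal htop).symm
      have hrle : r ≤ Real.exp (-b0) := by
        rw [hV] at hU
        exact (ENNReal.ofReal_le_ofReal_iff (Real.exp_pos _).le).1 hU
      have hb : b0 ≤ -Real.log r := by
        have := Real.log_le_log hr0 hrle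
        rw [Real.log_exp] at this
        linarith
      have h4 := h (-Real.log r) hb V hcc (by rw [neg_neg, Real.exp_log hr0, hV])
      refine h4.trans ?_
      rw [hV, ENNReal.ofReal_mul hC.le, ENNReal.ofReal_rpow_of_pos hr0]
      gcongr
      rw [Real.rpow_def_of_pos hr0]
      apply le_of_eq
      congr 1
      ring
  have hle := Measure.le_hausdorffMeasure (t : ℝ) ((ENNReal.ofReal C)⁻¹ • ν) _
    (ENNReal.ofReal_pos.2 (Real.exp_pos (-b0))) hall
  refine le_dimH_of_hausdorffMeasure_ne_zero ?_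
  intro hzero
  have h1 := hle T
  rw [hzero, Measure.smul_apply, smul_eq_mul] at h1
  have h2 : (ENNReal.ofReal C)⁻¹ * ν T = 0 := le_antisymm h1 zero_le
  rcases mul_eq_zero.1 h2 with h3 | h3
  · rw [ENNReal.inv_eq_zero] at h3
    exact ENNReal.ofReal_ne_top h3
  · exact hT h3

namespace Par

variable {d N : ℕ} (p : Par d N)

lemma tr_congr (i : Fin d) (τ τ' : ℕ → Fin d) (δ δ' : ℕ → Fin N) (l : ℕ) (h : τ l = τ' l)
    (h2 : τ l = i → δ l = δ' l) : p.tr i τ δ l = p.tr i τ' δ' l := by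
  unfold tr
  by_cases hi : τ l = i
  · rw [← h, h2 hi]
  · congr 1
    unfold sym
    rw [← h, if_neg (fun e => hi e.symm), if_neg (fun e => hi e.symm)]

lemma X_congr (i : Fin d) (τ τ' : ℕ → Fin d) (n : ℕ) (h : ∀ l < n, τ l = τ' l) :
    p.X i τ n = p.X i τ' n :=
  Finset.sum_congr rfl fun l hl => by rw [h l (Finset.mem_range.1 hl)]

lemma L_congr (i : Fin d) (τ τ' : ℕ → Fin d) (δ δ' : ℕ → Fin N) (n : ℕ)
    (h : ∀ l < n, τ l = τ' l) (h2 : ∀ l < n, τ l = i → δ l = δ' l) :
    p.L i τ δ n = p.L i τ' δ' n := by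
  refine Finset.sum_congr rfl fun l hl => ?_
  have hl' := Finset.mem_range.1 hl
  rw [p.X_congr i τ τ' l (fun m hm => h m (hm.trans hl')),
    p.tr_congr i τ τ' δ δ' l (h l hl') (h2 l hl')]

lemma tr_own (i : Fin d) (τ : ℕ → Fin d) (δ : ℕ → Fin N) (l : ℕ) (h : τ l = i) :
    p.tr i τ δ l = (δ l).1 / (2 * N) := by
  unfold tr
  rw [h]
  simp [sym, trans]

/-- cells of different own words are separated -/
lemma L_sep (i : Fin d) (τ : ℕ → Fin d) (δ δ' : ℕ → Fin N) (n : ℕ)
    (h : ∃ m < n, τ m = i ∧ δ m ≠ δ' m) :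
    Real.exp (-(p.X i τ n)) ≤ |p.L i τ δ n - p.L i τ δ' n| := by
  classical
  have hex : ∃ m, m < n ∧ τ m = i ∧ δ m ≠ δ' m := h
  set m := Nat.find hex with hm
  obtain ⟨hmn, hmi, hne⟩ := Nat.find_spec hex
  have hmin : ∀ l < m, τ l = i → δ l = δ' l := by
    intro l hl hli
    by_contra hcon
    exact Nat.find_min hex hl ⟨hl.trans hmn, hli, hcon⟩
  -- the ordered case
  have key : ∀ δ δ' : ℕ → Fin N, (∀ l < m, τ l = i → δ l = δ' l) → (δ m).1 < (δ' m).1 →
      Real.exp (-(p.X i τ n)) ≤ p.L i τ δ' n - p.L i τ δ n := by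
    intro δ δ' hmin hlt
    have h1 : p.L i τ δ m = p.L i τ δ' m := p.L_congr i τ τ δ δ' m (fun _ _ => rfl) hmin
    have h2 : p.L i τ δ' (m + 1) ≤ p.L i τ δ' n := p.L_mono i τ δ' hmn
    have h3 := p.U_anti i τ δ hmn
    simp only at h3
    rw [Nat.succ_eq_add_one] at h3
    have hN := p.N0
    have h4 : p.L i τ δ (m + 1) + Real.exp (-(p.X i τ (m + 1))) ≤ p.L i τ δ' (m + 1) := by
      rw [L_succ, L_succ, exp_succ, h1, p.tr_own i τ δ m hmi, p.tr_own i τ δ' m hmi, hmi,
        p.expdiag]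
      have h5 : ((δ m).1 : ℝ) + 1 ≤ (δ' m).1 := by exact_mod_cast hlt
      have h6 : ((δ m).1 : ℝ) / (2 * N) + 1 / (2 * N) ≤ (δ' m).1 / (2 * N) := by
        rw [← add_div]
        gcongr
      have h7 := mul_le_mul_of_nonneg_left h6 (Real.exp_pos (-(p.X i τ m))).le
      rw [mul_add] at h7
      linarith
    linarith
  have hne' : (δ m).1 ≠ (δ' m).1 := fun e => hne (Fin.ext e)
  rcases lt_or_gt_of_ne hne' with hlt | hlt
  · have := key δ δ' hmin hlt
    rw [abs_sub_comm]
    exact this.trans (le_abs_self _)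
  · have := key δ' δ (fun l hl hli => (hmin l hl hli).symm) hlt
    exact this.trans (le_abs_self _)

end Par

/-- uniform distribution on the digits -/
noncomputable def unif (N : ℕ) : Measure (Fin N) := (N : ℝ≥0∞)⁻¹ • Measure.count

lemma unif_singleton (N : ℕ) (a : Fin N) : unif N {a} = (N : ℝ≥0∞)⁻¹ := by
  rw [unif, Measure.smul_apply, Measure.count_singleton, smul_eq_mul, mul_one]

lemma unif_prob (N : ℕ) (hN : 1 ≤ N) : IsProbabilityMeasure (unif N) := by
  constructor
  rw [unif, Measure.smul_apply, Measure.count_univ, smul_eq_mul]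
  simp only [ENat.card_eq_coe_fintype_card, Fintype.card_fin]
  apply ENNReal.inv_mul_cancel
  · simp; omega
  · simp

/-- the law of the sequence of digits -/
noncomputable def PP (N : ℕ) [IsProbabilityMeasure (unif N)] : Measure (ℕ → Fin N) :=
  Measure.infinitePi (fun _ : ℕ => unif N)

namespace Par

variable {d N : ℕ} (p : Par d N) [IsProbabilityMeasure (unif N)]

omit [IsProbabilityMeasure (unif N)] in
lemma card_W (τ : ℕ → Fin d) (n' : Fin d → ℕ) (K : ℕ) (hK : ∀ i, n' i ≤ K) :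
    ((Finset.range K).filter (fun m => m < n' (τ m))).card = ∑ i, W τ i (n' i) := by
  classical
  rw [Finset.card_eq_sum_card_fiberwise (f := τ) (t := Finset.univ) (fun _ _ => Finset.mem_coe.2 (Finset.mem_univ _))]
  refine Finset.sum_congr rfl fun i _ => ?_
  unfold W
  congr 1
  ext m
  simp only [Finset.mem_filter, Finset.mem_range]
  constructor
  · rintro ⟨⟨_, h2⟩, rfl⟩
    exact ⟨h2, rfl⟩
  · rintro ⟨h1, rfl⟩
    exact ⟨⟨h1.trans_le (hK _), h1⟩, rfl⟩

lemma cell_measure (τ : ℕ → Fin d) (n' : Fin d → ℕ) (z : Fin d → ℤ) (y : Fin d → ℝ) :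
    PP N {δ | ∀ i, ⌊(p.L i τ δ (n' i) - y i) / Real.exp (-(p.X i τ (n' i)))⌋ = z i} ≤
      ((N : ℝ≥0∞)⁻¹) ^ (∑ i, W τ i (n' i)) := by
  classical
  rcases Set.eq_empty_or_nonempty
    {δ : ℕ → Fin N | ∀ i, ⌊(p.L i τ δ (n' i) - y i) / Real.exp (-(p.X i τ (n' i)))⌋ = z i}
    with he | ⟨δ0, h0⟩
  · rw [he]
    simp
  obtain ⟨K, hK⟩ : ∃ K, ∀ i, n' i ≤ K := ⟨∑ i, n' i, fun i => Finset.single_le_sum (f := n')
    (fun _ _ => Nat.zero_le _) (Finset.mem_univ i)⟩
  set M := (Finset.range K).filter (fun m => m < n' (τ m)) with hM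
  have hsub : {δ : ℕ → Fin N | ∀ i, ⌊(p.L i τ δ (n' i) - y i) /
      Real.exp (-(p.X i τ (n' i)))⌋ = z i} ⊆ Set.pi (M : Set ℕ) (fun m => {δ0 m}) := by
    intro δ hδ m hm
    rw [Finset.mem_coe, hM, Finset.mem_filter] at hm
    rw [mem_singleton_iff]
    by_contra hne
    have h1 := p.L_sep (τ m) τ δ δ0 (n' (τ m)) ⟨m, hm.2, rfl, hne⟩
    have h2 := (hδ (τ m)).trans (h0 (τ m)).symm
    have h3 := Int.abs_sub_lt_one_of_floor_eq_floor h2
    have hpos := Real.exp_pos (-(p.X (τ m) τ (n' (τ m))))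
    rw [← sub_div, abs_div, abs_of_pos hpos, div_lt_one hpos] at h3
    have h4 : p.L (τ m) τ δ (n' (τ m)) - y (τ m) - (p.L (τ m) τ δ0 (n' (τ m)) - y (τ m)) =
      p.L (τ m) τ δ (n' (τ m)) - p.L (τ m) τ δ0 (n' (τ m)) := by ring
    rw [h4] at h3
    linarith
  refine (measure_mono hsub).trans ?_
  rw [PP, Measure.infinitePi_pi _ (fun i _ => MeasurableSet.singleton _)]
  simp only [unif_singleton, Finset.prod_const]
  rw [hM, card_W τ n' K hK]

/-- the point map -/
noncomputable def pm (τ : ℕ → Fin d) (δ : ℕ → Fin N) : Fin d → ℝ := fun i => p.pt i τ δ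

lemma mass (τ : ℕ → Fin d) (n' : Fin d → ℕ) (U : Set (Fin d → ℝ))
    (hU : ∀ x ∈ U, ∀ y ∈ U, ∀ i, |x i - y i| < Real.exp (-(p.X i τ (n' i)))) :
    PP N (p.pm τ ⁻¹' U) ≤ 3 ^ d * ((N : ℝ≥0∞)⁻¹) ^ (∑ i, W τ i (n' i)) := by
  classical
  rcases U.eq_empty_or_nonempty with rfl | ⟨y, hy⟩
  · simp
  set J : Finset (Fin d → ℤ) := Fintype.piFinset (fun _ => Finset.Icc (-2 : ℤ) 0) with hJ
  have hcard : J.card = 3 ^ d := by
    rw [hJ, Fintype.card_piFinset]
    simp
  have hsub : p.pm τ ⁻¹' U ⊆ ⋃ z ∈ J, {δ : ℕ → Fin N | ∀ i, ⌊(p.L i τ δ (n' i) - y i) /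
      Real.exp (-(p.X i τ (n' i)))⌋ = z i} := by
    intro δ hδ
    rw [mem_iUnion₂]
    refine ⟨fun i => ⌊(p.L i τ δ (n' i) - y i) / Real.exp (-(p.X i τ (n' i)))⌋, ?_, fun i => rfl⟩
    rw [hJ, Fintype.mem_piFinset]
    intro i
    have h1 := hU _ hδ _ hy i
    have hpos := Real.exp_pos (-(p.X i τ (n' i)))
    have h2 := p.L_le_pt i τ δ (n' i)
    have h3 := p.pt_le i τ δ (n' i)
    have e : p.pm τ δ i = p.pt i τ δ := rfl
    rw [e, abs_lt] at h1
    rw [Finset.mem_Icc]
    constructor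
    · rw [Int.le_floor, le_div_iff₀ hpos]
      push_cast
      linarith [h1.1]
    · rw [← Int.lt_add_one_iff, Int.floor_lt, div_lt_iff₀ hpos]
      push_cast
      linarith [h1.2]
  refine (measure_mono hsub).trans ((measure_biUnion_finset_le _ _).trans ?_)
  refine (Finset.sum_le_sum fun z _ => p.cell_measure τ n' z y).trans ?_
  rw [Finset.sum_const, hcard, nsmul_eq_mul]
  push_cast
  exact le_rfl

omit [IsProbabilityMeasure (unif N)] in
lemma measurable_tr (i : Fin d) (τ : ℕ → Fin d) (m : ℕ) :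
    Measurable (fun δ : ℕ → Fin N => p.tr i τ δ m) := by
  have : (fun δ : ℕ → Fin N => p.tr i τ δ m) =
    (fun a : Fin N => p.trans (p.sym (τ m) a i)) ∘ (fun δ => δ m) := rfl
  rw [this]
  exact (measurable_of_finite _).comp (measurable_pi_apply m)

omit [IsProbabilityMeasure (unif N)] in
lemma measurable_pm (τ : ℕ → Fin d) : Measurable (p.pm τ) := by
  rw [measurable_pi_iff]
  intro i
  refine measurable_of_tendsto_metrizable (f := fun n δ => p.L i τ δ n) ?_ ?_
  · intro n
    exact Finset.measurable_fun_sum _ fun m _ => (p.measurable_tr i τ m).const_mul _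
  · rw [tendsto_pi_nhds]
    intro δ
    exact p.tendsto_L i τ δ

end Par

end Pool.Agent.R826.SP
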