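import Mathlib

/-!
# Dimension formula for subsystems of a system of similarities with disjoint images
-/

namespace Pool.Agent.R826.CIFS

open Set Filter Topology MeasureTheory ENNReal

variable {E : Type}

/-- The composition `φ_{l₁} ∘ ⋯ ∘ φ_{lₙ}` along the word `l = l₁ … lₙ`. -/
def wordMap (φ : E → ℝ → ℝ) : List E → ℝ → ℝ
  | [] => id
  | e :: l => φ e ∘ wordMap φ l

/-- The limit set `J_F`: all points that lie, for some infinite word `ω` over `F`, in
`φ_{ω₀} ∘ ⋯ ∘ φ_{ω_{n-1}} (X)` for all `n`. -/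
def limSet (X : Set ℝ) (φ : E → ℝ → ℝ) (F : Set E) : Set ℝ :=
  {x | ∃ ω : ℕ → E, (∀ n, ω n ∈ F) ∧
    ∀ n : ℕ, x ∈ wordMap φ (List.ofFn fun i : Fin n => ω i) '' X}

/-- A family of similarities of `[0,1]` with pairwise disjoint images and ratios `≤ 1/4`. -/
structure Sim (φ : E → ℝ → ℝ) (r b : E → ℝ) : Prop where
  aff : ∀ e x, φ e x = r e * x + b e
  pos : ∀ e, 0 < r e
  le : ∀ e, r e ≤ 1 / 4
  maps : ∀ e, MapsTo (φ e) (Icc 0 1) (Icc 0 1)
  disj : ∀ e e', e ≠ e' → Disjoint (φ e '' Icc 0 1) (φ e' '' Icc 0 1)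

section
variable {φ : E → ℝ → ℝ} {r b : E → ℝ}

lemma wordMap_append (l l' : List E) (x : ℝ) :
    wordMap φ (l ++ l') x = wordMap φ l (wordMap φ l' x) := by
  induction l with
  | nil => rfl
  | cons e l ih =>
    show φ e (wordMap φ (l ++ l') x) = φ e (wordMap φ l (wordMap φ l' x))
    rw [ih]

lemma wordMap_ofFn_succ (ω : ℕ → E) (n : ℕ) (x : ℝ) :
    wordMap φ (List.ofFn fun i : Fin (n + 1) => ω i) x =
      wordMap φ (List.ofFn fun i : Fin n => ω i) (φ (ω n) x) := by
  rw [List.ofFn_succ', List.concat_eq_append, wordMap_append]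
  rfl

namespace Sim

variable (h : Sim φ r b)
include h

lemma wm_sub (l : List E) (x y : ℝ) :
    wordMap φ l x - wordMap φ l y = (l.map r).prod * (x - y) := by
  induction l with
  | nil => simp [wordMap]
  | cons e l ih =>
    show φ e (wordMap φ l x) - φ e (wordMap φ l y) = _
    rw [h.aff, h.aff, List.map_cons, List.prod_cons, mul_assoc, ← ih]
    ring

lemma wm_maps (l : List E) : MapsTo (wordMap φ l) (Icc 0 1) (Icc 0 1) := by
  induction l with
  | nil => exact fun x hx => hx
  | cons e l ih => exact fun x hx => h.maps e (ih hx)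

lemma cont (e : E) : Continuous (φ e) := by
  have : φ e = fun x => r e * x + b e := funext (h.aff e)
  rw [this]; fun_prop

lemma wm_cont (l : List E) : Continuous (wordMap φ l) := by
  induction l with
  | nil => exact continuous_id
  | cons e l ih => exact (h.cont e).comp ih

lemma prod_pos (l : List E) : 0 < (l.map r).prod := by
  induction l with
  | nil => simp
  | cons e l ih =>
    rw [List.map_cons, List.prod_cons]
    exact mul_pos (h.pos e) ih

lemma prod_le (l : List E) : (l.map r).prod ≤ (1 / 4) ^ l.length := by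
  induction l with
  | nil => simp
  | cons e l ih =>
    rw [List.map_cons, List.prod_cons, List.length_cons, pow_succ']
    exact mul_le_mul (h.le e) ih (h.prod_pos l).le (by norm_num)

/-- the diameter of a cylinder -/
lemma diam_le (l : List E) : Metric.ediam (wordMap φ l '' Icc 0 1) ≤
    ENNReal.ofReal (l.map r).prod := by
  apply Metric.ediam_le
  rintro _ ⟨x, hx, rfl⟩ _ ⟨y, hy, rfl⟩
  rw [edist_dist, Real.dist_eq, h.wm_sub, abs_mul, abs_of_pos (h.prod_pos l)]
  apply ENNReal.ofReal_le_ofReal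
  have : |x - y| ≤ 1 := by
    rw [abs_le]
    constructor <;> linarith [hx.1, hx.2, hy.1, hy.2]
  calc (l.map r).prod * |x - y| ≤ (l.map r).prod * 1 :=
        mul_le_mul_of_nonneg_left this (h.prod_pos l).le
    _ = _ := mul_one _

end Sim

/-- the weights -/
noncomputable def G (r : E → ℝ) (F : Set E) (t : ℝ) : E → ℝ≥0∞ :=
  F.indicator fun e => ENNReal.ofReal (r e ^ t)

/-- product formula for sums over words -/
lemma tsum_words (a : E → ℝ≥0∞) (n : ℕ) :
    ∑' w : Fin n → E, ∏ i, a (w i) = (∑' e, a e) ^ n := by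
  induction n with
  | zero =>
    rw [pow_zero]
    rw [tsum_eq_single (default : Fin 0 → E)]
    · simp
    · intro w hw
      exact absurd (Subsingleton.elim w default) hw
  | succ n ih =>
    have h1 : ∀ (e : E) (w : Fin n → E),
        ∏ i, a ((Fin.consEquiv (fun _ : Fin (n + 1) => E)) (e, w) i) = a e * ∏ i, a (w i) := by
      intro e w
      rw [Fin.prod_univ_succ]
      simp [Fin.consEquiv]
    rw [← (Fin.consEquiv (fun _ : Fin (n + 1) => E)).tsum_eq,
      ENNReal.tsum_prod (f := fun (e : E) (w : Fin n → E) =>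
        ∏ i, a ((Fin.consEquiv (fun _ : Fin (n + 1) => E)) (e, w) i)), pow_succ']
    simp_rw [h1, ENNReal.tsum_mul_left, ih, ENNReal.tsum_mul_right]

lemma prod_ofReal_rpow (h : Sim φ r b) (t : ℝ) (n : ℕ) (w : Fin n → E) :
    ENNReal.ofReal ((List.ofFn w).map r).prod ^ t = ∏ i, ENNReal.ofReal (r (w i) ^ t) := by
  rw [List.map_ofFn, List.prod_ofFn]
  simp only [Function.comp_apply]
  rw [ENNReal.ofReal_rpow_of_pos (Finset.prod_pos fun i _ => h.pos _)]
  rw [← Real.finsetProd_rpow _ _ (fun i _ => (h.pos _).le)]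
  rw [ENNReal.ofReal_prod_of_nonneg (fun i _ => Real.rpow_nonneg (h.pos _).le _)]

/-- Upper bound. -/
lemma upper [Countable E] (h : Sim φ r b) (F : Set E) {t : ℝ} (ht : 0 < t)
    (hP : ∑' e, G r F t e ≤ 1) : dimH (limSet (Icc 0 1) φ F) ≤ ENNReal.ofReal t := by
  classical
  have key : μH[t] (limSet (Icc 0 1) φ F) ≤ 1 := by
    refine (Measure.hausdorffMeasure_le_liminf_tsum (β := ℕ) (ι := fun n => Fin n → E) t
      (limSet (Icc 0 1) φ F) (l := atTop) (fun n => ENNReal.ofReal ((1 / 4) ^ n)) ?_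
      (fun n w => if (∀ i, w i ∈ F) then wordMap φ (List.ofFn w) '' Icc 0 1 else ∅) ?_ ?_).trans ?_
    · rw [← ENNReal.ofReal_zero]
      apply ENNReal.tendsto_ofReal
      exact tendsto_pow_atTop_nhds_zero_of_lt_one (by norm_num) (by norm_num)
    · refine Eventually.of_forall fun n w => ?_
      split_ifs
      · refine (h.diam_le _).trans (ENNReal.ofReal_le_ofReal ?_)
        have := h.prod_le (List.ofFn w)
        rwa [List.length_ofFn] at this
      · simp
    · refine Eventually.of_forall fun n x hx => ?_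
      obtain ⟨ω, hω, hx⟩ := hx
      refine mem_iUnion.mpr ⟨fun i : Fin n => ω i, ?_⟩
      rw [if_pos (fun i : Fin n => hω i)]
      exact hx n
    · refine liminf_le_of_le (by isBoundedDefault) ?_
      intro c hc
      obtain ⟨n, hn⟩ := hc.exists
      refine hn.trans ?_
      calc ∑' w : Fin n → E, Metric.ediam
            (if (∀ i, w i ∈ F) then wordMap φ (List.ofFn w) '' Icc 0 1 else ∅) ^ t
          ≤ ∑' w : Fin n → E, ∏ i, G r F t (w i) := by
            apply ENNReal.tsum_le_tsum
            intro w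
            split_ifs with hw
            · refine (ENNReal.rpow_le_rpow (h.diam_le _) ht.le).trans (le_of_eq ?_)
              rw [prod_ofReal_rpow h]
              apply Finset.prod_congr rfl
              intro i _
              rw [G, indicator_of_mem (hw i)]
            · simp [ht]
        _ = (∑' e, G r F t e) ^ n := tsum_words _ _
        _ ≤ 1 := pow_le_one' hP n
  have hfin : μH[((t.toNNReal : NNReal) : ℝ)] (limSet (Icc 0 1) φ F) ≠ ∞ := by
    rw [Real.coe_toNNReal t ht.le]
    exact ne_top_of_le_ne_top one_ne_top key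
  exact dimH_le_of_hausdorffMeasure_ne_top hfin

/-- digits -/
lemma cum (F : Finset E) (p : E → ℝ) (hp : ∀ e ∈ F, 0 < p e) :
    ∃ c : E → ℝ, ∀ y ∈ Ico (0 : ℝ) (∑ e ∈ F, p e), ∃ e ∈ F, ∃ y' ∈ Ico (0 : ℝ) 1,
      y = c e + p e * y' := by
  classical
  induction F using Finset.induction_on with
  | empty =>
    refine ⟨fun _ => 0, fun y hy => ?_⟩
    rw [Finset.sum_empty] at hy
    exact absurd hy.2 (not_lt.mpr hy.1)
  | insert a s ha ih =>
    obtain ⟨c, hc⟩ := ih (fun e he => hp e (Finset.mem_insert_of_mem he))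
    refine ⟨Function.update c a (∑ e ∈ s, p e), fun y hy => ?_⟩
    rw [Finset.sum_insert ha] at hy
    rcases lt_or_ge y (∑ e ∈ s, p e) with h | h
    · obtain ⟨e, he, y', hy', heq⟩ := hc y ⟨hy.1, h⟩
      refine ⟨e, Finset.mem_insert_of_mem he, y', hy', ?_⟩
      rw [Function.update_of_ne (fun hea : e = a => ha (hea ▸ he))]
      exact heq
    · have hpa := hp a (Finset.mem_insert_self a s)
      refine ⟨a, Finset.mem_insert_self a s, (y - ∑ e ∈ s, p e) / p a, ⟨?_, ?_⟩, ?_⟩
      · exact div_nonneg (by linarith) hpa.le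
      · rw [div_lt_one hpa]; linarith [hy.2]
      · rw [Function.update_self]
        field_simp
        ring

lemma exists_gap (h : Sim φ r b) (F : Finset E) :
    ∃ g > 0, ∀ e ∈ F, ∀ e' ∈ F, e ≠ e' → ∀ u ∈ Icc (0 : ℝ) 1, ∀ v ∈ Icc (0 : ℝ) 1,
      g ≤ |φ e u - φ e' v| := by
  classical
  have hpair : ∀ e e' : E, e ≠ e' → ∃ g > 0, ∀ u ∈ Icc (0 : ℝ) 1, ∀ v ∈ Icc (0 : ℝ) 1,
      g ≤ |φ e u - φ e' v| := by
    intro e e' hne
    have hK : ∀ e, IsCompact (φ e '' Icc 0 1) := fun e => isCompact_Icc.image (h.cont e)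
    obtain ⟨g, hg, hsep⟩ := Metric.exists_pos_forall_lt_edist (hK e) (hK e').isClosed
      (h.disj e e' hne)
    refine ⟨g, by exact_mod_cast hg, fun u hu v hv => ?_⟩
    have := hsep (φ e u) ⟨u, hu, rfl⟩ (φ e' v) ⟨v, hv, rfl⟩
    rw [edist_dist, Real.dist_eq, ← ENNReal.ofReal_coe_nnreal] at this
    exact ((ENNReal.ofReal_lt_ofReal_iff_of_nonneg g.coe_nonneg).mp this).le
  choose! γ hγ0 hγ using hpair
  have hmin : ∀ S : Finset (E × E), ∃ g > 0, ∀ x ∈ S, x.1 ≠ x.2 → g ≤ γ x.1 x.2 := by
    intro S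
    induction S using Finset.induction_on with
    | empty => exact ⟨1, one_pos, by simp⟩
    | insert a s _ ih =>
      obtain ⟨g, hg, hs⟩ := ih
      by_cases ha : a.1 = a.2
      · refine ⟨g, hg, fun x hx hne => ?_⟩
        rcases Finset.mem_insert.mp hx with rfl | hx
        · exact absurd ha hne
        · exact hs x hx hne
      · refine ⟨min g (γ a.1 a.2), lt_min hg (hγ0 _ _ ha), fun x hx hne => ?_⟩
        rcases Finset.mem_insert.mp hx with rfl | hx
        · exact min_le_right _ _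
        · exact (min_le_left _ _).trans (hs x hx hne)
  obtain ⟨g, hg, hs⟩ := hmin (F ×ˢ F)
  refine ⟨g, hg, fun e he e' he' hne u hu v hv => ?_⟩
  exact (hs (e, e') (Finset.mem_product.mpr ⟨he, he'⟩) hne).trans (hγ e e' hne u hu v hv)

lemma dimH_Ico01 : dimH (Ico (0 : ℝ) 1) = 1 := by
  rw [Real.dimH_of_nonempty_interior]
  · simp
  · rw [interior_Ico]
    exact ⟨1 / 2, by norm_num⟩

/-- Lower bound. -/
lemma lower (h : Sim φ r b) (F' : Finset E) {t : ℝ} (ht : 0 < t)
    (hP : 1 ≤ ∑ e ∈ F', r e ^ t) (F : Set E) (hF : (F' : Set E) ⊆ F) :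
    ENNReal.ofReal t ≤ dimH (limSet (Icc 0 1) φ F) := by
  classical
  set P := ∑ e ∈ F', r e ^ t with hPdef
  have hP0 : 0 < P := by linarith
  set p : E → ℝ := fun e => r e ^ t / P with hp
  have hp0 : ∀ e, 0 < p e := fun e => div_pos (Real.rpow_pos_of_pos (h.pos e) t) hP0
  have hple : ∀ e, p e ≤ r e ^ t := fun e => div_le_self (Real.rpow_nonneg (h.pos e).le t) hP
  have hpsum : ∑ e ∈ F', p e = 1 := by
    rw [hp]
    rw [← Finset.sum_div, ← hPdef, div_self hP0.ne']
  obtain ⟨c, hc⟩ := cum F' p (fun e _ => hp0 e)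
  rw [hpsum] at hc
  have hne : F'.Nonempty := by
    rcases F'.eq_empty_or_nonempty with h0 | h0
    · rw [h0, Finset.sum_empty] at hpsum
      exact absurd hpsum (by norm_num)
    · exact h0
  obtain ⟨e₀, he₀⟩ := hne
  have : Nonempty E := ⟨e₀⟩
  choose! dig hdig T hT hTeq using hc
  have hTn : ∀ (n : ℕ) (y : ℝ), y ∈ Ico (0 : ℝ) 1 → T^[n] y ∈ Ico (0 : ℝ) 1 := by
    intro n
    induction n with
    | zero => exact fun y hy => hy
    | succ n ih =>
      intro y hy
      rw [Function.iterate_succ_apply']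
      exact hT _ (ih y hy)
  set om : ℝ → ℕ → E := fun y n => dig (T^[n] y) with hom
  have hpt : ∀ y : ℝ, ∃ x : ℝ, ∀ n : ℕ,
      x ∈ wordMap φ (List.ofFn fun i : Fin n => om y i) '' Icc 0 1 := by
    intro y
    have hne := IsCompact.nonempty_iInter_of_sequence_nonempty_isCompact_isClosed
      (fun n : ℕ => wordMap φ (List.ofFn fun i : Fin n => om y i) '' Icc 0 1)
      (fun n => by
        rintro _ ⟨x, hx, rfl⟩
        refine ⟨φ (om y n) x, h.maps _ hx, ?_⟩
        rw [wordMap_ofFn_succ])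
      (fun n => ⟨_, ⟨0, by norm_num, rfl⟩⟩)
      (isCompact_Icc.image (h.wm_cont _))
      (fun n => (isCompact_Icc.image (h.wm_cont _)).isClosed)
    obtain ⟨x, hx⟩ := hne
    exact ⟨x, fun n => mem_iInter.mp hx n⟩
  choose pt hpt using hpt
  obtain ⟨g, hg, hgap⟩ := exists_gap h F'
  -- products along the digits
  have hprodr : ∀ (y : ℝ) (n : ℕ), ((List.ofFn fun i : Fin n => om y i).map r).prod =
      ∏ i ∈ Finset.range n, r (om y i) := by
    intro y n
    rw [List.map_ofFn, List.prod_ofFn, Finset.prod_range]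
    rfl
  have hagree : ∀ (n : ℕ) (y y' : ℝ), y ∈ Ico (0 : ℝ) 1 → y' ∈ Ico (0 : ℝ) 1 →
      (∀ i < n, om y i = om y' i) →
      y - y' = (∏ i ∈ Finset.range n, p (om y i)) * (T^[n] y - T^[n] y') := by
    intro n
    induction n with
    | zero => intro y y' _ _ _; simp
    | succ n ih =>
      intro y y' hy hy' hag
      rw [ih y y' hy hy' (fun i hi => hag i (by omega)), Finset.prod_range_succ, mul_assoc]
      congr 1
      have e1 := hTeq (T^[n] y) (hTn n y hy)
      have e2 := hTeq (T^[n] y') (hTn n y' hy')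
      have e3 : dig (T^[n] y) = dig (T^[n] y') := hag n (by omega)
      rw [Function.iterate_succ_apply', Function.iterate_succ_apply']
      rw [← e3] at e2
      have e4 : T^[n] y - T^[n] y' = p (dig (T^[n] y)) * (T (T^[n] y) - T (T^[n] y')) := by
        rw [mul_sub]; linarith
      exact e4
  have hprodle : ∀ (y : ℝ) (n : ℕ), ∏ i ∈ Finset.range n, p (om y i) ≤
      (∏ i ∈ Finset.range n, r (om y i)) ^ t := by
    intro y n
    rw [← Real.finsetProd_rpow _ _ (fun i _ => (h.pos _).le)]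
    exact Finset.prod_le_prod (fun i _ => (hp0 _).le) (fun i _ => hple _)
  have hprodpos : ∀ (y : ℝ) (n : ℕ), 0 < ∏ i ∈ Finset.range n, r (om y i) := fun y n =>
    Finset.prod_pos fun i _ => h.pos _
  have hprodppos : ∀ (y : ℝ) (n : ℕ), 0 < ∏ i ∈ Finset.range n, p (om y i) := fun y n =>
    Finset.prod_pos fun i _ => hp0 _
  have hle1 : ∀ (n : ℕ) (y y' : ℝ), y ∈ Ico (0 : ℝ) 1 → y' ∈ Ico (0 : ℝ) 1 →
      (∀ i < n, om y i = om y' i) → |y - y'| ≤ (∏ i ∈ Finset.range n, r (om y i)) ^ t := by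
    intro n y y' hy hy' hag
    rw [hagree n y y' hy hy' hag, abs_mul, abs_of_pos (hprodppos y n)]
    have h1 := hTn n y hy
    have h2 := hTn n y' hy'
    have h3 : |T^[n] y - T^[n] y'| ≤ 1 := by
      rw [abs_le]; constructor <;> linarith [h1.1, h1.2, h2.1, h2.2]
    calc _ ≤ (∏ i ∈ Finset.range n, p (om y i)) * 1 :=
          mul_le_mul_of_nonneg_left h3 (hprodppos y n).le
      _ = ∏ i ∈ Finset.range n, p (om y i) := mul_one _
      _ ≤ _ := hprodle y n
  -- main estimate
  have hmain : ∀ y ∈ Ico (0 : ℝ) 1, ∀ y' ∈ Ico (0 : ℝ) 1, |y - y'| ≤ (|pt y - pt y'| / g) ^ t := by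
    intro y hy y' hy'
    by_cases hall : ∀ n, om y n = om y' n
    · -- all digits agree
      have h1 : Tendsto (fun n : ℕ => ((1 / 4 : ℝ) ^ n) ^ t) atTop (𝓝 0) := by
        have h2 : Tendsto (fun n : ℕ => (1 / 4 : ℝ) ^ n) atTop (𝓝 0) :=
          tendsto_pow_atTop_nhds_zero_of_lt_one (by norm_num) (by norm_num)
        have h3 := h2.rpow_const (p := t) (Or.inr ht.le)
        rwa [Real.zero_rpow ht.ne'] at h3
      have h4 : |y - y'| ≤ 0 := by
        refine ge_of_tendsto' h1 fun n => ?_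
        refine (hle1 n y y' hy hy' (fun i _ => hall i)).trans ?_
        apply Real.rpow_le_rpow (hprodpos y n).le _ ht.le
        rw [← hprodr]
        have := h.prod_le (List.ofFn fun i : Fin n => om y i)
        rwa [List.length_ofFn] at this
      exact h4.trans (Real.rpow_nonneg (div_nonneg (abs_nonneg _) hg.le) t)
    · push Not at hall
      have hfind := Nat.find_spec hall
      have hmin : ∀ i < Nat.find hall, om y i = om y' i := fun i hi => by
        by_contra hcon
        exact Nat.find_min hall hi hcon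
      set n := Nat.find hall with hn
      refine (hle1 n y y' hy hy' hmin).trans ?_
      apply Real.rpow_le_rpow (hprodpos y n).le _ ht.le
      rw [le_div_iff₀ hg]
      obtain ⟨u, hu, hux⟩ := hpt y (n + 1)
      obtain ⟨v, hv, hvx⟩ := hpt y' (n + 1)
      rw [wordMap_ofFn_succ] at hux hvx
      have hsame : (List.ofFn fun i : Fin n => om y' i) = List.ofFn fun i : Fin n => om y i := by
        congr 1
        funext i
        exact (hmin i i.2).symm
      rw [hsame] at hvx
      rw [← hux, ← hvx, h.wm_sub, abs_mul, abs_of_pos (h.prod_pos _), hprodr]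
      apply mul_le_mul_of_nonneg_left _ (hprodpos y n).le
      exact hgap _ (hdig _ (hTn n y hy)) _ (hdig _ (hTn n y' hy')) hfind u hu v hv
  -- the Hölder inverse
  have hinj : InjOn pt (Ico (0 : ℝ) 1) := by
    intro y hy y' hy' heq
    have := hmain y hy y' hy'
    rw [heq, sub_self, abs_zero, zero_div, Real.zero_rpow ht.ne'] at this
    have h0 : |y - y'| = 0 := le_antisymm this (abs_nonneg _)
    exact sub_eq_zero.mp (abs_eq_zero.mp h0)
  set f := Function.invFunOn pt (Ico (0 : ℝ) 1) with hf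
  have hfpt : ∀ y ∈ Ico (0 : ℝ) 1, f (pt y) = y := fun y hy => hinj.leftInvOn_invFunOn hy
  have hhold : HolderOnWith ((1 / g) ^ t).toNNReal t.toNNReal f (pt '' Ico (0 : ℝ) 1) := by
    rintro _ ⟨y, hy, rfl⟩ _ ⟨y', hy', rfl⟩
    rw [hfpt y hy, hfpt y' hy', edist_dist, edist_dist, Real.dist_eq, Real.dist_eq,
      Real.coe_toNNReal t ht.le]
    rw [ENNReal.ofReal_rpow_of_nonneg (abs_nonneg _) ht.le]
    rw [← ENNReal.ofReal]
    rw [← ENNReal.ofReal_mul (by positivity)]
    apply ENNReal.ofReal_le_ofReal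
    refine (hmain y hy y' hy').trans (le_of_eq ?_)
    rw [← Real.mul_rpow (by positivity) (abs_nonneg _)]
    congr 1
    ring
  have himg : f '' (pt '' Ico (0 : ℝ) 1) = Ico (0 : ℝ) 1 := by
    ext z
    constructor
    · rintro ⟨_, ⟨y, hy, rfl⟩, rfl⟩
      rw [hfpt y hy]; exact hy
    · intro hz
      exact ⟨pt z, ⟨z, hz, rfl⟩, hfpt z hz⟩
  have ht' : 0 < t.toNNReal := Real.toNNReal_pos.mpr ht
  have hdim := hhold.dimH_image_le ht'
  rw [himg, dimH_Ico01] at hdim
  have hsub : pt '' Ico (0 : ℝ) 1 ⊆ limSet (Icc 0 1) φ F := by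
    rintro _ ⟨y, hy, rfl⟩
    exact ⟨om y, fun n => hF (hdig _ (hTn n y hy)), hpt y⟩
  refine le_trans ?_ (dimH_mono hsub)
  rw [ENNReal.le_div_iff_mul_le (Or.inl (by simpa using ht)) (Or.inl (by simp)), one_mul] at hdim
  exact hdim

/-- If the pressure series is `1` at `s`, the dimension is `s`. -/
lemma dim_eq [Countable E] (h : Sim φ r b) (F : Set E) {s : ℝ} (hs : 0 < s)
    (hP : ∑' e, G r F s e = 1) : dimH (limSet (Icc 0 1) φ F) = ENNReal.ofReal s := by
  classical
  apply le_antisymm (upper h F hs hP.le)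
  -- approximate from below
  have hall : ∀ t : ℝ, 0 < t → t < s → ENNReal.ofReal t ≤ dimH (limSet (Icc 0 1) φ F) := by
    intro t ht hts
    -- comparison of the two series
    set q : ℝ := (1 / 4 : ℝ) ^ (t - s) with hq
    have hq1 : 1 < q := by
      rw [hq]
      exact Real.one_lt_rpow_of_pos_of_lt_one_of_neg (by norm_num) (by norm_num) (by linarith)
    have hcomp : ∀ e, ENNReal.ofReal q * G r F s e ≤ G r F t e := by
      intro e
      by_cases he : e ∈ F
      · rw [G, G, indicator_of_mem he, indicator_of_mem he, ← ENNReal.ofReal_mul (by linarith)]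
        apply ENNReal.ofReal_le_ofReal
        have h1 : q ≤ r e ^ (t - s) := by
          rw [hq]
          exact Real.rpow_le_rpow_of_nonpos (h.pos e) (h.le e) (by linarith)
        calc q * r e ^ s ≤ r e ^ (t - s) * r e ^ s :=
              mul_le_mul_of_nonneg_right h1 (Real.rpow_nonneg (h.pos e).le s)
          _ = r e ^ t := by
              rw [← Real.rpow_add (h.pos e)]; congr 1; ring
      · rw [G, G, indicator_of_notMem he, indicator_of_notMem he, mul_zero]
    have hbig : 1 < ∑' e, G r F t e := by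
      calc (1 : ℝ≥0∞) < ENNReal.ofReal q := by
            rw [← ENNReal.ofReal_one]
            exact (ENNReal.ofReal_lt_ofReal_iff (by linarith)).mpr hq1
        _ = ENNReal.ofReal q * ∑' e, G r F s e := by rw [hP, mul_one]
        _ = ∑' e, ENNReal.ofReal q * G r F s e := ENNReal.tsum_mul_left.symm
        _ ≤ _ := ENNReal.tsum_le_tsum hcomp
    rw [ENNReal.tsum_eq_iSup_sum, lt_iSup_iff] at hbig
    obtain ⟨S, hS⟩ := hbig
    have hS2 : ∑ e ∈ S, G r F t e = ENNReal.ofReal (∑ e ∈ S.filter (fun e => e ∈ F), r e ^ t) := by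
      rw [ENNReal.ofReal_sum_of_nonneg (fun e _ => Real.rpow_nonneg (h.pos e).le t),
        Finset.sum_filter]
      apply Finset.sum_congr rfl
      intro e _
      by_cases he : e ∈ F
      · rw [G, indicator_of_mem he, if_pos he]
      · rw [G, indicator_of_notMem he, if_neg he]
    rw [hS2, ← ENNReal.ofReal_one, ENNReal.ofReal_lt_ofReal_iff_of_nonneg zero_le_one] at hS
    apply lower h (S.filter (fun e => e ∈ F)) ht hS.le F
    intro e he
    exact (Finset.mem_filter.mp (Finset.mem_coe.mp he)).2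
  refine le_of_forall_lt fun c hc => ?_
  -- `c < ofReal s`
  have hc' : c ≠ ∞ := ne_top_of_lt hc
  lift c to NNReal using hc'
  have hcs : (c : ℝ) < s := by
    rw [← ENNReal.ofReal_coe_nnreal] at hc
    exact (ENNReal.ofReal_lt_ofReal_iff hs).mp hc
  have hm : (c : ℝ) < (c + s) / 2 := by linarith
  have hm2 : (c + s) / 2 < s := by linarith
  have hm0 : 0 < ((c : ℝ) + s) / 2 := by have := c.coe_nonneg; linarith
  refine lt_of_lt_of_le ?_ (hall _ hm0 hm2)
  rw [← ENNReal.ofReal_coe_nnreal]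
  exact (ENNReal.ofReal_lt_ofReal_iff hm0).mpr hm

end

end Pool.Agent.R826.CIFS
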