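import Pool.Agent.R826.CIFSAbs

/-!
# Conformal iterated function systems on the line: definitions
-/

namespace Pool.Agent.R826.CIFS

open Set Filter Topology MeasureTheory ENNReal

/-- A conformal iterated function system in dimension `d = 1`: `X ⊂ ℝ` compact, connected and the
closure of its interior, a countably infinite alphabet `E`, injective uniformly contracting maps
`φ e : X → X` with the open set condition, the cone condition, extensions to `C^{1+ε}`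
diffeomorphisms (into) of an open connected `V ⊇ X`, and bounded distortion. -/
structure IsCIFS {E : Type} (X : Set ℝ) (φ : E → ℝ → ℝ) : Prop where
  compact : IsCompact X
  connected : IsConnected X
  regular : X = closure (interior X)
  countable : Countable E
  infinite : Infinite E
  maps : ∀ e, MapsTo (φ e) X X
  inj : ∀ e, InjOn (φ e) X
  contr : ∃ s : ℝ, 0 ≤ s ∧ s < 1 ∧ ∀ e, ∀ x ∈ X, ∀ y ∈ X, |φ e x - φ e y| ≤ s * |x - y|
  openSet : ∀ e e', e ≠ e' → Disjoint (φ e '' interior X) (φ e' '' interior X)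
  cone : ∃ l : ℝ, 0 < l ∧ ∀ x ∈ frontier X, Ioo x (x + l) ⊆ interior X ∨
    Ioo (x - l) x ⊆ interior X
  conformal : ∃ V : Set ℝ, IsOpen V ∧ IsConnected V ∧ X ⊆ V ∧
    (∀ e, MapsTo (φ e) V V ∧ InjOn (φ e) V ∧
      (∀ x ∈ V, DifferentiableAt ℝ (φ e) x ∧ deriv (φ e) x ≠ 0) ∧
      ∃ ε : ℝ, 0 < ε ∧ ∃ C : ℝ, ∀ x ∈ V, ∀ y ∈ V,
        |deriv (φ e) x - deriv (φ e) y| ≤ C * |x - y| ^ ε) ∧
    ∃ K : ℝ, 1 ≤ K ∧ ∀ l : List E, ∀ x ∈ V, ∀ y ∈ V,
      |deriv (wordMap φ l) y| ≤ K * |deriv (wordMap φ l) x|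

/-- The dimension spectrum `{HD(J_F) : F ⊆ E}`. -/
def DSall {E : Type} (X : Set ℝ) (φ : E → ℝ → ℝ) : Set ℝ :=
  {t | 0 ≤ t ∧ ∃ F : Set E, dimH (limSet X φ F) = ENNReal.ofReal t}

/-- The dimension spectrum `{HD(J_F) : ∅ ≠ F ⊆ E}`. -/
def DS {E : Type} (X : Set ℝ) (φ : E → ℝ → ℝ) : Set ℝ :=
  {t | 0 ≤ t ∧ ∃ F : Set E, F.Nonempty ∧ dimH (limSet X φ F) = ENNReal.ofReal t}

/-- The local Hausdorff dimension of `F` at `x`. -/
noncomputable def locDim (F : Set ℝ) (x : ℝ) : ℝ≥0∞ :=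
  ⨅ (ε : ℝ) (_ : 0 < ε), dimH (F ∩ Metric.ball x ε)

end Pool.Agent.R826.CIFS
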