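import Pool.Agent.R826.CIFSDefs

/-!
# A system of similarities whose dimension spectrum is `[0,1/2]` together with a set of
dimension zero accumulating at `1/2`
-/

namespace Pool.Agent.R826.CIFS

open Set Filter Topology MeasureTheory ENNReal

/-- exponents: cumulative -/
def A : ℕ → ℕ
  | 0 => 0
  | j + 1 => A j + (j + 1) * (A j + 3) + 2

/-- exponents -/
def a (j : ℕ) : ℕ := (j + 1) * (A j + 3)

/-- number of maps on the level `k` -/
def m (k : ℕ) : ℕ := 2 ^ (a k + 1)

/-- ratio on the level `k` -/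
noncomputable def ρ (k : ℕ) : ℝ := (1 / 4) ^ (a k)

/-- alphabet -/
abbrev E : Type := Σ k : ℕ, Fin (m k)

/-- ratios -/
noncomputable def rr (e : E) : ℝ := ρ e.1

/-- translations -/
noncomputable def bb (e : E) : ℝ := 1 - (1 / 2) ^ e.1 + 2 * (e.2 : ℕ) * ρ e.1

/-- the maps -/
noncomputable def ph (e : E) (x : ℝ) : ℝ := rr e * x + bb e

lemma A_succ (j : ℕ) : A (j + 1) = A j + a j + 2 := rfl

lemma a_ge (k : ℕ) : k + 3 ≤ a k := by
  unfold a
  nlinarith [Nat.zero_le (A k)]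

lemma A_le (j : ℕ) : (j + 1) * A j ≤ a j := by
  unfold a
  exact Nat.mul_le_mul_left _ (by omega)

lemma a_succ (j : ℕ) : a j + 1 ≤ a (j + 1) := by
  have h := A_succ j
  have : a (j + 1) = (j + 2) * (A (j + 1) + 3) := rfl
  rw [this, h]
  nlinarith [Nat.zero_le (A j)]

lemma a_add (j k : ℕ) : a j + k ≤ a (j + k) := by
  induction k with
  | zero => exact le_rfl
  | succ k ih =>
    have := a_succ (j + k)
    have e : j + (k + 1) = j + k + 1 := by ring
    rw [e]
    omega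

lemma ρ_pos (k : ℕ) : 0 < ρ k := by unfold ρ; positivity

lemma ρ_le (k : ℕ) : ρ k ≤ 1 / 4 := by
  unfold ρ
  have h := a_ge k
  calc (1 / 4 : ℝ) ^ (a k) ≤ (1 / 4) ^ 1 :=
        pow_le_pow_of_le_one (by norm_num) (by norm_num) (by omega)
    _ = 1 / 4 := pow_one _

lemma m_mul_ρ (k : ℕ) : 2 * (m k : ℝ) * ρ k ≤ (1 / 2) ^ (k + 1) := by
  unfold m ρ
  push_cast
  have h1 : (1 / 4 : ℝ) ^ (a k) = (1 / 2) ^ (a k) * (1 / 2) ^ (a k) := by
    rw [← mul_pow]; norm_num
  have h2 : (2 : ℝ) ^ (a k + 1) * (1 / 2) ^ (a k) = 2 := by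
    rw [pow_succ, mul_assoc, mul_comm 2, ← mul_assoc, ← mul_pow]; norm_num
  have h3 : 2 * (2 : ℝ) ^ (a k + 1) * (1 / 4) ^ (a k) = 4 * (1 / 2) ^ (a k) := by
    rw [h1]
    calc 2 * (2 : ℝ) ^ (a k + 1) * ((1 / 2) ^ (a k) * (1 / 2) ^ (a k))
        = 2 * ((2 : ℝ) ^ (a k + 1) * (1 / 2) ^ (a k)) * (1 / 2) ^ (a k) := by ring
      _ = _ := by rw [h2]; ring
  rw [h3]
  have h4 : (1 / 2 : ℝ) ^ (a k) ≤ (1 / 2) ^ (k + 3) :=
    pow_le_pow_of_le_one (by norm_num) (by norm_num) (a_ge k)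
  have h5 : 4 * (1 / 2 : ℝ) ^ (k + 3) = (1 / 2) ^ (k + 1) := by
    rw [pow_add, pow_add]; norm_num
    ring
  linarith

lemma level_bounds (e : E) (x : ℝ) (hx : x ∈ Icc (0 : ℝ) 1) :
    1 - (1 / 2) ^ e.1 ≤ ph e x ∧ ph e x < 1 - (1 / 2) ^ (e.1 + 1) := by
  have hρ := ρ_pos e.1
  have hi : ((e.2 : ℕ) : ℝ) + 1 ≤ m e.1 := by exact_mod_cast e.2.2
  have hi0 : (0 : ℝ) ≤ ((e.2 : ℕ) : ℝ) := Nat.cast_nonneg _
  have hm := m_mul_ρ e.1
  have h1 : (1 / 2 : ℝ) ^ (e.1 + 1) = (1 / 2) ^ e.1 * (1 / 2) := pow_succ _ _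
  unfold ph rr bb
  constructor
  · have h2 : 0 ≤ ρ e.1 * x := mul_nonneg hρ.le hx.1
    have h3 : 0 ≤ 2 * ((e.2 : ℕ) : ℝ) * ρ e.1 := by positivity
    linarith
  · have h2 : ρ e.1 * x ≤ ρ e.1 := by nlinarith [hx.2]
    have h3 : 2 * (((e.2 : ℕ) : ℝ) + 1) * ρ e.1 ≤ 2 * (m e.1 : ℝ) * ρ e.1 := by
      apply mul_le_mul_of_nonneg_right _ hρ.le
      linarith
    nlinarith

lemma sim : Sim ph rr bb where
  aff := fun _ _ => rfl
  pos := fun e => ρ_pos e.1
  le := fun e => ρ_le e.1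
  maps := by
    intro e x hx
    have h := level_bounds e x hx
    have h1 : (1 / 2 : ℝ) ^ e.1 ≤ 1 := pow_le_one₀ (by norm_num) (by norm_num)
    have h2 : (0 : ℝ) ≤ (1 / 2) ^ (e.1 + 1) := by positivity
    exact ⟨by linarith [h.1], by linarith [h.2]⟩
  disj := by
    intro e e' hne
    rw [Set.disjoint_left]
    rintro _ ⟨x, hx, rfl⟩ ⟨y, hy, heq⟩
    have h1 := level_bounds e x hx
    have h2 := level_bounds e' y hy
    rw [heq] at h2
    have hlt : ∀ k l : ℕ, k < l → (1 / 2 : ℝ) ^ l ≤ (1 / 2) ^ (k + 1) := fun k l hkl =>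
      pow_le_pow_of_le_one (by norm_num) (by norm_num) hkl
    rcases lt_trichotomy e.1 e'.1 with h | h | h
    · have := hlt _ _ h
      linarith [h1.2, h2.1]
    · obtain ⟨k, i⟩ := e
      obtain ⟨k', i'⟩ := e'
      simp only at h
      subst h
      have hii : (i : ℕ) ≠ (i' : ℕ) := by
        intro hcon
        apply hne
        rw [Fin.ext hcon]
      have hρ := ρ_pos k
      unfold ph rr bb at heq
      simp only at heq
      have h3 : ρ k * (y - x) = 2 * (((i : ℕ) : ℝ) - ((i' : ℕ) : ℝ)) * ρ k := by linarith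
      have h4 : y - x = 2 * (((i : ℕ) : ℝ) - ((i' : ℕ) : ℝ)) := by
        have : ρ k * (y - x) = ρ k * (2 * (((i : ℕ) : ℝ) - ((i' : ℕ) : ℝ))) := by linarith
        exact mul_left_cancel₀ hρ.ne' this
      rcases lt_or_gt_of_ne hii with h5 | h5
      · have : ((i : ℕ) : ℝ) + 1 ≤ ((i' : ℕ) : ℝ) := by exact_mod_cast h5
        linarith [hx.1, hx.2, hy.1, hy.2]
      · have : ((i' : ℕ) : ℝ) + 1 ≤ ((i : ℕ) : ℝ) := by exact_mod_cast h5
        linarith [hx.1, hx.2, hy.1, hy.2]
    · have := hlt _ _ h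
      linarith [h2.2, h1.1]

lemma m_pos (k : ℕ) : 0 < m k := by unfold m; positivity

instance : Infinite E :=
  Infinite.of_injective (fun k : ℕ => (⟨k, ⟨0, m_pos k⟩⟩ : E)) (by
    intro k l h
    exact congrArg Sigma.fst h)

lemma deriv_wordMap {F : Type} {φ : F → ℝ → ℝ} {r b : F → ℝ} (h : Sim φ r b) (l : List F) (x : ℝ) :
    HasDerivAt (wordMap φ l) (l.map r).prod x := by
  have h1 : wordMap φ l = fun y => (l.map r).prod * y + wordMap φ l 0 := by
    funext y
    have := h.wm_sub l y 0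
    rw [sub_zero] at this
    linarith
  rw [h1]
  simpa using ((hasDerivAt_id x).const_mul (l.map r).prod).add_const (wordMap φ l 0)

lemma isCIFS : IsCIFS (Icc (0 : ℝ) 1) ph where
  compact := isCompact_Icc
  connected := isConnected_Icc zero_le_one
  regular := by rw [interior_Icc, closure_Ioo (by norm_num)]
  countable := inferInstance
  infinite := inferInstance
  maps := sim.maps
  inj := by
    intro e x _ y _ hxy
    have h := sim.wm_sub [e] x y
    have h2 : wordMap ph [e] x = wordMap ph [e] y := hxy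
    rw [h2, sub_self] at h
    have h3 := (mul_eq_zero.mp h.symm).resolve_left (sim.prod_pos [e]).ne'
    linarith
  contr := by
    refine ⟨1 / 4, by norm_num, by norm_num, fun e x _ y _ => ?_⟩
    have h := sim.wm_sub [e] x y
    have h2 : ph e x - ph e y = rr e * (x - y) := by simpa [wordMap] using h
    rw [h2, abs_mul, abs_of_pos (sim.pos e)]
    exact mul_le_mul_of_nonneg_right (sim.le e) (abs_nonneg _)
  openSet := by
    intro e e' hne
    exact (sim.disj e e' hne).mono (image_mono interior_subset) (image_mono interior_subset)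
  cone := by
    refine ⟨1, one_pos, fun x hx => ?_⟩
    rw [frontier_Icc (by norm_num)] at hx
    rw [interior_Icc]
    rcases hx with rfl | rfl
    · left; norm_num
    · right; norm_num
  conformal := by
    have hd : ∀ e x, HasDerivAt (ph e) (rr e) x := by
      intro e x
      have := deriv_wordMap sim [e] x
      simpa [wordMap] using this
    refine ⟨Ioo (-1) 2, isOpen_Ioo, isConnected_Ioo (by norm_num), ?_, fun e => ⟨?_, ?_, ?_, ?_⟩, ?_⟩
    · exact fun x hx => ⟨by linarith [hx.1], by linarith [hx.2]⟩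
    · intro x hx
      have h0 := sim.maps e (show (0 : ℝ) ∈ Icc (0 : ℝ) 1 by norm_num)
      have h1 := sim.maps e (show (1 : ℝ) ∈ Icc (0 : ℝ) 1 by norm_num)
      have hr := sim.pos e
      have hr2 := sim.le e
      rw [sim.aff] at h0 h1
      have h00 := h0.1
      have h11 := h1.2
      rw [sim.aff]
      constructor
      · nlinarith [hx.1]
      · nlinarith [hx.2]
    · intro x _ y _ hxy
      rw [sim.aff, sim.aff] at hxy
      have : rr e * x = rr e * y := by linarith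
      exact mul_left_cancel₀ (sim.pos e).ne' this
    · intro x _
      exact ⟨(hd e x).differentiableAt, by rw [(hd e x).deriv]; exact (sim.pos e).ne'⟩
    · refine ⟨1, one_pos, 0, fun x _ y _ => ?_⟩
      rw [(hd e x).deriv, (hd e y).deriv]
      simp
    · refine ⟨1, le_rfl, fun l x _ y _ => ?_⟩
      rw [(deriv_wordMap sim l x).deriv, (deriv_wordMap sim l y).deriv, one_mul]

/-! ### Counting on the levels -/

/-- number of maps of `F` of level `k` -/
noncomputable def cnt (F : Set E) (k : ℕ) : ℕ :=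
  by classical exact (Finset.univ.filter fun i : Fin (m k) => (⟨k, i⟩ : E) ∈ F).card

lemma cnt_le (F : Set E) (k : ℕ) : cnt F k ≤ m k := by
  classical
  unfold cnt
  refine (Finset.card_le_univ _).trans ?_
  simp

lemma tsum_level (F : Set E) (t : ℝ) :
    ∑' e, G rr F t e = ∑' k : ℕ, (cnt F k : ℝ≥0∞) * ENNReal.ofReal (ρ k ^ t) := by
  classical
  rw [ENNReal.tsum_sigma']
  congr 1
  funext k
  rw [tsum_fintype]
  have h1 : ∀ i : Fin (m k), G rr F t (⟨k, i⟩ : E) =
      if (⟨k, i⟩ : E) ∈ F then ENNReal.ofReal (ρ k ^ t) else 0 := by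
    intro i
    unfold G
    rw [indicator_apply]
    rfl
  simp_rw [h1]
  rw [← Finset.sum_filter, Finset.sum_const, nsmul_eq_mul]
  unfold cnt
  congr

/-- the subsystem with prescribed counts -/
def mk (n : ℕ → ℕ) : Set E := {e | (e.2 : ℕ) < n e.1}

lemma cnt_mk (n : ℕ → ℕ) (hn : ∀ k, n k ≤ m k) (k : ℕ) : cnt (mk n) k = n k := by
  classical
  unfold cnt mk
  simp only [mem_ofPred_eq]
  have h := Fin.card_filter_val_lt (n := m k) (m := n k)
  rw [min_eq_right (hn k)] at h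
  convert h using 2

/-- the points of the spectrum with pressure series `1` -/
lemma mem_DS {n : ℕ → ℕ} (hn : ∀ k, n k ≤ m k) {s : ℝ} (hs : 0 < s)
    (h : ∑' k : ℕ, (n k : ℝ≥0∞) * ENNReal.ofReal (ρ k ^ s) = 1) :
    s ∈ DS (Icc (0 : ℝ) 1) ph := by
  have h1 : ∑' e, G rr (mk n) s e = 1 := by
    rw [tsum_level]
    simp_rw [cnt_mk n hn]
    exact h
  refine ⟨hs.le, mk n, ?_, dim_eq sim (mk n) hs h1⟩
  by_contra hcon
  rw [not_nonempty_iff_eq_empty] at hcon
  rw [hcon] at h1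
  simp [G] at h1

/-- the special points -/
noncomputable def sp (k : ℕ) : ℝ := 1 / 2 + 1 / (2 * a k)

lemma a_pos (k : ℕ) : (0 : ℝ) < a k := by
  have := a_ge k
  exact_mod_cast (by omega : 0 < a k)

lemma sp_gt (k : ℕ) : 1 / 2 < sp k := by
  unfold sp
  have := a_pos k
  have : 0 < 1 / (2 * (a k : ℝ)) := by positivity
  linarith

lemma sp_mem (k : ℕ) : sp k ∈ DS (Icc (0 : ℝ) 1) ph := by
  classical
  refine mem_DS (n := fun j => if j = k then m k else 0) ?_ (by linarith [sp_gt k]) ?_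
  · intro j
    split_ifs with h
    · rw [h]
    · exact Nat.zero_le _
  · rw [tsum_eq_single k]
    · rw [if_pos rfl]
      have h0 := a_pos k
      have h1 : ρ k ^ sp k = ((2 : ℝ) ^ (a k + 1))⁻¹ := by
        unfold ρ sp
        rw [← Real.rpow_natCast, ← Real.rpow_mul (by norm_num)]
        have h2 : (a k : ℝ) * (1 / 2 + 1 / (2 * a k)) = ((a k : ℝ) + 1) / 2 := by
          field_simp
        rw [h2]
        have h3 : (1 / 4 : ℝ) = (2 : ℝ) ^ (-2 : ℝ) := by
          rw [Real.rpow_neg (by norm_num)]; norm_num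
        rw [h3, ← Real.rpow_mul (by norm_num), ← Real.rpow_natCast, ← Real.rpow_neg (by norm_num)]
        congr 1
        push_cast
        ring
      rw [h1]
      have h2 : ((m k : ℕ) : ℝ≥0∞) = ENNReal.ofReal ((2 : ℝ) ^ (a k + 1)) := by
        unfold m
        rw [← ENNReal.ofReal_natCast]
        push_cast
        rfl
      rw [h2, ← ENNReal.ofReal_mul (by positivity), mul_inv_cancel₀ (by positivity),
        ENNReal.ofReal_one]
    · intro j hj
      rw [if_neg hj]
      simp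

lemma a_tendsto : Tendsto (fun k => (a k : ℝ)) atTop atTop := by
  refine tendsto_atTop_mono (fun k => ?_) tendsto_natCast_atTop_atTop
  have := a_ge k
  exact_mod_cast (by omega : k ≤ a k)

lemma sp_lim : Tendsto sp atTop (𝓝 (1 / 2)) := by
  unfold sp
  have h1 : Tendsto (fun k => 1 / (2 * (a k : ℝ))) atTop (𝓝 0) := by
    have h2 : Tendsto (fun k => 2 * (a k : ℝ)) atTop atTop :=
      a_tendsto.const_mul_atTop (by norm_num)
    refine h2.inv_tendsto_atTop.congr fun k => ?_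
    rw [Pi.inv_apply, one_div]
  have := h1.const_add (1 / 2 : ℝ)
  rwa [add_zero] at this

/-! ### `(0,1/2]` is contained in the spectrum -/

/-- greedy remainders -/
noncomputable def Rm (s : ℝ) : ℕ → ℝ
  | 0 => 1
  | k + 1 => Rm s k - ⌊Rm s k / ρ k ^ s⌋₊ * ρ k ^ s

lemma Rm_bounds (s : ℝ) (k : ℕ) : 0 ≤ Rm s k ∧ Rm s (k + 1) < ρ k ^ s ∧ 0 ≤ Rm s (k + 1) := by
  have hpos : ∀ k, 0 < ρ k ^ s := fun k => Real.rpow_pos_of_pos (ρ_pos k) s
  have hnn : ∀ k, 0 ≤ Rm s k := by
    intro k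
    induction k with
    | zero => exact zero_le_one
    | succ k ih =>
      rw [Rm]
      have h1 : (⌊Rm s k / ρ k ^ s⌋₊ : ℝ) ≤ Rm s k / ρ k ^ s :=
        Nat.floor_le (div_nonneg ih (hpos k).le)
      rw [le_div_iff₀ (hpos k)] at h1
      linarith
  refine ⟨hnn k, ?_, hnn (k + 1)⟩
  rw [Rm]
  have h1 : Rm s k / ρ k ^ s < ⌊Rm s k / ρ k ^ s⌋₊ + 1 := Nat.lt_floor_add_one _
  rw [div_lt_iff₀ (hpos k)] at h1
  linarith

lemma half_mem {s : ℝ} (hs : 0 < s) (hs2 : s ≤ 1 / 2) : s ∈ DS (Icc (0 : ℝ) 1) ph := by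
  have hpos : ∀ k, 0 < ρ k ^ s := fun k => Real.rpow_pos_of_pos (ρ_pos k) s
  have hle1 : ∀ k, Rm s k ≤ 1 := by
    intro k
    cases k with
    | zero => exact le_rfl
    | succ k =>
      refine (Rm_bounds s k).2.1.le.trans ?_
      exact Real.rpow_le_one (ρ_pos k).le ((ρ_le k).trans (by norm_num)) hs.le
  set n : ℕ → ℕ := fun k => ⌊Rm s k / ρ k ^ s⌋₊ with hn
  have hnm : ∀ k, n k ≤ m k := by
    intro k
    have h1 : (n k : ℝ) ≤ Rm s k / ρ k ^ s :=
      Nat.floor_le (div_nonneg (Rm_bounds s k).1 (hpos k).le)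
    have h2 : Rm s k / ρ k ^ s ≤ 1 / ρ k ^ s := div_le_div_of_nonneg_right (hle1 k) (hpos k).le
    have h3 : 1 / ρ k ^ s ≤ m k := by
      rw [div_le_iff₀ (hpos k)]
      have h4 : (1 / 2 : ℝ) ^ (a k) ≤ ρ k ^ s := by
        have h5 : ρ k ^ (1 / 2 : ℝ) ≤ ρ k ^ s :=
          Real.rpow_le_rpow_of_exponent_ge (ρ_pos k) ((ρ_le k).trans (by norm_num)) hs2
        refine le_trans (le_of_eq ?_) h5
        unfold ρ
        rw [← Real.rpow_natCast ((1 : ℝ) / 4), ← Real.rpow_mul (by norm_num),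
          mul_comm, Real.rpow_mul (by norm_num)]
        have h6 : (1 / 4 : ℝ) ^ (1 / 2 : ℝ) = 1 / 2 := by
          have : (1 / 4 : ℝ) = (1 / 2) ^ (2 : ℝ) := by norm_num
          rw [this, ← Real.rpow_mul (by norm_num)]
          norm_num
        rw [h6, Real.rpow_natCast]
      have h7 : (1 : ℝ) ≤ m k * (1 / 2) ^ (a k) := by
        unfold m
        push_cast
        have : (2 : ℝ) ^ (a k + 1) * (1 / 2) ^ (a k) = 2 := by
          rw [pow_succ, mul_assoc, mul_comm 2, ← mul_assoc, ← mul_pow]; norm_num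
        rw [this]; norm_num
      refine h7.trans (mul_le_mul_of_nonneg_left h4 (Nat.cast_nonneg _))
    exact_mod_cast h1.trans (h2.trans h3)
  have hpart : ∀ j, ∑ k ∈ Finset.range j, (n k : ℝ) * ρ k ^ s = 1 - Rm s j := by
    intro j
    induction j with
    | zero => simp [Rm]
    | succ j ih =>
      rw [Finset.sum_range_succ, ih, Rm]
      ring
  have hRlim : Tendsto (Rm s) atTop (𝓝 0) := by
    rw [← tendsto_add_atTop_iff_nat 1]
    refine squeeze_zero (fun k => (Rm_bounds s k).2.2) (fun k => (Rm_bounds s k).2.1.le) ?_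
    have h1 : Tendsto ρ atTop (𝓝 0) := by
      refine squeeze_zero (fun k => (ρ_pos k).le) (fun k => ?_)
        (tendsto_pow_atTop_nhds_zero_of_lt_one (r := (1 / 4 : ℝ)) (by norm_num) (by norm_num))
      unfold ρ
      exact pow_le_pow_of_le_one (by norm_num) (by norm_num) (by have := a_ge k; omega)
    have h2 := h1.rpow_const (p := s) (Or.inr hs.le)
    rwa [Real.zero_rpow hs.ne'] at h2
  have hsum : HasSum (fun k => (n k : ℝ) * ρ k ^ s) 1 := by
    rw [hasSum_iff_tendsto_nat_of_nonneg (fun k => mul_nonneg (Nat.cast_nonneg _) (hpos k).le)]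
    simp_rw [hpart]
    have := hRlim.const_sub 1
    rwa [sub_zero] at this
  refine mem_DS (n := n) hnm hs ?_
  have h1 := ENNReal.ofReal_tsum_of_nonneg
    (fun k => mul_nonneg (Nat.cast_nonneg (n k)) (hpos k).le) hsum.summable
  rw [hsum.tsum_eq, ENNReal.ofReal_one] at h1
  rw [h1]
  congr 1
  funext k
  rw [ENNReal.ofReal_mul (Nat.cast_nonneg _), ENNReal.ofReal_natCast]

/-! ### Beyond `1/2` the spectrum has dimension zero -/

/-- partial pressure -/
noncomputable def gj (F : Set E) (j : ℕ) (t : ℝ) : ℝ :=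
  ∑ k ∈ Finset.range j, (cnt F k : ℝ) * ρ k ^ t

lemma gj_cont (F : Set E) (j : ℕ) : Continuous (gj F j) := by
  unfold gj
  refine continuous_finsetSum _ fun k _ => continuous_const.mul ?_
  exact Real.continuous_const_rpow (ρ_pos k).ne'

lemma gj_finset (F : Set E) (j : ℕ) : ∃ F' : Finset E, (F' : Set E) ⊆ F ∧
    ∀ t : ℝ, ∑ e ∈ F', rr e ^ t = gj F j t := by
  classical
  refine ⟨(Finset.range j).sigma fun k => Finset.univ.filter fun i : Fin (m k) => (⟨k, i⟩ : E) ∈ F,
    ?_, ?_⟩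
  · intro e he
    have h1 := Finset.mem_coe.mp he
    rw [Finset.mem_sigma, Finset.mem_filter] at h1
    exact h1.2.2
  · intro t
    rw [Finset.sum_sigma]
    unfold gj
    apply Finset.sum_congr rfl
    intro k _
    have h2 : ∀ i ∈ (Finset.univ.filter fun i : Fin (m k) => (⟨k, i⟩ : E) ∈ F),
        rr (⟨k, i⟩ : E) ^ t = ρ k ^ t := fun i _ => rfl
    rw [Finset.sum_congr rfl h2, Finset.sum_const, nsmul_eq_mul]
    unfold cnt
    congr

/-- claim a: partial pressures are at most `1` at the dimension -/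
lemma gj_le_one {F : Set E} {h : ℝ} (h0 : 0 < h)
    (hF : dimH (limSet (Icc 0 1) ph F) = ENNReal.ofReal h) (j : ℕ) : gj F j h ≤ 1 := by
  by_contra hcon
  push Not at hcon
  obtain ⟨F', hF', hsum⟩ := gj_finset F j
  have hev : ∀ᶠ t in 𝓝[>] h, 1 < gj F j t :=
    (((gj_cont F j).tendsto h).eventually (lt_mem_nhds hcon)).filter_mono nhdsWithin_le_nhds
  obtain ⟨t, ht1, ht2⟩ := (hev.and self_mem_nhdsWithin).exists
  have ht : h < t := ht2
  have h1 := lower sim F' (t := t) (by linarith) (by rw [hsum]; exact ht1.le) F hF'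
  rw [hF] at h1
  have := (ENNReal.ofReal_le_ofReal_iff h0.le).mp h1
  linarith

/-- tail bound -/
noncomputable def TT (d : ℝ) (j : ℕ) : ℝ := 2 / (1 - (1 / 4 : ℝ) ^ d) * ((1 / 4 : ℝ) ^ d) ^ (a j)

lemma θ_bounds {d : ℝ} (hd : 0 < d) : 0 < (1 / 4 : ℝ) ^ d ∧ (1 / 4 : ℝ) ^ d < 1 :=
  ⟨Real.rpow_pos_of_pos (by norm_num) d, Real.rpow_lt_one (by norm_num) (by norm_num) hd⟩

lemma TT_nonneg {d : ℝ} (hd : 0 < d) (j : ℕ) : 0 < TT d j := by
  have h := θ_bounds hd
  unfold TT
  have h1 : 0 < 1 - (1 / 4 : ℝ) ^ d := by linarith [h.2]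
  have h2 := pow_pos h.1 (a j)
  positivity

lemma term_bound {d t : ℝ} (ht : 1 / 2 + d ≤ t) (k : ℕ) :
    (m k : ℝ) * ρ k ^ t ≤ 2 * ((1 / 4 : ℝ) ^ d) ^ (a k) := by
  have h1 : ρ k ^ t ≤ ρ k ^ (1 / 2 + d) :=
    Real.rpow_le_rpow_of_exponent_ge (ρ_pos k) ((ρ_le k).trans (by norm_num)) ht
  have h2 : ρ k ^ (1 / 2 + d) = (1 / 2) ^ (a k) * ((1 / 4 : ℝ) ^ d) ^ (a k) := by
    rw [Real.rpow_add (ρ_pos k)]
    unfold ρ
    congr 1
    · rw [← Real.rpow_natCast ((1 : ℝ) / 4), ← Real.rpow_mul (by norm_num),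
          mul_comm, Real.rpow_mul (by norm_num)]
      have h6 : (1 / 4 : ℝ) ^ (1 / 2 : ℝ) = 1 / 2 := by
        have : (1 / 4 : ℝ) = (1 / 2) ^ (2 : ℝ) := by norm_num
        rw [this, ← Real.rpow_mul (by norm_num)]
        norm_num
      rw [h6, Real.rpow_natCast]
    · rw [← Real.rpow_natCast ((1 : ℝ) / 4), ← Real.rpow_mul (by norm_num),
          mul_comm, Real.rpow_mul (by norm_num), Real.rpow_natCast]
  have h3 : (m k : ℝ) * (1 / 2) ^ (a k) = 2 := by
    unfold m
    push_cast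
    rw [pow_succ, mul_assoc, mul_comm 2, ← mul_assoc, ← mul_pow]; norm_num
  calc (m k : ℝ) * ρ k ^ t ≤ m k * ρ k ^ (1 / 2 + d) :=
        mul_le_mul_of_nonneg_left h1 (Nat.cast_nonneg _)
    _ = (m k * (1 / 2) ^ (a k)) * ((1 / 4 : ℝ) ^ d) ^ (a k) := by rw [h2]; ring
    _ = _ := by rw [h3]

lemma tail_bound {d t : ℝ} (hd : 0 < d) (ht : 1 / 2 + d ≤ t) (F : Set E) (j : ℕ) :
    ∑' k : ℕ, (cnt F (k + j) : ℝ≥0∞) * ENNReal.ofReal (ρ (k + j) ^ t) ≤
      ENNReal.ofReal (TT d j) := by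
  have hθ := θ_bounds hd
  set θ := (1 / 4 : ℝ) ^ d with hθdef
  have h1 : ∀ k : ℕ, (cnt F (k + j) : ℝ≥0∞) * ENNReal.ofReal (ρ (k + j) ^ t) ≤
      ENNReal.ofReal (2 * θ ^ (a j) * θ ^ k) := by
    intro k
    rw [← ENNReal.ofReal_natCast, ← ENNReal.ofReal_mul (Nat.cast_nonneg _)]
    apply ENNReal.ofReal_le_ofReal
    have h2 : (cnt F (k + j) : ℝ) * ρ (k + j) ^ t ≤ m (k + j) * ρ (k + j) ^ t := by
      apply mul_le_mul_of_nonneg_right _ (Real.rpow_nonneg (ρ_pos _).le _)
      exact_mod_cast cnt_le F (k + j)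
    refine h2.trans ((term_bound ht (k + j)).trans ?_)
    rw [mul_assoc, ← pow_add]
    apply mul_le_mul_of_nonneg_left _ (by norm_num)
    apply pow_le_pow_of_le_one hθ.1.le hθ.2.le
    have := a_add j k
    rwa [add_comm k j]
  refine (ENNReal.tsum_le_tsum h1).trans ?_
  have hsum : HasSum (fun k : ℕ => 2 * θ ^ (a j) * θ ^ k) (2 * θ ^ (a j) * (1 - θ)⁻¹) :=
    (hasSum_geometric_of_lt_one hθ.1.le hθ.2).mul_left _
  have h3 := ENNReal.ofReal_tsum_of_nonneg (f := fun k : ℕ => 2 * θ ^ (a j) * θ ^ k)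
    (fun k => by have := hθ.1; positivity) hsum.summable
  rw [← h3, hsum.tsum_eq]
  apply ENNReal.ofReal_le_ofReal
  apply le_of_eq
  unfold TT
  rw [← hθdef]
  ring

/-- claim b -/
lemma gj_ge {F : Set E} {d h : ℝ} (hd : 0 < d) (hh : 1 / 2 + d < h)
    (hF : dimH (limSet (Icc 0 1) ph F) = ENNReal.ofReal h) (j : ℕ) : 1 - TT d j ≤ gj F j h := by
  by_contra hcon
  push Not at hcon
  have hev : ∀ᶠ t in 𝓝[<] h, gj F j t < 1 - TT d j :=
    (((gj_cont F j).tendsto h).eventually (gt_mem_nhds hcon)).filter_mono nhdsWithin_le_nhds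
  have hev2 : ∀ᶠ t in 𝓝[<] h, 1 / 2 + d < t :=
    (lt_mem_nhds hh).filter_mono nhdsWithin_le_nhds
  obtain ⟨t, ⟨ht1, ht2⟩, ht3⟩ := ((hev.and hev2).and self_mem_nhdsWithin).exists
  have ht3' : t < h := ht3
  have ht0 : 0 < t := by linarith
  have hnn : 0 ≤ gj F j t := by
    unfold gj
    exact Finset.sum_nonneg fun k _ => mul_nonneg (Nat.cast_nonneg _)
      (Real.rpow_nonneg (ρ_pos k).le _)
  have hP : ∑' e, G rr F t e ≤ 1 := by
    rw [tsum_level, ← Summable.sum_add_tsum_nat_add' (k := j) ENNReal.summable]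
    have h1 : ∑ k ∈ Finset.range j, (cnt F k : ℝ≥0∞) * ENNReal.ofReal (ρ k ^ t) =
        ENNReal.ofReal (gj F j t) := by
      unfold gj
      rw [ENNReal.ofReal_sum_of_nonneg (fun k _ => mul_nonneg (Nat.cast_nonneg _)
        (Real.rpow_nonneg (ρ_pos k).le _))]
      apply Finset.sum_congr rfl
      intro k _
      rw [ENNReal.ofReal_mul (Nat.cast_nonneg _), ENNReal.ofReal_natCast]
    rw [h1]
    refine (add_le_add le_rfl (tail_bound hd ht2.le F j)).trans ?_
    rw [← ENNReal.ofReal_add hnn (TT_nonneg hd j).le, ← ENNReal.ofReal_one]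
    apply ENNReal.ofReal_le_ofReal
    linarith
  have h2 := upper sim F ht0 hP
  rw [hF] at h2
  have := (ENNReal.ofReal_le_ofReal_iff ht0.le).mp h2
  linarith

lemma rpow_diff (k : ℕ) {h h' : ℝ} (hh : h ≤ h') :
    (h' - h) * ρ k ^ h' ≤ ρ k ^ h - ρ k ^ h' := by
  have hρ := ρ_pos k
  have hlog : Real.log (ρ k) ≤ -1 := by
    have h1 : ρ k ≤ Real.exp (-1) := by
      refine (ρ_le k).trans ?_
      rw [Real.exp_neg, one_div]
      apply inv_anti₀ (Real.exp_pos 1)
      have := Real.exp_one_lt_d9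
      linarith
    calc Real.log (ρ k) ≤ Real.log (Real.exp (-1)) := Real.log_le_log hρ h1
      _ = -1 := Real.log_exp _
  have h2 : ρ k ^ h = ρ k ^ h' * ρ k ^ (h - h') := by
    rw [← Real.rpow_add hρ]; congr 1; ring
  have h3 : 1 + (h' - h) ≤ ρ k ^ (h - h') := by
    rw [Real.rpow_def_of_pos hρ]
    have h4 := Real.add_one_le_exp (Real.log (ρ k) * (h - h'))
    nlinarith
  have h5 : 0 ≤ ρ k ^ h' := Real.rpow_nonneg hρ.le _
  rw [h2]
  nlinarith

/-- claim c -/
lemma close {F F' : Set E} {d h h' : ℝ} (hd : 0 < d) (hh : 1 / 2 + d < h) (hhh : h ≤ h')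
    (hF : dimH (limSet (Icc 0 1) ph F) = ENNReal.ofReal h)
    (hF' : dimH (limSet (Icc 0 1) ph F') = ENNReal.ofReal h') (j : ℕ)
    (hcnt : ∀ k < j, cnt F k = cnt F' k) (hT : TT d j ≤ 1 / 2) : h' - h ≤ 2 * TT d j := by
  have h1 := gj_le_one (by linarith) hF j
  have h2 := gj_ge hd (by linarith : 1 / 2 + d < h') hF' j
  have h3 : gj F' j h' = gj F j h' := by
    unfold gj
    apply Finset.sum_congr rfl
    intro k hk
    rw [hcnt k (Finset.mem_range.mp hk)]
  rw [h3] at h2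
  have h4 : (h' - h) * gj F j h' ≤ gj F j h - gj F j h' := by
    unfold gj
    rw [Finset.mul_sum, ← Finset.sum_sub_distrib]
    apply Finset.sum_le_sum
    intro k _
    have h5 := rpow_diff k hhh
    have h6 : (0 : ℝ) ≤ cnt F k := Nat.cast_nonneg _
    nlinarith
  have h7 : (h' - h) * (1 / 2) ≤ (h' - h) * gj F j h' := by
    apply mul_le_mul_of_nonneg_left _ (by linarith)
    linarith
  linarith

lemma card_prod (j : ℕ) : ∏ k ∈ Finset.range j, (m k + 1) ≤ 2 ^ A j := by
  induction j with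
  | zero => simp [A]
  | succ j ih =>
    rw [Finset.prod_range_succ, A_succ]
    have h1 : m j + 1 ≤ 2 ^ (a j + 2) := by
      unfold m
      have : 2 ^ (a j + 2) = 2 ^ (a j + 1) + 2 ^ (a j + 1) := by ring
      rw [this]
      have : 1 ≤ 2 ^ (a j + 1) := Nat.one_le_two_pow
      omega
    calc (∏ k ∈ Finset.range j, (m k + 1)) * (m j + 1) ≤ 2 ^ A j * 2 ^ (a j + 2) :=
          Nat.mul_le_mul ih h1
      _ = _ := by rw [← pow_add]; congr 1

lemma TT_tendsto {d : ℝ} (hd : 0 < d) : Tendsto (TT d) atTop (𝓝 0) := by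
  have hθ := θ_bounds hd
  unfold TT
  have h1 : Tendsto (fun j => ((1 / 4 : ℝ) ^ d) ^ (a j)) atTop (𝓝 0) := by
    have h2 := tendsto_pow_atTop_nhds_zero_of_lt_one hθ.1.le hθ.2
    refine h2.comp ?_
    exact tendsto_natCast_atTop_iff.mp a_tendsto
  have := h1.const_mul (2 / (1 - (1 / 4 : ℝ) ^ d))
  rwa [mul_zero] at this

lemma dim_upper_part {d : ℝ} (hd : 0 < d) :
    dimH (DSall (Icc (0 : ℝ) 1) ph ∩ Ioi (1 / 2 + d)) = 0 := by
  classical
  set D := DSall (Icc (0 : ℝ) 1) ph ∩ Ioi (1 / 2 + d) with hD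
  have hex : ∀ h : ℝ, h ∈ D → ∃ F : Set E, dimH (limSet (Icc 0 1) ph F) = ENNReal.ofReal h :=
    fun h hh => hh.1.2
  choose! FF hFF using hex
  have hθ := θ_bounds hd
  have key : ∀ ε : ℝ, 0 < ε → μH[ε] D ≠ ∞ := by
    intro ε hε
    set C : ℝ := 2 * (2 / (1 - (1 / 4 : ℝ) ^ d)) with hC
    have hC0 : 0 < C := by
      have : 0 < 1 - (1 / 4 : ℝ) ^ d := by linarith [hθ.2]
      positivity
    have hle : μH[ε] D ≤ ENNReal.ofReal (C ^ ε) := by
      refine (Measure.hausdorffMeasure_le_liminf_sum (β := ℕ)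
        (ι := fun j => ∀ k : Fin j, Fin (m k + 1)) ε D (l := atTop)
        (fun j => ENNReal.ofReal (2 * TT d j)) ?_
        (fun j ν => {h | h ∈ D ∧ ∀ k : Fin j, cnt (FF h) k = ν k}) ?_ ?_).trans ?_
      · rw [← ENNReal.ofReal_zero]
        apply ENNReal.tendsto_ofReal
        have := (TT_tendsto hd).const_mul 2
        rwa [mul_zero] at this
      · have hev : ∀ᶠ j in atTop, TT d j ≤ 1 / 2 :=
          (TT_tendsto hd).eventually (ge_mem_nhds (by norm_num))
        filter_upwards [hev] with j hj ν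
        apply Metric.ediam_le
        rintro h ⟨hh, hν⟩ h' ⟨hh', hν'⟩
        rw [edist_dist]
        apply ENNReal.ofReal_le_ofReal
        rw [Real.dist_eq]
        have hcnt : ∀ k < j, cnt (FF h) k = cnt (FF h') k := by
          intro k hk
          have e1 := hν ⟨k, hk⟩
          have e2 := hν' ⟨k, hk⟩
          simp only at e1 e2
          rw [e1, e2]
        rcases le_total h h' with hle | hle
        · rw [abs_of_nonpos (by linarith)]
          have := close hd hh.2 hle (hFF h hh) (hFF h' hh') j hcnt hj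
          linarith
        · rw [abs_of_nonneg (by linarith)]
          exact close hd hh'.2 hle (hFF h' hh') (hFF h hh) j (fun k hk => (hcnt k hk).symm) hj
      · refine Eventually.of_forall fun j h hh => ?_
        refine mem_iUnion.mpr ⟨fun k => ⟨cnt (FF h) k, Nat.lt_succ_of_le (cnt_le _ _)⟩, hh, ?_⟩
        intro k
        rfl
      · -- the sum
        refine liminf_le_of_le (by isBoundedDefault) ?_
        intro c hc
        -- the exponent
        set κ : ℝ := d * ε with hκ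
        have hκ0 : 0 < κ := by positivity
        have hev1 : ∀ᶠ j : ℕ in atTop, 1 ≤ ((j : ℝ) + 1) * κ := by
          have : Tendsto (fun j : ℕ => ((j : ℝ) + 1) * κ) atTop atTop :=
            (tendsto_natCast_atTop_atTop.atTop_add tendsto_const_nhds).atTop_mul_const hκ0
          exact this.eventually_ge_atTop 1
        have hev2 : ∀ᶠ j in atTop, TT d j ≤ 1 / 2 :=
          (TT_tendsto hd).eventually (ge_mem_nhds (by norm_num))
        obtain ⟨j, ⟨hj, hj1⟩, hj2⟩ := ((hc.and hev1).and hev2).exists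
        refine hj.trans ?_
        have hdiam : ∀ ν : (∀ k : Fin j, Fin (m k + 1)),
            Metric.ediam {h | h ∈ D ∧ ∀ k : Fin j, cnt (FF h) k = ν k} ^ ε ≤
              ENNReal.ofReal ((2 * TT d j) ^ ε) := by
          intro ν
          rw [← ENNReal.ofReal_rpow_of_nonneg (by linarith [TT_nonneg hd j]) hε.le]
          apply ENNReal.rpow_le_rpow _ hε.le
          apply Metric.ediam_le
          rintro h ⟨hh, hν⟩ h' ⟨hh', hν'⟩
          rw [edist_dist]
          apply ENNReal.ofReal_le_ofReal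
          rw [Real.dist_eq]
          have hcnt : ∀ k < j, cnt (FF h) k = cnt (FF h') k := by
            intro k hk
            have e1 := hν ⟨k, hk⟩
            have e2 := hν' ⟨k, hk⟩
            simp only at e1 e2
            rw [e1, e2]
          rcases le_total h h' with hle | hle
          · rw [abs_of_nonpos (by linarith)]
            have := close hd hh.2 hle (hFF h hh) (hFF h' hh') j hcnt hj2
            linarith
          · rw [abs_of_nonneg (by linarith)]
            exact close hd hh'.2 hle (hFF h' hh') (hFF h hh) j (fun k hk => (hcnt k hk).symm) hj2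
        refine (Finset.sum_le_sum fun ν _ => hdiam ν).trans ?_
        rw [Finset.sum_const, nsmul_eq_mul]
        have hcard : (Finset.univ : Finset (∀ k : Fin j, Fin (m k + 1))).card ≤ 2 ^ A j := by
          rw [Finset.card_univ, Fintype.card_pi]
          simp only [Fintype.card_fin]
          rw [← Finset.prod_range (fun k => m k + 1)]
          exact card_prod j
        have hcard' : ((Finset.univ : Finset (∀ k : Fin j, Fin (m k + 1))).card : ℝ≥0∞) ≤
            ENNReal.ofReal ((2 : ℝ) ^ A j) := by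
          rw [← ENNReal.ofReal_natCast]
          apply ENNReal.ofReal_le_ofReal
          exact_mod_cast hcard
        refine (mul_le_mul_left hcard' _).trans ?_
        rw [← ENNReal.ofReal_mul (by positivity)]
        apply ENNReal.ofReal_le_ofReal
        -- real estimate
        have hA : (2 : ℝ) ^ A j ≤ (2 : ℝ) ^ (κ * a j) := by
          rw [← Real.rpow_natCast]
          apply Real.rpow_le_rpow_of_exponent_le (by norm_num)
          have h1 : (((j + 1) * A j : ℕ) : ℝ) ≤ (a j : ℝ) := by exact_mod_cast A_le j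
          push_cast at h1
          have h2 : (0 : ℝ) ≤ A j := Nat.cast_nonneg _
          nlinarith
        have hTε : (2 * TT d j) ^ ε = C ^ ε * (2 : ℝ) ^ (-(2 * (κ * a j))) := by
          unfold TT
          rw [← mul_assoc, ← hC, Real.mul_rpow hC0.le (pow_nonneg hθ.1.le _)]
          congr 1
          rw [← Real.rpow_natCast, ← Real.rpow_mul hθ.1.le, ← Real.rpow_mul (by norm_num)]
          have h3 : (1 / 4 : ℝ) = (2 : ℝ) ^ (-2 : ℝ) := by
            rw [Real.rpow_neg (by norm_num)]; norm_num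
          rw [h3, ← Real.rpow_mul (by norm_num)]
          congr 1
          rw [hκ]
          ring
        rw [hTε]
        have h5 : (0 : ℝ) ≤ C ^ ε := Real.rpow_nonneg hC0.le _
        have h6 : (2 : ℝ) ^ (κ * a j) * (2 : ℝ) ^ (-(2 * (κ * a j))) ≤ 1 := by
          rw [← Real.rpow_add (by norm_num)]
          apply Real.rpow_le_one_of_one_le_of_nonpos (by norm_num)
          have : 0 ≤ κ * (a j : ℝ) := mul_nonneg hκ0.le (Nat.cast_nonneg _)
          linarith
        calc (2 : ℝ) ^ A j * (C ^ ε * (2 : ℝ) ^ (-(2 * (κ * a j))))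
            ≤ (2 : ℝ) ^ (κ * a j) * (C ^ ε * (2 : ℝ) ^ (-(2 * (κ * a j)))) := by
              apply mul_le_mul_of_nonneg_right hA (by positivity)
          _ = C ^ ε * ((2 : ℝ) ^ (κ * a j) * (2 : ℝ) ^ (-(2 * (κ * a j)))) := by ring
          _ ≤ C ^ ε * 1 := mul_le_mul_of_nonneg_left h6 h5
          _ = C ^ ε := mul_one _
    exact ne_top_of_le_ne_top ofReal_ne_top hle
  -- conclusion
  rw [← nonpos_iff_eq_zero]
  refine ENNReal.le_of_forall_pos_le_add fun ε hε _ => ?_
  rw [zero_add]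
  exact dimH_le_of_hausdorffMeasure_ne_top (key ε (by exact_mod_cast hε))

/-! ### Local dimensions -/

/-- A set between the two versions of the spectrum. -/
structure IsSpec (D : Set ℝ) : Prop where
  lo : DS (Icc (0 : ℝ) 1) ph ⊆ D
  hi : D ⊆ DSall (Icc (0 : ℝ) 1) ph

lemma isSpec_DS : IsSpec (DS (Icc (0 : ℝ) 1) ph) :=
  ⟨Subset.rfl, fun _ ⟨h0, F, _, hF⟩ => ⟨h0, F, hF⟩⟩

lemma isSpec_DSall : IsSpec (DSall (Icc (0 : ℝ) 1) ph) :=
  ⟨fun _ ⟨h0, F, _, hF⟩ => ⟨h0, F, hF⟩, Subset.rfl⟩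

lemma locDim_gt {D : Set ℝ} (hD : IsSpec D) {x : ℝ} (hx : 1 / 2 < x) : locDim D x = 0 := by
  rw [← nonpos_iff_eq_zero]
  have hε : 0 < (x - 1 / 2) / 2 := by linarith
  refine (iInf₂_le ((x - 1 / 2) / 2) hε).trans ?_
  rw [← dim_upper_part hε]
  apply dimH_mono
  rintro y ⟨hy, hy2⟩
  refine ⟨hD.hi hy, ?_⟩
  rw [Metric.mem_ball, Real.dist_eq, abs_lt] at hy2
  show 1 / 2 + (x - 1 / 2) / 2 < y
  linarith [hy2.1]

lemma locDim_half {D : Set ℝ} (hD : IsSpec D) : locDim D (1 / 2) = 1 := by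
  apply le_antisymm
  · refine (iInf₂_le 1 one_pos).trans ?_
    rw [← Real.dimH_univ]
    exact dimH_mono (subset_univ _)
  · refine le_iInf₂ fun ε hε => ?_
    have hsub : Ioo (1 / 2 - min ε (1 / 2)) (1 / 2) ⊆ D ∩ Metric.ball (1 / 2) ε := by
      rintro y ⟨hy1, hy2⟩
      have h1 := min_le_left ε (1 / 2)
      have h2 := min_le_right ε (1 / 2)
      refine ⟨hD.lo (half_mem (by linarith) hy2.le), ?_⟩
      rw [Metric.mem_ball, Real.dist_eq, abs_lt]
      constructor <;> linarith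
    refine le_trans (le_of_eq ?_) (dimH_mono hsub)
    rw [Real.dimH_of_nonempty_interior]
    · simp
    · rw [interior_Ioo]
      apply nonempty_Ioo.mpr
      have : 0 < min ε (1 / 2) := lt_min hε (by norm_num)
      linarith

end Pool.Agent.R826.CIFS
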