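import Mathlib

/-!
# Characteristic polynomials of powers of matrices modulo a prime number
-/

set_option autoImplicit false

namespace Pool.Agent.R826.Frob

open Polynomial Matrix

/-- in characteristic `p` the characteristic polynomial of `M ^ (p ^ a)`, evaluated at `X ^ (p ^ a)`,
is the power of the characteristic polynomial of `M`. -/
theorem charp_expand {R : Type*} [CommRing R] [Nontrivial R] (p : ℕ) [Fact p.Prime] [CharP R p]
    {n : ℕ} (M : Matrix (Fin n) (Fin n) R) (a : ℕ) :
    expand R (p ^ a) (M ^ p ^ a).charpoly = M.charpoly ^ p ^ a := by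
  rcases Nat.eq_zero_or_pos n with rfl | hn
  · simp [Matrix.charpoly, Matrix.det_fin_zero]
  have : Nonempty (Fin n) := ⟨⟨0, hn⟩⟩
  unfold charpoly
  rw [AlgHom.map_det, ← coe_detMonoidHom, ← (detMonoidHom : Matrix (Fin n) (Fin n) R[X] →* R[X]).map_pow]
  apply congr_arg det
  refine matPolyEquiv.injective ?_
  rw [map_pow, matPolyEquiv_charmatrix, sub_pow_char_pow_of_commute, ← C_pow]
  · exact (id (matPolyEquiv_eq_X_pow_sub_C (p ^ a) M) :)
  · exact (C M).commute_X

theorem charp_coeff {R : Type*} [CommRing R] [Nontrivial R] (p : ℕ) [Fact p.Prime] [CharP R p]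
    {n : ℕ} (M : Matrix (Fin n) (Fin n) R) (a i : ℕ) :
    (M ^ p ^ a).charpoly.coeff i = M.charpoly.coeff i ^ p ^ a := by
  have hp : 0 < p ^ a := pow_pos (Fact.out : p.Prime).pos a
  have : ExpChar R p := ExpChar.prime Fact.out
  have h1 := charp_expand p M a
  rw [← map_iterateFrobenius_expand p M.charpoly a] at h1
  have h2 := congrArg (fun f => f.coeff (i * p ^ a)) h1
  simp only [coeff_map] at h2
  rw [coeff_expand_mul hp, coeff_expand_mul hp, iterateFrobenius_def] at h2
  exact h2

/-- the ideal version -/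
theorem ideal_coeff {R : Type*} [CommRing R] (p : ℕ) (hp : p.Prime) (I : Ideal R)
    (hI : (p : R) ∈ I) {n : ℕ} (M : Matrix (Fin n) (Fin n) R) (a i : ℕ) :
    (M ^ p ^ a).charpoly.coeff i - M.charpoly.coeff i ^ p ^ a ∈ I := by
  by_cases hT : I = ⊤
  · rw [hT]; exact Submodule.mem_top
  have : Nontrivial (R ⧸ I) := Ideal.Quotient.nontrivial_iff.mpr hT
  have : Fact p.Prime := ⟨hp⟩
  have : CharP (R ⧸ I) p := by
    rw [CharP.charP_iff_prime_eq_zero hp]
    rw [← map_natCast (Ideal.Quotient.mk I)]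
    exact Ideal.Quotient.eq_zero_iff_mem.mpr hI
  rw [← Ideal.Quotient.eq_zero_iff_mem, map_sub, map_pow, sub_eq_zero]
  have h := charp_coeff p ((Ideal.Quotient.mk I).mapMatrix M) a i
  rw [← map_pow, RingHom.mapMatrix_apply, RingHom.mapMatrix_apply, Matrix.charpoly_map,
    Matrix.charpoly_map, coeff_map, coeff_map] at h
  exact h

/-- the quotient polynomial -/
theorem exists_quot {R : Type*} [CommRing R] {n : ℕ} (M : Matrix (Fin n) (Fin n) R) (m : ℕ) :
    ∃ h : R[X], expand R m (M ^ m).charpoly = M.charpoly * h := by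
  classical
  unfold charpoly
  rw [AlgHom.map_det]
  have h1 : (expand R m : R[X] →ₐ[R] R[X]).mapMatrix (charmatrix (M ^ m)) =
      (Matrix.scalar (Fin n) (X : R[X])) ^ m - ((C : R →+* R[X]).mapMatrix M) ^ m := by
    rw [← map_pow, ← map_pow]
    ext i j
    by_cases hij : i = j
    · subst hij
      simp [charmatrix_apply_eq]
    · simp [charmatrix_apply_ne _ _ _ hij, hij]
  have h2 : Commute (Matrix.scalar (Fin n) (X : R[X])) ((C : R →+* R[X]).mapMatrix M) :=
    Matrix.scalar_commute _ (fun r => Commute.all _ _) _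
  rw [h1, ← h2.mul_geom_sum₂, det_mul]
  exact ⟨_, rfl⟩

end Pool.Agent.R826.Frob
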