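import Pool.Agent.R826.FrobA

/-!
# Congruences for values of characteristic polynomials modulo powers of an ideal
-/

set_option autoImplicit false

namespace Pool.Agent.R826.Frob

open Polynomial Matrix

theorem mk_aeval {R : Type*} [CommRing R] (I : Ideal R) {n : ℕ} (x : Matrix (Fin n) (Fin n) R)
    (h : R[X]) : (Ideal.Quotient.mk I).mapMatrix (aeval x h) =
      aeval ((Ideal.Quotient.mk I).mapMatrix x) (h.map (Ideal.Quotient.mk I)) := by
  refine map_aeval_eq_aeval_map ?_ h x
  ext r i j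
  by_cases hij : i = j
  · subst hij; simp [Matrix.algebraMap_matrix_apply]
  · simp [Matrix.algebraMap_matrix_apply, hij]

theorem mem_iff {R : Type*} [CommRing R] (I : Ideal R) {n : ℕ} (x : Matrix (Fin n) (Fin n) R) :
    (∀ i j, x i j ∈ I) ↔ (Ideal.Quotient.mk I).mapMatrix x = 0 := by
  constructor
  · intro h
    ext i j
    simpa using Ideal.Quotient.eq_zero_iff_mem.mpr (h i j)
  · intro h i j
    have := congrFun (congrFun h i) j
    simpa using Ideal.Quotient.eq_zero_iff_mem.mp this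

theorem quot_mod {R : Type*} [CommRing R] (p : ℕ) (hp : p.Prime) (I : Ideal R)
    (hI : (p : R) ∈ I) {n : ℕ} (M : Matrix (Fin n) (Fin n) R) (h : R[X])
    (hh : expand R p (M ^ p).charpoly = M.charpoly * h) :
    h.map (Ideal.Quotient.mk I) = (M.charpoly.map (Ideal.Quotient.mk I)) ^ (p - 1) := by
  by_cases hT : I = ⊤
  · subst hT
    have : Subsingleton (R ⧸ (⊤ : Ideal R)) := Ideal.Quotient.subsingleton_iff.mpr rfl
    exact Subsingleton.elim _ _
  have : Nontrivial (R ⧸ I) := Ideal.Quotient.nontrivial_iff.mpr hT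
  have : Fact p.Prime := ⟨hp⟩
  have : CharP (R ⧸ I) p := by
    rw [CharP.charP_iff_prime_eq_zero hp]
    rw [← map_natCast (Ideal.Quotient.mk I)]
    exact Ideal.Quotient.eq_zero_iff_mem.mpr hI
  have h1 := charp_expand p ((Ideal.Quotient.mk I).mapMatrix M) 1
  rw [pow_one, ← map_pow, RingHom.mapMatrix_apply, RingHom.mapMatrix_apply, Matrix.charpoly_map,
    Matrix.charpoly_map, ← map_expand, hh, Polynomial.map_mul] at h1
  have h2 : (M.charpoly.map (Ideal.Quotient.mk I)).Monic := M.charpoly_monic.map _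
  have h3 : (M.charpoly.map (Ideal.Quotient.mk I)) ^ p =
      (M.charpoly.map (Ideal.Quotient.mk I)) * (M.charpoly.map (Ideal.Quotient.mk I)) ^ (p - 1) := by
    rw [← pow_succ', Nat.sub_add_cancel hp.one_lt.le]
  rw [h3] at h1
  exact h2.isRegular.left h1

/-- one step -/
theorem step {R : Type*} [CommRing R] (p : ℕ) (hp : p.Prime) (I J : Ideal R)
    (hI : (p : R) ∈ I) (hJ : J ≤ I) {n : ℕ} (M x : Matrix (Fin n) (Fin n) R)
    (hW : ∀ i j, aeval x M.charpoly i j ∈ J) :
    ∀ i j, aeval (x ^ p) (M ^ p).charpoly i j ∈ J * I := by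
  obtain ⟨h, hh⟩ := exists_quot M p
  have h1 := quot_mod p hp I hI M h hh
  have h2 : ∀ i j, aeval x h i j ∈ I := by
    rw [mem_iff, mk_aeval, h1, map_pow, ← mk_aeval,
      (mem_iff I (aeval x M.charpoly)).mp fun i j => hJ (hW i j)]
    exact zero_pow (by have := hp.one_lt; omega)
  intro i j
  rw [← expand_aeval, hh, map_mul, Matrix.mul_apply]
  exact Ideal.sum_mem _ fun l _ => Ideal.mul_mem_mul (hW i l) (h2 l j)

/-- the chain -/
theorem chain {R : Type*} [CommRing R] (p : ℕ) (hp : p.Prime) (I : Ideal R)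
    (hI : (p : R) ∈ I) {n : ℕ} (M x : Matrix (Fin n) (Fin n) R)
    (hW : ∀ i j, aeval x M.charpoly i j ∈ I) (t : ℕ) :
    ∀ i j, aeval (x ^ p ^ t) (M ^ p ^ t).charpoly i j ∈ I ^ (t + 1) := by
  induction t with
  | zero => simpa using hW
  | succ t ih =>
    have := step p hp I (I ^ (t + 1)) hI (Ideal.pow_le_self (Nat.succ_ne_zero t)) _ _ ih
    intro i j
    rw [pow_succ I (t + 1), pow_succ p t, pow_mul, pow_mul]
    exact this i j

theorem base {R : Type*} [CommRing R] (I : Ideal R) {n : ℕ} (M x : Matrix (Fin n) (Fin n) R)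
    (h : ∀ i, M.charpoly.coeff i - x.charpoly.coeff i ∈ I) :
    ∀ i j, aeval x M.charpoly i j ∈ I := by
  have h1 : M.charpoly.map (Ideal.Quotient.mk I) = x.charpoly.map (Ideal.Quotient.mk I) := by
    ext i
    rw [coeff_map, coeff_map, ← sub_eq_zero, ← map_sub]
    exact Ideal.Quotient.eq_zero_iff_mem.mpr (h i)
  rw [mem_iff, mk_aeval, h1, ← mk_aeval, Matrix.aeval_self_charpoly, map_zero]

theorem coeff_mem {R : Type*} [CommRing R] (I : Ideal R) {n : ℕ} (W : Matrix (Fin n) (Fin n) R)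
    (h : ∀ i j, W i j ∈ I) (i : ℕ) (hi : i < n) : W.charpoly.coeff i ∈ I := by
  rw [← Ideal.Quotient.eq_zero_iff_mem, ← coeff_map, ← Matrix.charpoly_map,
    ← RingHom.mapMatrix_apply, (mem_iff I W).mp h, Matrix.charpoly_zero, coeff_X_pow,
    if_neg]
  rw [Fintype.card_fin]
  exact hi.ne

end Pool.Agent.R826.Frob
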