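import Pool.Agent.R826.FrobB
import Pool.Agent.H225R3.Marg8

/-!
# The archimedean bounds
-/

set_option autoImplicit false

namespace Pool.Agent.R826.Frob

open Polynomial Matrix NumberField Pool.Agent.H225R3.Marg

theorem eig_aeval {n : ℕ} (Y N : Matrix (Fin n) (Fin n) ℂ) (w : ℂ)
    (hw : (aeval Y N.charpoly).charpoly.IsRoot w) :
    ∃ y : ℂ, Y.charpoly.IsRoot y ∧ w = N.charpoly.eval y := by
  rcases Nat.eq_zero_or_pos n with rfl | hn
  · exfalso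
    rw [Matrix.charpoly, Matrix.det_fin_zero] at hw
    simp [IsRoot] at hw
  rw [← Matrix.mem_spectrum_iff_isRoot_charpoly] at hw
  have hdeg : 0 < N.charpoly.degree := by
    rw [← natDegree_pos_iff_degree_pos, Matrix.charpoly_natDegree_eq_dim, Fintype.card_fin]
    exact hn
  rw [spectrum.map_polynomial_aeval_of_degree_pos _ _ hdeg] at hw
  obtain ⟨y, hy, rfl⟩ := hw
  exact ⟨y, Matrix.mem_spectrum_iff_isRoot_charpoly.mp hy, rfl⟩

theorem eig_aeval' {n : ℕ} (Y N : Matrix (Fin n) (Fin n) ℂ) (y : ℂ)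
    (hy : Y.charpoly.IsRoot y) : (aeval Y N.charpoly).charpoly.IsRoot (N.charpoly.eval y) := by
  rw [← Matrix.mem_spectrum_iff_isRoot_charpoly] at hy ⊢
  exact spectrum.subset_polynomial_aeval _ _ ⟨y, hy, rfl⟩

theorem prod_norm_le (s : Multiset ℂ) (y : ℂ) (c : ℝ) (h : ∀ z ∈ s, ‖y - z‖ ≤ c) (hc : 0 ≤ c) :
    ‖(s.map fun z => y - z).prod‖ ≤ c ^ (Multiset.card s) :=
  norm_prod_le_pow _ hc s h

theorem eval_le {n : ℕ} (N : Matrix (Fin n) (Fin n) ℂ) (y : ℂ) (a b : ℝ) (ha : 1 ≤ a) (hb : 1 ≤ b)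
    (hy : ‖y‖ ≤ a) (hN : ∀ z, N.charpoly.IsRoot z → ‖z‖ ≤ b) :
    ‖N.charpoly.eval y‖ ≤ (2 * (a * b)) ^ n := by
  have hsplit := IsAlgClosed.splits N.charpoly
  have h1 := hsplit.eq_prod_roots_of_monic N.charpoly_monic
  have h2 : N.charpoly.eval y = (N.charpoly.roots.map fun z => y - z).prod := by
    conv_lhs => rw [h1]
    rw [eval_multiset_prod, Multiset.map_map]
    simp
  have h3 : Multiset.card N.charpoly.roots = n := by
    rw [splits_iff_card_roots.mp hsplit, Matrix.charpoly_natDegree_eq_dim, Fintype.card_fin]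
  rw [h2]
  refine (prod_norm_le _ y (2 * (a * b)) (fun z hz => ?_) (by positivity)).trans_eq (by rw [h3])
  have h4 := hN z (mem_roots'.mp hz).2
  have h5 := norm_sub_le y z
  nlinarith [mul_nonneg (sub_nonneg.mpr ha) (sub_nonneg.mpr hb)]

theorem coeff_le {n : ℕ} (Y N : Matrix (Fin n) (Fin n) ℂ) (a b : ℝ) (ha : 1 ≤ a) (hb : 1 ≤ b)
    (hY : ∀ z, Y.charpoly.IsRoot z → ‖z‖ ≤ a) (hN : ∀ z, N.charpoly.IsRoot z → ‖z‖ ≤ b) (i : ℕ) :
    ‖(aeval Y N.charpoly).charpoly.coeff i‖ ≤ 2 ^ (n ^ 2 + n) * (a * b) ^ (n ^ 2) := by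
  set P := (aeval Y N.charpoly).charpoly with hP
  have h1 := coeff_bdd_of_roots_le (B := (2 * (a * b)) ^ n) (d := n) (RingHom.id ℂ) (p := P)
    (Matrix.charpoly_monic _) (by rw [Polynomial.map_id]; exact IsAlgClosed.splits _)
    (by rw [hP, Matrix.charpoly_natDegree_eq_dim, Fintype.card_fin])
    (fun z hz => by
      rw [Polynomial.map_id] at hz
      obtain ⟨y, hy, rfl⟩ := eig_aeval Y N z (mem_roots'.mp hz).2
      exact eval_le N y a b ha hb (hY y hy) hN) i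
  rw [Polynomial.map_id] at h1
  refine h1.trans ?_
  have hab : 1 ≤ a * b := by nlinarith
  have h2 : (1 : ℝ) ≤ (2 * (a * b)) ^ n := one_le_pow₀ (by linarith)
  rw [max_eq_left h2, ← pow_mul, ← sq, mul_pow, pow_add]
  have h3 : ((n.choose (n / 2) : ℕ) : ℝ) ≤ 2 ^ n := by
    exact_mod_cast Nat.choose_le_two_pow n (n / 2)
  calc (2 : ℝ) ^ n ^ 2 * (a * b) ^ n ^ 2 * (n.choose (n / 2) : ℕ)
      ≤ 2 ^ n ^ 2 * (a * b) ^ n ^ 2 * 2 ^ n := by gcongr
    _ = _ := by ring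

/-- norm of a nonzero element of an ideal -/
theorem norm_ge {k : Type} [Field k] [NumberField k] (J : Ideal (𝓞 k)) (x : 𝓞 k) (hx : x ∈ J)
    (hx0 : x ≠ 0) : (Ideal.absNorm J : ℝ) ≤ ∏ σ : k →+* ℂ, ‖emb σ x‖ := by
  rw [← norm_int_eq]
  have h1 := Int.natAbs_dvd_natAbs.mpr (Ideal.absNorm_dvd_norm_of_mem hx)
  rw [Int.natAbs_natCast] at h1
  have h2 : 0 < (Algebra.norm ℤ x).natAbs := Int.natAbs_pos.mpr (by
    rw [Ne, Algebra.norm_eq_zero_iff]; exact hx0)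
  exact_mod_cast Nat.le_of_dvd h2 h1

end Pool.Agent.R826.Frob
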