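import Pool.Agent.R826.FrobC

/-!
# The main inequality
-/

set_option autoImplicit false

namespace Pool.Agent.R826.Frob

open Polynomial Matrix NumberField Pool.Agent.H225R3.Marg

/-- composition of complex embeddings with an automorphism -/
def compEquiv {k : Type} [Field k] (φ : k ≃+* k) : (k →+* ℂ) ≃ (k →+* ℂ) where
  toFun σ := σ.comp (φ : k →+* k)
  invFun σ := σ.comp (φ.symm : k →+* k)
  left_inv σ := by ext x; simp
  right_inv σ := by ext x; simp

theorem emb_map {k : Type} [Field k] (φ : k ≃+* k) (σ : k →+* ℂ) {n : ℕ}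
    (A : Matrix (Fin n) (Fin n) (𝓞 k)) :
    (emb σ).mapMatrix ((RingOfIntegers.mapRingHom (φ : k →+* k)).mapMatrix A) =
      (emb (compEquiv φ σ)).mapMatrix A := by
  ext i j
  rfl

theorem emb_aeval {k : Type} [Field k] (σ : k →+* ℂ) {n : ℕ}
    (x : Matrix (Fin n) (Fin n) (𝓞 k)) (h : (𝓞 k)[X]) :
    (emb σ).mapMatrix (aeval x h) = aeval ((emb σ).mapMatrix x) (h.map (emb σ)) := by
  refine map_aeval_eq_aeval_map ?_ h x
  ext r i j
  by_cases hij : i = j
  · subst hij; simp [Matrix.algebraMap_matrix_apply]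
  · simp [Matrix.algebraMap_matrix_apply, hij]

open Classical in
theorem prod_r {k : Type} [Field k] [NumberField k] (S : Finset (k →+* ℂ)) (R : ℝ) :
    ∏ σ : k →+* ℂ, (if σ ∈ S then R else 1) = R ^ S.card := by
  rw [Finset.prod_ite, Finset.prod_const, Finset.prod_const_one, mul_one]
  congr 2
  ext σ
  simp

/-- roots of unity from the vanishing of the obstruction -/
theorem orbit {k : Type} [Field k] [NumberField k] {n : ℕ} (A : Matrix (Fin n) (Fin n) (𝓞 k))
    (hunit : IsUnit A) (q m : ℕ) (hq : 1 < q) (hm : 0 < m) (ψ : (k →+* ℂ) → (k →+* ℂ))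
    (h : ∀ (σ : k →+* ℂ) (l : ℂ), ((emb σ).mapMatrix A).charpoly.IsRoot l →
      ∃ z : ℂ, ((emb (ψ σ)).mapMatrix A).charpoly.IsRoot z ∧ (l ^ q) ^ m = z ^ m)
    (σ : k →+* ℂ) (l : ℂ) (hl : ((emb σ).mapMatrix A).charpoly.IsRoot l) :
    ∃ N : ℕ, 0 < N ∧ l ^ N = 1 := by
  classical
  have hl0 : l ≠ 0 := by
    rintro rfl
    rw [← Matrix.mem_spectrum_iff_isRoot_charpoly] at hl
    exact spectrum.zero_notMem ℂ (hunit.map (emb σ).mapMatrix) hl
  set X : Finset ℂ := Finset.univ.biUnion fun σ : k →+* ℂ =>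
    ((emb σ).mapMatrix A).charpoly.roots.toFinset with hX
  have hmem : ∀ z : ℂ, z ∈ X ↔ ∃ σ : k →+* ℂ, ((emb σ).mapMatrix A).charpoly.IsRoot z := by
    intro z
    simp only [hX, Finset.mem_biUnion, Finset.mem_univ, true_and, Multiset.mem_toFinset,
      mem_roots (Matrix.charpoly_monic _).ne_zero]
  set Y : Finset ℂ := X.image fun z => z ^ m with hY
  have hYc : ∀ y ∈ Y, y ^ q ∈ Y := by
    intro y hy
    obtain ⟨z, hz, rfl⟩ := Finset.mem_image.mp hy
    obtain ⟨τ, hτ⟩ := (hmem z).mp hz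
    obtain ⟨w, hw, hw2⟩ := h τ z hτ
    refine Finset.mem_image.mpr ⟨w, (hmem w).mpr ⟨_, hw⟩, ?_⟩
    rw [← hw2, ← pow_mul, ← pow_mul, mul_comm]
  have hYi : ∀ i : ℕ, (l ^ m) ^ q ^ i ∈ Y := by
    intro i
    induction i with
    | zero =>
      rw [pow_zero, pow_one]
      exact Finset.mem_image.mpr ⟨l, (hmem l).mpr ⟨σ, hl⟩, rfl⟩
    | succ i ih =>
      rw [pow_succ q i, pow_mul]
      exact hYc _ ih
  obtain ⟨i, j, hij, he⟩ : ∃ i j : ℕ, i < j ∧ (l ^ m) ^ q ^ i = (l ^ m) ^ q ^ j := by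
    have h1 := Finite.exists_ne_map_eq_of_infinite (fun i : ℕ => (⟨_, hYi i⟩ : Y))
    obtain ⟨i, j, hne, he⟩ := h1
    have he' : (l ^ m) ^ q ^ i = (l ^ m) ^ q ^ j := congrArg Subtype.val he
    rcases lt_or_gt_of_ne hne with h2 | h2
    · exact ⟨i, j, h2, he'⟩
    · exact ⟨j, i, h2, he'.symm⟩
  have hlt : q ^ i < q ^ j := Nat.pow_lt_pow_right hq hij
  refine ⟨m * (q ^ j - q ^ i), Nat.mul_pos hm (Nat.sub_pos_of_lt hlt), ?_⟩
  rw [pow_mul]
  have h3 : (l ^ m) ^ q ^ i * (l ^ m) ^ (q ^ j - q ^ i) = (l ^ m) ^ q ^ i * 1 := by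
    rw [← pow_add, Nat.add_sub_cancel' hlt.le, mul_one, ← he]
  exact mul_left_cancel₀ (pow_ne_zero _ (pow_ne_zero _ hl0)) h3

open Classical in
/-- main inequality -/
theorem frob_ineq {k : Type} [Field k] [NumberField k] {n : ℕ} (S : Finset (k →+* ℂ))
    (A : Matrix (Fin n) (Fin n) (𝓞 k)) (hunit : IsUnit A)
    (p a : ℕ) (hp : p.Prime) (ha : 0 < a) (φ : k ≃+* k) (I : Ideal (𝓞 k)) (hI : (p : 𝓞 k) ∈ I)
    (hφ : ∀ x : 𝓞 k, RingOfIntegers.mapRingHom (φ : k →+* k) x - x ^ p ^ a ∈ I)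
    (R : ℝ) (hR : 1 ≤ R)
    (hout : ∀ σ : k →+* ℂ, σ ∉ S → ∀ l : ℂ, ((emb σ).mapMatrix A).charpoly.IsRoot l → ‖l‖ ≤ 1)
    (hin : ∀ σ ∈ S, ∀ l : ℂ, ((emb σ).mapMatrix A).charpoly.IsRoot l → ‖l‖ ≤ R)
    (hnil : ∀ N : ℕ, 0 < N → ¬ IsNilpotent (A ^ N - 1)) (t : ℕ) :
    (Ideal.absNorm I : ℝ) ^ (t + 1) ≤ (2 ^ (n ^ 2 + n)) ^ (Fintype.card (k →+* ℂ)) *
      R ^ ((p ^ a + 1) * p ^ t * n ^ 2 * S.card) := by
  set φO := RingOfIntegers.mapRingHom (φ : k →+* k) with hφO
  set M := φO.mapMatrix A with hM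
  set x := A ^ p ^ a with hx
  have hcp : ∀ i, M.charpoly.coeff i = φO (A.charpoly.coeff i) := by
    intro i
    rw [hM, RingHom.mapMatrix_apply, Matrix.charpoly_map, coeff_map]
  have hbase : ∀ i j, aeval x M.charpoly i j ∈ I := by
    refine base I M x fun i => ?_
    have h1 := hφ (A.charpoly.coeff i)
    have h2 := ideal_coeff p hp I hI A a i
    have h3 := I.sub_mem h1 h2
    rw [hcp]
    convert h3 using 1
    ring
  have hchain := chain p hp I hI M x hbase t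
  set W := aeval (x ^ p ^ t) (M ^ p ^ t).charpoly with hW
  have hWσ : ∀ σ : k →+* ℂ, (emb σ).mapMatrix W =
      aeval (((emb σ).mapMatrix A) ^ (p ^ a * p ^ t))
        (((emb (compEquiv φ σ)).mapMatrix A) ^ p ^ t).charpoly := by
    intro σ
    have hMσ : (emb σ).mapMatrix M = (emb (compEquiv φ σ)).mapMatrix A := emb_map φ σ A
    have hxσ : (emb σ).mapMatrix x = ((emb σ).mapMatrix A) ^ p ^ a := map_pow _ _ _
    rw [hW, emb_aeval, ← Matrix.charpoly_map, ← RingHom.mapMatrix_apply,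
      map_pow (emb σ).mapMatrix x, map_pow (emb σ).mapMatrix M, hMσ, hxσ, ← pow_mul]
  have hpt : 0 < p ^ t := pow_pos hp.pos t
  have hpa : 1 < p ^ a := Nat.one_lt_pow ha.ne' hp.one_lt
  by_cases hall : ∀ i < n, W.charpoly.coeff i = 0
  · exfalso
    have hWX : W.charpoly = X ^ n := by
      refine Polynomial.ext fun i => ?_
      rw [coeff_X_pow]
      split_ifs with hi
      · rw [hi]
        have h1 := W.charpoly_monic
        have h2 := Matrix.charpoly_natDegree_eq_dim W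
        rw [Fintype.card_fin] at h2
        have h3 := h1.coeff_natDegree
        rwa [h2] at h3
      · rcases lt_or_gt_of_ne hi with h1 | h1
        · exact hall i h1
        · refine coeff_eq_zero_of_natDegree_lt ?_
          rw [Matrix.charpoly_natDegree_eq_dim, Fintype.card_fin]
          exact h1
    have hroot : ∀ (σ : k →+* ℂ) (l : ℂ), ((emb σ).mapMatrix A).charpoly.IsRoot l →
      ∃ z : ℂ, ((emb (compEquiv φ σ)).mapMatrix A).charpoly.IsRoot z ∧
        (l ^ p ^ a) ^ p ^ t = z ^ p ^ t := by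
      intro σ l hl
      have h1 : (((emb σ).mapMatrix A) ^ (p ^ a * p ^ t)).charpoly.IsRoot
          (l ^ (p ^ a * p ^ t)) := by
        rw [← Matrix.mem_spectrum_iff_isRoot_charpoly] at hl ⊢
        exact spectrum.pow_mem_pow _ _ hl
      have h2 := eig_aeval' _ (((emb (compEquiv φ σ)).mapMatrix A) ^ p ^ t) _ h1
      rw [← hWσ, RingHom.mapMatrix_apply, Matrix.charpoly_map, hWX] at h2
      have h3 : ((((emb (compEquiv φ σ)).mapMatrix A) ^ p ^ t).charpoly).IsRoot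
          (l ^ (p ^ a * p ^ t)) := by
        rw [IsRoot, Polynomial.map_pow, Polynomial.map_X, eval_pow, eval_X] at h2
        exact eq_zero_of_pow_eq_zero h2
      obtain ⟨z, hz, hz2⟩ := eig_pow' _ _ hpt _ h3
      exact ⟨z, hz, by rw [← pow_mul]; exact hz2⟩
    obtain ⟨σ⟩ : Nonempty (k →+* ℂ) := inferInstance
    obtain ⟨N, hN, hN2⟩ := nilp_of_roots (emb σ) (by
        intro u v huv
        exact RingOfIntegers.coe_injective (σ.injective huv)) A (fun l hl =>
      orbit A hunit (p ^ a) (p ^ t) hpa hpt (compEquiv φ) hroot σ l (by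
        rw [RingHom.mapMatrix_apply, Matrix.charpoly_map]
        exact hl))
    exact hnil N hN hN2
  · push Not at hall
    obtain ⟨i, hi, hc0⟩ := hall
    have hmem := coeff_mem (I ^ (t + 1)) W hchain i hi
    have h1 := norm_ge (I ^ (t + 1)) _ hmem hc0
    rw [map_pow, Nat.cast_pow] at h1
    refine h1.trans ?_
    set r : (k →+* ℂ) → ℝ := fun σ => if σ ∈ S then R else 1 with hr
    have hr1 : ∀ σ, 1 ≤ r σ := by
      intro σ
      simp only [hr]
      split_ifs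
      · exact hR
      · exact le_rfl
    have hrl : ∀ (σ : k →+* ℂ) (l : ℂ), ((emb σ).mapMatrix A).charpoly.IsRoot l → ‖l‖ ≤ r σ := by
      intro σ l hl
      simp only [hr]
      split_ifs with hσ
      · exact hin σ hσ l hl
      · exact hout σ hσ l hl
    have hbound : ∀ σ : k →+* ℂ, ‖emb σ (W.charpoly.coeff i)‖ ≤
        2 ^ (n ^ 2 + n) * (r σ ^ (p ^ a * p ^ t) * r (compEquiv φ σ) ^ p ^ t) ^ (n ^ 2) := by
      intro σ
      rw [← coeff_map, ← Matrix.charpoly_map, ← RingHom.mapMatrix_apply, hWσ]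
      refine coeff_le _ _ _ _ (one_le_pow₀ (hr1 σ)) (one_le_pow₀ (hr1 _)) ?_ ?_ i
      · intro z hz
        obtain ⟨l, hl, rfl⟩ := eig_pow' _ _ (Nat.mul_pos (zero_lt_one.trans hpa) hpt) _ hz
        rw [norm_pow]
        exact pow_le_pow_left₀ (norm_nonneg _) (hrl σ l hl) _
      · intro z hz
        obtain ⟨l, hl, rfl⟩ := eig_pow' _ _ hpt _ hz
        rw [norm_pow]
        exact pow_le_pow_left₀ (norm_nonneg _) (hrl _ l hl) _
    refine (Finset.prod_le_prod (fun σ _ => norm_nonneg _) fun σ _ => hbound σ).trans_eq ?_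
    rw [Finset.prod_mul_distrib, Finset.prod_const, Finset.card_univ, Finset.prod_pow,
      Finset.prod_mul_distrib, Finset.prod_pow, Finset.prod_pow,
      (compEquiv φ).prod_comp r]
    congr 1
    have hrS : ∏ σ, r σ = R ^ S.card := prod_r S R
    rw [hrS, ← pow_mul, ← pow_mul, ← pow_add, ← pow_mul]
    congr 1
    ring

end Pool.Agent.R826.Frob
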