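import Pool.Agent.R826.FrobD

/-!
# The gap theorem
-/

set_option autoImplicit false

namespace Pool.Agent.R826.Frob

open Polynomial Matrix NumberField Pool.Agent.H225R3.Marg

theorem frob_gap (B : ℝ) (hB : 1 < B) (Q n : ℕ) : ∃ E : ℕ, 0 < E ∧
    ∀ (k : Type) [Field k] [NumberField k] (S : Finset (k →+* ℂ))
      (A : Matrix (Fin n) (Fin n) (𝓞 k)) (p a : ℕ) (φ : k ≃+* k) (I : Ideal (𝓞 k)),
      S.Nonempty → IsUnit A → p.Prime → 0 < a → p ^ a ≤ Q → (p : 𝓞 k) ∈ I →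
      (∀ x : 𝓞 k, RingOfIntegers.mapRingHom (φ : k →+* k) x - x ^ p ^ a ∈ I) →
      B ^ Module.finrank ℚ k ≤ (Ideal.absNorm I : ℝ) →
      (∀ σ : k →+* ℂ, σ ∉ S → ∀ l : ℂ, ((emb σ).mapMatrix A).charpoly.IsRoot l → ‖l‖ ≤ 1) →
      (∀ N : ℕ, 0 < N → ¬ IsNilpotent (A ^ N - 1)) →
      ∃ σ ∈ S, ∃ l : ℂ, ((emb σ).mapMatrix A).charpoly.IsRoot l ∧
        2 ^ Module.finrank ℚ k ≤ ‖l‖ ^ (E * S.card) := by
  obtain ⟨t0, ht0⟩ := pow_unbounded_of_one_lt (2 * (2 : ℝ) ^ (n ^ 2 + n)) hB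
  set t := t0 with ht
  have hBt : 2 * (2 : ℝ) ^ (n ^ 2 + n) < B ^ (t + 1) :=
    ht0.trans_le (pow_le_pow_right₀ hB.le (Nat.le_succ _))
  refine ⟨(Q + 1) * Q ^ t * n ^ 2 + 1, Nat.succ_pos _, ?_⟩
  intro k _ _ S A p a φ I hS hunit hp ha hQ hI hφ hB2 hout hnil
  set E := (Q + 1) * Q ^ t * n ^ 2 + 1 with hE
  set d := Module.finrank ℚ k with hd
  have hdpos : 0 < d := Module.finrank_pos
  have hSpos : 0 < S.card := Finset.card_pos.mpr hS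
  have hES : E * S.card ≠ 0 := (Nat.mul_pos (Nat.succ_pos _) hSpos).ne'
  by_contra hcon
  push Not at hcon
  set R : ℝ := ((2 : ℝ) ^ d) ^ (((E * S.card : ℕ) : ℝ)⁻¹) with hR
  have hRpow : R ^ (E * S.card) = 2 ^ d := Real.rpow_inv_natCast_pow (by positivity) hES
  have hR1 : 1 ≤ R := Real.one_le_rpow (one_le_pow₀ one_le_two) (by positivity)
  have hin : ∀ σ ∈ S, ∀ l : ℂ, ((emb σ).mapMatrix A).charpoly.IsRoot l → ‖l‖ ≤ R := by
    intro σ hσ l hl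
    by_contra h
    push Not at h
    have h1 := pow_le_pow_left₀ (by linarith) h.le (E * S.card)
    rw [hRpow] at h1
    exact absurd (hcon σ hσ l hl) (not_lt.mpr h1)
  have key := frob_ineq S A hunit p a hp ha φ I hI hφ R hR1 hout hin hnil t
  rw [NumberField.Embeddings.card] at key
  have hpQ : p ≤ Q := (Nat.le_self_pow ha.ne' p).trans hQ
  have hexp : (p ^ a + 1) * p ^ t * n ^ 2 * S.card ≤ E * S.card := by
    refine Nat.mul_le_mul_right _ ?_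
    rw [hE]
    refine le_trans ?_ (Nat.le_succ _)
    gcongr
  have h2 : R ^ ((p ^ a + 1) * p ^ t * n ^ 2 * S.card) ≤ 2 ^ d := by
    rw [← hRpow]
    exact pow_le_pow_right₀ hR1 hexp
  have h3 : (B ^ (t + 1)) ^ d ≤ (2 * (2 : ℝ) ^ (n ^ 2 + n)) ^ d := by
    calc (B ^ (t + 1)) ^ d = (B ^ d) ^ (t + 1) := by rw [← pow_mul, ← pow_mul, mul_comm]
      _ ≤ (Ideal.absNorm I : ℝ) ^ (t + 1) := by gcongr
      _ ≤ _ := key
      _ ≤ (2 ^ (n ^ 2 + n)) ^ d * 2 ^ d := by gcongr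
      _ = _ := by rw [← mul_pow]; ring
  have h4 : (2 * (2 : ℝ) ^ (n ^ 2 + n)) ^ d < (B ^ (t + 1)) ^ d :=
    pow_lt_pow_left₀ hBt (by positivity) hdpos.ne'
  exact absurd h3 (not_le.mpr h4)

end Pool.Agent.R826.Frob
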