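import Pool.Agent.R826.FrobE

/-!
# Extension fields, and the uniform discreteness
-/

set_option autoImplicit false

namespace Pool.Agent.R826.Frob

open Polynomial Matrix NumberField Pool.Agent.H225R3.Marg

theorem ext_gap (B : ℝ) (hB : 1 < B) (Q n : ℕ) : ∃ E : ℕ, 0 < E ∧
    ∀ (k k' : Type) [Field k] [NumberField k] [Field k'] [NumberField k'] [Algebra k k']
      (S : Finset (k →+* ℂ))
      (A : Matrix (Fin n) (Fin n) (𝓞 k)) (p a : ℕ) (φ : k' ≃+* k') (I : Ideal (𝓞 k')),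
      S.Nonempty → IsUnit A → p.Prime → 0 < a → p ^ a ≤ Q → (p : 𝓞 k') ∈ I →
      (∀ x : 𝓞 k', RingOfIntegers.mapRingHom (φ : k' →+* k') x - x ^ p ^ a ∈ I) →
      B ^ Module.finrank ℚ k' ≤ (Ideal.absNorm I : ℝ) →
      (∀ σ : k →+* ℂ, σ ∉ S → ∀ l : ℂ, ((emb σ).mapMatrix A).charpoly.IsRoot l → ‖l‖ ≤ 1) →
      (∀ N : ℕ, 0 < N → ¬ IsNilpotent (A ^ N - 1)) →
      ∃ σ ∈ S, ∃ l : ℂ, ((emb σ).mapMatrix A).charpoly.IsRoot l ∧
        2 ^ Module.finrank ℚ k ≤ ‖l‖ ^ (E * S.card) := by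
  classical
  obtain ⟨E, hE, h⟩ := frob_gap B hB Q n
  refine ⟨E, hE, ?_⟩
  intro k k' _ _ _ _ _ S A p a φ I hS hunit hp ha hQ hI hφ hB2 hout hnil
  set ι : 𝓞 k →+* 𝓞 k' := RingOfIntegers.mapRingHom (algebraMap k k') with hι
  have hιinj : Function.Injective ι := by
    intro x y hxy
    have h1 : algebraMap k k' (x : k) = algebraMap k k' (y : k) := congrArg (fun z : 𝓞 k' => (z : k')) hxy
    exact RingOfIntegers.coe_injective ((algebraMap k k').injective h1)
  set S' : Finset (k' →+* ℂ) := Finset.univ.filter fun τ : k' →+* ℂ => τ.comp (algebraMap k k') ∈ S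
    with hS'
  have hembA : ∀ τ : k' →+* ℂ, (emb τ).mapMatrix (ι.mapMatrix A) =
      (emb (τ.comp (algebraMap k k'))).mapMatrix A := by
    intro τ
    ext i j
    rfl
  have hcard := card_over (L := k') S
  have hmpos : 0 < Module.finrank k k' := Module.finrank_pos
  have hSpos : 0 < S.card := Finset.card_pos.mpr hS
  have hS'ne : S'.Nonempty := by
    rw [← Finset.card_pos, hS', hcard]
    exact Nat.mul_pos hSpos hmpos
  obtain ⟨τ, hτ, l, hl, hle⟩ := h k' S' (ι.mapMatrix A) p a φ I hS'ne (hunit.map ι.mapMatrix) hp ha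
    hQ hI hφ hB2 (by
      intro τ hτ l hl
      rw [hembA] at hl
      refine hout _ (fun hmem => hτ ?_) l hl
      rw [hS', Finset.mem_filter]
      exact ⟨Finset.mem_univ _, hmem⟩) (by
      intro N hN hnl
      refine hnil N hN ?_
      rw [← map_pow, ← map_one ι.mapMatrix, ← map_sub] at hnl
      refine (IsNilpotent.map_iff ?_).mp hnl
      intro U V hUV
      ext i j
      have h1 := congrFun (congrFun hUV i) j
      have h2 := hιinj h1
      exact congrArg _ h2)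
  rw [hS', Finset.mem_filter] at hτ
  rw [hembA] at hl
  refine ⟨_, hτ.2, l, hl, ?_⟩
  rw [hS', hcard, ← Module.finrank_mul_finrank ℚ k k', pow_mul, ← mul_assoc, pow_mul] at hle
  exact (pow_le_pow_iff_left₀ (by positivity) (by positivity) hmpos.ne').mp hle

/-- an eigenvalue of size at least `2 ^ (d / (E s))`, `s ≤ d`, is bounded away from one -/
theorem eps_of (E : ℕ) (hE : 0 < E) : ∃ ε : ℝ, 0 < ε ∧ ∀ (d s : ℕ) (l : ℂ), 0 < s → s ≤ d →
    2 ^ d ≤ ‖l‖ ^ (E * s) → ε ≤ ‖l - 1‖ := by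
  set c : ℝ := (2 : ℝ) ^ ((E : ℝ)⁻¹) with hc
  have hcE : c ^ E = 2 := Real.rpow_inv_natCast_pow (by norm_num) hE.ne'
  have hc1 : 1 < c := Real.one_lt_rpow (by norm_num) (by positivity)
  refine ⟨c - 1, by linarith, ?_⟩
  intro d s l hs hsd h
  by_contra hcon
  push Not at hcon
  have h1 : ‖l‖ < c := by
    have h2 := norm_add_le (l - 1) 1
    rw [sub_add_cancel, norm_one] at h2
    linarith
  have h2 : ‖l‖ ^ (E * s) < c ^ (E * s) :=
    pow_lt_pow_left₀ h1 (norm_nonneg _) (Nat.mul_pos hE hs).ne'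
  rw [pow_mul c, hcE] at h2
  have h3 : (2 : ℝ) ^ s ≤ 2 ^ d := pow_le_pow_right₀ (by norm_num) hsd
  linarith

end Pool.Agent.R826.Frob
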