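import Pool.Agent.R826.FrobF

/-!
# Central Frobenius automorphisms
-/

set_option autoImplicit false

namespace Pool.Agent.R826.Frob

open NumberField Module
open scoped Pointwise

theorem central {F k' : Type} [Field F] [NumberField F] [Field k'] [NumberField k'] [Algebra F k']
    [IsGalois F k'] (p a : ℕ) (φ : Gal(k'/F))
    (hcomm : ∀ τ : Gal(k'/F), φ * τ = τ * φ)
    (hrad : (Ideal.span {(p : 𝓞 k')}).IsRadical)
    (h : ∀ P : Ideal (𝓞 F), P.IsPrime → (p : 𝓞 F) ∈ P → ∃ q : Ideal (𝓞 k'), q.IsPrime ∧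
      q.under (𝓞 F) = P ∧ ∀ x : 𝓞 k', φ • x - x ^ p ^ a ∈ q) (x : 𝓞 k') :
    φ • x - x ^ p ^ a ∈ Ideal.span {(p : 𝓞 k')} := by
  rw [← hrad.radical, Ideal.radical_eq_sInf, Ideal.mem_sInf]
  rintro J ⟨hJ1, hJ2⟩
  have hpJ : (p : 𝓞 k') ∈ J := hJ1 (Ideal.mem_span_singleton_self _)
  obtain ⟨q, hq, hq2, hq3⟩ := h (J.under (𝓞 F)) inferInstance (by
    rw [Ideal.mem_comap, map_natCast]
    exact hpJ)
  obtain ⟨τ, hτ⟩ := Algebra.IsInvariant.exists_smul_of_under_eq (𝓞 F) (𝓞 k') Gal(k'/F) q J hq2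
  have h1 := hq3 (τ⁻¹ • x)
  have h2 : τ • (φ • (τ⁻¹ • x) - (τ⁻¹ • x) ^ p ^ a) ∈ τ • q :=
    Ideal.smul_mem_pointwise_smul _ _ _ h1
  rw [hτ]
  convert h2 using 1
  rw [smul_sub, smul_pow', smul_inv_smul, smul_smul, smul_smul, ← hcomm τ, mul_assoc,
    mul_inv_cancel, mul_one]

end Pool.Agent.R826.Frob
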