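import Pool.Agent.R826.FrobF
import Pool.Agent.Y399.MG.G

/-!
# The dichotomy for automorphisms with `φ x ^ q' ≡ x ^ q`
-/

set_option autoImplicit false

namespace Pool.Agent.R826.Frob

open Polynomial Matrix NumberField Pool.Agent.H225R3.Marg

open Classical in
/-- main dichotomy -/
theorem dich {k : Type} [Field k] [NumberField k] {n : ℕ} (S : Finset (k →+* ℂ))
    (A : Matrix (Fin n) (Fin n) (𝓞 k))
    (p a b : ℕ) (hp : p.Prime) (φ : k ≃+* k) (I : Ideal (𝓞 k)) (hI : (p : 𝓞 k) ∈ I)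
    (hφ : ∀ x : 𝓞 k, (RingOfIntegers.mapRingHom (φ : k →+* k) x) ^ p ^ b - x ^ p ^ a ∈ I)
    (R : ℝ) (hR : 1 ≤ R)
    (hout : ∀ σ : k →+* ℂ, σ ∉ S → ∀ l : ℂ, ((emb σ).mapMatrix A).charpoly.IsRoot l → ‖l‖ ≤ 1)
    (hin : ∀ σ ∈ S, ∀ l : ℂ, ((emb σ).mapMatrix A).charpoly.IsRoot l → ‖l‖ ≤ R) (t : ℕ) :
    (∀ (σ : k →+* ℂ) (l : ℂ), ((emb σ).mapMatrix A).charpoly.IsRoot l →
      ∃ z : ℂ, ((emb (compEquiv φ σ)).mapMatrix A).charpoly.IsRoot z ∧
        l ^ (p ^ a * p ^ t) = z ^ (p ^ b * p ^ t)) ∨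
    (Ideal.absNorm I : ℝ) ^ (t + 1) ≤ (2 ^ (n ^ 2 + n)) ^ (Fintype.card (k →+* ℂ)) *
      R ^ ((p ^ a + p ^ b) * p ^ t * n ^ 2 * S.card) := by
  set φO := RingOfIntegers.mapRingHom (φ : k →+* k) with hφO
  set M := (φO.mapMatrix A) ^ p ^ b with hM
  set x := A ^ p ^ a with hx
  have hcp : ∀ i, (φO.mapMatrix A).charpoly.coeff i = φO (A.charpoly.coeff i) := by
    intro i
    rw [RingHom.mapMatrix_apply, Matrix.charpoly_map, coeff_map]
  have hbase : ∀ i j, aeval x M.charpoly i j ∈ I := by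
    refine base I M x fun i => ?_
    have h1 := hφ (A.charpoly.coeff i)
    have h2 := ideal_coeff p hp I hI A a i
    have h4 := ideal_coeff p hp I hI (φO.mapMatrix A) b i
    rw [hcp] at h4
    have h3 := I.sub_mem (I.add_mem h4 h1) h2
    convert h3 using 1
    ring
  have hchain := chain p hp I hI M x hbase t
  set W := aeval (x ^ p ^ t) (M ^ p ^ t).charpoly with hW
  have hWσ : ∀ σ : k →+* ℂ, (emb σ).mapMatrix W =
      aeval (((emb σ).mapMatrix A) ^ (p ^ a * p ^ t))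
        (((emb (compEquiv φ σ)).mapMatrix A) ^ (p ^ b * p ^ t)).charpoly := by
    intro σ
    have hMσ : (emb σ).mapMatrix M = ((emb (compEquiv φ σ)).mapMatrix A) ^ p ^ b := by
      rw [hM, map_pow]
      congr 1
    have hxσ : (emb σ).mapMatrix x = ((emb σ).mapMatrix A) ^ p ^ a := map_pow _ _ _
    rw [hW, emb_aeval, ← Matrix.charpoly_map, ← RingHom.mapMatrix_apply,
      map_pow (emb σ).mapMatrix x, map_pow (emb σ).mapMatrix M, hMσ, hxσ, ← pow_mul, ← pow_mul]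
  have hpt : 0 < p ^ t := pow_pos hp.pos t
  have hpa : 0 < p ^ a := pow_pos hp.pos a
  have hpb : 0 < p ^ b := pow_pos hp.pos b
  by_cases hall : ∀ i < n, W.charpoly.coeff i = 0
  · left
    have hWX : W.charpoly = X ^ n := by
      refine Polynomial.ext fun i => ?_
      rw [coeff_X_pow]
      split_ifs with hi
      · rw [hi]
        have h1 := W.charpoly_monic
        have h2 := Matrix.charpoly_natDegree_eq_dim W
        rw [Fintype.card_fin] at h2
        have h3 := h1.coeff_natDegree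
        rwa [h2] at h3
      · rcases lt_or_gt_of_ne hi with h1 | h1
        · exact hall i h1
        · refine coeff_eq_zero_of_natDegree_lt ?_
          rw [Matrix.charpoly_natDegree_eq_dim, Fintype.card_fin]
          exact h1
    intro σ l hl
    have h1 : (((emb σ).mapMatrix A) ^ (p ^ a * p ^ t)).charpoly.IsRoot
        (l ^ (p ^ a * p ^ t)) := by
      rw [← Matrix.mem_spectrum_iff_isRoot_charpoly] at hl ⊢
      exact spectrum.pow_mem_pow _ _ hl
    have h2 := eig_aeval' _ (((emb (compEquiv φ σ)).mapMatrix A) ^ (p ^ b * p ^ t)) _ h1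
    rw [← hWσ, RingHom.mapMatrix_apply, Matrix.charpoly_map, hWX] at h2
    have h3 : ((((emb (compEquiv φ σ)).mapMatrix A) ^ (p ^ b * p ^ t)).charpoly).IsRoot
        (l ^ (p ^ a * p ^ t)) := by
      rw [IsRoot, Polynomial.map_pow, Polynomial.map_X, eval_pow, eval_X] at h2
      exact eq_zero_of_pow_eq_zero h2
    obtain ⟨z, hz, hz2⟩ := eig_pow' _ _ (Nat.mul_pos hpb hpt) _ h3
    exact ⟨z, hz, hz2⟩
  · right
    push Not at hall
    obtain ⟨i, hi, hc0⟩ := hall
    have hmem := coeff_mem (I ^ (t + 1)) W hchain i hi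
    have h1 := norm_ge (I ^ (t + 1)) _ hmem hc0
    rw [map_pow, Nat.cast_pow] at h1
    refine h1.trans ?_
    set r : (k →+* ℂ) → ℝ := fun σ => if σ ∈ S then R else 1 with hr
    have hr1 : ∀ σ, 1 ≤ r σ := by
      intro σ
      simp only [hr]
      split_ifs
      · exact hR
      · exact le_rfl
    have hrl : ∀ (σ : k →+* ℂ) (l : ℂ), ((emb σ).mapMatrix A).charpoly.IsRoot l → ‖l‖ ≤ r σ := by
      intro σ l hl
      simp only [hr]
      split_ifs with hσ
      · exact hin σ hσ l hl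
      · exact hout σ hσ l hl
    have hbound : ∀ σ : k →+* ℂ, ‖emb σ (W.charpoly.coeff i)‖ ≤
        2 ^ (n ^ 2 + n) *
          (r σ ^ (p ^ a * p ^ t) * r (compEquiv φ σ) ^ (p ^ b * p ^ t)) ^ (n ^ 2) := by
      intro σ
      rw [← coeff_map, ← Matrix.charpoly_map, ← RingHom.mapMatrix_apply, hWσ]
      refine coeff_le _ _ _ _ (one_le_pow₀ (hr1 σ)) (one_le_pow₀ (hr1 _)) ?_ ?_ i
      · intro z hz
        obtain ⟨l, hl, rfl⟩ := eig_pow' _ _ (Nat.mul_pos hpa hpt) _ hz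
        rw [norm_pow]
        exact pow_le_pow_left₀ (norm_nonneg _) (hrl σ l hl) _
      · intro z hz
        obtain ⟨l, hl, rfl⟩ := eig_pow' _ _ (Nat.mul_pos hpb hpt) _ hz
        rw [norm_pow]
        exact pow_le_pow_left₀ (norm_nonneg _) (hrl _ l hl) _
    refine (Finset.prod_le_prod (fun σ _ => norm_nonneg _) fun σ _ => hbound σ).trans_eq ?_
    rw [Finset.prod_mul_distrib, Finset.prod_const, Finset.card_univ, Finset.prod_pow,
      Finset.prod_mul_distrib, Finset.prod_pow, Finset.prod_pow,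
      (compEquiv φ).prod_comp r]
    congr 1
    have hrS : ∏ σ, r σ = R ^ S.card := prod_r S R
    rw [hrS, ← pow_mul, ← pow_mul, ← pow_add, ← pow_mul]
    congr 1
    ring

/-- an eigenvalue outside the unit circle -/
theorem exists_big {k : Type} [Field k] [NumberField k] {n : ℕ} (S : Finset (k →+* ℂ))
    (A : Matrix (Fin n) (Fin n) (𝓞 k)) (hA : IsUnit A)
    (hout : ∀ σ : k →+* ℂ, σ ∉ S → ∀ l : ℂ, ((emb σ).mapMatrix A).charpoly.IsRoot l → ‖l‖ ≤ 1)
    (hnil : ∀ N : ℕ, 0 < N → ¬ IsNilpotent (A ^ N - 1)) :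
    ∃ σ : k →+* ℂ, ∃ l : ℂ, ((emb σ).mapMatrix A).charpoly.IsRoot l ∧ 1 < ‖l‖ := by
  obtain ⟨σ, _, l, hl, h1, _⟩ := Pool.Agent.Y399.MG.gap_of k n S A (fun _ => True)
    (fun _ _ _ _ _ _ _ _ _ _ _ _ _ => trivial) hA hout hnil
  exact ⟨σ, l, hl, h1⟩

end Pool.Agent.R826.Frob
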