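import Pool.Agent.R826.FrobH

/-!
# The gap theorem for inertia automorphisms
-/

set_option autoImplicit false

namespace Pool.Agent.R826.Frob

open Polynomial Matrix NumberField Pool.Agent.H225R3.Marg

theorem compEquiv_mul {k : Type} [Field k] (g h : RingAut k) (σ : k →+* ℂ) :
    compEquiv (g * h) σ = compEquiv h (compEquiv g σ) := rfl

theorem compEquiv_one {k : Type} [Field k] (σ : k →+* ℂ) :
    compEquiv (1 : RingAut k) σ = σ := rfl

/-- invariance under the generated group, and the count -/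
theorem card_closure_le {k : Type} [Field k] [NumberField k] (S : Finset (k →+* ℂ))
    (U : Set (k →+* ℂ)) (hUS : ∀ σ ∈ U, σ ∈ S) (σ0 : k →+* ℂ) (h0 : σ0 ∈ U) (T : Set (RingAut k))
    (hT : ∀ τ ∈ T, ∀ σ ∈ U, compEquiv τ σ ∈ U) :
    Nat.card (Subgroup.closure T) ≤ S.card := by
  classical
  have hT' : ∀ τ ∈ T, ∀ σ, σ ∈ U ↔ compEquiv τ σ ∈ U := by
    intro τ hτ σ
    refine ⟨hT τ hτ σ, fun h => ?_⟩
    let f : U → U := fun u => ⟨compEquiv τ u.1, hT τ hτ u.1 u.2⟩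
    have hf : Function.Injective f := by
      intro u v huv
      have h1 : compEquiv τ u.1 = compEquiv τ v.1 := congrArg Subtype.val huv
      exact Subtype.ext ((compEquiv τ).injective h1)
    obtain ⟨v, hv⟩ := Finite.surjective_of_injective hf ⟨_, h⟩
    have h1 : compEquiv τ v.1 = compEquiv τ σ := congrArg Subtype.val hv
    have h2 := (compEquiv τ).injective h1
    rw [← h2]
    exact v.2
  have hcl : ∀ g ∈ Subgroup.closure T, ∀ σ, σ ∈ U ↔ compEquiv g σ ∈ U := by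
    intro g hg
    induction hg using Subgroup.closure_induction with
    | mem x hx => exact hT' x hx
    | one => intro σ; exact Iff.rfl
    | mul x y _ _ hx hy =>
      intro σ
      rw [compEquiv_mul, ← hy, ← hx]
    | inv x _ hx =>
      intro σ
      rw [hx (compEquiv x⁻¹ σ), ← compEquiv_mul, inv_mul_cancel, compEquiv_one]
  have hinj : Function.Injective (fun g : Subgroup.closure T =>
      (⟨compEquiv g.1 σ0, hUS _ ((hcl g.1 g.2 σ0).mp h0)⟩ : S)) := by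
    intro g h hgh
    have h1 : compEquiv g.1 σ0 = compEquiv h.1 σ0 := congrArg Subtype.val hgh
    refine Subtype.ext (RingEquiv.ext fun x => σ0.injective ?_)
    exact RingHom.congr_fun h1 x
  have := Nat.card_le_card_of_injective _ hinj
  rwa [Nat.card_eq_fintype_card (α := S), Fintype.card_coe] at this

theorem inertia_gap (B : ℝ) (hB : 1 < B) (Q n : ℕ) : ∃ E : ℕ, 0 < E ∧
    ∀ (k : Type) [Field k] [NumberField k] (S : Finset (k →+* ℂ))
      (A : Matrix (Fin n) (Fin n) (𝓞 k)) (T : Set (RingAut k)),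
      (∀ τ ∈ T, ∃ (p i : ℕ) (I : Ideal (𝓞 k)), p.Prime ∧ p ≤ Q ∧ p ^ i ≤ Q ∧ (p : 𝓞 k) ∈ I ∧
        (∀ x : 𝓞 k, (RingOfIntegers.mapRingHom (τ : k →+* k) x) ^ p ^ i - x ^ p ^ i ∈ I) ∧
        B ^ Module.finrank ℚ k ≤ (Ideal.absNorm I : ℝ)) →
      S.card < Nat.card (Subgroup.closure T) → IsUnit A →
      (∀ σ : k →+* ℂ, σ ∉ S → ∀ l : ℂ, ((emb σ).mapMatrix A).charpoly.IsRoot l → ‖l‖ ≤ 1) →
      (∀ N : ℕ, 0 < N → ¬ IsNilpotent (A ^ N - 1)) →
      ∃ σ ∈ S, ∃ l : ℂ, ((emb σ).mapMatrix A).charpoly.IsRoot l ∧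
        2 ^ Module.finrank ℚ k ≤ ‖l‖ ^ (E * S.card) := by
  obtain ⟨t, ht0⟩ := pow_unbounded_of_one_lt (2 * (2 : ℝ) ^ (n ^ 2 + n)) hB
  have hBt : 2 * (2 : ℝ) ^ (n ^ 2 + n) < B ^ (t + 1) :=
    ht0.trans_le (pow_le_pow_right₀ hB.le (Nat.le_succ _))
  refine ⟨(Q + Q) * Q ^ t * n ^ 2 + 1, Nat.succ_pos _, ?_⟩
  intro k _ _ S A T hT hcard hunit hout hnil
  obtain ⟨σ0, l0, hl0, hl01⟩ := exists_big S A hunit hout hnil
  set U : Set (k →+* ℂ) := {σ | ∃ l : ℂ, ((emb σ).mapMatrix A).charpoly.IsRoot l ∧ 1 < ‖l‖} with hU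
  have hUS : ∀ σ ∈ U, σ ∈ S := by
    rintro σ ⟨l, hl, hl1⟩
    by_contra h
    exact absurd (hout σ h l hl) (not_le.mpr hl1)
  have h0U : σ0 ∈ U := ⟨l0, hl0, hl01⟩
  have hS : S.Nonempty := ⟨σ0, hUS σ0 h0U⟩
  set E := (Q + Q) * Q ^ t * n ^ 2 + 1 with hE
  set d := Module.finrank ℚ k with hd
  have hdpos : 0 < d := Module.finrank_pos
  have hSpos : 0 < S.card := Finset.card_pos.mpr hS
  have hES : E * S.card ≠ 0 := (Nat.mul_pos (Nat.succ_pos _) hSpos).ne'
  by_contra hcon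
  push Not at hcon
  set R : ℝ := ((2 : ℝ) ^ d) ^ (((E * S.card : ℕ) : ℝ)⁻¹) with hR
  have hRpow : R ^ (E * S.card) = 2 ^ d := Real.rpow_inv_natCast_pow (by positivity) hES
  have hR1 : 1 ≤ R := Real.one_le_rpow (one_le_pow₀ one_le_two) (by positivity)
  have hin : ∀ σ ∈ S, ∀ l : ℂ, ((emb σ).mapMatrix A).charpoly.IsRoot l → ‖l‖ ≤ R := by
    intro σ hσ l hl
    by_contra h
    push Not at h
    have h1 := pow_le_pow_left₀ (by linarith) h.le (E * S.card)
    rw [hRpow] at h1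
    exact absurd (hcon σ hσ l hl) (not_lt.mpr h1)
  refine absurd (card_closure_le S U hUS σ0 h0U T ?_) (not_le.mpr hcard)
  rintro τ hτ σ ⟨l, hl, hl1⟩
  obtain ⟨p, i, I, hp, hpQ, hpi, hI, hφ, hB2⟩ := hT τ hτ
  rcases dich S A p i i hp τ I hI hφ R hR1 hout hin t with h1 | key
  · obtain ⟨z, hz, hz2⟩ := h1 σ l hl
    refine ⟨z, hz, ?_⟩
    by_contra hz1
    push Not at hz1
    have h2 : 1 < ‖l ^ (p ^ i * p ^ t)‖ := by
      rw [norm_pow]
      exact one_lt_pow₀ hl1 (Nat.mul_pos (pow_pos hp.pos _) (pow_pos hp.pos _)).ne'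
    rw [hz2, norm_pow] at h2
    exact absurd (pow_le_one₀ (norm_nonneg _) hz1) (not_le.mpr h2)
  · exfalso
    rw [NumberField.Embeddings.card] at key
    have hexp : (p ^ i + p ^ i) * p ^ t * n ^ 2 * S.card ≤ E * S.card := by
      refine Nat.mul_le_mul_right _ ?_
      rw [hE]
      refine le_trans ?_ (Nat.le_succ _)
      gcongr
    have h2 : R ^ ((p ^ i + p ^ i) * p ^ t * n ^ 2 * S.card) ≤ 2 ^ d := by
      rw [← hRpow]
      exact pow_le_pow_right₀ hR1 hexp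
    have h3 : (B ^ (t + 1)) ^ d ≤ (2 * (2 : ℝ) ^ (n ^ 2 + n)) ^ d := by
      calc (B ^ (t + 1)) ^ d = (B ^ d) ^ (t + 1) := by rw [← pow_mul, ← pow_mul, mul_comm]
        _ ≤ (Ideal.absNorm I : ℝ) ^ (t + 1) := by gcongr
        _ ≤ _ := key
        _ ≤ (2 ^ (n ^ 2 + n)) ^ d * 2 ^ d := by gcongr
        _ = _ := by rw [← mul_pow]; ring
    have h4 : (2 * (2 : ℝ) ^ (n ^ 2 + n)) ^ d < (B ^ (t + 1)) ^ d :=
      pow_lt_pow_left₀ hBt (by positivity) hdpos.ne'
    exact absurd h3 (not_le.mpr h4)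

theorem inertia_ext_gap (B : ℝ) (hB : 1 < B) (Q n : ℕ) : ∃ E : ℕ, 0 < E ∧
    ∀ (k k' : Type) [Field k] [NumberField k] [Field k'] [NumberField k'] [Algebra k k']
      (S : Finset (k →+* ℂ))
      (A : Matrix (Fin n) (Fin n) (𝓞 k)) (T : Set (RingAut k')),
      (∀ τ ∈ T, ∃ (p i : ℕ) (I : Ideal (𝓞 k')), p.Prime ∧ p ≤ Q ∧ p ^ i ≤ Q ∧ (p : 𝓞 k') ∈ I ∧
        (∀ x : 𝓞 k', (RingOfIntegers.mapRingHom (τ : k' →+* k') x) ^ p ^ i - x ^ p ^ i ∈ I) ∧
        B ^ Module.finrank ℚ k' ≤ (Ideal.absNorm I : ℝ)) →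
      S.card * Module.finrank k k' < Nat.card (Subgroup.closure T) → IsUnit A →
      (∀ σ : k →+* ℂ, σ ∉ S → ∀ l : ℂ, ((emb σ).mapMatrix A).charpoly.IsRoot l → ‖l‖ ≤ 1) →
      (∀ N : ℕ, 0 < N → ¬ IsNilpotent (A ^ N - 1)) →
      ∃ σ ∈ S, ∃ l : ℂ, ((emb σ).mapMatrix A).charpoly.IsRoot l ∧
        2 ^ Module.finrank ℚ k ≤ ‖l‖ ^ (E * S.card) := by
  classical
  obtain ⟨E, hE, h⟩ := inertia_gap B hB Q n
  refine ⟨E, hE, ?_⟩
  intro k k' _ _ _ _ _ S A T hT hcardT hunit hout hnil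
  set ι : 𝓞 k →+* 𝓞 k' := RingOfIntegers.mapRingHom (algebraMap k k') with hι
  have hιinj : Function.Injective ι := by
    intro x y hxy
    have h1 : algebraMap k k' (x : k) = algebraMap k k' (y : k) :=
      congrArg (fun z : 𝓞 k' => (z : k')) hxy
    exact RingOfIntegers.coe_injective ((algebraMap k k').injective h1)
  set S' : Finset (k' →+* ℂ) := Finset.univ.filter fun τ : k' →+* ℂ => τ.comp (algebraMap k k') ∈ S
    with hS'
  have hembA : ∀ τ : k' →+* ℂ, (emb τ).mapMatrix (ι.mapMatrix A) =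
      (emb (τ.comp (algebraMap k k'))).mapMatrix A := by
    intro τ
    ext i j
    rfl
  have hcard := card_over (L := k') S
  have hmpos : 0 < Module.finrank k k' := Module.finrank_pos
  obtain ⟨τ, hτ, l, hl, hle⟩ := h k' S' (ι.mapMatrix A) T hT (by
      rw [hS', hcard]
      exact hcardT) (hunit.map ι.mapMatrix) (by
      intro τ hτ l hl
      rw [hembA] at hl
      refine hout _ (fun hmem => hτ ?_) l hl
      rw [hS', Finset.mem_filter]
      exact ⟨Finset.mem_univ _, hmem⟩) (by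
      intro N hN hnl
      refine hnil N hN ?_
      rw [← map_pow, ← map_one ι.mapMatrix, ← map_sub] at hnl
      refine (IsNilpotent.map_iff ?_).mp hnl
      intro U V hUV
      ext i j
      have h1 := congrFun (congrFun hUV i) j
      have h2 := hιinj h1
      exact congrArg _ h2)
  rw [hS', Finset.mem_filter] at hτ
  rw [hembA] at hl
  refine ⟨_, hτ.2, l, hl, ?_⟩
  rw [hS', hcard, ← Module.finrank_mul_finrank ℚ k k', pow_mul, ← mul_assoc, pow_mul] at hle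
  exact (pow_le_pow_iff_left₀ (by positivity) (by positivity) hmpos.ne').mp hle

end Pool.Agent.R826.Frob
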