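import Pool.Agent.R826.FrobI

/-!
# A criterion: generators of the ring of integers
-/

set_option autoImplicit false

namespace Pool.Agent.R826.Frob

open NumberField

theorem gen_crit {L : Type} [Field L] [NumberField L] (p i : ℕ) (hp : p.Prime)
    (Z : Set (𝓞 L)) (hZ : Algebra.adjoin ℤ Z = ⊤) (τ : L →+* L)
    (h : ∀ z ∈ Z, (RingOfIntegers.mapRingHom τ z) ^ p ^ i - z ^ p ^ i ∈
      Ideal.span {(p : 𝓞 L)}) (x : 𝓞 L) :
    (RingOfIntegers.mapRingHom τ x) ^ p ^ i - x ^ p ^ i ∈ Ideal.span {(p : 𝓞 L)} := by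
  set I : Ideal (𝓞 L) := Ideal.span {(p : 𝓞 L)} with hI
  have hpI : (p : 𝓞 L) ∈ I := Ideal.mem_span_singleton_self _
  by_cases hT : I = ⊤
  · rw [hT]; exact Submodule.mem_top
  have : Nontrivial (𝓞 L ⧸ I) := Ideal.Quotient.nontrivial_iff.mpr hT
  have : Fact p.Prime := ⟨hp⟩
  have : CharP (𝓞 L ⧸ I) p := by
    rw [CharP.charP_iff_prime_eq_zero hp]
    rw [← map_natCast (Ideal.Quotient.mk I)]
    exact Ideal.Quotient.eq_zero_iff_mem.mpr hpI
  have : ExpChar (𝓞 L ⧸ I) p := ExpChar.prime hp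
  set f : 𝓞 L →+* 𝓞 L ⧸ I :=
    (iterateFrobenius (𝓞 L ⧸ I) p i).comp
      ((Ideal.Quotient.mk I).comp (RingOfIntegers.mapRingHom τ)) with hf
  set g : 𝓞 L →+* 𝓞 L ⧸ I :=
    (iterateFrobenius (𝓞 L ⧸ I) p i).comp (Ideal.Quotient.mk I) with hg
  have hfg : f.toIntAlgHom = g.toIntAlgHom := by
    refine AlgHom.ext_of_adjoin_eq_top hZ fun z hz => ?_
    have h1 := h z hz
    rw [← Ideal.Quotient.eq_zero_iff_mem, map_sub, map_pow, map_pow, sub_eq_zero] at h1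
    simpa [hf, hg, iterateFrobenius_def] using h1
  have h2 := AlgHom.congr_fun hfg x
  rw [← Ideal.Quotient.eq_zero_iff_mem, map_sub, map_pow, map_pow, sub_eq_zero]
  simpa [hf, hg, iterateFrobenius_def] using h2

end Pool.Agent.R826.Frob
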