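import Pool.Agent.R826.FrobG
import Pool.Agent.Y399.MG.H

/-!
# Frobenius automorphisms and ramification
-/

set_option autoImplicit false

namespace Pool.Agent.R826.Frob

open Polynomial Matrix NumberField Module Pool.Agent.H225R3.Marg Pool.Agent.TH53.HR

/-- the product of a set of primes above `p` -/
theorem norm_prod_primes {L : Type} [Field L] [NumberField L] (p : ℕ) (hp : p.Prime)
    (T : Finset (Ideal (𝓞 L)))
    (hT : ∀ P ∈ T, P ∈ IsDedekindDomain.primesOverFinset (Ideal.span {(p : ℤ)}) (𝓞 L)) :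
    Ideal.absNorm (∏ P ∈ T, P) = p ^ ∑ P ∈ T, P.inertiaDeg ℤ := by
  rw [map_prod, ← Finset.prod_pow_eq_pow_sum]
  refine Finset.prod_congr rfl fun P hP => ?_
  have hmax : (Ideal.span {(p : ℤ)}).IsMaximal := span_maximal hp
  have h1 := (IsDedekindDomain.mem_primesOverFinset_iff (span_ne_bot hp) (𝓞 L)).mp (hT P hP)
  obtain ⟨h2, h3⟩ := h1
  have := h2
  have := h3
  have h4 := Ideal.absNorm_pow_inertiaDeg (Ideal.span {(p : ℤ)}) P
  simpa using h4.symm

/-- membership in the product of a set of primes above `p` -/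
theorem mem_prod_primes {L : Type} [Field L] [NumberField L] (p : ℕ) (hp : p.Prime)
    (T : Finset (Ideal (𝓞 L)))
    (hT : ∀ P ∈ T, P ∈ IsDedekindDomain.primesOverFinset (Ideal.span {(p : ℤ)}) (𝓞 L))
    (x : 𝓞 L) (hx : ∀ P ∈ T, x ∈ P) : x ∈ ∏ P ∈ T, P := by
  have hmem : ∀ P ∈ T, P.IsMaximal := by
    intro P hP
    have hmax : (Ideal.span {(p : ℤ)}).IsMaximal := span_maximal hp
    have h1 := (IsDedekindDomain.mem_primesOverFinset_iff (span_ne_bot hp) (𝓞 L)).mp (hT P hP)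
    obtain ⟨h2, h3⟩ := h1
    have := h2
    have := h3
    refine Ideal.IsPrime.isMaximal h2 ?_
    exact Ideal.ne_bot_of_liesOver_of_ne_bot (span_ne_bot hp) P
  rw [← Ideal.span_singleton_le_iff_mem, ← Ideal.dvd_iff_le]
  refine Finset.prod_dvd_of_coprime ?_ ?_
  · intro I hI J hJ hne
    exact Ideal.isCoprime_iff_sup_eq.mpr ((hmem I hI).coprime_of_ne (hmem J hJ) hne)
  · intro I hI
    rw [Ideal.dvd_iff_le, Ideal.span_singleton_le_iff_mem]
    exact hx I hI

theorem p_mem {L : Type} [Field L] [NumberField L] (p : ℕ) (hp : p.Prime) (P : Ideal (𝓞 L))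
    (hP : P ∈ IsDedekindDomain.primesOverFinset (Ideal.span {(p : ℤ)}) (𝓞 L)) :
    (p : 𝓞 L) ∈ P := by
  have hmax : (Ideal.span {(p : ℤ)}).IsMaximal := span_maximal hp
  obtain ⟨h2, h3⟩ := (IsDedekindDomain.mem_primesOverFinset_iff (span_ne_bot hp) (𝓞 L)).mp hP
  have h4 : (p : ℤ) ∈ Ideal.span {(p : ℤ)} := Ideal.mem_span_singleton_self _
  rw [h3.over, Ideal.mem_comap] at h4
  simpa using h4

end Pool.Agent.R826.Frob
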