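import Pool.Agent.R826.FrobK

/-!
# The gap for Frobenius automorphisms, with any ramification
-/

set_option autoImplicit false

namespace Pool.Agent.R826.Frob

open Polynomial Matrix NumberField Module Pool.Agent.H225R3.Marg Pool.Agent.TH53.HR

open Classical in
/-- the sum of the residue degrees of the primes above `p` modulo which `φ` is not `x ↦ x ^ q` -/
noncomputable def badDegree {L : Type} [Field L] [NumberField L] (p q : ℕ) (φ : L ≃+* L) : ℕ :=
  ∑ P ∈ (IsDedekindDomain.primesOverFinset (Ideal.span {(p : ℤ)}) (𝓞 L)).filter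
    (fun P => ¬ ∀ x : 𝓞 L, RingOfIntegers.mapRingHom (φ : L →+* L) x - x ^ q ∈ P), P.inertiaDeg ℤ

theorem ram_gap (Q s n : ℕ) (c : ℝ) : ∃ E : ℕ, 0 < E ∧
    ∀ (L : Type) [Field L] [NumberField L] (S : Finset (L →+* ℂ))
      (A : Matrix (Fin n) (Fin n) (𝓞 L)) (p a : ℕ) (φ : L ≃+* L),
      p.Prime → 0 < a → p ^ a ≤ Q → S.card ≤ s →
      (badDegree p (p ^ a) φ : ℝ) * Real.log (2 * finrank ℚ L) ≤ c * finrank ℚ L → IsUnit A →
      (∀ σ : L →+* ℂ, σ ∉ S → ∀ l : ℂ, ((emb σ).mapMatrix A).charpoly.IsRoot l → ‖l‖ ≤ 1) →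
      (∀ N : ℕ, 0 < N → ¬ IsNilpotent (A ^ N - 1)) →
      ∃ σ ∈ S, ∃ l : ℂ, ((emb σ).mapMatrix A).charpoly.IsRoot l ∧ 2 ≤ ‖l‖ ^ E := by
  classical
  set C : ℝ := (n : ℝ) ^ 2 + n + 1 with hC
  set K : ℕ := ⌈40 + 20 * ((C + c) * s * n * (Real.log (2 * n) / Real.log 2))⌉₊ with hK
  set μ : ℝ := 1 / (4 * (Q : ℝ) ^ K) with hμ
  set E1 : ℕ := 2 * (Q + 1) * n ^ 2 * s with hE1
  set E2 : ℕ := ⌈Real.log 2 / μ⌉₊ * (s * n) with hE2
  refine ⟨E1 + E2 + 1, Nat.succ_pos _, ?_⟩
  intro L _ _ S A p a φ hp ha hQ hs hbad hunit hout hnil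
  have hfact : Fact p.Prime := ⟨hp⟩
  set d := finrank ℚ L with hd
  have hdpos : 0 < d := Module.finrank_pos
  have hdR : (1 : ℝ) ≤ d := by exact_mod_cast hdpos
  have hpQ : p ≤ Q := (Nat.le_self_pow ha.ne' p).trans hQ
  set PP := IsDedekindDomain.primesOverFinset (Ideal.span {(p : ℤ)}) (𝓞 L) with hPP
  set good : Ideal (𝓞 L) → Prop := fun P => ∀ x : 𝓞 L,
    RingOfIntegers.mapRingHom (φ : L →+* L) x - x ^ p ^ a ∈ P with hgood
  set T := PP.filter good with hT
  set F := ∑ P ∈ T, P.inertiaDeg ℤ with hF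
  have hsum : resDegSum L p = F + badDegree p (p ^ a) φ := by
    unfold resDegSum badDegree
    rw [hF, hT]
    exact (Finset.sum_filter_add_sum_filter_not PP good _).symm
  by_cases hcase : (F : ℝ) * Real.log (2 * d) < C * d
  · -- highly ramified
    have h1 : (resDegSum L p : ℝ) * Real.log (2 * finrank ℚ L) ≤ (C + c) * finrank ℚ L := by
      rw [hsum]
      push_cast
      rw [add_mul, add_mul]
      linarith
    obtain ⟨σ, hσ, l, hl, hl1, hlow⟩ := Pool.Agent.Y399.MG.gap_ram L n s S A hs p (C + c) h1 hunit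
      hout hnil
    refine ⟨σ, hσ, l, hl, ?_⟩
    have hl0 : 0 < Real.log ‖l‖ := Real.log_pos hl1
    have hμpos : 0 < μ := by
      rw [hμ]
      have : (0 : ℝ) < Q := by
        have := hp.pos.trans_le hpQ
        exact_mod_cast this
      positivity
    have h2 : μ ≤ (s * n : ℕ) * Real.log ‖l‖ := by
      refine le_trans ?_ hlow
      rw [hμ]
      have hpp : (0 : ℝ) < p := by exact_mod_cast hp.pos
      have hpQ' : (p : ℝ) ≤ Q := by exact_mod_cast hpQ
      apply one_div_le_one_div_of_le (by positivity)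
      gcongr
    have h3 : Real.log 2 ≤ E2 * Real.log ‖l‖ := by
      calc Real.log 2 = Real.log 2 / μ * μ := by field_simp
        _ ≤ ⌈Real.log 2 / μ⌉₊ * μ := by
            gcongr
            exact Nat.le_ceil _
        _ ≤ ⌈Real.log 2 / μ⌉₊ * ((s * n : ℕ) * Real.log ‖l‖) := by gcongr
        _ = _ := by rw [hE2]; push_cast; ring
    have h4 : Real.log 2 ≤ Real.log (‖l‖ ^ (E1 + E2 + 1)) := by
      rw [Real.log_pow]
      refine h3.trans ?_
      refine mul_le_mul_of_nonneg_right ?_ hl0.le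
      push_cast
      have : (0 : ℝ) ≤ E1 := Nat.cast_nonneg _
      linarith
    exact (Real.log_le_log_iff (by norm_num) (by positivity)).mp h4
  · -- large ideal
    push Not at hcase
    set I : Ideal (𝓞 L) := ∏ P ∈ T, P with hI
    have hTPP : ∀ P ∈ T, P ∈ PP := fun P hP => (Finset.mem_filter.mp hP).1
    have hTg : ∀ P ∈ T, good P := fun P hP => (Finset.mem_filter.mp hP).2
    have hnorm : Ideal.absNorm I = p ^ F := norm_prod_primes p hp T hTPP
    have hpI : (p : 𝓞 L) ∈ I := mem_prod_primes p hp T hTPP _ fun P hP => p_mem p hp P (hTPP P hP)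
    have hφI : ∀ x : 𝓞 L, RingOfIntegers.mapRingHom (φ : L →+* L) x - x ^ p ^ a ∈ I := fun x =>
      mem_prod_primes p hp T hTPP _ fun P hP => hTg P hP x
    by_contra hcon
    push Not at hcon
    set E := E1 + E2 + 1 with hE
    set R : ℝ := (2 : ℝ) ^ ((E : ℝ)⁻¹) with hR
    have hRE : R ^ E = 2 := Real.rpow_inv_natCast_pow (by norm_num) (Nat.succ_ne_zero _)
    have hR1 : 1 < R := Real.one_lt_rpow (by norm_num) (by positivity)
    have hin : ∀ σ ∈ S, ∀ l : ℂ, ((emb σ).mapMatrix A).charpoly.IsRoot l → ‖l‖ ≤ R := by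
      intro σ hσ l hl
      by_contra h
      push Not at h
      have h1 := pow_le_pow_left₀ (by linarith) h.le E
      rw [hRE] at h1
      exact absurd (hcon σ hσ l hl) (not_lt.mpr h1)
    set t := Nat.log p (2 * d) with ht
    have ht1 : p ^ t ≤ 2 * d := Nat.pow_log_le_self p (by omega)
    have ht2 : 2 * d < p ^ (t + 1) := Nat.lt_pow_succ_log_self hp.one_lt _
    have key := frob_ineq S A hunit p a hp ha φ I hpI hφI R hR1.le hout hin hnil t
    rw [NumberField.Embeddings.card, hnorm] at key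
    have h1 : (2 : ℝ) ^ ((n ^ 2 + n + 1) * d) ≤ (((p ^ F : ℕ) : ℝ)) ^ (t + 1) := by
      have e1 : (((p ^ F : ℕ) : ℝ)) ^ (t + 1) = ((p ^ (t + 1) : ℕ) : ℝ) ^ F := by
        push_cast
        rw [← pow_mul, ← pow_mul, mul_comm]
      have e2 : ((2 * d : ℕ) : ℝ) ^ F ≤ ((p ^ (t + 1) : ℕ) : ℝ) ^ F := by
        apply pow_le_pow_left₀ (by positivity)
        exact_mod_cast ht2.le
      have e3 : ((2 * d : ℕ) : ℝ) ^ F = Real.exp (F * Real.log (2 * d)) := by
        rw [mul_comm (F : ℝ), Real.exp_mul, Real.exp_log (by positivity), Real.rpow_natCast]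
        push_cast
        rfl
      have e4 : (2 : ℝ) ^ ((n ^ 2 + n + 1) * d) ≤ Real.exp (C * d) := by
        have e5 : (2 : ℝ) ≤ Real.exp 1 := by
          have := Real.add_one_le_exp (1 : ℝ)
          linarith
        calc (2 : ℝ) ^ ((n ^ 2 + n + 1) * d) ≤ (Real.exp 1) ^ ((n ^ 2 + n + 1) * d) :=
              pow_le_pow_left₀ (by norm_num) e5 _
          _ = Real.exp (C * d) := by
              rw [← Real.exp_nat_mul]
              congr 1
              push_cast
              rw [hC]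
              ring
      rw [e1]
      refine le_trans ?_ e2
      rw [e3]
      exact e4.trans (Real.exp_le_exp.mpr hcase)
    have h2 : R ^ ((p ^ a + 1) * p ^ t * n ^ 2 * S.card) ≤ (R ^ E1) ^ d := by
      rw [← pow_mul]
      apply pow_le_pow_right₀ hR1.le
      calc (p ^ a + 1) * p ^ t * n ^ 2 * S.card ≤ (Q + 1) * (2 * d) * n ^ 2 * s := by gcongr
        _ = E1 * d := by rw [hE1]; ring
    have h3 : R ^ E1 < 2 := by
      rw [← hRE]
      exact pow_lt_pow_right₀ hR1 (by omega)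
    have h4 : (R ^ E1) ^ d < 2 ^ d := pow_lt_pow_left₀ h3 (by positivity) hdpos.ne'
    have h5 : (2 : ℝ) ^ ((n ^ 2 + n + 1) * d) = (2 ^ (n ^ 2 + n)) ^ d * 2 ^ d := by
      rw [← pow_mul, ← pow_add]
      congr 1
      ring
    have h6 : (2 : ℝ) ^ ((n ^ 2 + n + 1) * d) < (2 ^ (n ^ 2 + n)) ^ d * 2 ^ d := by
      refine (h1.trans key).trans_lt ?_
      have : (0 : ℝ) < (2 ^ (n ^ 2 + n)) ^ d := by positivity
      exact mul_lt_mul_of_pos_left (h2.trans_lt h4) this
    rw [h5] at h6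
    exact lt_irrefl _ h6

theorem ram_ext_gap (Q s n : ℕ) (c : ℝ) : ∃ E : ℕ, 0 < E ∧
    ∀ (k k' : Type) [Field k] [NumberField k] [Field k'] [NumberField k'] [Algebra k k']
      (S : Finset (k →+* ℂ))
      (A : Matrix (Fin n) (Fin n) (𝓞 k)) (p a : ℕ) (φ : k' ≃+* k'),
      p.Prime → 0 < a → p ^ a ≤ Q → S.card * finrank k k' ≤ s →
      (badDegree p (p ^ a) φ : ℝ) * Real.log (2 * finrank ℚ k') ≤ c * finrank ℚ k' → IsUnit A →
      (∀ σ : k →+* ℂ, σ ∉ S → ∀ l : ℂ, ((emb σ).mapMatrix A).charpoly.IsRoot l → ‖l‖ ≤ 1) →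
      (∀ N : ℕ, 0 < N → ¬ IsNilpotent (A ^ N - 1)) →
      ∃ σ ∈ S, ∃ l : ℂ, ((emb σ).mapMatrix A).charpoly.IsRoot l ∧ 2 ≤ ‖l‖ ^ E := by
  classical
  obtain ⟨E, hE, h⟩ := ram_gap Q s n c
  refine ⟨E, hE, ?_⟩
  intro k k' _ _ _ _ _ S A p a φ hp ha hQ hs hbad hunit hout hnil
  set ι : 𝓞 k →+* 𝓞 k' := RingOfIntegers.mapRingHom (algebraMap k k') with hι
  have hιinj : Function.Injective ι := by
    intro x y hxy
    have h1 : algebraMap k k' (x : k) = algebraMap k k' (y : k) :=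
      congrArg (fun z : 𝓞 k' => (z : k')) hxy
    exact RingOfIntegers.coe_injective ((algebraMap k k').injective h1)
  set S' : Finset (k' →+* ℂ) := Finset.univ.filter fun τ : k' →+* ℂ => τ.comp (algebraMap k k') ∈ S
    with hS'
  have hembA : ∀ τ : k' →+* ℂ, (emb τ).mapMatrix (ι.mapMatrix A) =
      (emb (τ.comp (algebraMap k k'))).mapMatrix A := by
    intro τ
    ext i j
    rfl
  have hcard := card_over (L := k') S
  obtain ⟨τ, hτ, l, hl, hle⟩ := h k' S' (ι.mapMatrix A) p a φ hp ha hQ (by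
      rw [hS', hcard]
      exact hs) hbad (hunit.map ι.mapMatrix) (by
      intro τ hτ l hl
      rw [hembA] at hl
      refine hout _ (fun hmem => hτ ?_) l hl
      rw [hS', Finset.mem_filter]
      exact ⟨Finset.mem_univ _, hmem⟩) (by
      intro N hN hnl
      refine hnil N hN ?_
      rw [← map_pow, ← map_one ι.mapMatrix, ← map_sub] at hnl
      refine (IsNilpotent.map_iff ?_).mp hnl
      intro U V hUV
      ext i j
      have h1 := congrFun (congrFun hUV i) j
      have h2 := hιinj h1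
      exact congrArg _ h2)
  rw [hS', Finset.mem_filter] at hτ
  rw [hembA] at hl
  exact ⟨_, hτ.2, l, hl, hle⟩

end Pool.Agent.R826.Frob
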