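import Pool.Agent.R826.FrobN
import Pool.Agent.R826.FrobI

/-!
# The gap for inertia automorphisms, with any ramification
-/

set_option autoImplicit false

namespace Pool.Agent.R826.Frob

open Polynomial Matrix NumberField Module Pool.Agent.H225R3.Marg Pool.Agent.TH53.HR

/-- the contradiction for large ideals -/
theorem large_false (n d F t p E1 X : ℕ) (R : ℝ) (hd : 0 < d) (hR : 1 ≤ R)
    (hcase : ((n : ℝ) ^ 2 + n + 1) * d ≤ (F : ℝ) * Real.log (2 * d)) (ht2 : 2 * d < p ^ (t + 1))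
    (key : (((p ^ F : ℕ) : ℝ)) ^ (t + 1) ≤ (2 ^ (n ^ 2 + n)) ^ d * R ^ X)
    (hX : X ≤ E1 * d) (h3 : R ^ E1 < 2) : False := by
  have hdR : (1 : ℝ) ≤ d := by exact_mod_cast hd
  have h1 : (2 : ℝ) ^ ((n ^ 2 + n + 1) * d) ≤ (((p ^ F : ℕ) : ℝ)) ^ (t + 1) := by
    have e1 : (((p ^ F : ℕ) : ℝ)) ^ (t + 1) = ((p ^ (t + 1) : ℕ) : ℝ) ^ F := by
      push_cast
      rw [← pow_mul, ← pow_mul, mul_comm]
    have e2 : ((2 * d : ℕ) : ℝ) ^ F ≤ ((p ^ (t + 1) : ℕ) : ℝ) ^ F := by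
      apply pow_le_pow_left₀ (by positivity)
      exact_mod_cast ht2.le
    have e3 : ((2 * d : ℕ) : ℝ) ^ F = Real.exp (F * Real.log (2 * d)) := by
      rw [mul_comm (F : ℝ), Real.exp_mul, Real.exp_log (by positivity), Real.rpow_natCast]
      push_cast
      rfl
    have e4 : (2 : ℝ) ^ ((n ^ 2 + n + 1) * d) ≤ Real.exp (((n : ℝ) ^ 2 + n + 1) * d) := by
      have e5 : (2 : ℝ) ≤ Real.exp 1 := by
        have := Real.add_one_le_exp (1 : ℝ)
        linarith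
      calc (2 : ℝ) ^ ((n ^ 2 + n + 1) * d) ≤ (Real.exp 1) ^ ((n ^ 2 + n + 1) * d) :=
            pow_le_pow_left₀ (by norm_num) e5 _
        _ = Real.exp (((n : ℝ) ^ 2 + n + 1) * d) := by
            rw [← Real.exp_nat_mul]
            congr 1
            push_cast
            ring
    rw [e1]
    refine le_trans ?_ e2
    rw [e3]
    exact e4.trans (Real.exp_le_exp.mpr hcase)
  have h2 : R ^ X ≤ (R ^ E1) ^ d := by
    rw [← pow_mul]
    exact pow_le_pow_right₀ hR hX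
  have h4 : (R ^ E1) ^ d < 2 ^ d := pow_lt_pow_left₀ h3 (by positivity) hd.ne'
  have h5 : (2 : ℝ) ^ ((n ^ 2 + n + 1) * d) = (2 ^ (n ^ 2 + n)) ^ d * 2 ^ d := by
    rw [← pow_mul, ← pow_add]
    congr 1
    ring
  have h6 : (2 : ℝ) ^ ((n ^ 2 + n + 1) * d) < (2 ^ (n ^ 2 + n)) ^ d * 2 ^ d := by
    refine (h1.trans key).trans_lt ?_
    have : (0 : ℝ) < (2 ^ (n ^ 2 + n)) ^ d := by positivity
    exact mul_lt_mul_of_pos_left (h2.trans_lt h4) this
  rw [h5] at h6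
  exact lt_irrefl _ h6

/-- highly ramified fields, with an exponent -/
theorem high_ram (Q s n : ℕ) (c : ℝ) : ∃ E : ℕ,
    ∀ (L : Type) [Field L] [NumberField L] (S : Finset (L →+* ℂ))
      (A : Matrix (Fin n) (Fin n) (𝓞 L)) (p : ℕ),
      p.Prime → p ≤ Q → S.card ≤ s →
      (resDegSum L p : ℝ) * Real.log (2 * finrank ℚ L) ≤ c * finrank ℚ L → IsUnit A →
      (∀ σ : L →+* ℂ, σ ∉ S → ∀ l : ℂ, ((emb σ).mapMatrix A).charpoly.IsRoot l → ‖l‖ ≤ 1) →
      (∀ N : ℕ, 0 < N → ¬ IsNilpotent (A ^ N - 1)) →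
      ∃ σ ∈ S, ∃ l : ℂ, ((emb σ).mapMatrix A).charpoly.IsRoot l ∧ 1 < ‖l‖ ∧ 2 ≤ ‖l‖ ^ E := by
  set K : ℕ := ⌈40 + 20 * (c * s * n * (Real.log (2 * n) / Real.log 2))⌉₊ with hK
  set μ : ℝ := 1 / (4 * (Q : ℝ) ^ K) with hμ
  refine ⟨⌈Real.log 2 / μ⌉₊ * (s * n), ?_⟩
  intro L _ _ S A p hp hpQ hs h1 hunit hout hnil
  have hfact : Fact p.Prime := ⟨hp⟩
  obtain ⟨σ, hσ, l, hl, hl1, hlow⟩ := Pool.Agent.Y399.MG.gap_ram L n s S A hs p c h1 hunit
    hout hnil
  refine ⟨σ, hσ, l, hl, hl1, ?_⟩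
  have hl0 : 0 < Real.log ‖l‖ := Real.log_pos hl1
  have hμpos : 0 < μ := by
    rw [hμ]
    have : (0 : ℝ) < Q := by
      have := hp.pos.trans_le hpQ
      exact_mod_cast this
    positivity
  have h2 : μ ≤ (s * n : ℕ) * Real.log ‖l‖ := by
    refine le_trans ?_ hlow
    rw [hμ]
    have hpp : (0 : ℝ) < p := by exact_mod_cast hp.pos
    have hpQ' : (p : ℝ) ≤ Q := by exact_mod_cast hpQ
    apply one_div_le_one_div_of_le (by positivity)
    gcongr
  have h4 : Real.log 2 ≤ Real.log (‖l‖ ^ (⌈Real.log 2 / μ⌉₊ * (s * n))) := by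
    rw [Real.log_pow]
    calc Real.log 2 = Real.log 2 / μ * μ := by field_simp
      _ ≤ ⌈Real.log 2 / μ⌉₊ * μ := by
          gcongr
          exact Nat.le_ceil _
      _ ≤ ⌈Real.log 2 / μ⌉₊ * ((s * n : ℕ) * Real.log ‖l‖) := by gcongr
      _ = _ := by push_cast; ring
  exact (Real.log_le_log_iff (by norm_num) (by positivity)).mp h4

theorem inertia_ram_gap (Q s n : ℕ) (c : ℝ) : ∃ E : ℕ, 0 < E ∧
    ∀ (L : Type) [Field L] [NumberField L] (S : Finset (L →+* ℂ))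
      (A : Matrix (Fin n) (Fin n) (𝓞 L)) (T : Set (RingAut L)),
      (∀ τ ∈ T, ∃ p : ℕ, p.Prime ∧ p ≤ Q ∧
        (badDegree p 1 τ : ℝ) * Real.log (2 * finrank ℚ L) ≤ c * finrank ℚ L) →
      S.card ≤ s → S.card < Nat.card (Subgroup.closure T) → IsUnit A →
      (∀ σ : L →+* ℂ, σ ∉ S → ∀ l : ℂ, ((emb σ).mapMatrix A).charpoly.IsRoot l → ‖l‖ ≤ 1) →
      (∀ N : ℕ, 0 < N → ¬ IsNilpotent (A ^ N - 1)) →
      ∃ σ ∈ S, ∃ l : ℂ, ((emb σ).mapMatrix A).charpoly.IsRoot l ∧ 2 ≤ ‖l‖ ^ E := by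
  classical
  set C : ℝ := (n : ℝ) ^ 2 + n + 1 with hC
  obtain ⟨E2, hE2⟩ := high_ram Q s n (C + c)
  set E1 : ℕ := 4 * n ^ 2 * s with hE1
  refine ⟨E1 + E2 + 1, Nat.succ_pos _, ?_⟩
  intro L _ _ S A T hT hs hcard hunit hout hnil
  obtain ⟨σ0, l0, hl0, hl01⟩ := exists_big S A hunit hout hnil
  set d := finrank ℚ L with hd
  have hdpos : 0 < d := Module.finrank_pos
  by_cases hram : ∃ p : ℕ, p.Prime ∧ p ≤ Q ∧
      (resDegSum L p : ℝ) * Real.log (2 * finrank ℚ L) ≤ (C + c) * finrank ℚ L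
  · obtain ⟨p, hp, hpQ, h1⟩ := hram
    obtain ⟨σ, hσ, l, hl, hl1, hle⟩ := hE2 L S A p hp hpQ hs h1 hunit hout hnil
    exact ⟨σ, hσ, l, hl, hle.trans (pow_le_pow_right₀ hl1.le (by omega))⟩
  push Not at hram
  by_contra hcon
  push Not at hcon
  set E := E1 + E2 + 1 with hE
  set R : ℝ := (2 : ℝ) ^ ((E : ℝ)⁻¹) with hR
  have hRE : R ^ E = 2 := Real.rpow_inv_natCast_pow (by norm_num) (Nat.succ_ne_zero _)
  have hR1 : 1 < R := Real.one_lt_rpow (by norm_num) (by positivity)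
  have hin : ∀ σ ∈ S, ∀ l : ℂ, ((emb σ).mapMatrix A).charpoly.IsRoot l → ‖l‖ ≤ R := by
    intro σ hσ l hl
    by_contra h
    push Not at h
    have h1 := pow_le_pow_left₀ (by linarith) h.le E
    rw [hRE] at h1
    exact absurd (hcon σ hσ l hl) (not_lt.mpr h1)
  set U : Set (L →+* ℂ) := {σ | ∃ l : ℂ, ((emb σ).mapMatrix A).charpoly.IsRoot l ∧ 1 < ‖l‖} with hU
  have hUS : ∀ σ ∈ U, σ ∈ S := by
    rintro σ ⟨l, hl, hl1⟩
    by_contra h
    exact absurd (hout σ h l hl) (not_le.mpr hl1)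
  have h0U : σ0 ∈ U := ⟨l0, hl0, hl01⟩
  refine absurd (card_closure_le S U hUS σ0 h0U T ?_) (not_le.mpr hcard)
  rintro τ hτ σ ⟨l, hl, hl1⟩
  obtain ⟨p, hp, hpQ, hbad⟩ := hT τ hτ
  have hfact : Fact p.Prime := ⟨hp⟩
  set PP := IsDedekindDomain.primesOverFinset (Ideal.span {(p : ℤ)}) (𝓞 L) with hPP
  set good : Ideal (𝓞 L) → Prop := fun P => ∀ x : 𝓞 L,
    RingOfIntegers.mapRingHom (τ : L →+* L) x - x ^ 1 ∈ P with hgood
  set T' := PP.filter good with hT'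
  set F := ∑ P ∈ T', P.inertiaDeg ℤ with hF
  have hsum : resDegSum L p = F + badDegree p 1 τ := by
    unfold resDegSum badDegree
    rw [hF, hT']
    exact (Finset.sum_filter_add_sum_filter_not PP good _).symm
  have hcase : C * d ≤ (F : ℝ) * Real.log (2 * d) := by
    have h1 := hram p hp hpQ
    rw [hsum] at h1
    push_cast at h1
    rw [add_mul, add_mul] at h1
    linarith
  set I : Ideal (𝓞 L) := ∏ P ∈ T', P with hI
  have hTPP : ∀ P ∈ T', P ∈ PP := fun P hP => (Finset.mem_filter.mp hP).1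
  have hTg : ∀ P ∈ T', good P := fun P hP => (Finset.mem_filter.mp hP).2
  have hnorm : Ideal.absNorm I = p ^ F := norm_prod_primes p hp T' hTPP
  have hpI : (p : 𝓞 L) ∈ I := mem_prod_primes p hp T' hTPP _ fun P hP => p_mem p hp P (hTPP P hP)
  have hφI : ∀ x : 𝓞 L, (RingOfIntegers.mapRingHom (τ : L →+* L) x) ^ p ^ 0 - x ^ p ^ 0 ∈ I := by
    intro x
    have h1 : RingOfIntegers.mapRingHom (τ : L →+* L) x - x ^ 1 ∈ I :=
      mem_prod_primes p hp T' hTPP _ fun P hP => hTg P hP x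
    simpa using h1
  set t := Nat.log p (2 * d) with ht
  have ht1 : p ^ t ≤ 2 * d := Nat.pow_log_le_self p (by omega)
  have ht2 : 2 * d < p ^ (t + 1) := Nat.lt_pow_succ_log_self hp.one_lt _
  rcases dich S A p 0 0 hp τ I hpI hφI R hR1.le hout hin t with h1 | key
  · obtain ⟨z, hz, hz2⟩ := h1 σ l hl
    refine ⟨z, hz, ?_⟩
    by_contra hz1
    push Not at hz1
    have h2 : 1 < ‖l ^ (p ^ 0 * p ^ t)‖ := by
      rw [norm_pow]
      exact one_lt_pow₀ hl1 (Nat.mul_pos (pow_pos hp.pos _) (pow_pos hp.pos _)).ne'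
    rw [hz2, norm_pow] at h2
    exact absurd (pow_le_one₀ (norm_nonneg _) hz1) (not_le.mpr h2)
  · exfalso
    rw [NumberField.Embeddings.card, hnorm] at key
    refine large_false n d F t p E1 _ R hdpos hR1.le hcase ht2 key ?_ ?_
    · calc (p ^ 0 + p ^ 0) * p ^ t * n ^ 2 * S.card ≤ (1 + 1) * (2 * d) * n ^ 2 * s := by
            rw [pow_zero]
            gcongr
        _ = E1 * d := by rw [hE1]; ring
    · rw [← hRE]
      exact pow_lt_pow_right₀ hR1 (by omega)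

theorem inertia_ram_ext_gap (Q s n : ℕ) (c : ℝ) : ∃ E : ℕ, 0 < E ∧
    ∀ (k k' : Type) [Field k] [NumberField k] [Field k'] [NumberField k'] [Algebra k k']
      (S : Finset (k →+* ℂ))
      (A : Matrix (Fin n) (Fin n) (𝓞 k)) (T : Set (RingAut k')),
      (∀ τ ∈ T, ∃ p : ℕ, p.Prime ∧ p ≤ Q ∧
        (badDegree p 1 τ : ℝ) * Real.log (2 * finrank ℚ k') ≤ c * finrank ℚ k') →
      S.card * finrank k k' ≤ s → S.card * finrank k k' < Nat.card (Subgroup.closure T) →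
      IsUnit A →
      (∀ σ : k →+* ℂ, σ ∉ S → ∀ l : ℂ, ((emb σ).mapMatrix A).charpoly.IsRoot l → ‖l‖ ≤ 1) →
      (∀ N : ℕ, 0 < N → ¬ IsNilpotent (A ^ N - 1)) →
      ∃ σ ∈ S, ∃ l : ℂ, ((emb σ).mapMatrix A).charpoly.IsRoot l ∧ 2 ≤ ‖l‖ ^ E := by
  classical
  obtain ⟨E, hE, h⟩ := inertia_ram_gap Q s n c
  refine ⟨E, hE, ?_⟩
  intro k k' _ _ _ _ _ S A T hT hs hcT hunit hout hnil
  set ι : 𝓞 k →+* 𝓞 k' := RingOfIntegers.mapRingHom (algebraMap k k') with hι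
  have hιinj : Function.Injective ι := by
    intro x y hxy
    have h1 : algebraMap k k' (x : k) = algebraMap k k' (y : k) :=
      congrArg (fun z : 𝓞 k' => (z : k')) hxy
    exact RingOfIntegers.coe_injective ((algebraMap k k').injective h1)
  set S' : Finset (k' →+* ℂ) := Finset.univ.filter fun τ : k' →+* ℂ => τ.comp (algebraMap k k') ∈ S
    with hS'
  have hembA : ∀ τ : k' →+* ℂ, (emb τ).mapMatrix (ι.mapMatrix A) =
      (emb (τ.comp (algebraMap k k'))).mapMatrix A := by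
    intro τ
    ext i j
    rfl
  have hcard := card_over (L := k') S
  obtain ⟨τ, hτ, l, hl, hle⟩ := h k' S' (ι.mapMatrix A) T hT (by
      rw [hS', hcard]
      exact hs) (by
      rw [hS', hcard]
      exact hcT) (hunit.map ι.mapMatrix) (by
      intro τ hτ l hl
      rw [hembA] at hl
      refine hout _ (fun hmem => hτ ?_) l hl
      rw [hS', Finset.mem_filter]
      exact ⟨Finset.mem_univ _, hmem⟩) (by
      intro N hN hnl
      refine hnil N hN ?_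
      rw [← map_pow, ← map_one ι.mapMatrix, ← map_sub] at hnl
      refine (IsNilpotent.map_iff ?_).mp hnl
      intro U V hUV
      ext i j
      have h1 := congrFun (congrFun hUV i) j
      have h2 := hιinj h1
      exact congrArg _ h2)
  rw [hS', Finset.mem_filter] at hτ
  rw [hembA] at hl
  exact ⟨_, hτ.2, l, hl, hle⟩

end Pool.Agent.R826.Frob
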