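import Mathlib

/-!
# Gluing spaces along open sets, and a homogenization construction
-/

namespace Pool.Agent.R826.Glue

open Set Topology

universe u v w

section glue

variable {I : Type u} {X : I → Type v} [∀ i, TopologicalSpace (X i)] {Z : Type w}

/-- The glued topology. -/
@[reducible] def glueTop (κ : ∀ i, X i → Z) : TopologicalSpace Z :=
  ⨆ i, TopologicalSpace.coinduced (κ i) inferInstance

theorem isOpen_glue (κ : ∀ i, X i → Z) {s : Set Z} :
    IsOpen[glueTop κ] s ↔ ∀ i, IsOpen (κ i ⁻¹' s) := by
  unfold glueTop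
  rw [isOpen_iSup_iff]
  exact forall_congr' fun i => isOpen_coinduced

theorem glue_isOpenEmbedding (κ : ∀ i, X i → Z) (inj : ∀ i, Function.Injective (κ i))
    (op : ∀ i j (O : Set (X j)), IsOpen O → IsOpen (κ i ⁻¹' (κ j '' O))) (i : I) :
    @IsOpenEmbedding _ _ _ (glueTop κ) (κ i) := by
  let _ := glueTop κ
  apply IsOpenEmbedding.of_continuous_injective_isOpenMap
  · constructor
    intro s hs
    exact (isOpen_glue κ).1 hs i
  · exact inj i
  · intro O hO
    exact (isOpen_glue κ).2 (fun j => op j i O hO)

end glue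

section homog

variable {α : Type u} {N : Type v}

/-- One letter. -/
def StepR (h : α → N → N → Prop) (l : α × Bool) (y y' : N) : Prop :=
  if l.2 then h l.1 y y' else h l.1 y' y

/-- A word. -/
def Reach (h : α → N → N → Prop) : List (α × Bool) → N → N → Prop
  | [], y, y' => y = y'
  | l :: L, y, y'' => ∃ y', StepR h l y y' ∧ Reach h L y' y''

variable {h : α → N → N → Prop}

theorem stepR_not (a : α) (b : Bool) (y y' : N) : StepR h (a, !b) y y' ↔ StepR h (a, b) y' y := by
  cases b <;> simp [StepR]

theorem reach_append (L L' : List (α × Bool)) (y y' : N) :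
    Reach h (L ++ L') y y' ↔ ∃ y'', Reach h L y y'' ∧ Reach h L' y'' y' := by
  induction L generalizing y with
  | nil => simp [Reach]
  | cons l L ih =>
    simp only [List.cons_append, Reach, ih]
    constructor
    · rintro ⟨x, h1, z, h2, h3⟩
      exact ⟨z, ⟨x, h1, h2⟩, h3⟩
    · rintro ⟨z, ⟨x, h1, h2⟩, h3⟩
      exact ⟨x, h1, z, h2, h3⟩

theorem reach_step (hfun : ∀ a y y' y'', h a y y' → h a y y'' → y' = y'')
    (hinj : ∀ a y y' y'', h a y y'' → h a y' y'' → y = y')
    {L L' : List (α × Bool)} (hs : FreeGroup.Red.Step L L') {y y' : N} (hr : Reach h L y y') :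
    Reach h L' y y' := by
  obtain ⟨L1, L2, a, b, rfl, rfl⟩ : ∃ L1 L2 a b, L = L1 ++ (a, b) :: (a, !b) :: L2 ∧
      L' = L1 ++ L2 := by
    cases hs with
    | not => exact ⟨_, _, _, _, rfl, rfl⟩
  rw [reach_append] at hr ⊢
  obtain ⟨x, h1, x1, h2, x2, h3, h4⟩ := hr
  refine ⟨x, h1, ?_⟩
  rw [stepR_not] at h3
  have : x = x2 := by
    cases b
    · simp only [StepR] at h2 h3
      exact hfun _ _ _ _ h2 h3
    · simp only [StepR] at h2 h3
      exact hinj _ _ _ _ h2 h3
  rw [this]
  exact h4

theorem reach_red (hfun : ∀ a y y' y'', h a y y' → h a y y'' → y' = y'')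
    (hinj : ∀ a y y' y'', h a y y'' → h a y' y'' → y = y')
    {L L' : List (α × Bool)} (hs : FreeGroup.Red L L') {y y' : N} (hr : Reach h L y y') :
    Reach h L' y y' := by
  induction hs with
  | refl => exact hr
  | tail _ h1 ih => exact reach_step hfun hinj h1 ih

theorem reach_symm {L : List (α × Bool)} {y y' : N} (hr : Reach h L y y') :
    Reach h (FreeGroup.invRev L) y' y := by
  induction L generalizing y with
  | nil =>
    simp only [Reach] at hr
    simp [Reach, FreeGroup.invRev, hr]
  | cons l L ih =>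
    obtain ⟨x, h1, h2⟩ := hr
    have h3 := ih h2
    have h4 : FreeGroup.invRev (l :: L) = FreeGroup.invRev L ++ [(l.1, !l.2)] := by
      simp [FreeGroup.invRev]
    rw [h4, reach_append]
    refine ⟨x, h3, y, ?_, rfl⟩
    rw [stepR_not]
    exact h1

/-- The relation to be divided out. -/
def rel (h : α → N → N → Prop) : Setoid (FreeGroup α × N) where
  r p q := ∃ L, q.1 = p.1 * FreeGroup.mk L ∧ Reach h L p.2 q.2
  iseqv := by
    refine ⟨?_, ?_, ?_⟩
    · intro p
      exact ⟨[], by rw [← FreeGroup.one_eq_mk, mul_one], rfl⟩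
    · rintro p q ⟨L, h1, h2⟩
      refine ⟨FreeGroup.invRev L, ?_, reach_symm h2⟩
      rw [h1, ← FreeGroup.inv_mk]
      group
    · rintro p q r ⟨L, h1, h2⟩ ⟨L', h3, h4⟩
      refine ⟨L ++ L', ?_, (reach_append _ _ _ _).2 ⟨_, h2, h4⟩⟩
      rw [h3, h1, ← FreeGroup.mul_mk, mul_assoc]

/-- The homogenized space. -/
def Homog (h : α → N → N → Prop) : Type _ := Quotient (rel h)

/-- The pieces. -/
def piece (h : α → N → N → Prop) (w : FreeGroup α) (y : N) : Homog h :=
  Quotient.mk (rel h) (w, y)

theorem piece_eq {w w' : FreeGroup α} {y y' : N} :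
    piece h w y = piece h w' y' ↔ ∃ L, w' = w * FreeGroup.mk L ∧ Reach h L y y' := by
  exact Quotient.eq (r := rel h) (x := (w, y)) (y := (w', y'))

theorem piece_inj (hfun : ∀ a y y' y'', h a y y' → h a y y'' → y' = y'')
    (hinj : ∀ a y y' y'', h a y y'' → h a y' y'' → y = y') (w : FreeGroup α) :
    Function.Injective (piece h w) := by
  intro y y' hy
  obtain ⟨L, h1, h2⟩ := piece_eq.1 hy
  have h3 : FreeGroup.mk L = FreeGroup.mk [] := by
    rw [← FreeGroup.one_eq_mk]
    exact (mul_eq_left.1 h1.symm)
  obtain ⟨c, h4, h5⟩ := FreeGroup.Red.exact.1 h3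
  rw [FreeGroup.Red.nil_iff] at h5
  subst h5
  exact reach_red hfun hinj h4 h2

theorem piece_surj (p : Homog h) : ∃ w y, piece h w y = p := by
  induction p using Quotient.inductionOn with
  | h p => exact ⟨p.1, p.2, rfl⟩

variable [TopologicalSpace N]

instance : TopologicalSpace (Homog h) := glueTop (I := FreeGroup α) (X := fun _ => N) (piece h)

theorem reach_open (ho : ∀ a (O : Set N), IsOpen O → IsOpen {y | ∃ y' ∈ O, h a y y'})
    (ho' : ∀ a (O : Set N), IsOpen O → IsOpen {y | ∃ y' ∈ O, h a y' y})
    (L : List (α × Bool)) (O : Set N) (hO : IsOpen O) : IsOpen {y | ∃ y' ∈ O, Reach h L y y'} := by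
  induction L with
  | nil =>
    convert hO using 1
    ext y
    simp [Reach]
  | cons l L ih =>
    have h1 : {y | ∃ y' ∈ O, Reach h (l :: L) y y'} =
        {y | ∃ y' ∈ {y | ∃ y' ∈ O, Reach h L y y'}, StepR h l y y'} := by
      ext y
      constructor
      · rintro ⟨y', hy', x, h2, h3⟩
        exact ⟨x, ⟨y', hy', h3⟩, h2⟩
      · rintro ⟨x, ⟨y', hy', h3⟩, h2⟩
        exact ⟨y', hy', x, h2, h3⟩
    rw [h1]
    obtain ⟨a, b⟩ := l
    cases b
    · simpa [StepR] using ho' a _ ih
    · simpa [StepR] using ho a _ ih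

theorem piece_isOpenEmbedding (hfun : ∀ a y y' y'', h a y y' → h a y y'' → y' = y'')
    (hinj : ∀ a y y' y'', h a y y'' → h a y' y'' → y = y')
    (ho : ∀ a (O : Set N), IsOpen O → IsOpen {y | ∃ y' ∈ O, h a y y'})
    (ho' : ∀ a (O : Set N), IsOpen O → IsOpen {y | ∃ y' ∈ O, h a y' y}) (w : FreeGroup α) :
    IsOpenEmbedding (piece h w) := by
  refine glue_isOpenEmbedding (I := FreeGroup α) (X := fun _ => N) (piece h)
    (piece_inj hfun hinj) ?_ w
  intro w w' O hO
  have h1 : piece h w ⁻¹' (piece h w' '' O) =
      ⋃ L ∈ {L : List (α × Bool) | w' = w * FreeGroup.mk L}, {y | ∃ y' ∈ O, Reach h L y y'} := by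
    ext y
    rw [mem_iUnion₂]
    constructor
    · rintro ⟨y', hy', h2⟩
      obtain ⟨L, h3, h4⟩ := piece_eq.1 h2.symm
      exact ⟨L, h3, y', hy', h4⟩
    · rintro ⟨L, h3, y', hy', h4⟩
      exact ⟨y', hy', (piece_eq.2 ⟨L, h3, h4⟩).symm⟩
  rw [h1]
  exact isOpen_biUnion fun L _ => reach_open ho ho' L O hO

/-- Left multiplication. -/
def act (g : FreeGroup α) : Homog h → Homog h :=
  Quotient.map (fun p => (g * p.1, p.2)) (by
    rintro p q ⟨L, h1, h2⟩
    exact ⟨L, by simp only [h1, mul_assoc], h2⟩)

omit [TopologicalSpace N] in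
theorem act_piece (g w : FreeGroup α) (y : N) : act g (piece h w y) = piece h (g * w) y := rfl

omit [TopologicalSpace N] in
theorem act_act (g g' : FreeGroup α) (p : Homog h) : act g (act g' p) = act (g * g') p := by
  obtain ⟨w, y, rfl⟩ := piece_surj p
  rw [act_piece, act_piece, act_piece, mul_assoc]

omit [TopologicalSpace N] in
theorem act_one (p : Homog h) : act 1 p = p := by
  obtain ⟨w, y, rfl⟩ := piece_surj p
  rw [act_piece, one_mul]

theorem act_continuous (g : FreeGroup α) : Continuous (act (h := h) g) := by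
  constructor
  intro s hs
  refine (isOpen_glue (I := FreeGroup α) (X := fun _ => N) (piece h)).2 (fun w => ?_)
  have h1 := (isOpen_glue (I := FreeGroup α) (X := fun _ => N) (piece h)).1 hs (g * w)
  exact h1

/-- Left multiplication as a homeomorphism. -/
def actHomeo (g : FreeGroup α) : Homog h ≃ₜ Homog h where
  toFun := act g
  invFun := act g⁻¹
  left_inv p := by rw [act_act, inv_mul_cancel, act_one]
  right_inv p := by rw [act_act, mul_inv_cancel, act_one]
  continuous_toFun := act_continuous g
  continuous_invFun := act_continuous g⁻¹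

end homog

/-- The homogenization theorem: a nonempty connected space `N` in which every point has an open
neighbourhood which is the image of the pointed space `(E, o)` under an open embedding sending
`o` to the point, embeds as an open subspace in a connected homogeneous space with the same
local property. -/
theorem exists_homog (N : Type u) [TopologicalSpace N] [ConnectedSpace N] (E : Type v)
    [TopologicalSpace E] (o : E) (f : N → E → N) (hf : ∀ x, IsOpenEmbedding (f x))
    (hfo : ∀ x, f x o = x) :
    ∃ (M : Type u) (_ : TopologicalSpace M), ConnectedSpace M ∧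
      (∀ x y : M, ∃ e : M ≃ₜ M, e x = y) ∧
      (∀ x : M, ∃ g : E → M, IsOpenEmbedding g ∧ g o = x) ∧
      ∃ i : N → M, IsOpenEmbedding i := by
  obtain ⟨x0⟩ : Nonempty N := inferInstance
  let h : N → N → N → Prop := fun a y y' => ∃ e, y = f x0 e ∧ y' = f a e
  have hfun : ∀ a y y' y'', h a y y' → h a y y'' → y' = y'' := by
    rintro a y y' y'' ⟨e, h1, h2⟩ ⟨e', h3, h4⟩
    rw [h1] at h3
    rw [h2, h4, (hf x0).injective h3]
  have hinj : ∀ a y y' y'', h a y y'' → h a y' y'' → y = y' := by
    rintro a y y' y'' ⟨e, h1, h2⟩ ⟨e', h3, h4⟩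
    rw [h2] at h4
    rw [h1, h3, (hf a).injective h4]
  have ho : ∀ a (O : Set N), IsOpen O → IsOpen {y | ∃ y' ∈ O, h a y y'} := by
    intro a O hO
    convert (hf x0).isOpenMap _ (hO.preimage (hf a).continuous) using 1
    ext y
    constructor
    · rintro ⟨y', hy', e, h1, h2⟩
      refine ⟨e, ?_, h1.symm⟩
      show f a e ∈ O
      rw [← h2]
      exact hy'
    · rintro ⟨e, he, h1⟩
      exact ⟨f a e, he, e, h1.symm, rfl⟩
  have ho' : ∀ a (O : Set N), IsOpen O → IsOpen {y | ∃ y' ∈ O, h a y' y} := by
    intro a O hO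
    convert (hf a).isOpenMap _ (hO.preimage (hf x0).continuous) using 1
    ext y
    constructor
    · rintro ⟨y', hy', e, h1, h2⟩
      refine ⟨e, ?_, h2.symm⟩
      show f x0 e ∈ O
      rw [← h1]
      exact hy'
    · rintro ⟨e, he, h1⟩
      exact ⟨f x0 e, he, e, rfl, h1.symm⟩
  have hemb := piece_isOpenEmbedding hfun hinj ho ho'
  have hpt : ∀ (w : FreeGroup N) (x : N),
      piece h w x0 = piece h (w * FreeGroup.of x) x := by
    intro w x
    rw [piece_eq]
    refine ⟨[(x, true)], rfl, x, ?_, rfl⟩
    exact ⟨o, (hfo x0).symm, (hfo x).symm⟩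
  have hM : ∀ p : Homog h, ∃ g : FreeGroup N, act g (piece h 1 x0) = p := by
    intro p
    obtain ⟨w, x, rfl⟩ := piece_surj p
    refine ⟨w * (FreeGroup.of x)⁻¹, ?_⟩
    rw [act_piece, mul_one, hpt _ x, inv_mul_cancel_right]
  refine ⟨Homog h, inferInstance, ?_, ?_, ?_, piece h 1, hemb 1⟩
  · -- connectedness
    have hc : ∀ w : FreeGroup N, IsConnected (range (piece h w)) := fun w =>
      isConnected_range (hemb w).continuous
    have hall : ∀ w : FreeGroup N, piece h w x0 ∈ connectedComponent (piece h 1 x0) := by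
      intro w
      induction w using FreeGroup.induction_on with
      | C1 => exact mem_connectedComponent
      | of x =>
        have h1 := hpt 1 x
        rw [one_mul] at h1
        have h2 : piece h (FreeGroup.of x) x0 ∈ connectedComponent (piece h 1 x0) := by
          apply (hc (FreeGroup.of x)).2.subset_connectedComponent (x := piece h 1 x0)
          · rw [h1]
            exact mem_range_self x
          · exact mem_range_self x0
        exact h2
      | inv_of x hx =>
        have h1 := hpt (FreeGroup.of x)⁻¹ x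
        rw [inv_mul_cancel] at h1
        apply (hc 1).2.subset_connectedComponent (x := piece h 1 x0)
        · exact mem_range_self x0
        · rw [h1]
          exact mem_range_self x
      | mul x y hx hy =>
        -- translate
        have h3 : act x (piece h y x0) ∈ connectedComponent (act x (piece h 1 x0)) := by
          have := (act_continuous (h := h) x).image_connectedComponent_subset (piece h 1 x0)
          exact this ⟨_, hy, rfl⟩
        rw [act_piece, act_piece, mul_one] at h3
        rw [connectedComponent_eq hx]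
        exact h3
    have hcc : connectedComponent (piece h 1 x0) = univ := by
      rw [eq_univ_iff_forall]
      intro p
      obtain ⟨w, y, rfl⟩ := piece_surj p
      have h1 := (hc w).2.subset_connectedComponent (x := piece h w x0) (mem_range_self x0)
        (mem_range_self y)
      rw [connectedComponent_eq (hall w)]
      exact h1
    have : IsConnected (univ : Set (Homog h)) := hcc ▸ isConnected_connectedComponent
    exact connectedSpace_iff_univ.2 this
  · intro p q
    obtain ⟨g, hg⟩ := hM p
    obtain ⟨g', hg'⟩ := hM q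
    refine ⟨actHomeo (g' * g⁻¹), ?_⟩
    show act (g' * g⁻¹) p = q
    rw [← hg, act_act, inv_mul_cancel_right, hg']
  · intro p
    obtain ⟨w, x, rfl⟩ := piece_surj p
    exact ⟨fun e => piece h w (f x e), (hemb w).comp (hf x), by
      show piece h w (f x o) = piece h w x
      rw [hfo]⟩

end Pool.Agent.R826.Glue
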