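import Pool.Agent.Helper764.KacDefs

set_option autoImplicit false
set_option maxHeartbeats 4000000
open MeasureTheory ProbabilityTheory Filter Topology Set
open scoped ENNReal NNReal

namespace Pool.Agent.R826.KR
open Kac764

theorem sqrt_lb (u : ℝ) (h : |u| ≤ 1 / 2) :
    1 + u / 2 - u ^ 2 / 8 - |u| ^ 3 ≤ Real.sqrt (1 + u) := by
  apply Real.le_sqrt_of_sq_le
  rcases le_total 0 u with hu | hu
  · rw [abs_of_nonneg hu] at h ⊢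
    have hb : -(1 / 8) + u / 64 - 2 - u + u ^ 2 / 4 + u ^ 3 ≤ 0 := by
      have : u ^ 3 ≤ 1 / 8 := by
        calc u ^ 3 ≤ (1 / 2) ^ 3 := pow_le_pow_left₀ hu h 3
          _ = 1 / 8 := by norm_num
      nlinarith
    have h3 : 0 ≤ u ^ 3 := by positivity
    nlinarith [mul_nonneg h3 (neg_nonneg.2 hb)]
  · obtain ⟨t, rfl⟩ : ∃ t, u = -t := ⟨-u, by ring⟩
    have ht : 0 ≤ t := by linarith
    rw [abs_neg, abs_of_nonneg ht] at h ⊢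
    have hb : 1 / 8 + t / 64 - 2 + t + t ^ 2 / 4 + t ^ 3 ≤ 0 := by
      have : t ^ 3 ≤ 1 / 8 := by
        calc t ^ 3 ≤ (1 / 2) ^ 3 := pow_le_pow_left₀ ht h 3
          _ = 1 / 8 := by norm_num
      nlinarith
    have h3 : 0 ≤ t ^ 3 := by positivity
    nlinarith [mul_nonneg h3 (neg_nonneg.2 hb)]

theorem y_bd (e S y : ℝ) (he0 : 0 < e) (he : e ≤ 1 / 8) (hS1 : -1 ≤ S) (hy1 : y * (1 + e * S) = 1)
    (hy0 : 0 < y) : y ≤ 8 / 7 := by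
  have h1 : -(1 / 8) ≤ e * S := by nlinarith
  nlinarith

theorem u_bd (e d b y : ℝ) (he0 : 0 < e) (he : e ≤ 1 / 8) (hy0 : 0 < y) (hyu : y ≤ 8 / 7)
    (hb0 : 0 ≤ b) : |e * d * y - e ^ 2 * b * y ^ 2| ≤ e * (8 / 7 * |d| + 1 / 6 * b) := by
  have h1 : |e * d * y - e ^ 2 * b * y ^ 2| ≤ |e * d * y| + |e ^ 2 * b * y ^ 2| := abs_sub _ _
  have h2 : |e * d * y| = e * |d| * y := by
    rw [abs_mul, abs_mul, abs_of_pos he0, abs_of_pos hy0]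
  have h3 : |e ^ 2 * b * y ^ 2| = e ^ 2 * b * y ^ 2 := abs_of_nonneg (by positivity)
  rw [h2, h3] at h1
  have ht0 := abs_nonneg d
  have h4 : e * |d| * y ≤ e * (8 / 7 * |d|) := by
    calc e * |d| * y ≤ e * |d| * (8 / 7) := by gcongr
      _ = _ := by ring
  have h5 : e ^ 2 * b * y ^ 2 ≤ e * (1 / 6 * b) := by
    calc e ^ 2 * b * y ^ 2 ≤ e ^ 2 * b * (8 / 7) ^ 2 := by gcongr
      _ = e * (e * (64 / 49) * b) := by ring
      _ ≤ e * (1 / 8 * (64 / 49) * b) := by gcongr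
      _ ≤ e * (1 / 6 * b) := by gcongr; norm_num
  calc |e * d * y - e ^ 2 * b * y ^ 2| ≤ e * (8 / 7 * |d|) + e * (1 / 6 * b) := by linarith
    _ = _ := by ring

theorem w_bd (t b R : ℝ) (htsq : t ^ 2 ≤ 2 * R) (hb0 : 0 ≤ b) (hb : b ≤ 1) (hR : 0 ≤ R) :
    (8 / 7 * t + 1 / 6 * b) ^ 2 ≤ 6 * (R + b) := by
  have hbb : b ^ 2 ≤ b := by nlinarith
  have h1 : (8 / 7 * t + 1 / 6 * b) ^ 2 =
      2 * (64 / 49 * t ^ 2) + 2 * (1 / 36 * b ^ 2) - (8 / 7 * t - 1 / 6 * b) ^ 2 := by ring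
  have h2 := sq_nonneg (8 / 7 * t - 1 / 6 * b)
  rw [h1]
  linarith

theorem t1_bd (e d S y E : ℝ) (he0 : 0 < e) (ht2 : |d| ≤ 2) (hy0 : 0 < y) (hyu : y ≤ 8 / 7)
    (hy1 : y * (1 + e * S) = 1) (hSE : S ^ 2 ≤ E) :
    -(2 * (e ^ 3 * E)) ≤ e * d * y / 2 - e * d / 2 + e ^ 2 * d * S / 2 := by
  have hy2 : y - 1 = -(e * S * y) := by linarith [hy1]
  have he3 : 0 < e ^ 3 := by positivity
  have h1 : e * d * y / 2 - e * d / 2 + e ^ 2 * d * S / 2 = e ^ 3 * (d * S ^ 2 * y / 2) := by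
    have : e * d * y / 2 - e * d / 2 + e ^ 2 * d * S / 2 = e * d / 2 * ((y - 1) + e * S) := by ring
    rw [this, hy2]
    have h2 : -(e * S * y) + e * S = -(e * S) * (y - 1) := by ring
    rw [h2, hy2]
    ring
  rw [h1]
  have h3 : |d * S ^ 2 * y / 2| ≤ 2 * E := by
    rw [abs_div, abs_mul, abs_mul, abs_of_pos hy0, abs_of_nonneg (sq_nonneg S), abs_two]
    have h4 : |d| * S ^ 2 * y ≤ 2 * S ^ 2 * (8 / 7) := by gcongr
    linarith [sq_nonneg S]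
  have h6 := (abs_le.1 h3).1
  calc -(2 * (e ^ 3 * E)) = e ^ 3 * (-(2 * E)) := by ring
    _ ≤ _ := mul_le_mul_of_nonneg_left h6 he3.le

theorem t2_bd (e S b y E : ℝ) (he0 : 0 < e) (hS : |S| ≤ 1) (hb0 : 0 ≤ b) (hy0 : 0 < y)
    (hyu : y ≤ 8 / 7) (hy1 : y * (1 + e * S) = 1) (hbE : b ≤ E) :
    -(2 * (e ^ 3 * E)) ≤ -(e ^ 2 * b * y ^ 2) / 2 + e ^ 2 * b / 2 := by
  have hy2 : y - 1 = -(e * S * y) := by linarith [hy1]
  have he3 : 0 < e ^ 3 := by positivity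
  have h1 : -(e ^ 2 * b * y ^ 2) / 2 + e ^ 2 * b / 2 = e ^ 3 * (b * (S * (y * (1 + y))) / 2) := by
    have : -(e ^ 2 * b * y ^ 2) / 2 + e ^ 2 * b / 2 = -(e ^ 2 * b / 2 * ((y - 1) * (1 + y))) := by ring
    rw [this, hy2]
    ring
  rw [h1]
  have h2 : y * (1 + y) ≤ 5 / 2 := by
    calc y * (1 + y) ≤ 8 / 7 * (1 + 8 / 7) := by gcongr
      _ ≤ 5 / 2 := by norm_num
  have h3 : |b * (S * (y * (1 + y))) / 2| ≤ 2 * E := by
    rw [abs_div, abs_mul, abs_mul, abs_of_nonneg hb0,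
      abs_of_nonneg (show 0 ≤ y * (1 + y) by positivity), abs_two]
    have h4 : b * (|S| * (y * (1 + y))) ≤ b * (1 * (5 / 2)) := by gcongr
    linarith
  have h6 := (abs_le.1 h3).1
  calc -(2 * (e ^ 3 * E)) = e ^ 3 * (-(2 * E)) := by ring
    _ ≤ _ := mul_le_mul_of_nonneg_left h6 he3.le

theorem t3_bd (e d S b y u R : ℝ) (he0 : 0 < e) (he : e ≤ 1 / 8) (hS : |S| ≤ 1) (hb0 : 0 ≤ b)
    (hb : b ≤ 1) (ht2 : |d| ≤ 2) (hy0 : 0 < y) (hyu : y ≤ 8 / 7) (hy1 : y * (1 + e * S) = 1)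
    (htsq : |d| ^ 2 ≤ 2 * R) (hR : 0 ≤ R)
    (hu : u = e * d * y - e ^ 2 * b * y ^ 2) :
    -(10 * (e ^ 3 * (R + b))) ≤ -(u ^ 2) / 8 + e ^ 2 * d ^ 2 / 8 := by
  have hy2 : y - 1 = -(e * S * y) := by linarith [hy1]
  have he3 : 0 < e ^ 3 := by positivity
  have ht0 := abs_nonneg d
  have h1 : -(u ^ 2) / 8 + e ^ 2 * d ^ 2 / 8 = (e * d - u) * (e * d + u) / 8 := by ring
  have h2 : e * d - u = e ^ 2 * (d * S * y + b * y ^ 2) := by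
    have : e * d - u = -(e * d) * (y - 1) + e ^ 2 * b * y ^ 2 := by rw [hu]; ring
    rw [this, hy2]
    ring
  have h3 : |e * d - u| ≤ e ^ 2 * (8 / 7 * |d| + 4 / 3 * b) := by
    rw [h2, abs_mul, abs_of_pos (show 0 < e ^ 2 by positivity)]
    apply mul_le_mul_of_nonneg_left _ (by positivity)
    have h4 : |d * S * y| ≤ 8 / 7 * |d| := by
      rw [abs_mul, abs_mul, abs_of_pos hy0]
      calc |d| * |S| * y ≤ |d| * 1 * (8 / 7) := by gcongr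
        _ = _ := by ring
    have h5 : |b * y ^ 2| ≤ 4 / 3 * b := by
      rw [abs_of_nonneg (by positivity)]
      calc b * y ^ 2 ≤ b * (8 / 7) ^ 2 := by gcongr
        _ ≤ 4 / 3 * b := by linarith
    calc |d * S * y + b * y ^ 2| ≤ |d * S * y| + |b * y ^ 2| := abs_add_le _ _
      _ ≤ _ := by linarith
  have hu1 : |u| ≤ e * (8 / 7 * |d| + 1 / 6 * b) := by
    rw [hu]; exact u_bd e d b y he0 he hy0 hyu hb0
  have h4 : |e * d + u| ≤ e * (|d| + (8 / 7 * |d| + 1 / 6 * b)) := by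
    have : |e * d| = e * |d| := by rw [abs_mul, abs_of_pos he0]
    calc |e * d + u| ≤ |e * d| + |u| := abs_add_le _ _
      _ ≤ e * |d| + e * (8 / 7 * |d| + 1 / 6 * b) := by rw [this]; linarith
      _ = _ := by ring
  have h7 : (8 / 7 * |d| + 4 / 3 * b) * (|d| + (8 / 7 * |d| + 1 / 6 * b)) ≤ 80 * (R + b) := by
    have hbb : b ^ 2 ≤ b := by nlinarith
    have htb : |d| * b ≤ 2 * b := by gcongr
    have hx : (8 / 7 * |d| + 4 / 3 * b) * (|d| + (8 / 7 * |d| + 1 / 6 * b)) =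
        120 / 49 * |d| ^ 2 + (4 / 21 + 20 / 7) * (|d| * b) + 2 / 9 * b ^ 2 := by ring
    rw [hx]
    linarith
  have h5 : |(e * d - u) * (e * d + u)| ≤ e ^ 3 * (80 * (R + b)) := by
    rw [abs_mul]
    calc |e * d - u| * |e * d + u| ≤
        (e ^ 2 * (8 / 7 * |d| + 4 / 3 * b)) * (e * (|d| + (8 / 7 * |d| + 1 / 6 * b))) := by gcongr
      _ = e ^ 3 * ((8 / 7 * |d| + 4 / 3 * b) * (|d| + (8 / 7 * |d| + 1 / 6 * b))) := by ring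
      _ ≤ e ^ 3 * (80 * (R + b)) := mul_le_mul_of_nonneg_left h7 he3.le
  have h6 := (abs_le.1 h5).1
  rw [h1]
  linarith

/-- the elementary inequality -/
theorem main_ineq (e a S b : ℝ) (he0 : 0 < e) (he : e ≤ 1 / 8) (ha : |a| ≤ 1) (hS : |S| ≤ 1)
    (hb0 : 0 ≤ b) (hb : b ≤ 1) :
    1 + e / 2 * (a - S) + e ^ 2 * (3 / 8 * S ^ 2 - 1 / 4 * (a * S) - 1 / 8 * a ^ 2 - 1 / 2 * b)
      - 100 * (e ^ 3 * (a ^ 2 + S ^ 2 + b)) ≤
    Real.sqrt ((1 + e * a) / (1 + e * S) - e ^ 2 * b / (1 + e * S) ^ 2) := by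
  obtain ⟨hS1, hS2⟩ := abs_le.1 hS
  obtain ⟨ha1, ha2⟩ := abs_le.1 ha
  have heS : -(1 / 8) ≤ e * S := by nlinarith
  have hpos : 7 / 8 ≤ 1 + e * S := by linarith
  have hne : 1 + e * S ≠ 0 := by linarith
  obtain ⟨y, hy⟩ : ∃ y : ℝ, y = (1 + e * S)⁻¹ := ⟨_, rfl⟩
  have hy1 : y * (1 + e * S) = 1 := by rw [hy]; exact inv_mul_cancel₀ hne
  have hy0 : 0 < y := by rw [hy]; positivity
  have hyu : y ≤ 8 / 7 := y_bd e S y he0 he hS1 hy1 hy0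
  obtain ⟨d, hd⟩ : ∃ d : ℝ, d = a - S := ⟨_, rfl⟩
  obtain ⟨u, hu⟩ : ∃ u : ℝ, u = e * d * y - e ^ 2 * b * y ^ 2 := ⟨_, rfl⟩
  have hQ : (1 + e * a) / (1 + e * S) - e ^ 2 * b / (1 + e * S) ^ 2 = 1 + u := by
    rw [div_eq_mul_inv, div_eq_mul_inv, ← inv_pow, ← hy, hu, hd]
    have : (1 + e * a) * y = 1 + e * (a - S) * y := by
      calc (1 + e * a) * y = y * (1 + e * S) + e * (a - S) * y := by ring
        _ = _ := by rw [hy1]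
    rw [this]
    ring
  rw [hQ]
  have ht0 : 0 ≤ |d| := abs_nonneg d
  have ht2 : |d| ≤ 2 := by
    rw [abs_le, hd]
    constructor <;> linarith
  have htsq : |d| ^ 2 ≤ 2 * (a ^ 2 + S ^ 2) := by
    rw [sq_abs, hd]
    have := sq_nonneg (a + S)
    linarith [this, show (a - S) ^ 2 = 2 * (a ^ 2 + S ^ 2) - (a + S) ^ 2 by ring]
  have hR : 0 ≤ a ^ 2 + S ^ 2 := by positivity
  have hu1 : |u| ≤ e * (8 / 7 * |d| + 1 / 6 * b) := by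
    rw [hu]; exact u_bd e d b y he0 he hy0 hyu hb0
  have hw0 : 0 ≤ 8 / 7 * |d| + 1 / 6 * b := by positivity
  have hw3 : 8 / 7 * |d| + 1 / 6 * b ≤ 5 / 2 := by linarith
  have hhalf : |u| ≤ 1 / 2 := by
    calc |u| ≤ e * (8 / 7 * |d| + 1 / 6 * b) := hu1
      _ ≤ 1 / 8 * (5 / 2) := by gcongr
      _ ≤ 1 / 2 := by norm_num
  have hsq := sqrt_lb u hhalf
  have hwE := w_bd |d| b (a ^ 2 + S ^ 2) htsq hb0 hb hR
  have hcub : |u| ^ 3 ≤ 15 * (e ^ 3 * (a ^ 2 + S ^ 2 + b)) := by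
    calc |u| ^ 3 ≤ (e * (8 / 7 * |d| + 1 / 6 * b)) ^ 3 := pow_le_pow_left₀ (abs_nonneg u) hu1 3
      _ = e ^ 3 * ((8 / 7 * |d| + 1 / 6 * b) * (8 / 7 * |d| + 1 / 6 * b) ^ 2) := by ring
      _ ≤ e ^ 3 * (5 / 2 * (6 * (a ^ 2 + S ^ 2 + b))) := by gcongr
      _ = 15 * (e ^ 3 * (a ^ 2 + S ^ 2 + b)) := by ring
  have hSE : S ^ 2 ≤ a ^ 2 + S ^ 2 + b := by linarith [sq_nonneg a]
  have hbE : b ≤ a ^ 2 + S ^ 2 + b := by linarith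
  have t1 := t1_bd e d S y (a ^ 2 + S ^ 2 + b) he0 ht2 hy0 hyu hy1 hSE
  have t2 := t2_bd e S b y (a ^ 2 + S ^ 2 + b) he0 hS hb0 hy0 hyu hy1 hbE
  have t3 := t3_bd e d S b y u (a ^ 2 + S ^ 2) he0 he hS hb0 hb ht2 hy0 hyu hy1 htsq hR hu
  have hfin : 1 + u / 2 - u ^ 2 / 8 - |u| ^ 3 -
      (1 + e / 2 * (a - S) + e ^ 2 * (3 / 8 * S ^ 2 - 1 / 4 * (a * S) - 1 / 8 * a ^ 2 - 1 / 2 * b)
      - 100 * (e ^ 3 * (a ^ 2 + S ^ 2 + b))) =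
      (e * d * y / 2 - e * d / 2 + e ^ 2 * d * S / 2) + (-(e ^ 2 * b * y ^ 2) / 2 + e ^ 2 * b / 2)
      + (-(u ^ 2) / 8 + e ^ 2 * d ^ 2 / 8) - |u| ^ 3 + 100 * (e ^ 3 * (a ^ 2 + S ^ 2 + b)) := by
    have : u / 2 = e * d * y / 2 - e ^ 2 * b * y ^ 2 / 2 := by rw [hu]; ring
    rw [this, hd]
    ring
  have hpE : 0 ≤ e ^ 3 * (a ^ 2 + S ^ 2 + b) := by positivity
  linarith

end Pool.Agent.R826.KR
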