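import Pool.Agent.R826.KM
import Pool.Agent.R826.KI
import Pool.Agent.Helper764.KacH2

set_option autoImplicit false
open MeasureTheory ProbabilityTheory Filter Topology Set
open scoped ENNReal NNReal

namespace Pool.Agent.R826.KR
open Kac764

/-! ### linear forms in i.i.d. centred variables -/

theorem lin_memLp (μ : Measure ℝ) (hμ : Std μ) (n : ℕ) (w : ℕ → ℝ) :
    MemLp (fun ω : ℕ → ℝ => ∑ j ∈ Finset.range (n + 1), ω j * w j) 2 (PP μ) := by
  have := hμ.prob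
  have hmp : ∀ j : ℕ, MeasurePreserving (fun ω : ℕ → ℝ => ω j) (PP μ) μ := fun j =>
    measurePreserving_eval_infinitePi _ j
  have hid : MemLp (fun x : ℝ => x) 2 μ :=
    (memLp_two_iff_integrable_sq (by fun_prop)).2 hμ.int2
  have hX0 : ∀ j : ℕ, MemLp (fun ω : ℕ → ℝ => ω j) 2 (PP μ) := fun j =>
    hid.comp_measurePreserving (hmp j)
  have hX : ∀ j : ℕ, MemLp (fun ω : ℕ → ℝ => ω j * w j) 2 (PP μ) := fun j =>
    (hX0 j).mul_const (w j)
  have hsumL : MemLp (∑ j ∈ Finset.range (n + 1), fun ω : ℕ → ℝ => ω j * w j) 2 (PP μ) :=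
    memLp_finsetSum' _ fun j _ => hX j
  have hsum_eq : (∑ j ∈ Finset.range (n + 1), fun ω : ℕ → ℝ => ω j * w j) =
      fun ω => ∑ j ∈ Finset.range (n + 1), ω j * w j := by
    funext ω
    simp
  rwa [hsum_eq] at hsumL

theorem lin_mean (μ : Measure ℝ) (hμ : Std μ) (n : ℕ) (w : ℕ → ℝ) :
    ∫ ω, (∑ j ∈ Finset.range (n + 1), ω j * w j) ∂(PP μ) = 0 := by
  have := hμ.prob
  have hmp : ∀ j : ℕ, MeasurePreserving (fun ω : ℕ → ℝ => ω j) (PP μ) μ := fun j =>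
    measurePreserving_eval_infinitePi _ j
  have hid : MemLp (fun x : ℝ => x) 2 μ :=
    (memLp_two_iff_integrable_sq (by fun_prop)).2 hμ.int2
  have hX : ∀ j : ℕ, MemLp (fun ω : ℕ → ℝ => ω j * w j) 2 (PP μ) := fun j =>
    (hid.comp_measurePreserving (hmp j)).mul_const (w j)
  rw [integral_finsetSum _ (fun j _ => (hX j).integrable (by norm_num))]
  refine Finset.sum_eq_zero fun j _ => ?_
  rw [integral_mul_const]
  have : ∫ ω : ℕ → ℝ, ω j ∂(PP μ) = ∫ x, x ∂μ := by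
    have h := integral_map (μ := PP μ) (hmp j).measurable.aemeasurable
      (f := fun x : ℝ => x) (by fun_prop)
    rw [(hmp j).map_eq] at h
    exact h.symm
  rw [this, hμ.mean, zero_mul]

theorem lin_sq (μ : Measure ℝ) (hμ : Std μ) (n : ℕ) (w : ℕ → ℝ) :
    ∫ ω, (∑ j ∈ Finset.range (n + 1), ω j * w j) ^ 2 ∂(PP μ) =
      ∑ j ∈ Finset.range (n + 1), w j ^ 2 := by
  have := hμ.prob
  have hmp : ∀ j : ℕ, MeasurePreserving (fun ω : ℕ → ℝ => ω j) (PP μ) μ := fun j =>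
    measurePreserving_eval_infinitePi _ j
  have hid : MemLp (fun x : ℝ => x) 2 μ :=
    (memLp_two_iff_integrable_sq (by fun_prop)).2 hμ.int2
  have hX : ∀ j : ℕ, MemLp (fun ω : ℕ → ℝ => ω j * w j) 2 (PP μ) := fun j =>
    (hid.comp_measurePreserving (hmp j)).mul_const (w j)
  have hind : iIndepFun (fun (i : ℕ) (ω : ℕ → ℝ) => ω i * w i) (PP μ) :=
    iIndepFun_infinitePi (P := fun _ : ℕ => μ) (X := fun i x => x * w i) (by fun_prop)
  have hsum_eq : (∑ j ∈ Finset.range (n + 1), fun ω : ℕ → ℝ => ω j * w j) =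
      fun ω => ∑ j ∈ Finset.range (n + 1), ω j * w j := by
    funext ω
    simp
  have hvar : variance (fun ω => ∑ j ∈ Finset.range (n + 1), ω j * w j) (PP μ) =
      ∑ j ∈ Finset.range (n + 1), w j ^ 2 := by
    rw [← hsum_eq, IndepFun.variance_sum (fun j _ => hX j)
      (fun i _ j _ hij => hind.indepFun hij)]
    refine Finset.sum_congr rfl fun j _ => ?_
    have h1 : variance (fun ω : ℕ → ℝ => ω j * w j) (PP μ) = variance (fun x : ℝ => x * w j) μ :=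
      (hmp j).variance_fun_comp (f := fun x : ℝ => x * w j) (by fun_prop)
    rw [h1, variance_mul_const]
    have h2 : variance (fun x : ℝ => x) μ = 1 := by
      rw [variance_of_integral_eq_zero (by fun_prop) hμ.mean]
      exact hμ.var
    rw [h2, one_mul]
  rw [← hvar, variance_of_integral_eq_zero
    (lin_memLp μ hμ n w).aestronglyMeasurable.aemeasurable (lin_mean μ hμ n w)]

theorem lin_sq_int (μ : Measure ℝ) (hμ : Std μ) (n : ℕ) (w : ℕ → ℝ) :
    Integrable (fun ω : ℕ → ℝ => (∑ j ∈ Finset.range (n + 1), ω j * w j) ^ 2) (PP μ) :=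
  (lin_memLp μ hμ n w).integrable_sq

/-- the lower function -/
noncomputable def low (e : ℝ) (n : ℕ) (p A B : ℕ → ℝ) (η : ℕ → ℝ) : ℝ :=
  1 + e / 2 * ((∑ j ∈ Finset.range (n + 1), η j * A j) - ∑ j ∈ Finset.range (n + 1), η j * p j)
    + e ^ 2 * (3 / 8 * (∑ j ∈ Finset.range (n + 1), η j * p j) ^ 2
      - 1 / 4 * ((∑ j ∈ Finset.range (n + 1), η j * A j) * (∑ j ∈ Finset.range (n + 1), η j * p j))
      - 1 / 8 * (∑ j ∈ Finset.range (n + 1), η j * A j) ^ 2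
      - 1 / 2 * (∑ j ∈ Finset.range (n + 1), η j * B j) ^ 2)
    - 100 * (e ^ 3 * ((∑ j ∈ Finset.range (n + 1), η j * A j) ^ 2
      + (∑ j ∈ Finset.range (n + 1), η j * p j) ^ 2 + (∑ j ∈ Finset.range (n + 1), η j * B j) ^ 2))

theorem low_int (μ : Measure ℝ) (hμ : Std μ) (e : ℝ) (n : ℕ) (p A B : ℕ → ℝ)
    (hAB : ∀ j, A j * p j = B j ^ 2) :
    Integrable (low e n p A B) (PP μ) ∧
    ∫ η, low e n p A B η ∂(PP μ) = 1 +
      e ^ 2 * (3 / 8 * (∑ j ∈ Finset.range (n + 1), p j ^ 2)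
        - 3 / 4 * (∑ j ∈ Finset.range (n + 1), B j ^ 2)
        - 1 / 8 * (∑ j ∈ Finset.range (n + 1), A j ^ 2))
      - 100 * (e ^ 3 * ((∑ j ∈ Finset.range (n + 1), A j ^ 2) + (∑ j ∈ Finset.range (n + 1), p j ^ 2)
        + ∑ j ∈ Finset.range (n + 1), B j ^ 2)) := by
  have := hμ.prob
  set LA : (ℕ → ℝ) → ℝ := fun η => ∑ j ∈ Finset.range (n + 1), η j * A j with hLA
  set Lp : (ℕ → ℝ) → ℝ := fun η => ∑ j ∈ Finset.range (n + 1), η j * p j with hLp
  set LB : (ℕ → ℝ) → ℝ := fun η => ∑ j ∈ Finset.range (n + 1), η j * B j with hLB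
  set LS : (ℕ → ℝ) → ℝ := fun η => ∑ j ∈ Finset.range (n + 1), η j * (A j + p j) with hLS
  have iA1 : Integrable LA (PP μ) := (lin_memLp μ hμ n A).integrable (by norm_num)
  have ip1 : Integrable Lp (PP μ) := (lin_memLp μ hμ n p).integrable (by norm_num)
  have iA : Integrable (fun η => LA η ^ 2) (PP μ) := lin_sq_int μ hμ n A
  have ip : Integrable (fun η => Lp η ^ 2) (PP μ) := lin_sq_int μ hμ n p
  have iB : Integrable (fun η => LB η ^ 2) (PP μ) := lin_sq_int μ hμ n B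
  have iS : Integrable (fun η => LS η ^ 2) (PP μ) := lin_sq_int μ hμ n (fun j => A j + p j)
  have e1 : ∀ η, low e n p A B η = 1 + (e / 2 * LA η - e / 2 * Lp η
      + ((e ^ 2 * (3 / 8) + e ^ 2 / 8 - 100 * e ^ 3) * Lp η ^ 2
      + (e ^ 2 / 8 - e ^ 2 / 8 - 100 * e ^ 3) * LA η ^ 2
      + (-(e ^ 2 / 8)) * LS η ^ 2
      + (-(e ^ 2 / 2) - 100 * e ^ 3) * LB η ^ 2)) := by
    intro η
    have hs : LS η = LA η + Lp η := by
      simp only [hLS, hLA, hLp]
      rw [← Finset.sum_add_distrib]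
      exact Finset.sum_congr rfl fun j _ => by ring
    rw [hs]
    unfold low
    simp only [hLA, hLp, hLB]
    ring
  have hlow : low e n p A B = fun η => 1 + (e / 2 * LA η - e / 2 * Lp η
      + ((e ^ 2 * (3 / 8) + e ^ 2 / 8 - 100 * e ^ 3) * Lp η ^ 2
      + (e ^ 2 / 8 - e ^ 2 / 8 - 100 * e ^ 3) * LA η ^ 2
      + (-(e ^ 2 / 8)) * LS η ^ 2
      + (-(e ^ 2 / 2) - 100 * e ^ 3) * LB η ^ 2)) := funext e1
  have j1 : Integrable (fun η => e / 2 * LA η - e / 2 * Lp η) (PP μ) :=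
    (iA1.const_mul _).sub (ip1.const_mul _)
  have j2 : Integrable (fun η => (e ^ 2 * (3 / 8) + e ^ 2 / 8 - 100 * e ^ 3) * Lp η ^ 2
      + (e ^ 2 / 8 - e ^ 2 / 8 - 100 * e ^ 3) * LA η ^ 2) (PP μ) :=
    (ip.const_mul _).add (iA.const_mul _)
  have j3 : Integrable (fun η => (e ^ 2 * (3 / 8) + e ^ 2 / 8 - 100 * e ^ 3) * Lp η ^ 2
      + (e ^ 2 / 8 - e ^ 2 / 8 - 100 * e ^ 3) * LA η ^ 2
      + (-(e ^ 2 / 8)) * LS η ^ 2) (PP μ) := j2.add (iS.const_mul _)
  have j4 : Integrable (fun η => (e ^ 2 * (3 / 8) + e ^ 2 / 8 - 100 * e ^ 3) * Lp η ^ 2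
      + (e ^ 2 / 8 - e ^ 2 / 8 - 100 * e ^ 3) * LA η ^ 2
      + (-(e ^ 2 / 8)) * LS η ^ 2
      + (-(e ^ 2 / 2) - 100 * e ^ 3) * LB η ^ 2) (PP μ) := j3.add (iB.const_mul _)
  have j5 : Integrable (fun η => e / 2 * LA η - e / 2 * Lp η
      + ((e ^ 2 * (3 / 8) + e ^ 2 / 8 - 100 * e ^ 3) * Lp η ^ 2
      + (e ^ 2 / 8 - e ^ 2 / 8 - 100 * e ^ 3) * LA η ^ 2
      + (-(e ^ 2 / 8)) * LS η ^ 2
      + (-(e ^ 2 / 2) - 100 * e ^ 3) * LB η ^ 2)) (PP μ) := j1.add j4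
  constructor
  · rw [hlow]
    exact (integrable_const 1).add j5
  · rw [hlow, integral_add (integrable_const 1) j5, integral_add j1 j4,
      integral_sub (iA1.const_mul _) (ip1.const_mul _), integral_add j3 (iB.const_mul _),
      integral_add j2 (iS.const_mul _), integral_add (ip.const_mul _) (iA.const_mul _),
      integral_const_mul, integral_const_mul, integral_const_mul, integral_const_mul,
      integral_const_mul, integral_const_mul, integral_const]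
    rw [show ∫ η, LA η ∂(PP μ) = 0 from lin_mean μ hμ n A,
      show ∫ η, Lp η ∂(PP μ) = 0 from lin_mean μ hμ n p,
      show ∫ η, LA η ^ 2 ∂(PP μ) = _ from lin_sq μ hμ n A,
      show ∫ η, Lp η ^ 2 ∂(PP μ) = _ from lin_sq μ hμ n p,
      show ∫ η, LB η ^ 2 ∂(PP μ) = _ from lin_sq μ hμ n B,
      show ∫ η, LS η ^ 2 ∂(PP μ) = _ from lin_sq μ hμ n (fun j => A j + p j)]
    have hS : ∑ j ∈ Finset.range (n + 1), (A j + p j) ^ 2 = (∑ j ∈ Finset.range (n + 1), A j ^ 2)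
        + 2 * (∑ j ∈ Finset.range (n + 1), B j ^ 2) + ∑ j ∈ Finset.range (n + 1), p j ^ 2 := by
      rw [Finset.mul_sum, ← Finset.sum_add_distrib, ← Finset.sum_add_distrib]
      refine Finset.sum_congr rfl fun j _ => ?_
      rw [← hAB j]
      ring
    rw [hS]
    simp only [probReal_univ, one_smul]
    ring

/-- lower bounds of integrals by lower integrals -/
theorem ofReal_int_le {Ω : Type*} [MeasurableSpace Ω] (P : Measure Ω) (f g : Ω → ℝ)
    (hf : Integrable f P) (hfg : ∀ᵐ ω ∂P, f ω ≤ g ω) :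
    ENNReal.ofReal (∫ ω, f ω ∂P) ≤ ∫⁻ ω, ENNReal.ofReal (g ω) ∂P := by
  have h1 : ∫ ω, f ω ∂P ≤ (∫⁻ ω, ENNReal.ofReal (f ω) ∂P).toReal := by
    rw [integral_eq_lintegral_pos_part_sub_lintegral_neg_part hf]
    have : 0 ≤ (∫⁻ ω, ENNReal.ofReal (-f ω) ∂P).toReal := ENNReal.toReal_nonneg
    linarith
  calc ENNReal.ofReal (∫ ω, f ω ∂P) ≤ ENNReal.ofReal ((∫⁻ ω, ENNReal.ofReal (f ω) ∂P).toReal) :=
        ENNReal.ofReal_le_ofReal h1
    _ ≤ ∫⁻ ω, ENNReal.ofReal (f ω) ∂P := ENNReal.ofReal_toReal_le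
    _ ≤ _ := lintegral_mono_ae (by
        filter_upwards [hfg] with ω h
        exact ENNReal.ofReal_le_ofReal h)

end Pool.Agent.R826.KR
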