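import Pool.Agent.R826.KJ
import Pool.Agent.Helper764.KacM2

set_option autoImplicit false
open MeasureTheory ProbabilityTheory Filter Topology Set
open scoped ENNReal NNReal

namespace Pool.Agent.R826.KR
open Kac764

noncomputable def pp (n : ℕ) (x : ℝ) (j : ℕ) : ℝ := (x ^ j) ^ 2 / SA n x
noncomputable def mm (n : ℕ) (x : ℝ) : ℝ := ∑ j ∈ Finset.range (n + 1), pp n x j * (j : ℝ)
noncomputable def vv (n : ℕ) (x : ℝ) : ℝ :=
  ∑ j ∈ Finset.range (n + 1), pp n x j * ((j : ℝ) - mm n x) ^ 2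
noncomputable def aa (n : ℕ) (x : ℝ) (j : ℕ) : ℝ := pp n x j * ((j : ℝ) - mm n x) ^ 2 / vv n x
noncomputable def bb (n : ℕ) (x : ℝ) (j : ℕ) : ℝ :=
  pp n x j * ((j : ℝ) - mm n x) / Real.sqrt (vv n x)

theorem SA_pos (n : ℕ) (x : ℝ) : 0 < SA n x := lt_of_lt_of_le one_pos (H2.j12038_SA_one n x)

theorem pp_nonneg (n : ℕ) (x : ℝ) (j : ℕ) : 0 ≤ pp n x j :=
  div_nonneg (sq_nonneg _) (SA_pos n x).le

theorem pp_sum (n : ℕ) (x : ℝ) : ∑ j ∈ Finset.range (n + 1), pp n x j = 1 := by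
  unfold pp
  rw [← Finset.sum_div]
  exact div_self (SA_pos n x).ne'

theorem vv_nonneg (n : ℕ) (x : ℝ) : 0 ≤ vv n x :=
  Finset.sum_nonneg fun j _ => mul_nonneg (pp_nonneg n x j) (sq_nonneg _)

theorem vv_pos (n : ℕ) (hn : 1 ≤ n) (x : ℝ) (hx : x ≠ 0) : 0 < vv n x := by
  have hpp : ∀ j, 0 < pp n x j := by
    intro j
    have : x ^ j ≠ 0 := pow_ne_zero j hx
    exact div_pos (by positivity) (SA_pos n x)
  apply Finset.sum_pos' (fun j _ => mul_nonneg (pp_nonneg n x j) (sq_nonneg _))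
  by_cases h : mm n x = 0
  · refine ⟨1, by simp; omega, ?_⟩
    rw [h]
    have := hpp 1
    norm_num
    exact this
  · refine ⟨0, by simp, ?_⟩
    have h0 := hpp 0
    have h1 : 0 < ((0 : ℕ) - mm n x : ℝ) ^ 2 := by
      have : ((0 : ℕ) - mm n x : ℝ) ≠ 0 := by simpa using h
      positivity
    positivity

theorem aa_nonneg (n : ℕ) (x : ℝ) (j : ℕ) : 0 ≤ aa n x j :=
  div_nonneg (mul_nonneg (pp_nonneg n x j) (sq_nonneg _)) (vv_nonneg n x)

theorem aa_sum (n : ℕ) (x : ℝ) (hv : 0 < vv n x) : ∑ j ∈ Finset.range (n + 1), aa n x j = 1 := by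
  unfold aa
  rw [← Finset.sum_div]
  exact div_self hv.ne'

theorem bb_sq (n : ℕ) (x : ℝ) (j : ℕ) : aa n x j * pp n x j = bb n x j ^ 2 := by
  unfold aa bb
  rw [div_pow, Real.sq_sqrt (vv_nonneg n x)]
  ring

theorem wA_eq (n : ℕ) (s : ℕ → ℝ) (x : ℝ) :
    wA n s x = SA n x * ∑ j ∈ Finset.range (n + 1), s j * pp n x j := by
  unfold wA
  rw [Finset.mul_sum]
  refine Finset.sum_congr rfl fun j _ => ?_
  unfold pp
  have := (SA_pos n x).ne'
  field_simp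

theorem x_pow_aux (x : ℝ) (j : ℕ) : x * ((j : ℝ) * x ^ (j - 1)) = (j : ℝ) * x ^ j := by
  rcases Nat.eq_zero_or_pos j with rfl | hj
  · simp
  · obtain ⟨k, rfl⟩ : ∃ k, j = k + 1 := ⟨j - 1, by omega⟩
    rw [Nat.add_sub_cancel, pow_succ]
    ring

theorem wB_eq (n : ℕ) (s : ℕ → ℝ) (x : ℝ) :
    x * wB n s x = SA n x * ∑ j ∈ Finset.range (n + 1), s j * (pp n x j * (j : ℝ)) := by
  unfold wB
  rw [Finset.mul_sum, Finset.mul_sum]
  refine Finset.sum_congr rfl fun j _ => ?_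
  have h := x_pow_aux x j
  unfold pp
  have := (SA_pos n x).ne'
  calc x * (s j * (x ^ j * ((j : ℝ) * x ^ (j - 1)))) = s j * (x ^ j * (x * ((j : ℝ) * x ^ (j - 1)))) := by
        ring
    _ = s j * (x ^ j * ((j : ℝ) * x ^ j)) := by rw [h]
    _ = _ := by field_simp

theorem wC_eq (n : ℕ) (s : ℕ → ℝ) (x : ℝ) :
    x ^ 2 * wC n s x = SA n x * ∑ j ∈ Finset.range (n + 1), s j * (pp n x j * (j : ℝ) ^ 2) := by
  unfold wC
  rw [Finset.mul_sum, Finset.mul_sum]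
  refine Finset.sum_congr rfl fun j _ => ?_
  have h := x_pow_aux x j
  unfold pp
  have := (SA_pos n x).ne'
  calc x ^ 2 * (s j * ((j : ℝ) * x ^ (j - 1)) ^ 2) = s j * (x * ((j : ℝ) * x ^ (j - 1))) ^ 2 := by
        ring
    _ = s j * ((j : ℝ) * x ^ j) ^ 2 := by rw [h]
    _ = _ := by field_simp

theorem S_one (n : ℕ) (x : ℝ) : SA n x = wA n (fun _ => 1) x ∧ SB n x = wB n (fun _ => 1) x ∧
    SC n x = wC n (fun _ => 1) x := by
  unfold SA SB SC wA wB wC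
  simp

/-- centred second moment -/
theorem m2_eq (n : ℕ) (x : ℝ) : ∑ j ∈ Finset.range (n + 1), pp n x j * (j : ℝ) ^ 2 =
    vv n x + mm n x ^ 2 := by
  have h1 : ∑ j ∈ Finset.range (n + 1), pp n x j * (j : ℝ) ^ 2 =
      ∑ j ∈ Finset.range (n + 1), (pp n x j * ((j : ℝ) - mm n x) ^ 2 +
        2 * mm n x * (pp n x j * (j : ℝ)) - mm n x ^ 2 * pp n x j) :=
    Finset.sum_congr rfl fun j _ => by ring
  rw [h1, Finset.sum_sub_distrib, Finset.sum_add_distrib, ← Finset.mul_sum, ← Finset.mul_sum,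
    pp_sum, ← mm, ← vv]
  ring

theorem gram_eq (n : ℕ) (x : ℝ) (hx : x ≠ 0) (s : ℕ → ℝ) :
    wA n s x * wC n s x - wB n s x ^ 2 = (SA n x) ^ 2 / x ^ 2 *
      ((∑ j ∈ Finset.range (n + 1), s j * pp n x j) *
        (∑ j ∈ Finset.range (n + 1), s j * (pp n x j * (j : ℝ) ^ 2)) -
        (∑ j ∈ Finset.range (n + 1), s j * (pp n x j * (j : ℝ))) ^ 2) := by
  have h1 := wA_eq n s x
  have h2 := wB_eq n s x
  have h3 := wC_eq n s x
  have hx2 : x ^ 2 ≠ 0 := pow_ne_zero 2 hx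
  have h4 : x ^ 2 * (wA n s x * wC n s x - wB n s x ^ 2) = (SA n x) ^ 2 *
      ((∑ j ∈ Finset.range (n + 1), s j * pp n x j) *
        (∑ j ∈ Finset.range (n + 1), s j * (pp n x j * (j : ℝ) ^ 2)) -
        (∑ j ∈ Finset.range (n + 1), s j * (pp n x j * (j : ℝ))) ^ 2) := by
    calc x ^ 2 * (wA n s x * wC n s x - wB n s x ^ 2) =
        wA n s x * (x ^ 2 * wC n s x) - (x * wB n s x) ^ 2 := by ring
      _ = _ := by rw [h1, h2, h3]; ring
  rw [div_mul_eq_mul_div, eq_div_iff hx2, mul_comm, h4]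

theorem gram_one (n : ℕ) (x : ℝ) (hx : x ≠ 0) :
    SA n x * SC n x - SB n x ^ 2 = (SA n x) ^ 2 / x ^ 2 * vv n x := by
  obtain ⟨h1, h2, h3⟩ := S_one n x
  have h := gram_eq n x hx (fun _ => 1)
  rw [← h1, ← h2, ← h3] at h
  rw [h]
  simp only [one_mul]
  rw [pp_sum, m2_eq, ← mm]
  ring

/-- the basic relation between the conditional density and the Gaussian one -/
theorem dens_eq_rho (n : ℕ) (hn : 1 ≤ n) (x : ℝ) (hx : x ≠ 0) (e : ℝ) (η : ℕ → ℝ)
    (hpos : 0 < 1 + e * ∑ j ∈ Finset.range (n + 1), η j * pp n x j) :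
    dens n (fun j => 1 + e * η j) x = rho n x * Real.sqrt
      ((1 + e * ∑ j ∈ Finset.range (n + 1), η j * aa n x j) /
        (1 + e * ∑ j ∈ Finset.range (n + 1), η j * pp n x j) -
        e ^ 2 * (∑ j ∈ Finset.range (n + 1), η j * bb n x j) ^ 2 /
        (1 + e * ∑ j ∈ Finset.range (n + 1), η j * pp n x j) ^ 2) := by
  have hv := vv_pos n hn x hx
  set m : ℝ := mm n x with hm
  set v : ℝ := vv n x with hvdef
  set S : ℝ := ∑ j ∈ Finset.range (n + 1), η j * pp n x j with hS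
  set T1 : ℝ := ∑ j ∈ Finset.range (n + 1), η j * (pp n x j * ((j : ℝ) - m)) with hT1
  set T2 : ℝ := ∑ j ∈ Finset.range (n + 1), η j * (pp n x j * ((j : ℝ) - m) ^ 2) with hT2
  have ea : ∑ j ∈ Finset.range (n + 1), η j * aa n x j = T2 / v := by
    rw [hT2, Finset.sum_div]
    refine Finset.sum_congr rfl fun j _ => ?_
    unfold aa
    ring
  have eb : (∑ j ∈ Finset.range (n + 1), η j * bb n x j) ^ 2 = T1 ^ 2 / v := by
    have : ∑ j ∈ Finset.range (n + 1), η j * bb n x j = T1 / Real.sqrt v := by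
      rw [hT1, Finset.sum_div]
      refine Finset.sum_congr rfl fun j _ => ?_
      unfold bb
      ring
    rw [this, div_pow, Real.sq_sqrt hv.le]
  have s0 : ∑ j ∈ Finset.range (n + 1), (1 + e * η j) * pp n x j = 1 + e * S := by
    have h : ∑ j ∈ Finset.range (n + 1), (1 + e * η j) * pp n x j =
        ∑ j ∈ Finset.range (n + 1), pp n x j + e * ∑ j ∈ Finset.range (n + 1), η j * pp n x j := by
      rw [Finset.mul_sum, ← Finset.sum_add_distrib]
      refine Finset.sum_congr rfl fun j _ => ?_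
      ring
    rw [h, pp_sum]
  have s1 : ∑ j ∈ Finset.range (n + 1), (1 + e * η j) * (pp n x j * (j : ℝ)) =
      m + e * (T1 + m * S) := by
    rw [hS, hT1, Finset.mul_sum, ← Finset.sum_add_distrib, Finset.mul_sum]
    conv_rhs => rw [hm, mm]
    rw [← Finset.sum_add_distrib]
    refine Finset.sum_congr rfl fun j _ => ?_
    rw [← mm, ← hm]
    ring
  have s2 : ∑ j ∈ Finset.range (n + 1), (1 + e * η j) * (pp n x j * (j : ℝ) ^ 2) =
      (v + m ^ 2) + e * (T2 + 2 * m * T1 + m ^ 2 * S) := by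
    rw [hvdef, hm, ← m2_eq, ← hm, hS, hT1, hT2, Finset.mul_sum, Finset.mul_sum,
      ← Finset.sum_add_distrib, ← Finset.sum_add_distrib, Finset.mul_sum, ← Finset.sum_add_distrib]
    refine Finset.sum_congr rfl fun j _ => ?_
    ring
  have hg := gram_eq n x hx (fun j => 1 + e * η j)
  rw [s0, s1, s2] at hg
  have hne : (1 + e * S) ≠ 0 := hpos.ne'
  have hvne : v ≠ 0 := hv.ne'
  have hQ : (1 + e * S) * ((v + m ^ 2) + e * (T2 + 2 * m * T1 + m ^ 2 * S)) -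
      (m + e * (T1 + m * S)) ^ 2 = v * ((1 + e * S) ^ 2 *
      ((1 + e * (T2 / v)) / (1 + e * S) - e ^ 2 * (T1 ^ 2 / v) / (1 + e * S) ^ 2)) := by
    field_simp
    ring
  rw [hQ] at hg
  rw [ea, eb]
  unfold dens rho
  rw [hg, gram_one n x hx, wA_eq, s0, ← hvdef]
  set Q : ℝ := (1 + e * (T2 / v)) / (1 + e * S) - e ^ 2 * (T1 ^ 2 / v) / (1 + e * S) ^ 2 with hQdef
  have hZ := SA_pos n x
  have e1 : (SA n x) ^ 2 / x ^ 2 * (v * ((1 + e * S) ^ 2 * Q)) =
      ((SA n x) ^ 2 / x ^ 2 * v) * ((1 + e * S) ^ 2 * Q) := by ring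
  rw [e1, Real.sqrt_mul (by positivity), Real.sqrt_mul (sq_nonneg _), Real.sqrt_sq hpos.le]
  field_simp

theorem lin_le (n : ℕ) (η w : ℕ → ℝ) (hη : ∀ j, |η j| ≤ 1) (hw : ∀ j, 0 ≤ w j)
    (hs : ∑ j ∈ Finset.range (n + 1), w j = 1) :
    |∑ j ∈ Finset.range (n + 1), η j * w j| ≤ 1 := by
  calc |∑ j ∈ Finset.range (n + 1), η j * w j| ≤ ∑ j ∈ Finset.range (n + 1), |η j * w j| :=
        Finset.abs_sum_le_sum_abs _ _
    _ ≤ ∑ j ∈ Finset.range (n + 1), w j := by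
        refine Finset.sum_le_sum fun j _ => ?_
        rw [abs_mul, abs_of_nonneg (hw j)]
        have := mul_le_mul_of_nonneg_right (hη j) (hw j)
        linarith
    _ = 1 := hs

theorem bb_le (n : ℕ) (x : ℝ) (hv : 0 < vv n x) (η : ℕ → ℝ) (hη : ∀ j, |η j| ≤ 1) :
    (∑ j ∈ Finset.range (n + 1), η j * bb n x j) ^ 2 ≤ 1 := by
  have h1 : ∑ j ∈ Finset.range (n + 1), η j * bb n x j =
      ∑ j ∈ Finset.range (n + 1), (η j * Real.sqrt (pp n x j)) *
        (Real.sqrt (pp n x j) * ((j : ℝ) - mm n x) / Real.sqrt (vv n x)) := by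
    refine Finset.sum_congr rfl fun j _ => ?_
    unfold bb
    have := Real.mul_self_sqrt (pp_nonneg n x j)
    calc η j * (pp n x j * ((j : ℝ) - mm n x) / Real.sqrt (vv n x))
        = η j * ((Real.sqrt (pp n x j) * Real.sqrt (pp n x j)) * ((j : ℝ) - mm n x) /
          Real.sqrt (vv n x)) := by rw [this]
      _ = _ := by ring
  rw [h1]
  refine (Finset.sum_mul_sq_le_sq_mul_sq _ _ _).trans ?_
  have h2 : ∑ j ∈ Finset.range (n + 1), (η j * Real.sqrt (pp n x j)) ^ 2 ≤ 1 := by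
    rw [← pp_sum n x]
    refine Finset.sum_le_sum fun j _ => ?_
    rw [mul_pow, Real.sq_sqrt (pp_nonneg n x j)]
    have h3 : η j ^ 2 ≤ 1 := by
      rw [← sq_abs]
      exact pow_le_one₀ (abs_nonneg _) (hη j)
    have := mul_le_mul_of_nonneg_right h3 (pp_nonneg n x j)
    linarith
  have h4 : ∑ j ∈ Finset.range (n + 1),
      (Real.sqrt (pp n x j) * ((j : ℝ) - mm n x) / Real.sqrt (vv n x)) ^ 2 = 1 := by
    have : ∑ j ∈ Finset.range (n + 1),
      (Real.sqrt (pp n x j) * ((j : ℝ) - mm n x) / Real.sqrt (vv n x)) ^ 2 =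
      ∑ j ∈ Finset.range (n + 1), aa n x j := by
      refine Finset.sum_congr rfl fun j _ => ?_
      unfold aa
      rw [div_pow, mul_pow, Real.sq_sqrt (pp_nonneg n x j), Real.sq_sqrt hv.le]
    rw [this, aa_sum n x hv]
  rw [h4, mul_one]
  exact h2

theorem rho_low (n : ℕ) (hn : 1 ≤ n) (x : ℝ) (hx : x ≠ 0) (e : ℝ) (he0 : 0 < e) (he : e ≤ 1 / 8)
    (η : ℕ → ℝ) (hη : ∀ j, |η j| ≤ 1) :
    rho n x * low e n (pp n x) (aa n x) (bb n x) η ≤ dens n (fun j => 1 + e * η j) x := by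
  have hv := vv_pos n hn x hx
  have hS := lin_le n η (pp n x) hη (pp_nonneg n x) (pp_sum n x)
  have ha := lin_le n η (aa n x) hη (aa_nonneg n x) (aa_sum n x hv)
  have hb := bb_le n x hv η hη
  have hpos : 0 < 1 + e * ∑ j ∈ Finset.range (n + 1), η j * pp n x j := by
    have := (abs_le.1 hS).1
    nlinarith
  rw [dens_eq_rho n hn x hx e η hpos]
  apply mul_le_mul_of_nonneg_left _ (H2.rho_nonneg n x)
  exact main_ineq e _ _ _ he0 he ha hS (sq_nonneg _) hb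

end Pool.Agent.R826.KR
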