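import Pool.Agent.R826.KR2
import Pool.Agent.Helper764.KacP8
import Pool.Agent.Helper764.KacH4

set_option autoImplicit false
open MeasureTheory ProbabilityTheory Filter Topology Set
open scoped ENNReal NNReal

namespace Pool.Agent.R826.KR
open Kac764

/-- product measures and coordinatewise maps -/
theorem map_pair (ρ γ : Measure ℝ) [IsProbabilityMeasure ρ] [IsProbabilityMeasure γ]
    (f : ℝ × ℝ → ℝ) (hf : Measurable f) :
    ((PP ρ).prod (PP γ)).map (fun (p : (ℕ → ℝ) × (ℕ → ℝ)) (j : ℕ) => f (p.1 j, p.2 j)) =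
      PP ((ρ.prod γ).map f) := by
  have : IsProbabilityMeasure ((ρ.prod γ).map f) := Measure.isProbabilityMeasure_map hf.aemeasurable
  have hm : Measurable (fun (p : (ℕ → ℝ) × (ℕ → ℝ)) (j : ℕ) => f (p.1 j, p.2 j)) := by
    rw [measurable_pi_iff]
    intro j
    exact hf.comp (((measurable_pi_apply j).comp measurable_fst).prodMk
      ((measurable_pi_apply j).comp measurable_snd))
  refine Measure.eq_infinitePi _ (fun s t ht => ?_)
  have hset : MeasurableSet (Set.pi (s : Set ℕ) t) :=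
    MeasurableSet.pi s.countable_toSet (fun i _ => ht i)
  rw [Measure.map_apply hm hset, Measure.prod_apply (hm hset)]
  have h1 : ∀ η : ℕ → ℝ, (PP γ) (Prod.mk η ⁻¹'
      ((fun (p : (ℕ → ℝ) × (ℕ → ℝ)) (j : ℕ) => f (p.1 j, p.2 j)) ⁻¹' Set.pi (s : Set ℕ) t)) =
      ∏ j ∈ s, γ (Prod.mk (η j) ⁻¹' (f ⁻¹' (t j))) := by
    intro η
    have e : Prod.mk η ⁻¹'
      ((fun (p : (ℕ → ℝ) × (ℕ → ℝ)) (j : ℕ) => f (p.1 j, p.2 j)) ⁻¹' Set.pi (s : Set ℕ) t) =
      Set.pi (s : Set ℕ) (fun j => Prod.mk (η j) ⁻¹' (f ⁻¹' (t j))) := by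
      ext g
      simp [Set.mem_pi]
    rw [e, Measure.infinitePi_pi]
    intro i _
    exact measurable_prodMk_left (hf (ht i))
  simp only [h1]
  rw [P8.j11240_prod ρ (fun j y => γ (Prod.mk y ⁻¹' (f ⁻¹' (t j))))
    (fun j => measurable_measure_prodMk_left (hf (ht j))) s]
  refine Finset.prod_congr rfl fun j _ => ?_
  rw [Measure.map_apply hf (ht j), Measure.prod_apply (hf (ht j))]

/-- the fair sign law -/
noncomputable def sgn : Measure ℝ :=
  (2⁻¹ : ℝ≥0∞) • Measure.dirac (1 : ℝ) + (2⁻¹ : ℝ≥0∞) • Measure.dirac (-1 : ℝ)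

/-- equal mixture of centred normal laws with variances `1 + ε` and `1 - ε` -/
noncomputable def mix (ε : ℝ) : Measure ℝ :=
  (2⁻¹ : ℝ≥0∞) • gaussianReal 0 (Real.toNNReal (1 + ε)) +
    (2⁻¹ : ℝ≥0∞) • gaussianReal 0 (Real.toNNReal (1 - ε))

instance : IsProbabilityMeasure sgn := by
  constructor
  simp [sgn, ENNReal.inv_two_add_inv_two]

instance (ε : ℝ) : IsProbabilityMeasure (mix ε) := by
  constructor
  simp [mix, ENNReal.inv_two_add_inv_two]

theorem int_sgn (f : ℝ → ℝ) : ∫ x, f x ∂sgn = (f 1 + f (-1)) / 2 := by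
  unfold sgn
  rw [integral_add_measure, integral_smul_measure, integral_smul_measure, integral_dirac,
    integral_dirac]
  · simp
    ring
  · exact (integrable_dirac (by simp)).smul_measure (by simp)
  · exact (integrable_dirac (by simp)).smul_measure (by simp)

theorem integrable_sgn (f : ℝ → ℝ) : Integrable f sgn := by
  unfold sgn
  exact Integrable.add_measure ((integrable_dirac (by simp)).smul_measure (by simp))
    ((integrable_dirac (by simp)).smul_measure (by simp))

theorem std_sgn : Std sgn where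
  prob := inferInstance
  int2 := integrable_sgn _
  mean := by rw [int_sgn]; norm_num
  var := by rw [int_sgn]; norm_num

theorem ae_sgn : ∀ᵐ x ∂sgn, x = 1 ∨ x = -1 := by
  unfold sgn
  rw [ae_add_measure_iff]
  constructor
  · apply Measure.ae_smul_measure
    rw [ae_dirac_iff (by measurability)]
    left; rfl
  · apply Measure.ae_smul_measure
    rw [ae_dirac_iff (by measurability)]
    right; rfl

theorem map_sqrt (v : ℝ) (hv : 0 ≤ v) :
    gam.map (fun z => Real.sqrt v * z) = gaussianReal 0 (Real.toNNReal v) := by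
  rw [gaussianReal_map_const_mul]
  congr 1
  · ring
  · ext
    rw [Real.coe_toNNReal _ hv]
    simp [Real.sq_sqrt hv]

theorem mix_eq (ε : ℝ) (h0 : 0 ≤ ε) (h1 : ε ≤ 1) :
    (sgn.prod gam).map (fun p : ℝ × ℝ => Real.sqrt (1 + ε * p.1) * p.2) = mix ε := by
  have hm : Measurable (fun p : ℝ × ℝ => Real.sqrt (1 + ε * p.1) * p.2) := by fun_prop
  unfold sgn mix
  rw [Measure.add_prod, Measure.map_add _ _ hm, Measure.prod_smul_left, Measure.prod_smul_left,
    Measure.map_smul, Measure.map_smul, Measure.dirac_prod, Measure.dirac_prod,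
    Measure.map_map hm (by fun_prop), Measure.map_map hm (by fun_prop)]
  congr 2
  · rw [← map_sqrt (1 + ε) (by linarith)]
    congr 1
    funext z
    simp
  · rw [← map_sqrt (1 - ε) (by linarith)]
    congr 1
    funext z
    simp only [Function.comp]
    congr 2
    ring

/-- the expected number of zeros in an interval for the mixture law -/
theorem mix_formula (ε : ℝ) (h0 : 0 ≤ ε) (h1 : ε < 1) (n : ℕ) (hn : 1 ≤ n) (a b : ℝ) (hab : a < b) :
    ∫⁻ ω, (nz (kac n ω) (Ioo a b) : ℝ≥0∞) ∂(PP (mix ε)) =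
      ∫⁻ η, (∫⁻ x in Ioo a b, ENNReal.ofReal (dens n (fun j => 1 + ε * η j) x)) ∂(PP sgn) := by
  have hf : Measurable (fun p : ℝ × ℝ => Real.sqrt (1 + ε * p.1) * p.2) := by fun_prop
  have hcast : Measurable (fun k : ℕ => (k : ℝ≥0∞)) := measurable_of_countable _
  have hH : Measurable (fun g : ℕ → ℝ => (nz (kac n g) (Ioo a b) : ℝ≥0∞)) :=
    hcast.comp (J6.measurable_nz n a b)
  have hm : Measurable (fun (p : (ℕ → ℝ) × (ℕ → ℝ)) (j : ℕ) => Real.sqrt (1 + ε * p.1 j) * p.2 j) := by
    rw [measurable_pi_iff]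
    intro j
    have a1 : Measurable (fun p : (ℕ → ℝ) × (ℕ → ℝ) => p.1 j) :=
      (measurable_pi_apply j).comp measurable_fst
    have a2 : Measurable (fun p : (ℕ → ℝ) × (ℕ → ℝ) => p.2 j) :=
      (measurable_pi_apply j).comp measurable_snd
    exact (((a1.const_mul ε).const_add 1).sqrt).mul a2
  have e0 := lintegral_prod (μ := PP sgn) (ν := PP gam) (fun p : (ℕ → ℝ) × (ℕ → ℝ) =>
    (nz (kac n (fun j => Real.sqrt (1 + ε * p.1 j) * p.2 j)) (Ioo a b) : ℝ≥0∞))
    (hH.comp hm).aemeasurable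
  rw [← mix_eq ε h0 h1.le, ← map_pair sgn gam _ hf, lintegral_map hH hm, e0]
  refine lintegral_congr_ae ?_
  have hae : ∀ᵐ η ∂(PP sgn), ∀ j, η j = 1 ∨ η j = -1 := by
    rw [ae_all_iff]
    intro j
    exact (measurePreserving_eval_infinitePi (fun _ : ℕ => sgn) j).quasiMeasurePreserving.ae ae_sgn
  filter_upwards [hae] with η hη
  apply kacrice n hn (fun j => 1 + ε * η j) _ a b hab
  intro j
  rcases hη j with h | h
  · rw [h]; linarith
  · rw [h]; linarith

end Pool.Agent.R826.KR
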