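import Pool.Agent.R826.KL

set_option autoImplicit false
open MeasureTheory ProbabilityTheory Filter Topology Set
open scoped ENNReal NNReal

namespace Pool.Agent.R826.KR
open Kac764

noncomputable def M0 (n : ℕ) (x : ℝ) : ℝ := ∑ j ∈ Finset.range (n + 1), pp n x j ^ 2
noncomputable def M2 (n : ℕ) (x : ℝ) : ℝ := ∑ j ∈ Finset.range (n + 1), bb n x j ^ 2
noncomputable def M4 (n : ℕ) (x : ℝ) : ℝ := ∑ j ∈ Finset.range (n + 1), aa n x j ^ 2

/-- averaged lower bound of the density -/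
noncomputable def HH (e : ℝ) (n : ℕ) (x : ℝ) : ℝ :=
  rho n x * (1 + e ^ 2 * (3 / 8 * M0 n x - 3 / 4 * M2 n x - 1 / 8 * M4 n x)
    - 100 * (e ^ 3 * (M4 n x + M0 n x + M2 n x)))

theorem meas_pp (n : ℕ) (j : ℕ) : Measurable (fun x => pp n x j) := by
  unfold pp SA
  fun_prop

theorem meas_mm (n : ℕ) : Measurable (mm n) := by
  unfold mm
  exact Finset.measurable_sum _ fun j _ => (meas_pp n j).mul_const _

theorem meas_vv (n : ℕ) : Measurable (vv n) := by
  unfold vv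
  exact Finset.measurable_sum _ fun j _ =>
    (meas_pp n j).mul ((measurable_const.sub (meas_mm n)).pow_const 2)

theorem meas_aa (n : ℕ) (j : ℕ) : Measurable (fun x => aa n x j) := by
  unfold aa
  exact ((meas_pp n j).mul ((measurable_const.sub (meas_mm n)).pow_const 2)).div (meas_vv n)

theorem meas_bb (n : ℕ) (j : ℕ) : Measurable (fun x => bb n x j) := by
  unfold bb
  exact ((meas_pp n j).mul (measurable_const.sub (meas_mm n))).div (meas_vv n).sqrt

theorem meas_HH (e : ℝ) (n : ℕ) : Measurable (HH e n) := by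
  have h0 : Measurable (M0 n) := Finset.measurable_sum _ fun j _ => (meas_pp n j).pow_const 2
  have h2 : Measurable (M2 n) := Finset.measurable_sum _ fun j _ => (meas_bb n j).pow_const 2
  have h4 : Measurable (M4 n) := Finset.measurable_sum _ fun j _ => (meas_aa n j).pow_const 2
  have hr : Measurable (rho n) := (H2.rho_continuous n).measurable
  unfold HH
  fun_prop

theorem sq_sum_le (n : ℕ) (w : ℕ → ℝ) (hw : ∀ j, 0 ≤ w j)
    (hs : ∑ j ∈ Finset.range (n + 1), w j = 1) : ∀ j ∈ Finset.range (n + 1), w j ≤ 1 := by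
  intro j hj
  rw [← hs]
  exact Finset.single_le_sum (fun i _ => hw i) hj

theorem M_bd (n : ℕ) (x : ℝ) (hv : 0 < vv n x) :
    (0 ≤ M0 n x ∧ M0 n x ≤ 1) ∧ (0 ≤ M2 n x ∧ M2 n x ≤ 1) ∧ (0 ≤ M4 n x ∧ M4 n x ≤ 1) := by
  have hp1 := sq_sum_le n _ (pp_nonneg n x) (pp_sum n x)
  have ha1 := sq_sum_le n _ (aa_nonneg n x) (aa_sum n x hv)
  refine ⟨⟨Finset.sum_nonneg fun j _ => sq_nonneg _, ?_⟩,
    ⟨Finset.sum_nonneg fun j _ => sq_nonneg _, ?_⟩, ⟨Finset.sum_nonneg fun j _ => sq_nonneg _, ?_⟩⟩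
  · rw [← pp_sum n x]
    refine Finset.sum_le_sum fun j hj => ?_
    nlinarith [pp_nonneg n x j, hp1 j hj]
  · rw [← aa_sum n x hv]
    refine Finset.sum_le_sum fun j hj => ?_
    rw [← bb_sq]
    nlinarith [pp_nonneg n x j, hp1 j hj, aa_nonneg n x j]
  · rw [← aa_sum n x hv]
    refine Finset.sum_le_sum fun j hj => ?_
    nlinarith [aa_nonneg n x j, ha1 j hj]

theorem HH_bd (e : ℝ) (he0 : 0 < e) (he : e ≤ 1 / 8) (n : ℕ) (hn : 1 ≤ n) (x : ℝ) (hx : x ≠ 0) :
    ‖HH e n x‖ ≤ 2 * rho n x := by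
  obtain ⟨⟨a1, a2⟩, ⟨b1, b2⟩, ⟨c1, c2⟩⟩ := M_bd n x (vv_pos n hn x hx)
  have hr := H2.rho_nonneg n x
  unfold HH
  rw [Real.norm_eq_abs, abs_mul, abs_of_nonneg hr, mul_comm]
  apply mul_le_mul_of_nonneg_right _ hr
  have he2 : e ^ 2 ≤ 1 / 64 := by nlinarith
  have he3 : e ^ 3 ≤ 1 / 512 := by
    calc e ^ 3 ≤ (1 / 8) ^ 3 := pow_le_pow_left₀ he0.le he 3
      _ = 1 / 512 := by norm_num
  have he20 : 0 ≤ e ^ 2 := by positivity
  have he30 : 0 ≤ e ^ 3 := by positivity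
  have h1 : |e ^ 2 * (3 / 8 * M0 n x - 3 / 4 * M2 n x - 1 / 8 * M4 n x)| ≤ 1 / 64 := by
    rw [abs_mul, abs_of_nonneg he20]
    have : |3 / 8 * M0 n x - 3 / 4 * M2 n x - 1 / 8 * M4 n x| ≤ 1 := by
      rw [abs_le]
      constructor <;> linarith
    calc e ^ 2 * |3 / 8 * M0 n x - 3 / 4 * M2 n x - 1 / 8 * M4 n x| ≤ 1 / 64 * 1 := by gcongr
      _ = 1 / 64 := by norm_num
  have h2 : |e ^ 3 * (M4 n x + M0 n x + M2 n x)| ≤ 3 / 512 := by
    rw [abs_mul, abs_of_nonneg he30, abs_of_nonneg (by linarith)]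
    calc e ^ 3 * (M4 n x + M0 n x + M2 n x) ≤ 1 / 512 * 3 := by gcongr; linarith
      _ = 3 / 512 := by norm_num
  have h3 := abs_le.1 h1
  have h4 := abs_le.1 h2
  rw [abs_le]
  constructor <;> linarith [h3.1, h3.2, h4.1, h4.2]

theorem HH_int (e : ℝ) (he0 : 0 < e) (he : e ≤ 1 / 8) (n : ℕ) (hn : 1 ≤ n) (a b : ℝ) :
    IntegrableOn (HH e n) (Ioo a b) := by
  have h1 : IntegrableOn (fun x => 2 * rho n x) (Ioo a b) := by
    have : IntegrableOn (fun x => 2 * rho n x) (Icc a b) :=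
      ((continuous_const.mul (H2.rho_continuous n)).continuousOn).integrableOn_Icc
    exact this.mono_set Ioo_subset_Icc_self
  refine Integrable.mono' h1 (meas_HH e n).aestronglyMeasurable ?_
  filter_upwards [ae_ne_zero_vol (Ioo a b)] with x hx
  exact HH_bd e he0 he n hn x hx

theorem meas_dens (n : ℕ) (e : ℝ) :
    Measurable (fun p : (ℕ → ℝ) × ℝ => dens n (fun j => 1 + e * p.1 j) p.2) := by
  unfold dens wA wB wC
  fun_prop

theorem ae_eta : ∀ᵐ η ∂(PP sgn), ∀ j, |η j| ≤ 1 := by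
  rw [ae_all_iff]
  intro j
  have := (measurePreserving_eval_infinitePi (fun _ : ℕ => sgn) j).quasiMeasurePreserving.ae ae_sgn
  filter_upwards [this] with η hη
  rcases hη with h | h
  · rw [show η j = 1 from h]; simp
  · rw [show η j = -1 from h]; simp

/-- finite degree lower bound -/
theorem E_lower (e : ℝ) (he0 : 0 < e) (he : e ≤ 1 / 8) (hS : Std (mix e)) (n : ℕ) (hn : 1 ≤ n)
    (a b : ℝ) (hab : a < b) :
    ∫ x in Ioo a b, HH e n x ≤ ∫ ω, (nz (kac n ω) (Ioo a b) : ℝ) ∂(PP (mix e)) := by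
  have h1 := mix_formula e he0.le (by linarith) n hn a b hab
  have hm : AEMeasurable (fun p : (ℕ → ℝ) × ℝ => ENNReal.ofReal (dens n (fun j => 1 + e * p.1 j) p.2))
      ((PP sgn).prod (volume.restrict (Ioo a b))) :=
    (ENNReal.measurable_ofReal.comp (meas_dens n e)).aemeasurable
  rw [lintegral_lintegral_swap hm] at h1
  have h2 : ENNReal.ofReal (∫ x in Ioo a b, HH e n x) ≤
      ∫⁻ x in Ioo a b, ∫⁻ η, ENNReal.ofReal (dens n (fun j => 1 + e * η j) x) ∂(PP sgn) := by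
    refine (ofReal_int_le (volume.restrict (Ioo a b)) (HH e n) (HH e n) (HH_int e he0 he n hn a b)
      (Eventually.of_forall fun _ => le_rfl)).trans ?_
    apply lintegral_mono_ae
    filter_upwards [ae_ne_zero_vol (Ioo a b)] with x hx
    obtain ⟨i1, i2⟩ := low_int sgn std_sgn e n (pp n x) (aa n x) (bb n x) (bb_sq n x)
    have i3 : HH e n x = ∫ η, rho n x * low e n (pp n x) (aa n x) (bb n x) η ∂(PP sgn) := by
      rw [integral_const_mul, i2]
      rfl
    rw [i3]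
    apply ofReal_int_le
    · exact i1.const_mul _
    · filter_upwards [ae_eta] with η hη
      exact rho_low n hn x hx e he0 he η hη
  rw [← h1] at h2
  have h3 : ∫⁻ ω, (nz (kac n ω) (Ioo a b) : ℝ≥0∞) ∂(PP (mix e)) =
      ENNReal.ofReal (∫ ω, (nz (kac n ω) (Ioo a b) : ℝ) ∂(PP (mix e))) := by
    rw [ofReal_integral_eq_lintegral_ofReal
      (Kac764.M2.nz_meas_int (mix e) hS n _ (J6.measurable_nz n a b))
      (Eventually.of_forall fun ω => Nat.cast_nonneg _)]
    refine lintegral_congr fun ω => ?_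
    simp
  rw [h3] at h2
  exact (ENNReal.ofReal_le_ofReal_iff (integral_nonneg fun ω => Nat.cast_nonneg _)).1 h2

/-- exact formula for the Gaussian law -/
theorem E_gauss (hS : Std gam) (n : ℕ) (hn : 1 ≤ n) (a b : ℝ) (hab : a < b) :
    ∫ ω, (nz (kac n ω) (Ioo a b) : ℝ) ∂(PP gam) = ∫ x in Ioo a b, rho n x := by
  have h1 := kacrice n hn (fun _ => 1) (fun _ => one_pos) a b hab
  have h2 : ∀ x, dens n (fun _ => 1) x = rho n x := by
    intro x
    obtain ⟨e1, e2, e3⟩ := S_one n x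
    unfold dens rho
    rw [e1, e2, e3]
  simp only [Real.sqrt_one, one_mul, h2] at h1
  have hr : IntegrableOn (rho n) (Ioo a b) :=
    ((H2.rho_continuous n).continuousOn.integrableOn_Icc).mono_set Ioo_subset_Icc_self
  have h3 : ∫⁻ ω, (nz (kac n ω) (Ioo a b) : ℝ≥0∞) ∂(PP gam) =
      ENNReal.ofReal (∫ ω, (nz (kac n ω) (Ioo a b) : ℝ) ∂(PP gam)) := by
    rw [ofReal_integral_eq_lintegral_ofReal
      (Kac764.M2.nz_meas_int gam hS n _ (J6.measurable_nz n a b))
      (Eventually.of_forall fun ω => Nat.cast_nonneg _)]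
    refine lintegral_congr fun ω => ?_
    simp
  rw [h3, ← ofReal_integral_eq_lintegral_ofReal hr
    (Eventually.of_forall fun x => H2.rho_nonneg n x)] at h1
  exact (ENNReal.ofReal_eq_ofReal_iff (integral_nonneg fun ω => Nat.cast_nonneg _)
    (integral_nonneg fun x => H2.rho_nonneg n x)).1 h1

end Pool.Agent.R826.KR
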