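import Pool.Agent.R826.KN

set_option autoImplicit false
open MeasureTheory ProbabilityTheory Filter Topology Set
open scoped ENNReal NNReal

namespace Pool.Agent.R826.KR
open Kac764

/-! ### power sums -/

theorem ch1 (i : ℕ) : (((i + 1).choose 1 : ℕ) : ℝ) = (i : ℝ) + 1 := by simp

theorem ch2 (i : ℕ) : (((i + 2).choose 2 : ℕ) : ℝ) = ((i : ℝ) + 2) * (i + 1) / 2 := by
  have h := Nat.choose_succ_right_eq (i + 2) 1
  have e : (i + 2).choose 1 = i + 2 := by simp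
  rw [e, show i + 2 - 1 = i + 1 by omega] at h
  have h' : (((i + 2).choose 2 : ℕ) : ℝ) * 2 = ((i : ℝ) + 2) * (i + 1) := by exact_mod_cast h
  linarith

theorem ch3 (i : ℕ) : (((i + 3).choose 3 : ℕ) : ℝ) = ((i : ℝ) + 3) * (i + 2) * (i + 1) / 6 := by
  have h := Nat.choose_succ_right_eq (i + 3) 2
  have h2 := Nat.choose_succ_right_eq (i + 3) 1
  have e : (i + 3).choose 1 = i + 3 := by simp
  rw [e, show i + 3 - 1 = i + 2 by omega] at h2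
  rw [show i + 3 - 2 = i + 1 by omega] at h
  have h2' : (((i + 3).choose 2 : ℕ) : ℝ) * 2 = ((i : ℝ) + 3) * (i + 2) := by exact_mod_cast h2
  have h' : (((i + 3).choose 3 : ℕ) : ℝ) * 3 = (((i + 3).choose 2 : ℕ) : ℝ) * ((i : ℝ) + 1) := by
    exact_mod_cast h
  have : (((i + 3).choose 3 : ℕ) : ℝ) * 6 = ((i : ℝ) + 3) * (i + 2) * (i + 1) := by
    calc (((i + 3).choose 3 : ℕ) : ℝ) * 6 = 2 * ((((i + 3).choose 3 : ℕ) : ℝ) * 3) := by ring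
      _ = ((((i + 3).choose 2 : ℕ) : ℝ) * 2) * ((i : ℝ) + 1) := by rw [h']; ring
      _ = _ := by rw [h2']
  linarith

theorem ch4 (i : ℕ) : (((i + 4).choose 4 : ℕ) : ℝ) =
    ((i : ℝ) + 4) * (i + 3) * (i + 2) * (i + 1) / 24 := by
  have h := Nat.choose_succ_right_eq (i + 4) 3
  have h3 := Nat.choose_succ_right_eq (i + 4) 2
  have h2 := Nat.choose_succ_right_eq (i + 4) 1
  have e : (i + 4).choose 1 = i + 4 := by simp
  rw [e, show i + 4 - 1 = i + 3 by omega] at h2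
  rw [show i + 4 - 2 = i + 2 by omega] at h3
  rw [show i + 4 - 3 = i + 1 by omega] at h
  have h2' : (((i + 4).choose 2 : ℕ) : ℝ) * 2 = ((i : ℝ) + 4) * (i + 3) := by exact_mod_cast h2
  have h3' : (((i + 4).choose 3 : ℕ) : ℝ) * 3 = (((i + 4).choose 2 : ℕ) : ℝ) * ((i : ℝ) + 2) := by
    exact_mod_cast h3
  have h' : (((i + 4).choose 4 : ℕ) : ℝ) * 4 = (((i + 4).choose 3 : ℕ) : ℝ) * ((i : ℝ) + 1) := by
    exact_mod_cast h
  have : (((i + 4).choose 4 : ℕ) : ℝ) * 24 = ((i : ℝ) + 4) * (i + 3) * (i + 2) * (i + 1) := by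
    calc (((i + 4).choose 4 : ℕ) : ℝ) * 24 = 6 * ((((i + 4).choose 4 : ℕ) : ℝ) * 4) := by ring
      _ = 2 * ((((i + 4).choose 3 : ℕ) : ℝ) * 3) * ((i : ℝ) + 1) := by rw [h']; ring
      _ = ((((i + 4).choose 2 : ℕ) : ℝ) * 2) * ((i : ℝ) + 2) * ((i : ℝ) + 1) := by rw [h3']; ring
      _ = _ := by rw [h2']
  linarith

theorem hs_cast {f g : ℕ → ℝ} {a b : ℝ} (h : HasSum f a) (hfg : ∀ j, g j = f j) (hab : b = a) :
    HasSum g b := by
  have : g = f := funext hfg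
  rw [this, hab]
  exact h

theorem hs_all (y : ℝ) (h0 : 0 ≤ y) (h1 : y < 1) :
    HasSum (fun j : ℕ => y ^ j) (1 / (1 - y)) ∧
    HasSum (fun j : ℕ => (j : ℝ) * y ^ j) (y / (1 - y) ^ 2) ∧
    HasSum (fun j : ℕ => (j : ℝ) ^ 2 * y ^ j) (y * (1 + y) / (1 - y) ^ 3) ∧
    HasSum (fun j : ℕ => (j : ℝ) ^ 3 * y ^ j) (y * (1 + 4 * y + y ^ 2) / (1 - y) ^ 4) ∧
    HasSum (fun j : ℕ => (j : ℝ) ^ 4 * y ^ j)
      (y * (1 + 11 * y + 11 * y ^ 2 + y ^ 3) / (1 - y) ^ 5) := by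
  have hn : ‖y‖ < 1 := by rw [Real.norm_eq_abs, abs_of_nonneg h0]; exact h1
  have hp : (1 - y) ≠ 0 := by linarith
  have c0 : HasSum (fun j : ℕ => y ^ j) (1 / (1 - y)) := by
    have := hasSum_geometric_of_lt_one h0 h1
    rwa [← one_div] at this
  have c1 := hasSum_choose_mul_geometric_of_norm_lt_one 1 hn
  have c2 := hasSum_choose_mul_geometric_of_norm_lt_one 2 hn
  have c3 := hasSum_choose_mul_geometric_of_norm_lt_one 3 hn
  have c4 := hasSum_choose_mul_geometric_of_norm_lt_one 4 hn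
  simp only [ch1] at c1
  simp only [ch2] at c2
  simp only [ch3] at c3
  simp only [ch4] at c4
  refine ⟨c0, ?_, ?_, ?_, ?_⟩
  · refine hs_cast (c1.sub c0) (fun j => by ring) ?_
    field_simp
    ring
  · refine hs_cast (((c2.mul_left 2).sub (c1.mul_left 3)).add c0) (fun j => by ring) ?_
    field_simp
    ring
  · refine hs_cast ((((c3.mul_left 6).sub (c2.mul_left 12)).add (c1.mul_left 7)).sub c0)
      (fun j => by ring) ?_
    field_simp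
    ring
  · refine hs_cast (((((c4.mul_left 24).sub (c3.mul_left 60)).add (c2.mul_left 50)).sub
      (c1.mul_left 15)).add c0) (fun j => by ring) ?_
    field_simp
    ring

/-- limits of the power sums -/
theorem lim_all (y : ℝ) (h0 : 0 ≤ y) (h1 : y < 1) :
    Tendsto (fun n : ℕ => ∑ j ∈ Finset.range (n + 1), y ^ j) atTop (𝓝 (1 / (1 - y))) ∧
    Tendsto (fun n : ℕ => ∑ j ∈ Finset.range (n + 1), (j : ℝ) * y ^ j) atTop (𝓝 (y / (1 - y) ^ 2)) ∧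
    Tendsto (fun n : ℕ => ∑ j ∈ Finset.range (n + 1), (j : ℝ) ^ 2 * y ^ j) atTop
      (𝓝 (y * (1 + y) / (1 - y) ^ 3)) ∧
    Tendsto (fun n : ℕ => ∑ j ∈ Finset.range (n + 1), (j : ℝ) ^ 3 * y ^ j) atTop
      (𝓝 (y * (1 + 4 * y + y ^ 2) / (1 - y) ^ 4)) ∧
    Tendsto (fun n : ℕ => ∑ j ∈ Finset.range (n + 1), (j : ℝ) ^ 4 * y ^ j) atTop
      (𝓝 (y * (1 + 11 * y + 11 * y ^ 2 + y ^ 3) / (1 - y) ^ 5)) := by
  obtain ⟨a0, a1, a2, a3, a4⟩ := hs_all y h0 h1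
  exact ⟨(tendsto_add_atTop_iff_nat 1).2 a0.tendsto_sum_nat,
    (tendsto_add_atTop_iff_nat 1).2 a1.tendsto_sum_nat,
    (tendsto_add_atTop_iff_nat 1).2 a2.tendsto_sum_nat,
    (tendsto_add_atTop_iff_nat 1).2 a3.tendsto_sum_nat,
    (tendsto_add_atTop_iff_nat 1).2 a4.tendsto_sum_nat⟩

theorem SA_eq' (n : ℕ) (x : ℝ) : SA n x = ∑ j ∈ Finset.range (n + 1), (x ^ 2) ^ j := by
  unfold SA
  exact Finset.sum_congr rfl fun j _ => by rw [← pow_mul, ← pow_mul, mul_comm]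

theorem mm_eq (n : ℕ) (x : ℝ) :
    mm n x = (∑ j ∈ Finset.range (n + 1), (j : ℝ) * (x ^ 2) ^ j) / SA n x := by
  unfold mm pp
  rw [Finset.sum_div]
  refine Finset.sum_congr rfl fun j _ => ?_
  rw [← pow_mul, ← pow_mul, mul_comm j 2]
  ring

theorem vv_eq (n : ℕ) (x : ℝ) :
    vv n x = (∑ j ∈ Finset.range (n + 1), (j : ℝ) ^ 2 * (x ^ 2) ^ j) / SA n x - mm n x ^ 2 := by
  have h := m2_eq n x
  have h2 : ∑ j ∈ Finset.range (n + 1), pp n x j * (j : ℝ) ^ 2 =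
      (∑ j ∈ Finset.range (n + 1), (j : ℝ) ^ 2 * (x ^ 2) ^ j) / SA n x := by
    rw [Finset.sum_div]
    refine Finset.sum_congr rfl fun j _ => ?_
    unfold pp
    rw [← pow_mul, ← pow_mul, mul_comm j 2]
    ring
  rw [← h2, h]
  ring

theorem x4_eq (x : ℝ) (j : ℕ) : ((x ^ j) ^ 2) ^ 2 = (x ^ 4) ^ j := by
  rw [← pow_mul, ← pow_mul, ← pow_mul]
  congr 1
  ring

theorem M0_eq (n : ℕ) (x : ℝ) :
    M0 n x = (∑ j ∈ Finset.range (n + 1), (x ^ 4) ^ j) / SA n x ^ 2 := by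
  unfold M0 pp
  rw [Finset.sum_div]
  refine Finset.sum_congr rfl fun j _ => ?_
  rw [div_pow, x4_eq]

theorem M2_eq (n : ℕ) (x : ℝ) :
    M2 n x = ((∑ j ∈ Finset.range (n + 1), (j : ℝ) ^ 2 * (x ^ 4) ^ j)
      - 2 * mm n x * (∑ j ∈ Finset.range (n + 1), (j : ℝ) * (x ^ 4) ^ j)
      + mm n x ^ 2 * (∑ j ∈ Finset.range (n + 1), (x ^ 4) ^ j)) / (SA n x ^ 2 * vv n x) := by
  unfold M2
  rw [Finset.mul_sum, Finset.mul_sum, ← Finset.sum_sub_distrib, ← Finset.sum_add_distrib,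
    Finset.sum_div]
  refine Finset.sum_congr rfl fun j _ => ?_
  rw [← bb_sq]
  unfold aa pp
  rw [← x4_eq]
  rw [div_mul_eq_mul_div, div_mul_eq_mul_div, div_mul_div_comm, div_div]
  congr 1 <;> ring

theorem M4_eq (n : ℕ) (x : ℝ) :
    M4 n x = ((∑ j ∈ Finset.range (n + 1), (j : ℝ) ^ 4 * (x ^ 4) ^ j)
      - 4 * mm n x * (∑ j ∈ Finset.range (n + 1), (j : ℝ) ^ 3 * (x ^ 4) ^ j)
      + 6 * mm n x ^ 2 * (∑ j ∈ Finset.range (n + 1), (j : ℝ) ^ 2 * (x ^ 4) ^ j)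
      - 4 * mm n x ^ 3 * (∑ j ∈ Finset.range (n + 1), (j : ℝ) * (x ^ 4) ^ j)
      + mm n x ^ 4 * (∑ j ∈ Finset.range (n + 1), (x ^ 4) ^ j)) / (SA n x ^ 2 * vv n x ^ 2) := by
  unfold M4
  rw [Finset.mul_sum, Finset.mul_sum, Finset.mul_sum, Finset.mul_sum, ← Finset.sum_sub_distrib,
    ← Finset.sum_add_distrib, ← Finset.sum_sub_distrib, ← Finset.sum_add_distrib, Finset.sum_div]
  refine Finset.sum_congr rfl fun j _ => ?_
  unfold aa pp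
  rw [← x4_eq, div_mul_eq_mul_div, div_div, div_pow, mul_pow]
  congr 1 <;> ring

noncomputable def GG (x : ℝ) : ℝ :=
  (1 + 2 * x ^ 2 - 10 * x ^ 4 + 2 * x ^ 6 + x ^ 8) / (4 * (1 + x ^ 2) ^ 5)
noncomputable def RR (x : ℝ) : ℝ :=
  1 / (1 + x ^ 2) + 2 * x ^ 2 / (1 + x ^ 2) ^ 3 +
    (1 - 4 * x ^ 2 + 14 * x ^ 4 - 4 * x ^ 6 + x ^ 8) / (1 + x ^ 2) ^ 5

theorem lim_M (x : ℝ) (hx0 : x ≠ 0) (hx : |x| < 1) :
    Tendsto (fun n => M0 n x) atTop (𝓝 ((1 - x ^ 2) / (1 + x ^ 2))) ∧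
    Tendsto (fun n => M2 n x) atTop (𝓝 (2 * x ^ 2 * (1 - x ^ 2) / (1 + x ^ 2) ^ 3)) ∧
    Tendsto (fun n => M4 n x) atTop
      (𝓝 ((1 - x ^ 2) * (1 - 4 * x ^ 2 + 14 * x ^ 4 - 4 * x ^ 6 + x ^ 8) / (1 + x ^ 2) ^ 5)) := by
  have hr0 : 0 < x ^ 2 := by positivity
  have hr1 : x ^ 2 < 1 := by rw [← sq_abs]; exact pow_lt_one₀ (abs_nonneg x) hx (by norm_num)
  have hq : x ^ 4 = (x ^ 2) ^ 2 := by ring
  have hq0 : 0 ≤ x ^ 4 := by positivity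
  have hq1 : x ^ 4 < 1 := by rw [hq]; nlinarith
  obtain ⟨s0, s1, s2, -, -⟩ := lim_all (x ^ 2) hr0.le hr1
  obtain ⟨t0, t1, t2, t3, t4⟩ := lim_all (x ^ 4) hq0 hq1
  have hA : Tendsto (fun n => SA n x) atTop (𝓝 (1 / (1 - x ^ 2))) := by
    simp_rw [SA_eq']
    exact s0
  have n1 : (1 - x ^ 2) ≠ 0 := by linarith
  have n2 : (1 + x ^ 2) ≠ 0 := by positivity
  have n4 : (1 - x ^ 4) ≠ 0 := by linarith
  have n5 : 1 / (1 - x ^ 2) ≠ 0 := one_div_ne_zero n1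
  have hm : Tendsto (fun n => mm n x) atTop (𝓝 (x ^ 2 / (1 - x ^ 2))) := by
    simp_rw [mm_eq]
    have := s1.div hA n5
    have e : x ^ 2 / (1 - x ^ 2) ^ 2 / (1 / (1 - x ^ 2)) = x ^ 2 / (1 - x ^ 2) := by
      field_simp
    rwa [e] at this
  have hv : Tendsto (fun n => vv n x) atTop (𝓝 (x ^ 2 / (1 - x ^ 2) ^ 2)) := by
    simp_rw [vv_eq]
    have := (s2.div hA n5).sub (hm.pow 2)
    have e : x ^ 2 * (1 + x ^ 2) / (1 - x ^ 2) ^ 3 / (1 / (1 - x ^ 2)) -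
        (x ^ 2 / (1 - x ^ 2)) ^ 2 = x ^ 2 / (1 - x ^ 2) ^ 2 := by
      field_simp
      ring
    rwa [e] at this
  have nv : x ^ 2 / (1 - x ^ 2) ^ 2 ≠ 0 := by positivity
  have e4 : 1 - x ^ 4 = (1 - x ^ 2) * (1 + x ^ 2) := by ring
  refine ⟨?_, ?_, ?_⟩
  · simp_rw [M0_eq]
    have := t0.div (hA.pow 2) (pow_ne_zero 2 n5)
    have e : 1 / (1 - x ^ 4) / (1 / (1 - x ^ 2)) ^ 2 = (1 - x ^ 2) / (1 + x ^ 2) := by
      rw [e4]
      field_simp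
    rwa [e] at this
  · simp_rw [M2_eq]
    have := ((t2.sub ((hm.const_mul 2).mul t1)).add ((hm.pow 2).mul t0)).div
      ((hA.pow 2).mul hv) (mul_ne_zero (pow_ne_zero 2 n5) nv)
    refine this.trans_eq ?_
    congr 1
    rw [e4]
    have hx2 : x ^ 2 ≠ 0 := hr0.ne'
    field_simp
    ring
  · simp_rw [M4_eq]
    have := ((((t4.sub ((hm.const_mul 4).mul t3)).add (((hm.pow 2).const_mul 6).mul t2)).sub
      (((hm.pow 3).const_mul 4).mul t1)).add ((hm.pow 4).mul t0)).div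
      ((hA.pow 2).mul (hv.pow 2)) (mul_ne_zero (pow_ne_zero 2 n5) (pow_ne_zero 2 nv))
    refine this.trans_eq ?_
    congr 1
    rw [e4]
    have hx2 : x ^ 2 ≠ 0 := hr0.ne'
    field_simp
    ring

noncomputable def HI (e x : ℝ) : ℝ :=
  1 / (Real.pi * (1 - x ^ 2)) + (1 / Real.pi) * (e ^ 2 * GG x - 100 * (e ^ 3 * RR x))

theorem lim_HH (e x : ℝ) (hx0 : x ≠ 0) (hx : |x| < 1) :
    Tendsto (fun n => HH e n x) atTop (𝓝 (HI e x)) := by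
  obtain ⟨a0, a2, a4⟩ := lim_M x hx0 hx
  have hr1 : x ^ 2 < 1 := by rw [← sq_abs]; exact pow_lt_one₀ (abs_nonneg x) hx (by norm_num)
  have n1 : (1 - x ^ 2) ≠ 0 := by linarith
  have n2 : (1 + x ^ 2) ≠ 0 := by positivity
  have hp := Real.pi_pos.ne'
  have h := (H2.j12038_tendsto x hx).mul
    (((((a0.const_mul (3 / 8)).sub (a2.const_mul (3 / 4))).sub (a4.const_mul (1 / 8))).const_mul
      (e ^ 2)).const_add 1 |>.sub ((((a4.add a0).add a2).const_mul (e ^ 3)).const_mul 100))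
  refine h.trans_eq ?_
  congr 1
  unfold HI GG RR
  field_simp
  ring

end Pool.Agent.R826.KR
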