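import Pool.Agent.R826.KM

set_option autoImplicit false
open MeasureTheory ProbabilityTheory Filter Topology Set
open scoped ENNReal NNReal

namespace Pool.Agent.R826.KR
open Kac764

def hit (n K m : ℕ) : Set (ℕ → ℝ) :=
  ⋃ q : ℚ, {ω : ℕ → ℝ | |(q : ℝ)| ≤ K ∧ |D0 n ω q| + |D1 n ω q| < 1 / ((m : ℝ) + 1)}

def dbl (n : ℕ) : Set (ℕ → ℝ) := ⋃ K : ℕ, ⋂ m : ℕ, hit n K m

theorem meas_dbl (n : ℕ) : MeasurableSet (dbl n) := by
  unfold dbl hit
  refine MeasurableSet.iUnion fun K => MeasurableSet.iInter fun m => MeasurableSet.iUnion fun q => ?_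
  have h1 : Measurable (fun ω : ℕ → ℝ => |D0 n ω q| + |D1 n ω q|) := by
    unfold D0 D1
    fun_prop
  exact (MeasurableSet.const _).inter (measurableSet_lt h1 measurable_const)

theorem mem_dbl (n : ℕ) (ω : ℕ → ℝ) : ω ∈ dbl n ↔ ∃ x : ℝ, D0 n ω x = 0 ∧ D1 n ω x = 0 := by
  have hc0 : Continuous (D0 n ω) := by unfold D0; fun_prop
  have hc1 : Continuous (D1 n ω) := by unfold D1; fun_prop
  have hc : Continuous (fun x => |D0 n ω x| + |D1 n ω x|) := by fun_prop
  simp only [dbl, hit, mem_iUnion, mem_iInter, mem_ofPred_eq]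
  constructor
  · rintro ⟨K, hK⟩
    have hne : (Icc (-(K : ℝ)) K).Nonempty := ⟨0, by simp⟩
    obtain ⟨x, hx, hmin⟩ := isCompact_Icc.exists_isMinOn hne hc.continuousOn
    refine ⟨x, ?_⟩
    have h0 : |D0 n ω x| + |D1 n ω x| ≤ 0 := by
      apply le_of_forall_pos_le_add
      intro ε hε
      obtain ⟨m, hm⟩ := exists_nat_one_div_lt hε
      obtain ⟨q, hq1, hq2⟩ := hK m
      have := hmin (show (q : ℝ) ∈ Icc (-(K : ℝ)) K from abs_le.1 hq1)
      simp only [mem_ofPred_eq] at this
      linarith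
    have h1 := abs_nonneg (D0 n ω x)
    have h2 := abs_nonneg (D1 n ω x)
    exact ⟨abs_eq_zero.1 (by linarith), abs_eq_zero.1 (by linarith)⟩
  · rintro ⟨x, hx0, hx1⟩
    obtain ⟨K, hK⟩ := exists_nat_gt |x|
    refine ⟨K, fun m => ?_⟩
    have hm : 0 < 1 / ((m : ℝ) + 1) := by positivity
    have hopen : IsOpen {y : ℝ | |y| < K ∧ |D0 n ω y| + |D1 n ω y| < 1 / ((m : ℝ) + 1)} :=
      (isOpen_lt continuous_abs continuous_const).inter (isOpen_lt hc continuous_const)
    have hxm : x ∈ {y : ℝ | |y| < K ∧ |D0 n ω y| + |D1 n ω y| < 1 / ((m : ℝ) + 1)} := by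
      refine ⟨hK, ?_⟩
      rw [hx0, hx1]
      simpa using hm
    obtain ⟨q, hq⟩ := Rat.denseRange_cast.exists_mem_open hopen ⟨x, hxm⟩
    exact ⟨q, hq.1.le, hq.2⟩

theorem dbl_null (μ : Measure ℝ) [IsProbabilityMeasure μ] (h0 : ∀ x : ℝ, μ {x} = 0) (n : ℕ)
    (hn : 1 ≤ n) : ∀ᵐ ω ∂(PP μ), ω ∉ dbl n := by
  rw [ae_iff]
  simp only [not_not, ofPred_mem_eq]
  rw [← G1.x_map_upd μ 0, Measure.map_apply (G1.x_meas_upd 0) (meas_dbl n),
    Measure.prod_apply ((G1.x_meas_upd 0) (meas_dbl n)), lintegral_eq_zero_iff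
    (measurable_measure_prodMk_left ((G1.x_meas_upd 0) (meas_dbl n)))]
  have h1 : ∀ᵐ w ∂(PP μ), w 1 ≠ 0 := by
    have h2 : ∀ᵐ x ∂μ, x ≠ 0 := by
      rw [ae_iff]
      have : {a : ℝ | ¬ a ≠ 0} = {0} := by ext; simp
      rw [this]
      exact h0 0
    exact (measurePreserving_eval_infinitePi (fun _ : ℕ => μ) 1).quasiMeasurePreserving.ae h2
  filter_upwards [h1] with w hw
  simp only [Pi.zero_apply]
  -- derivative polynomial
  set p : Polynomial ℝ := (kac n w).derivative with hp
  have hp0 : p ≠ 0 := by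
    intro h
    have h2 : p.coeff 0 = w 1 := by
      rw [hp, Polynomial.coeff_derivative]
      unfold kac
      rw [Polynomial.finsetSum_coeff]
      simp only [Polynomial.coeff_C_mul, Polynomial.coeff_X_pow]
      rw [Finset.sum_eq_single 1]
      · simp
      · intro b _ hb
        rw [if_neg (by omega)]
        ring
      · intro hh
        simp only [Finset.mem_range, not_lt] at hh
        omega
    rw [h] at h2
    simp at h2
    exact hw h2.symm
  have hfin : ((fun x : ℝ => -(D0 n (Function.update w 0 0) x)) '' (p.roots.toFinset : Set ℝ)).Finite :=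
    (Finset.finite_toSet _).image _
  have hsub : Prod.mk w ⁻¹' ((fun q : (ℕ → ℝ) × ℝ => Function.update q.1 0 q.2) ⁻¹' dbl n) ⊆
      (fun x : ℝ => -(D0 n (Function.update w 0 0) x)) '' (p.roots.toFinset : Set ℝ) := by
    intro z hz
    simp only [mem_preimage] at hz
    rw [mem_dbl] at hz
    obtain ⟨x, hx0, hx1⟩ := hz
    refine ⟨x, ?_, ?_⟩
    · simp only [Finset.mem_coe, Multiset.mem_toFinset]
      rw [Polynomial.mem_roots hp0, Polynomial.IsRoot.def, hp, P6.kac_deriv_eval]
      rw [← hx1]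
      unfold D1
      refine Finset.sum_congr rfl fun j _ => ?_
      by_cases hj : j = 0
      · subst hj; simp
      · simp [hj]
    · have h3 : D0 n (Function.update w 0 z) x = D0 n (Function.update w 0 0) x + z := by
        unfold D0
        rw [Finset.sum_range_succ', Finset.sum_range_succ']
        simp
      rw [h3] at hx0
      simp only
      linarith
  refine measure_mono_null hsub ?_
  have : ∀ S : Set ℝ, S.Finite → μ S = 0 := by
    intro S hS
    rw [← biUnion_of_singleton S]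
    rw [measure_biUnion_null_iff hS.countable]
    exact fun x _ => h0 x
  exact this _ hfin

theorem card_roots (n : ℕ) (hn : 1 ≤ n) (ω : ℕ → ℝ) (h1 : ω 1 ≠ 0) (h : ω ∉ dbl n) :
    Multiset.card (kac n ω).roots = nz (kac n ω) univ := by
  classical
  have hp0 : kac n ω ≠ 0 := by
    intro hz
    rw [H4.h4_zero_iff] at hz
    exact h1 (hz 1 hn)
  have hnd : (kac n ω).roots.Nodup := by
    rw [Multiset.nodup_iff_count_le_one]
    intro x
    rw [Polynomial.count_roots]
    by_contra hcon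
    push Not at hcon
    rw [Polynomial.one_lt_rootMultiplicity_iff_isRoot hp0] at hcon
    apply h
    rw [mem_dbl]
    refine ⟨x, ?_, ?_⟩
    · have := hcon.1
      rw [Polynomial.IsRoot.def, P6.kac_eval] at this
      exact this
    · have := hcon.2
      rw [Polynomial.IsRoot.def, P6.kac_deriv_eval] at this
      exact this
  rw [← Multiset.toFinset_card_of_nodup hnd]
  unfold nz
  rw [← Set.ncard_coe_finset]
  congr 1
  ext x
  simp only [Finset.mem_coe, Multiset.mem_toFinset, mem_univ, true_and, mem_ofPred_eq]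
  rw [Polynomial.mem_roots hp0, Polynomial.IsRoot.def]
  exact ⟨fun h => ⟨hp0, h⟩, fun h => h.2⟩

end Pool.Agent.R826.KR
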