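import Pool.Agent.R826.KO
import Pool.Agent.R826.KQ
import Pool.Agent.Helper764.KacFin

set_option autoImplicit false
open MeasureTheory ProbabilityTheory Filter Topology Set
open scoped ENNReal NNReal

namespace Pool.Agent.R826.KR
open Kac764

theorem int_lim (e : ℝ) (he0 : 0 < e) (he : e ≤ 1 / 8) (a b : ℝ) (ha : -1 < a) (hab : a ≤ b)
    (hb : b < 1) :
    Tendsto (fun n : ℕ => ∫ x in a..b, HH e n x) atTop (𝓝 (∫ x in a..b, HI e x)) := by
  have hr1 : max |a| |b| < 1 := by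
    rw [max_lt_iff, abs_lt, abs_lt]
    exact ⟨⟨ha, by linarith⟩, ⟨by linarith, hb⟩⟩
  have hle : ∀ x ∈ Set.uIoc a b, |x| ≤ max |a| |b| := by
    intro x hx
    rw [Set.uIoc_of_le hab] at hx
    exact abs_le_max_abs_abs hx.1.le hx.2
  have hne : ∀ᵐ x ∂(volume : Measure ℝ), x ≠ 0 := by
    rw [ae_iff]
    have : {a : ℝ | ¬ a ≠ 0} = {0} := by ext; simp
    rw [this]
    simp
  apply intervalIntegral.tendsto_integral_filter_of_dominated_convergence
    (fun _ => 2 * Real.sqrt ((1 + (max |a| |b|) ^ 2) / (1 - (max |a| |b|) ^ 2) ^ 3))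
  · exact Filter.Eventually.of_forall fun n => (meas_HH e n).aestronglyMeasurable
  · filter_upwards [eventually_ge_atTop 1] with n hn
    filter_upwards [hne] with x hx0 hx
    refine (HH_bd e he0 he n hn x hx0).trans ?_
    have h1 := H2.j12038_bound _ hr1 n x (hle x hx)
    rw [Real.norm_eq_abs, abs_of_nonneg (H2.rho_nonneg n x)] at h1
    linarith
  · exact intervalIntegrable_const
  · filter_upwards [hne] with x hx0 hx
    exact lim_HH e x hx0 (lt_of_le_of_lt (hle x hx) hr1)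

noncomputable def FG (x : ℝ) : ℝ :=
  (1 / 4) * (15 / 32 * Real.arctan x - 17 / 32 * (x / (1 + x ^ 2)) + 5 / 16 * (x / (1 + x ^ 2) ^ 2)
    + 9 / 4 * (x / (1 + x ^ 2) ^ 3) - 3 / 2 * (x / (1 + x ^ 2) ^ 4))

theorem FG_deriv (x : ℝ) : HasDerivAt FG (GG x) x := by
  have hs : (1 + x ^ 2) ≠ 0 := by positivity
  have h0 := Real.hasDerivAt_arctan x
  have hx : HasDerivAt (fun x : ℝ => x) 1 x := hasDerivAt_id x
  have hd : HasDerivAt (fun x : ℝ => 1 + x ^ 2) (2 * x) x := by
    have := (hasDerivAt_pow 2 x).const_add 1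
    simpa using this
  have h1 := hx.div hd hs
  have h2 := hx.div (hd.pow 2) (pow_ne_zero 2 hs)
  have h3 := hx.div (hd.pow 3) (pow_ne_zero 3 hs)
  have h4 := hx.div (hd.pow 4) (pow_ne_zero 4 hs)
  have h := (((((h0.const_mul (15 / 32)).sub (h1.const_mul (17 / 32))).add
    (h2.const_mul (5 / 16))).add (h3.const_mul (9 / 4))).sub (h4.const_mul (3 / 2))).const_mul (1 / 4)
  refine h.congr_deriv ?_
  unfold GG
  simp only [Nat.cast_ofNat, Pi.pow_apply]
  field_simp
  ring

theorem GG_cont : Continuous GG := by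
  unfold GG
  apply Continuous.div (by fun_prop) (by fun_prop)
  intro x
  positivity

theorem RR_cont : Continuous RR := by
  unfold RR
  apply Continuous.add
  · apply Continuous.add
    · exact Continuous.div (by fun_prop) (by fun_prop) (fun x => by positivity)
    · exact Continuous.div (by fun_prop) (by fun_prop) (fun x => by positivity)
  · exact Continuous.div (by fun_prop) (by fun_prop) (fun x => by positivity)

theorem int_GG (r : ℝ) : ∫ x in (0 : ℝ)..r, GG x = FG r := by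
  rw [intervalIntegral.integral_eq_sub_of_hasDerivAt (fun x _ => FG_deriv x)
    (GG_cont.intervalIntegrable _ _)]
  have : FG 0 = 0 := by unfold FG; simp
  rw [this, sub_zero]

theorem RR_le (x : ℝ) (hx0 : 0 ≤ x) (hx1 : x ≤ 1) : RR x ≤ 3 := by
  have hr0 : 0 ≤ x ^ 2 := by positivity
  have hr1 : x ^ 2 ≤ 1 := pow_le_one₀ hx0 hx1
  obtain ⟨r, hr⟩ : ∃ r : ℝ, r = x ^ 2 := ⟨_, rfl⟩
  have e4 : x ^ 4 = r ^ 2 := by rw [hr]; ring
  have e6 : x ^ 6 = r ^ 3 := by rw [hr]; ring
  have e8 : x ^ 8 = r ^ 4 := by rw [hr]; ring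
  unfold RR
  rw [e4, e6, e8, ← hr]
  rw [← hr] at hr0 hr1
  have h1 : 1 / (1 + r) ≤ 1 := by
    rw [div_le_one (by positivity)]
    linarith
  have h2 : 2 * r / (1 + r) ^ 3 ≤ 1 := by
    rw [div_le_one (by positivity)]
    have : 0 ≤ r ^ 2 * (3 + r) := by positivity
    nlinarith
  have h3 : (1 - 4 * r + 14 * r ^ 2 - 4 * r ^ 3 + r ^ 4) / (1 + r) ^ 5 ≤ 1 := by
    rw [div_le_one (by positivity)]
    have a1 : (1 + r) ^ 5 - (1 - 4 * r + 14 * r ^ 2 - 4 * r ^ 3 + r ^ 4) =
        9 * r - 4 * r ^ 2 + 14 * r ^ 3 + 4 * r ^ 4 + r ^ 5 := by ring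
    have a2 : 0 ≤ r * (9 - 4 * r) := mul_nonneg hr0 (by linarith)
    have a3 : 0 ≤ 14 * r ^ 3 + 4 * r ^ 4 + r ^ 5 := by positivity
    nlinarith
  linarith

theorem int_RR (r : ℝ) (hr0 : 0 ≤ r) (hr1 : r ≤ 1) : ∫ x in (0 : ℝ)..r, RR x ≤ 3 := by
  have h1 : ∫ x in (0 : ℝ)..r, RR x ≤ ∫ x in (0 : ℝ)..r, (3 : ℝ) := by
    apply intervalIntegral.integral_mono_on hr0 (RR_cont.intervalIntegrable _ _)
      intervalIntegrable_const
    intro x hx
    exact RR_le x hx.1 (hx.2.trans hr1)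
  rw [intervalIntegral.integral_const, smul_eq_mul] at h1
  linarith

theorem int_HI (e r : ℝ) (he0 : 0 ≤ e) (hr0 : 0 ≤ r) (hr1 : r < 1) :
    1 / (2 * Real.pi) * Real.log ((1 + r) / (1 - r)) + (1 / Real.pi) * (e ^ 2 * FG r - 300 * e ^ 3) ≤
      ∫ x in (0 : ℝ)..r, HI e x := by
  have i1 : IntervalIntegrable (fun x : ℝ => 1 / (Real.pi * (1 - x ^ 2))) volume 0 r :=
    M3.M3_intble 0 r le_rfl hr0 hr1
  have i2 : IntervalIntegrable (fun x : ℝ => e ^ 2 * GG x) volume 0 r :=
    (continuous_const.mul GG_cont).intervalIntegrable _ _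
  have i3 : IntervalIntegrable (fun x : ℝ => 100 * (e ^ 3 * RR x)) volume 0 r :=
    (continuous_const.mul (continuous_const.mul RR_cont)).intervalIntegrable _ _
  have h : ∫ x in (0 : ℝ)..r, HI e x = 1 / (2 * Real.pi) * Real.log ((1 + r) / (1 - r)) +
      (1 / Real.pi) * (e ^ 2 * FG r - 100 * (e ^ 3 * ∫ x in (0 : ℝ)..r, RR x)) := by
    unfold HI
    rw [intervalIntegral.integral_add i1 ((i2.sub i3).const_mul _), H2.int_rhoInf r hr0 hr1,
      intervalIntegral.integral_const_mul, intervalIntegral.integral_sub i2 i3,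
      intervalIntegral.integral_const_mul, intervalIntegral.integral_const_mul,
      intervalIntegral.integral_const_mul, int_GG]
  rw [h]
  have hR := int_RR r hr0 hr1.le
  have hp : 0 < 1 / Real.pi := by have := Real.pi_pos; positivity
  have he3 : 0 ≤ e ^ 3 := by positivity
  have h5 : e ^ 3 * ∫ x in (0 : ℝ)..r, RR x ≤ e ^ 3 * 3 := mul_le_mul_of_nonneg_left hR he3
  have h6 : e ^ 2 * FG r - 300 * e ^ 3 ≤ e ^ 2 * FG r - 100 * (e ^ 3 * ∫ x in (0 : ℝ)..r, RR x) := by
    linarith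
  have := mul_le_mul_of_nonneg_left h6 hp.le
  linarith

theorem HI_neg (e x : ℝ) : HI e (-x) = HI e x := by
  unfold HI GG RR
  have h2 : (-x) ^ 2 = x ^ 2 := by ring
  have h4 : (-x) ^ 4 = x ^ 4 := by ring
  have h6 : (-x) ^ 6 = x ^ 6 := by ring
  have h8 : (-x) ^ 8 = x ^ 8 := by ring
  rw [h2, h4, h6, h8]

/-- lower bound for the expected number of zeros of the power series -/
theorem Ninf_lower (e : ℝ) (he0 : 0 < e) (he : e ≤ 1 / 8) (hS : Std (mix e)) (a b : ℝ)
    (ha : -1 < a) (hab : a < b) (hb : b < 1) (h0 : (0 : ℝ) ∉ Ioo a b) :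
    ∫ x in a..b, HI e x ≤ ∫ ω, (Ninf ω (Ioo a b) : ℝ) ∂(PP (mix e)) := by
  have h1 := (A1.tendsto_nz (mix e) hS a b hab ha hb h0).2
  have h2 := int_lim e he0 he a b ha hab.le hb
  refine le_of_tendsto_of_tendsto h2 h1 ?_
  filter_upwards [eventually_ge_atTop 1] with n hn
  rw [intervalIntegral.integral_of_le hab.le, integral_Ioc_eq_integral_Ioo]
  exact E_lower e he0 he hS n hn a b hab

theorem Ninf_gauss (hS : Std gam) (a b : ℝ)
    (ha : -1 < a) (hab : a < b) (hb : b < 1) (h0 : (0 : ℝ) ∉ Ioo a b) :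
    ∫ ω, (Ninf ω (Ioo a b) : ℝ) ∂(PP gam) = ∫ x in a..b, 1 / (Real.pi * (1 - x ^ 2)) := by
  have h1 := (A1.tendsto_nz gam hS a b hab ha hb h0).2
  have h2 := H2.tendsto_int_rho a b ha hab.le hb
  refine tendsto_nhds_unique h1 (h2.congr' ?_)
  filter_upwards [eventually_ge_atTop 1] with n hn
  rw [intervalIntegral.integral_of_le hab.le, integral_Ioc_eq_integral_Ioo]
  exact (E_gauss hS n hn a b hab).symm

/-! ### moments -/

theorem int_sq_gauss (v : ℝ≥0) : ∫ x, x ^ 2 ∂(gaussianReal 0 v) = v := by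
  have h := variance_fun_id_gaussianReal (μ := 0) (v := v)
  rw [variance_of_integral_eq_zero (by fun_prop) integral_id_gaussianReal] at h
  exact h

theorem int_sq_gauss_int (v : ℝ≥0) : Integrable (fun x : ℝ => x ^ 2) (gaussianReal 0 v) := by
  have h := memLp_id_gaussianReal' (μ := 0) (v := v) 2 (by simp)
  exact h.integrable_sq

theorem int_id_gauss_int (v : ℝ≥0) : Integrable (fun x : ℝ => x) (gaussianReal 0 v) := by
  have h := memLp_id_gaussianReal' (μ := 0) (v := v) 1 (by simp)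
  rw [memLp_one_iff_integrable] at h
  exact h

theorem std_gam : Std gam where
  prob := inferInstance
  int2 := int_sq_gauss_int 1
  mean := integral_id_gaussianReal
  var := by rw [int_sq_gauss]; simp

theorem mix_integral (e : ℝ) (f : ℝ → ℝ) (h1 : Integrable f (gaussianReal 0 (Real.toNNReal (1 + e))))
    (h2 : Integrable f (gaussianReal 0 (Real.toNNReal (1 - e)))) :
    Integrable f (mix e) ∧ ∫ x, f x ∂(mix e) =
      (1 / 2) * ∫ x, f x ∂(gaussianReal 0 (Real.toNNReal (1 + e))) +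
      (1 / 2) * ∫ x, f x ∂(gaussianReal 0 (Real.toNNReal (1 - e))) := by
  have i1 : Integrable f ((2⁻¹ : ℝ≥0∞) • gaussianReal 0 (Real.toNNReal (1 + e))) :=
    h1.smul_measure (by simp)
  have i2 : Integrable f ((2⁻¹ : ℝ≥0∞) • gaussianReal 0 (Real.toNNReal (1 - e))) :=
    h2.smul_measure (by simp)
  unfold mix
  refine ⟨i1.add_measure i2, ?_⟩
  rw [integral_add_measure i1 i2, integral_smul_measure, integral_smul_measure]
  simp

theorem std_mix (e : ℝ) (he0 : 0 < e) (he : e < 1) : Std (mix e) where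
  prob := inferInstance
  int2 := (mix_integral e _ (int_sq_gauss_int _) (int_sq_gauss_int _)).1
  mean := by
    rw [(mix_integral e _ (int_id_gauss_int _) (int_id_gauss_int _)).2, integral_id_gaussianReal,
      integral_id_gaussianReal]
    simp
  var := by
    rw [(mix_integral e _ (int_sq_gauss_int _) (int_sq_gauss_int _)).2, int_sq_gauss, int_sq_gauss,
      Real.coe_toNNReal _ (by linarith), Real.coe_toNNReal _ (by linarith)]
    ring

theorem mix_singleton (e : ℝ) (he0 : 0 < e) (he : e < 1) (x : ℝ) : mix e {x} = 0 := by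
  have h1 : Real.toNNReal (1 + e) ≠ 0 := by
    rw [Ne, Real.toNNReal_eq_zero, not_le]; linarith
  have h2 : Real.toNNReal (1 - e) ≠ 0 := by
    rw [Ne, Real.toNNReal_eq_zero, not_le]; linarith
  have := nullSingletonClass_gaussianReal (μ := 0) h1
  have := nullSingletonClass_gaussianReal (μ := 0) h2
  simp [mix]

theorem mix_moments (e : ℝ) (p : ℝ) (hp : 0 < p) : Integrable (fun x : ℝ => |x| ^ p) (mix e) := by
  have h : ∀ v : ℝ≥0, Integrable (fun x : ℝ => |x| ^ p) (gaussianReal 0 v) := by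
    intro v
    have h1 := memLp_id_gaussianReal' (μ := 0) (v := v) (ENNReal.ofReal p) (by simp)
    have h2 := h1.integrable_norm_rpow (by simpa using hp) (by simp)
    rw [ENNReal.toReal_ofReal hp.le] at h2
    exact h2
  exact (mix_integral e _ (h _) (h _)).1

/-! ### the constants -/

theorem FG_one : FG 1 = 15 * Real.pi / 512 := by
  unfold FG
  rw [Real.arctan_one]
  ring

theorem L_gauss (L : ℝ) (hL : Tendsto (fun r : ℝ => 2 * ∫ ω, (Ninf ω {x : ℝ | 0 < |x| ∧ |x| < r} : ℝ) ∂(PP gam)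
          - (2 / Real.pi) * Real.log ((1 + r) / (1 - r))) (𝓝[<] 1) (𝓝 L)) : L = 0 := by
  refine tendsto_nhds_unique hL ?_
  refine (tendsto_const_nhds (x := (0 : ℝ))).congr' ?_
  have hev : ∀ᶠ r : ℝ in 𝓝[<] 1, r ∈ Ioo (0 : ℝ) 1 := Ioo_mem_nhdsLT (by norm_num)
  filter_upwards [hev] with r hr
  rw [M1.Ninf_center gam std_gam r hr.1 hr.2,
    Ninf_gauss std_gam 0 r (by norm_num) hr.1 hr.2 (by simp),
    Ninf_gauss std_gam (-r) 0 (by linarith [hr.2]) (by linarith [hr.1]) (by norm_num) (by simp)]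
  have h1 : ∫ x in (-r)..0, 1 / (Real.pi * (1 - x ^ 2)) = ∫ x in (0 : ℝ)..r, 1 / (Real.pi * (1 - x ^ 2)) := by
    have := intervalIntegral.integral_comp_neg (a := 0) (b := r)
      (fun x : ℝ => 1 / (Real.pi * (1 - x ^ 2)))
    simp only [neg_zero, neg_sq] at this
    exact this.symm
  rw [h1, H2.int_rhoInf r hr.1.le hr.2]
  have := Real.pi_pos.ne'
  field_simp
  ring

theorem L_mix (e : ℝ) (he0 : 0 < e) (he : e ≤ 1 / 8) (L : ℝ)
    (hL : Tendsto (fun r : ℝ => 2 * ∫ ω, (Ninf ω {x : ℝ | 0 < |x| ∧ |x| < r} : ℝ) ∂(PP (mix e))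
          - (2 / Real.pi) * Real.log ((1 + r) / (1 - r))) (𝓝[<] 1) (𝓝 L)) :
    (4 / Real.pi) * (e ^ 2 * (15 * Real.pi / 512) - 300 * e ^ 3) ≤ L := by
  have hS := std_mix e he0 (by linarith)
  have hc : Continuous FG := by
    rw [continuous_iff_continuousAt]
    exact fun x => (FG_deriv x).continuousAt
  have h2 : Tendsto (fun r : ℝ => (4 / Real.pi) * (e ^ 2 * FG r - 300 * e ^ 3)) (𝓝[<] 1)
      (𝓝 ((4 / Real.pi) * (e ^ 2 * (15 * Real.pi / 512) - 300 * e ^ 3))) := by
    rw [← FG_one]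
    have : Continuous (fun r : ℝ => (4 / Real.pi) * (e ^ 2 * FG r - 300 * e ^ 3)) := by fun_prop
    exact (this.tendsto 1).mono_left nhdsWithin_le_nhds
  refine le_of_tendsto_of_tendsto h2 hL ?_
  have hev : ∀ᶠ r : ℝ in 𝓝[<] 1, r ∈ Ioo (0 : ℝ) 1 := Ioo_mem_nhdsLT (by norm_num)
  filter_upwards [hev] with r hr
  have h3 := Ninf_lower e he0 he hS 0 r (by norm_num) hr.1 hr.2 (by simp)
  have h4 := Ninf_lower e he0 he hS (-r) 0 (by linarith [hr.2]) (by linarith [hr.1]) (by norm_num)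
    (by simp)
  have h1 : ∫ x in (-r)..0, HI e x = ∫ x in (0 : ℝ)..r, HI e x := by
    have := intervalIntegral.integral_comp_neg (a := 0) (b := r) (fun x : ℝ => HI e x)
    simp only [neg_zero, HI_neg] at this
    exact this.symm
  rw [h1] at h4
  have h5 := int_HI e r he0.le hr.1.le hr.2
  rw [M1.Ninf_center (mix e) hS r hr.1 hr.2]
  have hp := Real.pi_pos.ne'
  have h6 : (4 / Real.pi) * (e ^ 2 * FG r - 300 * e ^ 3) =
      4 * (1 / (2 * Real.pi) * Real.log ((1 + r) / (1 - r)) + (1 / Real.pi) * (e ^ 2 * FG r - 300 * e ^ 3))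
      - (2 / Real.pi) * Real.log ((1 + r) / (1 - r)) := by
    field_simp
    ring
  rw [h6]
  linarith

/-- number of real roots counted with multiplicity -/
theorem tendsto_roots (μ : Measure ℝ) [IsProbabilityMeasure μ] (h0 : ∀ x : ℝ, μ {x} = 0) (C : ℝ)
    (h : Tendsto (fun n : ℕ => ∫ ω, (nz (kac n ω) univ : ℝ) ∂(PP μ)
          - (2 / Real.pi) * Real.log n) atTop (𝓝 C)) :
    Tendsto (fun n : ℕ => ∫ ω, (Multiset.card (kac n ω).roots : ℝ) ∂(PP μ)
          - (2 / Real.pi) * Real.log n) atTop (𝓝 C) := by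
  refine h.congr' ?_
  filter_upwards [eventually_ge_atTop 1] with n hn
  congr 1
  apply integral_congr_ae
  have h1 : ∀ᵐ w ∂(PP μ), w 1 ≠ 0 := by
    have h2 : ∀ᵐ x ∂μ, x ≠ 0 := by
      rw [ae_iff]
      have : {a : ℝ | ¬ a ≠ 0} = {0} := by ext; simp
      rw [this]
      exact h0 0
    exact (measurePreserving_eval_infinitePi (fun _ : ℕ => μ) 1).quasiMeasurePreserving.ae h2
  filter_upwards [h1, dbl_null μ h0 n hn] with ω hω1 hω2
  rw [card_roots n hn ω hω1 hω2]

/-- integrability of the number of roots -/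
theorem integrable_roots (μ : Measure ℝ) (hμ : Std μ) (h0 : ∀ x : ℝ, μ {x} = 0) (n : ℕ) :
    Integrable (fun ω : ℕ → ℝ => (Multiset.card (kac n ω).roots : ℝ)) (PP μ) := by
  have := hμ.prob
  rcases Nat.eq_zero_or_pos n with rfl | hn
  · have : ∀ ω : ℕ → ℝ, (Multiset.card (kac 0 ω).roots : ℝ) = 0 := by
      intro ω
      have : kac 0 ω = Polynomial.C (ω 0) := by
        unfold kac
        simp
      rw [this, Polynomial.roots_C]
      simp
    simp only [this]
    exact integrable_zero _ _ _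
  · refine (Kac764.M2.nz_meas_int μ hμ n univ (H4.h4_meas_univ n)).congr ?_
    have h1 : ∀ᵐ w ∂(PP μ), w 1 ≠ 0 := by
      have h2 : ∀ᵐ x ∂μ, x ≠ 0 := by
        rw [ae_iff]
        have : {a : ℝ | ¬ a ≠ 0} = {0} := by ext; simp
        rw [this]
        exact h0 0
      exact (measurePreserving_eval_infinitePi (fun _ : ℕ => μ) 1).quasiMeasurePreserving.ae h2
    filter_upwards [h1, dbl_null μ h0 n hn] with ω hω1 hω2
    rw [card_roots n hn ω hω1 hω2]

theorem gam_singleton (x : ℝ) : gam {x} = 0 := by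
  have := nullSingletonClass_gaussianReal (μ := 0) (one_ne_zero (α := ℝ≥0))
  simp

theorem final (e : ℝ) (he0 : 0 < e) (he : e ≤ 1 / 4000) :
    ∃ C CG : ℝ,
      Tendsto (fun n : ℕ => ∫ ω, (Multiset.card (kac n ω).roots : ℝ) ∂(PP (mix e))
          - (2 / Real.pi) * Real.log n) atTop (𝓝 C) ∧
      Tendsto (fun n : ℕ => ∫ ω, (Multiset.card (kac n ω).roots : ℝ) ∂(PP gam)
          - (2 / Real.pi) * Real.log n) atTop (𝓝 CG) ∧
      CG + 15 / 128 * e ^ 2 - 1200 / Real.pi * e ^ 3 ≤ C ∧ CG < C := by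
  have hS := std_mix e he0 (by linarith)
  obtain ⟨L, hL1, hL2⟩ := Fin.main (mix e) hS
  obtain ⟨L', hL1', hL2'⟩ := Fin.main gam std_gam
  refine ⟨_, _, tendsto_roots (mix e) (mix_singleton e he0 (by linarith)) _ hL2,
    tendsto_roots gam gam_singleton _ hL2', ?_⟩
  have h1 := L_mix e he0 (by linarith) L hL1
  have h2 := L_gauss L' hL1'
  have h3 : (mix e).real {0} = 0 := by simp [Measure.real, mix_singleton e he0 (by linarith)]
  have h4 : gam.real {0} = 0 := by simp [Measure.real, gam_singleton]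
  rw [h3, h4, h2]
  have hp := Real.pi_gt_three
  have hpne := Real.pi_pos.ne'
  have h5 : 0 < (4 / Real.pi) * (e ^ 2 * (15 * Real.pi / 512) - 300 * e ^ 3) := by
    apply mul_pos (by positivity)
    have : e ^ 2 * (15 * Real.pi / 512) - 300 * e ^ 3 = e ^ 2 * (15 * Real.pi / 512 - 300 * e) := by ring
    rw [this]
    apply mul_pos (by positivity)
    linarith
  have h6 : (4 / Real.pi) * (e ^ 2 * (15 * Real.pi / 512) - 300 * e ^ 3) =
      15 / 128 * e ^ 2 - 1200 / Real.pi * e ^ 3 := by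
    field_simp
    ring
  constructor
  · rw [h6] at h1
    linarith
  · linarith

end Pool.Agent.R826.KR
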