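import Pool.Agent.Helper764.KacJ1
import Pool.Agent.Helper764.KacK3
import Pool.Agent.Helper764.KacG1
import Pool.Agent.Helper764.KacJ6
import Pool.Agent.Helper764.KacP1
import Pool.Agent.Helper764.KacP6

set_option autoImplicit false
open MeasureTheory ProbabilityTheory Filter Topology Set
open scoped ENNReal NNReal

namespace Pool.Agent.R826.KR
open Kac764

/-- standard normal law -/
noncomputable abbrev gam : Measure ℝ := gaussianReal 0 1

/-- joint law of two linear forms of i.i.d. standard normal variables -/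
theorem law2 (n : ℕ) (α β : ℕ → ℝ) (A B C : ℝ)
    (hA : A = ∑ j ∈ Finset.range (n + 1), α j ^ 2)
    (hB : B = ∑ j ∈ Finset.range (n + 1), α j * β j)
    (hC : C = ∑ j ∈ Finset.range (n + 1), β j ^ 2)
    (hA0 : 0 < A) (hD : 0 ≤ A * C - B ^ 2) :
    (PP gam).map (fun w => ((∑ j ∈ Finset.range (n + 1), α j * w j : ℝ),
        (∑ j ∈ Finset.range (n + 1), β j * w j : ℝ))) =
    (gam.prod gam).map (fun z => (K3.UG A 1 z, K3.VG A B (A * C - B ^ 2) 1 z)) := by
  have m1 : Measurable (fun w : ℕ → ℝ => ((∑ j ∈ Finset.range (n + 1), α j * w j : ℝ),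
        (∑ j ∈ Finset.range (n + 1), β j * w j : ℝ))) := by fun_prop
  have m2 : Measurable (fun z : ℝ × ℝ => (K3.UG A 1 z, K3.VG A B (A * C - B ^ 2) 1 z)) := by
    unfold K3.UG K3.VG
    fun_prop
  have : IsProbabilityMeasure ((PP gam).map (fun w => ((∑ j ∈ Finset.range (n + 1), α j * w j : ℝ),
        (∑ j ∈ Finset.range (n + 1), β j * w j : ℝ)))) := Measure.isProbabilityMeasure_map m1.aemeasurable
  have : IsProbabilityMeasure ((gam.prod gam).map
      (fun z => (K3.UG A 1 z, K3.VG A B (A * C - B ^ 2) 1 z))) :=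
    Measure.isProbabilityMeasure_map m2.aemeasurable
  apply Measure.ext_of_charFunDual
  funext L
  rw [charFunDual_apply, charFunDual_apply]
  have hL : ∀ u v : ℝ, L (u, v) = L (1, 0) * u + L (0, 1) * v := by
    intro u v
    have e : ((u, v) : ℝ × ℝ) = u • ((1, 0) : ℝ × ℝ) + v • ((0, 1) : ℝ × ℝ) := by
      ext <;> simp
    rw [e, map_add, map_smul, map_smul]
    simp only [smul_eq_mul]
    ring
  rw [integral_map m1.aemeasurable (by fun_prop), integral_map m2.aemeasurable (by fun_prop)]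
  set s : ℝ := L (1, 0) with hs
  set t : ℝ := L (0, 1) with ht
  have h2 := K3.gauss_char A B C 1 s t hA0 hD
  have h1 := P1.char_prod gam n (fun j => s * α j + t * β j)
  have e1 : ∀ w : ℕ → ℝ, Complex.exp ((L ((∑ j ∈ Finset.range (n + 1), α j * w j : ℝ),
        (∑ j ∈ Finset.range (n + 1), β j * w j : ℝ)) : ℂ) * Complex.I) =
      Complex.exp (Complex.I * ((∑ j ∈ Finset.range (n + 1), (s * α j + t * β j) * w j : ℝ) : ℂ)) := by
    intro w
    rw [hL, mul_comm]
    congr 3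
    rw [Finset.mul_sum, Finset.mul_sum, ← Finset.sum_add_distrib]
    refine Finset.sum_congr rfl fun j _ => ?_
    ring
  have e2 : ∀ z : ℝ × ℝ, Complex.exp ((L (K3.UG A 1 z, K3.VG A B (A * C - B ^ 2) 1 z) : ℂ) * Complex.I) =
      Complex.exp (Complex.I * ((s * K3.UG A 1 z + t * K3.VG A B (A * C - B ^ 2) 1 z : ℝ) : ℂ)) := by
    intro z
    rw [hL, mul_comm]
  simp only [e1, e2]
  rw [h1, h2]
  simp only [charFun_gaussianReal]
  rw [← Complex.exp_sum]
  congr 1
  have e3 : (1 ^ 2 * (s ^ 2 * A + 2 * s * t * B + t ^ 2 * C) / 2 : ℝ) =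
      ∑ j ∈ Finset.range (n + 1), (s * α j + t * β j) ^ 2 / 2 := by
    rw [hA, hB, hC, Finset.mul_sum, Finset.mul_sum, Finset.mul_sum, one_pow, one_mul,
      ← Finset.sum_add_distrib, ← Finset.sum_add_distrib, Finset.sum_div]
    refine Finset.sum_congr rfl fun j _ => ?_
    ring
  rw [e3]
  push_cast
  rw [← Finset.sum_neg_distrib]
  refine Finset.sum_congr rfl fun j _ => ?_
  ring

/-- law of a linear form of two independent standard normal variables -/
theorem law1 (c d : ℝ) : (gam.prod gam).map (fun z => c * z.1 + d * z.2) =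
    gaussianReal 0 (Real.toNNReal (c ^ 2 + d ^ 2)) := by
  have m1 : Measurable (fun z : ℝ × ℝ => c * z.1 + d * z.2) := by fun_prop
  have : IsProbabilityMeasure ((gam.prod gam).map (fun z => c * z.1 + d * z.2)) :=
    Measure.isProbabilityMeasure_map m1.aemeasurable
  apply Measure.ext_of_charFun
  funext t
  rw [charFun_apply_real, integral_map m1.aemeasurable (by fun_prop), charFun_gaussianReal]
  have h1 : ∀ z : ℝ × ℝ, Complex.exp ((t : ℂ) * ((c * z.1 + d * z.2 : ℝ) : ℂ) * Complex.I)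
      = Complex.exp (((t * c : ℝ) : ℂ) * (z.1 : ℂ) * Complex.I) *
        Complex.exp (((t * d : ℝ) : ℂ) * (z.2 : ℂ) * Complex.I) := by
    intro z
    rw [← Complex.exp_add]
    congr 1
    push_cast
    ring
  simp only [h1]
  rw [integral_prod_mul (μ := gaussianReal 0 1) (ν := gaussianReal 0 1)
    (fun x : ℝ => Complex.exp (((t * c : ℝ) : ℂ) * (x : ℂ) * Complex.I))
    (fun x : ℝ => Complex.exp (((t * d : ℝ) : ℂ) * (x : ℂ) * Complex.I)),
    ← charFun_apply_real, ← charFun_apply_real, charFun_gaussianReal, charFun_gaussianReal,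
    ← Complex.exp_add]
  congr 1
  have h2 : ((Real.toNNReal (c ^ 2 + d ^ 2) : ℝ) : ℂ) = (c : ℂ) ^ 2 + (d : ℂ) ^ 2 := by
    rw [Real.coe_toNNReal _ (by positivity)]
    push_cast
    ring
  have h3 : (((Real.toNNReal (c ^ 2 + d ^ 2)) : ℝ≥0) : ℂ) = (c : ℂ) ^ 2 + (d : ℂ) ^ 2 := h2
  rw [h3]
  push_cast
  ring

/-- first absolute moment of a centred normal variable -/
theorem absmom (v : ℝ) (hv : 0 ≤ v) :
    ∫⁻ y, ENNReal.ofReal |y| ∂(gaussianReal 0 (Real.toNNReal v)) =
      ENNReal.ofReal (Real.sqrt v * (2 * K3.gePhi)) := by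
  have h1 : gaussianReal 0 (Real.toNNReal v) = gam.map (fun z => Real.sqrt v * z) := by
    rw [gaussianReal_map_const_mul]
    congr 1
    · ring
    · ext
      rw [Real.coe_toNNReal _ hv]
      simp [Real.sq_sqrt hv]
  rw [h1, lintegral_map (by fun_prop) (by fun_prop)]
  have h2 : ∀ z : ℝ, ENNReal.ofReal |Real.sqrt v * z| =
      ENNReal.ofReal (Real.sqrt v) * ENNReal.ofReal |z| := by
    intro z
    rw [abs_mul, abs_of_nonneg (Real.sqrt_nonneg v), ENNReal.ofReal_mul (Real.sqrt_nonneg v)]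
  simp only [h2]
  rw [lintegral_const_mul _ (by fun_prop), ← ofReal_integral_eq_lintegral_ofReal K3.ge_absint
    (Eventually.of_forall fun z => abs_nonneg z), K3.ge_E0, ← ENNReal.ofReal_mul (Real.sqrt_nonneg v)]

/-- pointwise identity between Gaussian densities -/
theorem pdf_id (A v z : ℝ) (hA : 0 < A) (hv : 0 < v) :
    gaussianPDFReal 0 1 z * gaussianPDFReal 0 (Real.toNNReal v) (Real.sqrt A * z) =
      K3.gePhi / Real.sqrt (A + v) * gaussianPDFReal 0 (Real.toNNReal (v / (A + v))) z := by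
  have hp := Real.pi_pos
  have hAv : 0 < A + v := by positivity
  rw [gaussianPDFReal_def, gaussianPDFReal_def, gaussianPDFReal_def]
  simp only [sub_zero, NNReal.coe_one, mul_one]
  rw [Real.coe_toNNReal _ hv.le, Real.coe_toNNReal _ (by positivity)]
  have e1 : Real.exp (-z ^ 2 / 2) * Real.exp (-(Real.sqrt A * z) ^ 2 / (2 * v)) =
      Real.exp (-z ^ 2 / (2 * (v / (A + v)))) := by
    rw [← Real.exp_add]
    congr 1
    rw [mul_pow, Real.sq_sqrt hA.le]
    field_simp
    ring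
  have e2 : (Real.sqrt (2 * Real.pi * v))⁻¹ =
      (Real.sqrt (A + v))⁻¹ * (Real.sqrt (2 * Real.pi * (v / (A + v))))⁻¹ := by
    rw [← mul_inv, ← Real.sqrt_mul hAv.le]
    congr 2
    field_simp
  unfold K3.gePhi
  calc (Real.sqrt (2 * Real.pi))⁻¹ * Real.exp (-z ^ 2 / 2) *
        ((Real.sqrt (2 * Real.pi * v))⁻¹ * Real.exp (-(Real.sqrt A * z) ^ 2 / (2 * v)))
      = (Real.sqrt (2 * Real.pi))⁻¹ * (Real.sqrt (2 * Real.pi * v))⁻¹ *
        (Real.exp (-z ^ 2 / 2) * Real.exp (-(Real.sqrt A * z) ^ 2 / (2 * v))) := by ring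
    _ = _ := by
      rw [e1, e2]
      ring

theorem pdf_neg (u : ℝ≥0) (y : ℝ) : gaussianPDF 0 u (-y) = gaussianPDF 0 u y := by
  rw [gaussianPDF_def, gaussianPDFReal_def]
  simp only [sub_zero, neg_sq]

/-- the density of zeros: the basic Gaussian computation -/
theorem core (n : ℕ) (α β : ℕ → ℝ) (A B C v : ℝ)
    (hA : A = ∑ j ∈ Finset.range (n + 1), α j ^ 2)
    (hB : B = ∑ j ∈ Finset.range (n + 1), α j * β j)
    (hC : C = ∑ j ∈ Finset.range (n + 1), β j ^ 2)
    (hA0 : 0 < A) (hD : 0 ≤ A * C - B ^ 2) (hv : 0 < v) :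
    ∫⁻ w, ENNReal.ofReal |∑ j ∈ Finset.range (n + 1), β j * w j| *
        gaussianPDF 0 (Real.toNNReal v) (-∑ j ∈ Finset.range (n + 1), α j * w j) ∂(PP gam) =
      ENNReal.ofReal ((1 / Real.pi) * Real.sqrt ((A + v) * C - B ^ 2) / (A + v)) := by
  have hp := Real.pi_pos
  have hAv : 0 < A + v := by positivity
  have hvn : Real.toNNReal v ≠ 0 := by
    rw [Ne, Real.toNNReal_eq_zero, not_le]; exact hv
  set c : ℝ := B / Real.sqrt A with hc
  set d : ℝ := Real.sqrt ((A * C - B ^ 2) / A) with hd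
  set τ : ℝ := Real.sqrt (v / (A + v)) with hτ
  set K : ℝ → ℝ≥0∞ := fun y => ∫⁻ z, ENNReal.ofReal |c * y + d * z| ∂gam with hK
  have hKm : Measurable K := by
    apply Measurable.lintegral_prod_right'
      (f := fun p : ℝ × ℝ => ENNReal.ofReal |c * p.1 + d * p.2|)
    fun_prop
  have hpm : ∀ u : ℝ≥0, Measurable (gaussianPDF 0 u) := measurable_gaussianPDF 0
  have m1 : Measurable (fun w : ℕ → ℝ => ((∑ j ∈ Finset.range (n + 1), α j * w j : ℝ),
        (∑ j ∈ Finset.range (n + 1), β j * w j : ℝ))) := by fun_prop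
  have m2 : Measurable (fun z : ℝ × ℝ => (K3.UG A 1 z, K3.VG A B (A * C - B ^ 2) 1 z)) := by
    unfold K3.UG K3.VG
    fun_prop
  have mF : Measurable (fun q : ℝ × ℝ => ENNReal.ofReal |q.2| *
      gaussianPDF 0 (Real.toNNReal v) (-q.1)) := by
    have a1 : Measurable (fun q : ℝ × ℝ => ENNReal.ofReal |q.2|) := by fun_prop
    have a2 : Measurable (fun q : ℝ × ℝ => gaussianPDF 0 (Real.toNNReal v) (-q.1)) :=
      (hpm _).comp (by fun_prop)
    exact a1.mul a2
  have s1 : ∫⁻ w, ENNReal.ofReal |∑ j ∈ Finset.range (n + 1), β j * w j| *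
        gaussianPDF 0 (Real.toNNReal v) (-∑ j ∈ Finset.range (n + 1), α j * w j) ∂(PP gam) =
      ∫⁻ q, ENNReal.ofReal |q.2| * gaussianPDF 0 (Real.toNNReal v) (-q.1)
        ∂((PP gam).map (fun w => ((∑ j ∈ Finset.range (n + 1), α j * w j : ℝ),
        (∑ j ∈ Finset.range (n + 1), β j * w j : ℝ)))) := by
    rw [lintegral_map mF m1]
  have s1b := lintegral_prod (μ := gam) (ν := gam) (fun z : ℝ × ℝ =>
      ENNReal.ofReal |(K3.UG A 1 z, K3.VG A B (A * C - B ^ 2) 1 z).2| *
        gaussianPDF 0 (Real.toNNReal v) (-(K3.UG A 1 z, K3.VG A B (A * C - B ^ 2) 1 z).1))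
    (mF.comp m2).aemeasurable
  rw [s1, law2 n α β A B C hA hB hC hA0 hD, lintegral_map mF m2, s1b]
  have s2 : ∀ y : ℝ, ∫⁻ z, ENNReal.ofReal |(K3.UG A 1 (y, z), K3.VG A B (A * C - B ^ 2) 1 (y, z)).2| *
      gaussianPDF 0 (Real.toNNReal v) (-(K3.UG A 1 (y, z), K3.VG A B (A * C - B ^ 2) 1 (y, z)).1) ∂gam
      = gaussianPDF 0 (Real.toNNReal v) (Real.sqrt A * y) * K y := by
    intro y
    rw [hK, ← lintegral_const_mul _ (by fun_prop)]
    refine lintegral_congr fun z => ?_
    rw [mul_comm]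
    congr 1
    · simp only [K3.UG, one_mul]
      exact pdf_neg _ _
    · simp only [K3.VG, one_mul, hc, hd]
  simp only [s2]
  have hm3 : Measurable (fun y : ℝ => gaussianPDF 0 (Real.toNNReal v) (Real.sqrt A * y) * K y) :=
    ((hpm _).comp (by fun_prop)).mul hKm
  rw [show gam = volume.withDensity (gaussianPDF 0 1) from gaussianReal_of_var_ne_zero 0 one_ne_zero,
    lintegral_withDensity_eq_lintegral_mul _ (hpm 1) hm3]
  have s3 : ∀ y : ℝ, (gaussianPDF 0 1 * fun y => gaussianPDF 0 (Real.toNNReal v) (Real.sqrt A * y) * K y) y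
      = ENNReal.ofReal (K3.gePhi / Real.sqrt (A + v)) *
        ((gaussianPDF 0 (Real.toNNReal (v / (A + v))) * K) y) := by
    intro y
    rw [Pi.mul_apply, Pi.mul_apply]
    unfold gaussianPDF
    rw [← mul_assoc, ← mul_assoc, ← ENNReal.ofReal_mul (gaussianPDFReal_nonneg _ _ _),
      ← ENNReal.ofReal_mul (by have := K3.gePhi_pos; positivity), pdf_id A v y hA0 hv]
  simp only [s3]
  have hτn : Real.toNNReal (v / (A + v)) ≠ 0 := by
    rw [Ne, Real.toNNReal_eq_zero, not_le]; positivity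
  rw [lintegral_const_mul _ ((hpm _).mul hKm), ← lintegral_withDensity_eq_lintegral_mul _ (hpm _) hKm,
    ← gaussianReal_of_var_ne_zero 0 hτn]
  have s4 : gaussianReal 0 (Real.toNNReal (v / (A + v))) = gam.map (fun z => τ * z) := by
    rw [gaussianReal_map_const_mul]
    congr 1
    · ring
    · ext
      rw [Real.coe_toNNReal _ (by positivity)]
      simp [hτ, Real.sq_sqrt (show 0 ≤ v / (A + v) by positivity)]
  rw [s4, lintegral_map hKm (by fun_prop)]
  have s5 : ∫⁻ a, K (τ * a) ∂gam =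
      ∫⁻ y, ENNReal.ofReal |y| ∂((gam.prod gam).map (fun z => (c * τ) * z.1 + d * z.2)) := by
    rw [lintegral_map (by fun_prop) (by fun_prop), lintegral_prod _ (by fun_prop)]
    refine lintegral_congr fun a => ?_
    simp only [hK]
    refine lintegral_congr fun z => ?_
    rw [mul_assoc]
  rw [s5, law1, absmom _ (by positivity), ← ENNReal.ofReal_mul (by have := K3.gePhi_pos; positivity)]
  congr 1
  have e1 : (c * τ) ^ 2 + d ^ 2 = ((A + v) * C - B ^ 2) / (A + v) := by
    rw [mul_pow, hc, hτ, hd, div_pow, Real.sq_sqrt hA0.le, Real.sq_sqrt (by positivity),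
      Real.sq_sqrt (by positivity)]
    field_simp
    ring
  rw [e1, Real.sqrt_div' _ hAv.le, ← K3.ge_phi_sq]
  have e2 : Real.sqrt (A + v) * Real.sqrt (A + v) = A + v := Real.mul_self_sqrt hAv.le
  have e3 : Real.sqrt (A + v) ≠ 0 := (Real.sqrt_pos.2 hAv).ne'
  have e4 : ∀ S : ℝ, S / (A + v) = S / Real.sqrt (A + v) / Real.sqrt (A + v) := by
    intro S
    rw [div_div, e2]
  rw [mul_div_assoc, e4]
  ring

end Pool.Agent.R826.KR
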