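import Pool.Agent.R826.KR
import Pool.Agent.Helper764.KacK5

set_option autoImplicit false
open MeasureTheory ProbabilityTheory Filter Topology Set
open scoped ENNReal NNReal

namespace Pool.Agent.R826.KR
open Kac764

noncomputable def wA (n : ℕ) (s : ℕ → ℝ) (x : ℝ) : ℝ :=
  ∑ j ∈ Finset.range (n + 1), s j * (x ^ j) ^ 2
noncomputable def wB (n : ℕ) (s : ℕ → ℝ) (x : ℝ) : ℝ :=
  ∑ j ∈ Finset.range (n + 1), s j * (x ^ j * ((j : ℝ) * x ^ (j - 1)))
noncomputable def wC (n : ℕ) (s : ℕ → ℝ) (x : ℝ) : ℝ :=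
  ∑ j ∈ Finset.range (n + 1), s j * ((j : ℝ) * x ^ (j - 1)) ^ 2
/-- density of real zeros of a polynomial with independent centred normal coefficients with
variances `s j` -/
noncomputable def dens (n : ℕ) (s : ℕ → ℝ) (x : ℝ) : ℝ :=
  (1 / Real.pi) * Real.sqrt (wA n s x * wC n s x - wB n s x ^ 2) / wA n s x

theorem wA_pos (n : ℕ) (s : ℕ → ℝ) (hs : ∀ j, 0 < s j) (x : ℝ) : 0 < wA n s x := by
  unfold wA
  rw [Finset.sum_range_succ']
  have h1 : 0 ≤ ∑ k ∈ Finset.range n, s (k + 1) * (x ^ (k + 1)) ^ 2 :=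
    Finset.sum_nonneg fun k _ => mul_nonneg (hs _).le (sq_nonneg _)
  have h2 := hs 0
  simp only [pow_zero, one_pow, mul_one]
  linarith

theorem ae_ne_zero_vol (S : Set ℝ) : ∀ᵐ x ∂(volume.restrict S), x ≠ (0 : ℝ) := by
  apply ae_restrict_of_ae
  rw [ae_iff]
  have : {a : ℝ | ¬ a ≠ 0} = {0} := by ext; simp
  rw [this]
  simp

theorem kac_split (n : ℕ) (σ w : ℕ → ℝ) (z : ℝ) :
    kac n (fun j => σ j * Function.update w 0 z j) =
      kac n (fun j => σ j * Function.update w 0 0 j) + Polynomial.C (σ 0 * z) := by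
  have h := K5.kac_update n (fun j => σ j * Function.update w 0 0 j) (σ 0 * z)
  rw [← h]
  congr 1
  funext j
  by_cases hj : j = 0
  · subst hj
    simp
  · simp [hj]

/-- random constant coefficient -/
theorem inner_eq (n : ℕ) (ω : ℕ → ℝ) (v : ℝ) (hv0 : 0 < v) (a b : ℝ) (hab : a < b) :
    ∫⁻ z, (nz (kac n ω + Polynomial.C (Real.sqrt v * z)) (Ioo a b) : ℝ≥0∞) ∂gam =
      ∫⁻ x in Ioo a b, ENNReal.ofReal |D1 n ω x| *
        gaussianPDF 0 (Real.toNNReal v) (-D0 n ω x) := by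
  have hvn : Real.toNNReal v ≠ 0 := by
    rw [Ne, Real.toNNReal_eq_zero, not_le]; exact hv0
  have hpm : Measurable (gaussianPDF 0 (Real.toNNReal v)) := measurable_gaussianPDF 0 _
  have hm0 : Measurable (fun c : ℝ => (c, ω)) := measurable_id.prodMk measurable_const
  have hm1 : Measurable (fun c : ℝ => (nz (kac n ω + Polynomial.C c) (Ioo a b) : ℝ≥0∞)) := by
    have := (K5.measurable_joint n a b).comp hm0
    exact this
  generalize hF : (fun c : ℝ => (nz (kac n ω + Polynomial.C c) (Ioo a b) : ℝ≥0∞)) = F at hm1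
  have hF' : ∀ c : ℝ, (nz (kac n ω + Polynomial.C c) (Ioo a b) : ℝ≥0∞) = F c := by
    intro c
    rw [← hF]
  simp only [hF']
  have e2 : gam.map (fun z => Real.sqrt v * z) = gaussianReal 0 (Real.toNNReal v) := by
    rw [gaussianReal_map_const_mul]
    congr 1
    · ring
    · ext
      rw [Real.coe_toNNReal _ hv0.le]
      simp [Real.sq_sqrt hv0.le]
  have e3 : ∫⁻ z, F (Real.sqrt v * z) ∂gam = ∫⁻ c, F c ∂(gaussianReal 0 (Real.toNNReal v)) := by
    rw [← e2, lintegral_map hm1 (by fun_prop)]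
  rw [e3, gaussianReal_of_var_ne_zero 0 hvn, lintegral_withDensity_eq_lintegral_mul _ hpm hm1]
  have e4 : ∫⁻ c, (gaussianPDF 0 (Real.toNNReal v) * F) c =
      ∫⁻ c, (nz (kac n ω + Polynomial.C c) (Ioo a b) : ℝ≥0∞) * gaussianPDF 0 (Real.toNNReal v) c := by
    refine lintegral_congr fun c => ?_
    rw [Pi.mul_apply, mul_comm, hF']
  rw [e4, J1.banach_indicatrix (kac n ω) a b hab _ hpm]
  refine lintegral_congr fun x => ?_
  rw [P6.kac_deriv_eval, P6.kac_eval]

theorem D1_eq (n : ℕ) (σ w : ℕ → ℝ) (x : ℝ) :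
    D1 n (fun j => σ j * Function.update w 0 0 j) x =
      ∑ j ∈ Finset.range (n + 1), (σ j * ((j : ℝ) * x ^ (j - 1))) * w j := by
  unfold D1
  refine Finset.sum_congr rfl fun j _ => ?_
  by_cases hj : j = 0
  · subst hj
    simp
  · simp only [ne_eq, hj, not_false_eq_true, Function.update_of_ne]
    ring

theorem D0_eq (n : ℕ) (σ w : ℕ → ℝ) (x : ℝ) :
    D0 n (fun j => σ j * Function.update w 0 0 j) x =
      ∑ j ∈ Finset.range (n + 1), (if j = 0 then 0 else σ j * x ^ j) * w j := by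
  unfold D0
  refine Finset.sum_congr rfl fun j _ => ?_
  by_cases hj : j = 0
  · subst hj
    simp
  · simp only [ne_eq, hj, not_false_eq_true, Function.update_of_ne, if_false]
    ring

/-- the density at a point -/
theorem dens_eq (n : ℕ) (hn : 1 ≤ n) (s : ℕ → ℝ) (hs : ∀ j, 0 < s j) (x : ℝ) (hx : x ≠ 0) :
    ∫⁻ w, ENNReal.ofReal |∑ j ∈ Finset.range (n + 1), (Real.sqrt (s j) * ((j : ℝ) * x ^ (j - 1))) * w j| *
        gaussianPDF 0 (Real.toNNReal (s 0))
          (-∑ j ∈ Finset.range (n + 1), (if j = 0 then 0 else Real.sqrt (s j) * x ^ j) * w j) ∂(PP gam) =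
      ENNReal.ofReal (dens n s x) := by
  set α : ℕ → ℝ := fun j => if j = 0 then 0 else Real.sqrt (s j) * x ^ j with hα
  set β : ℕ → ℝ := fun j => Real.sqrt (s j) * ((j : ℝ) * x ^ (j - 1)) with hβ
  have hβsq : ∀ j, β j ^ 2 = s j * ((j : ℝ) * x ^ (j - 1)) ^ 2 := by
    intro j
    simp only [hβ]
    rw [mul_pow, Real.sq_sqrt (hs j).le]
  have hA : ∑ j ∈ Finset.range (n + 1), α j ^ 2 + s 0 = wA n s x := by
    unfold wA
    rw [Finset.sum_range_succ', Finset.sum_range_succ']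
    simp only [hα, Nat.add_eq_zero_iff, one_ne_zero, and_false, if_false, if_true, mul_pow,
      Real.sq_sqrt (hs _).le]
    simp
  have hB : ∑ j ∈ Finset.range (n + 1), α j * β j = wB n s x := by
    unfold wB
    refine Finset.sum_congr rfl fun j _ => ?_
    by_cases hj : j = 0
    · subst hj; simp [hα]
    · simp only [hα, hβ, hj, if_false]
      have := Real.mul_self_sqrt (hs j).le
      calc Real.sqrt (s j) * x ^ j * (Real.sqrt (s j) * ((j : ℝ) * x ^ (j - 1)))
          = (Real.sqrt (s j) * Real.sqrt (s j)) * (x ^ j * ((j : ℝ) * x ^ (j - 1))) := by ring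
        _ = _ := by rw [this]
  have hC : ∑ j ∈ Finset.range (n + 1), β j ^ 2 = wC n s x := by
    unfold wC
    exact Finset.sum_congr rfl fun j _ => hβsq j
  have hA0 : 0 < ∑ j ∈ Finset.range (n + 1), α j ^ 2 := by
    apply Finset.sum_pos' (fun j _ => sq_nonneg _)
    refine ⟨1, by simp; omega, ?_⟩
    simp only [hα, one_ne_zero, if_false, pow_one]
    have := Real.sqrt_pos.2 (hs 1)
    positivity
  have hD : 0 ≤ (∑ j ∈ Finset.range (n + 1), α j ^ 2) * (∑ j ∈ Finset.range (n + 1), β j ^ 2) -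
      (∑ j ∈ Finset.range (n + 1), α j * β j) ^ 2 := by
    have := Finset.sum_mul_sq_le_sq_mul_sq (Finset.range (n + 1)) α β
    linarith
  have h := core n α β _ _ _ (s 0) rfl rfl rfl hA0 hD (hs 0)
  rw [hA, hB, hC] at h
  exact h

/-- exact Kac-Rice formula for independent centred normal coefficients -/
theorem kacrice (n : ℕ) (hn : 1 ≤ n) (s : ℕ → ℝ) (hs : ∀ j, 0 < s j) (a b : ℝ) (hab : a < b) :
    ∫⁻ g, (nz (kac n (fun j => Real.sqrt (s j) * g j)) (Ioo a b) : ℝ≥0∞) ∂(PP gam) =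
      ∫⁻ x in Ioo a b, ENNReal.ofReal (dens n s x) := by
  have hsc : Measurable (fun (g : ℕ → ℝ) (j : ℕ) => Real.sqrt (s j) * g j) := by fun_prop
  have hcast : Measurable (fun k : ℕ => (k : ℝ≥0∞)) := measurable_of_countable _
  have hH : Measurable (fun g : ℕ → ℝ =>
      (nz (kac n (fun j => Real.sqrt (s j) * g j)) (Ioo a b) : ℝ≥0∞)) :=
    hcast.comp ((J6.measurable_nz n a b).comp hsc)
  rw [← G1.x_lint_upd gam 0 hH]
  have inner : ∀ w : ℕ → ℝ,
      ∫⁻ z, (nz (kac n (fun j => Real.sqrt (s j) * Function.update w 0 z j)) (Ioo a b) : ℝ≥0∞) ∂gam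
      = ∫⁻ x in Ioo a b, ENNReal.ofReal
        |∑ j ∈ Finset.range (n + 1), (Real.sqrt (s j) * ((j : ℝ) * x ^ (j - 1))) * w j| *
        gaussianPDF 0 (Real.toNNReal (s 0))
          (-∑ j ∈ Finset.range (n + 1), (if j = 0 then 0 else Real.sqrt (s j) * x ^ j) * w j) := by
    intro w
    have e1 : ∀ z : ℝ, (nz (kac n (fun j => Real.sqrt (s j) * Function.update w 0 z j)) (Ioo a b) : ℝ≥0∞) =
        (nz (kac n (fun j => Real.sqrt (s j) * Function.update w 0 0 j) +
          Polynomial.C (Real.sqrt (s 0) * z)) (Ioo a b) : ℝ≥0∞) := by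
      intro z
      rw [kac_split n (fun j => Real.sqrt (s j)) w z]
    rw [lintegral_congr e1, inner_eq n _ (s 0) (hs 0) a b hab]
    refine lintegral_congr fun x => ?_
    rw [D1_eq, D0_eq]
  rw [lintegral_congr inner]
  have hpm : Measurable (gaussianPDF 0 (Real.toNNReal (s 0))) := measurable_gaussianPDF 0 _
  have hj1 : Measurable (fun p : (ℕ → ℝ) × ℝ =>
      ENNReal.ofReal |∑ j ∈ Finset.range (n + 1), (Real.sqrt (s j) * ((j : ℝ) * p.2 ^ (j - 1))) * p.1 j|) := by
    fun_prop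
  have hj2 : Measurable (fun p : (ℕ → ℝ) × ℝ =>
      (-∑ j ∈ Finset.range (n + 1), (if j = 0 then 0 else Real.sqrt (s j) * p.2 ^ j) * p.1 j)) := by
    apply Measurable.neg
    refine Finset.measurable_sum _ fun j _ => ?_
    by_cases hj : j = 0
    · simp only [hj, if_true, zero_mul]; exact measurable_const
    · simp only [hj, if_false]; fun_prop
  have hjoint : Measurable (fun p : (ℕ → ℝ) × ℝ =>
      ENNReal.ofReal |∑ j ∈ Finset.range (n + 1), (Real.sqrt (s j) * ((j : ℝ) * p.2 ^ (j - 1))) * p.1 j| *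
        gaussianPDF 0 (Real.toNNReal (s 0))
          (-∑ j ∈ Finset.range (n + 1), (if j = 0 then 0 else Real.sqrt (s j) * p.2 ^ j) * p.1 j)) :=
    hj1.mul (hpm.comp hj2)
  rw [lintegral_lintegral_swap hjoint.aemeasurable]
  refine lintegral_congr_ae ?_
  filter_upwards [ae_ne_zero_vol (Ioo a b)] with x hx
  exact dens_eq n hn s hs x hx

end Pool.Agent.R826.KR
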