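import Mathlib
import Pool.Agent.R826.FrobL
import Pool.Agent.R826.FrobO

set_option autoImplicit false

namespace Pool.Agent.R826.Leh

open Polynomial NumberField Module Pool.Agent.H225R3.Marg IntermediateField

theorem exists_eps (E : ℕ) : ∃ ε : ℝ, 0 < ε ∧ ε < 1 ∧ (1 + ε) ^ E < 2 := by
  refine ⟨1 / (2 * (E + 1)), by positivity, ?_, ?_⟩
  · rw [div_lt_one (by positivity)]
    have : (0 : ℝ) ≤ E := Nat.cast_nonneg _
    linarith
  · have h1 : (1 + 1 / (2 * ((E : ℝ) + 1))) ^ E ≤ Real.exp (1 / 2) := by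
      calc (1 + 1 / (2 * ((E : ℝ) + 1))) ^ E ≤ (Real.exp (1 / (2 * ((E : ℝ) + 1)))) ^ E := by
            apply pow_le_pow_left₀ (by positivity)
            have := Real.add_one_le_exp (1 / (2 * ((E : ℝ) + 1)))
            linarith
        _ = Real.exp (E * (1 / (2 * ((E : ℝ) + 1)))) := by rw [Real.exp_nat_mul]
        _ ≤ Real.exp (1 / 2) := by
            apply Real.exp_le_exp.mpr
            rw [mul_one_div, div_le_div_iff₀ (by positivity) (by norm_num)]
            linarith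
    have h2 : Real.exp (1 / 2) < 2 := by
      have h3 : Real.exp (1 / 2) ^ 2 = Real.exp 1 := by
        rw [← Real.exp_nat_mul]; norm_num
      have h4 := Real.exp_one_lt_d9
      nlinarith [Real.exp_pos (1 / 2 : ℝ)]
    linarith

theorem one_le_prod (t : Multiset ℂ) : 1 ≤ (t.map fun a => max 1 ‖a‖).prod := by
  induction t using Multiset.induction with
  | empty => simp
  | cons a t ih =>
    rw [Multiset.map_cons, Multiset.prod_cons]
    exact one_le_mul_of_one_le_of_one_le (le_max_left _ _) ih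

theorem mahler_eq (P : ℤ[X]) (hP : P.Monic) : (P.map (Int.castRingHom ℂ)).mahlerMeasure =
    (((P.map (Int.castRingHom ℂ)).roots).map fun a => max 1 ‖a‖).prod := by
  rw [mahlerMeasure_eq_leadingCoeff_mul_prod_roots, (hP.map _).leadingCoeff, norm_one, one_mul]

theorem root_le (P : ℤ[X]) (hP : P.Monic) (z : ℂ) (hz : z ∈ (P.map (Int.castRingHom ℂ)).roots) :
    ‖z‖ ≤ (P.map (Int.castRingHom ℂ)).mahlerMeasure := by
  rw [mahler_eq P hP]
  obtain ⟨t, ht⟩ := Multiset.exists_cons_of_mem hz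
  rw [ht, Multiset.map_cons, Multiset.prod_cons]
  calc ‖z‖ ≤ max 1 ‖z‖ := le_max_right _ _
    _ ≤ max 1 ‖z‖ * (t.map fun a => max 1 ‖a‖).prod :=
        le_mul_of_one_le_right (by positivity) (one_le_prod t)

theorem exists_root (P : ℤ[X]) (hP : P.Monic) (h : (P.map (Int.castRingHom ℂ)).mahlerMeasure ≠ 1) :
    ∃ z ∈ (P.map (Int.castRingHom ℂ)).roots, 1 < ‖z‖ := by
  by_contra hcon
  push Not at hcon
  apply h
  rw [mahler_eq P hP]
  apply Multiset.prod_eq_one
  intro x hx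
  rw [Multiset.mem_map] at hx
  obtain ⟨a, ha, rfl⟩ := hx
  exact max_eq_left (hcon a ha)

theorem charpoly_one {R : Type*} [CommRing R] [Nontrivial R] (A : Matrix (Fin 1) (Fin 1) R) :
    A.charpoly = X - C (A 0 0) := by
  rw [Matrix.charpoly, Matrix.det_fin_one, Matrix.charmatrix_apply_eq]

/-- the number of roots outside the unit circle, with multiplicity -/
noncomputable def outside (P : ℤ[X]) : ℕ :=
  Multiset.card ((P.map (Int.castRingHom ℂ)).roots.filter (fun z : ℂ => 1 < ‖z‖))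

theorem poly_gap (E : ℕ) (ε : ℝ) (hε1 : ε < 1) (hε : (1 + ε) ^ E < 2) (P : ℤ[X]) (hP : P.Monic)
    (hirr : Irreducible P) (L : Type) [Field L] [NumberField L] (α : L) (hα : aeval α P = 0)
    (H : ∀ (S : Finset (ℚ⟮α⟯ →+* ℂ)) (A : Matrix (Fin 1) (Fin 1) (𝓞 ℚ⟮α⟯)), S.Nonempty →
      S.card ≤ outside P → IsUnit A →
      (∀ σ : ℚ⟮α⟯ →+* ℂ, σ ∉ S → ∀ l : ℂ, ((emb σ).mapMatrix A).charpoly.IsRoot l → ‖l‖ ≤ 1) →
      (∀ N : ℕ, 0 < N → ¬ IsNilpotent (A ^ N - 1)) →
      ∃ σ ∈ S, ∃ l : ℂ, ((emb σ).mapMatrix A).charpoly.IsRoot l ∧ 2 ≤ ‖l‖ ^ E) :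
    (P.map (Int.castRingHom ℂ)).mahlerMeasure = 1 ∨
      1 + ε < (P.map (Int.castRingHom ℂ)).mahlerMeasure := by
  classical
  by_cases hM : (P.map (Int.castRingHom ℂ)).mahlerMeasure = 1
  · exact Or.inl hM
  right
  -- the constant coefficient
  by_cases hc : 2 ≤ |P.coeff 0|
  · have h1 := norm_coeff_le_choose_mul_mahlerMeasure 0 (P.map (Int.castRingHom ℂ))
    rw [Nat.choose_zero_right, Nat.cast_one, one_mul, coeff_map] at h1
    have h2 : ‖(Int.castRingHom ℂ) (P.coeff 0)‖ = ((|P.coeff 0| : ℤ) : ℝ) := by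
      rw [eq_intCast, Complex.norm_intCast, Int.cast_abs]
    rw [h2] at h1
    have h3 : (2 : ℝ) ≤ ((|P.coeff 0| : ℤ) : ℝ) := by exact_mod_cast hc
    linarith
  push Not at hc
  -- the case P = X
  by_cases hc0 : P.coeff 0 = 0
  · exfalso
    apply hM
    have h1 : X ∣ P := X_dvd_iff.mpr hc0
    have h2 : P = X := by
      have h3 : Associated X P := (Polynomial.irreducible_X.dvd_irreducible_iff_associated hirr).mp h1
      exact (eq_of_monic_of_associated monic_X hP h3).symm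
    rw [h2, Polynomial.map_X, mahlerMeasure_eq_leadingCoeff_mul_prod_roots]
    simp
  have hc1 : IsUnit (P.coeff 0) := by
    rw [Int.isUnit_iff_abs_eq]
    have : 0 < |P.coeff 0| := abs_pos.mpr hc0
    omega
  -- the minimal polynomial
  set g : ℚ⟮α⟯ := AdjoinSimple.gen ℚ α with hg
  have hgα : (algebraMap ℚ⟮α⟯ L) g = α := AdjoinSimple.algebraMap_gen ℚ α
  have hgP : aeval g P = 0 := by
    apply (algebraMap ℚ⟮α⟯ L).injective
    rw [map_zero, ← aeval_algebraMap_apply, hgα, hα]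
  have hint : IsIntegral ℤ g := ⟨P, hP, by rwa [← aeval_def]⟩
  set a : 𝓞 ℚ⟮α⟯ := ⟨g, hint⟩ with ha
  have haP : aeval a P = 0 := by
    apply RingOfIntegers.coe_injective
    rw [map_zero, ← aeval_algebraMap_apply]
    exact hgP
  have haunit : IsUnit a := by
    have h1 : a ∣ ((P.coeff 0 : ℤ) : 𝓞 ℚ⟮α⟯) := by
      have h2 := haP
      rw [← divX_mul_X_add P] at h2
      simp only [map_add, map_mul, aeval_X, aeval_C] at h2
      refine ⟨- aeval a (divX P), ?_⟩
      rw [algebraMap_int_eq, eq_intCast] at h2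
      linear_combination h2
    exact isUnit_of_dvd_unit h1 (hc1.map (Int.castRingHom (𝓞 ℚ⟮α⟯)))
  have hroot : ∀ σ : ℚ⟮α⟯ →+* ℂ, σ g ∈ (P.map (Int.castRingHom ℂ)).roots := by
    intro σ
    rw [mem_roots (hP.map _).ne_zero, IsRoot, eval_map]
    have h1 : eval₂ (σ.comp (Int.castRingHom ℚ⟮α⟯)) (σ g) P = 0 := by
      rw [← hom_eval₂]
      rw [aeval_def, algebraMap_int_eq] at hgP
      rw [hgP, map_zero]
    rwa [RingHom.ext_int (σ.comp (Int.castRingHom ℚ⟮α⟯)) (Int.castRingHom ℂ)] at h1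
  have hinj : ∀ σ τ : ℚ⟮α⟯ →+* ℂ, σ g = τ g → σ = τ := by
    intro σ τ h
    have h1 : σ.toRatAlgHom = τ.toRatAlgHom := by
      have key : ∀ (K : IntermediateField ℚ L) (hK : K = ℚ⟮α⟯) (φ ψ : K →ₐ[ℚ] ℂ),
          φ ⟨α, hK ▸ mem_adjoin_simple_self ℚ α⟩ = ψ ⟨α, hK ▸ mem_adjoin_simple_self ℚ α⟩ →
          φ = ψ := by
        intro K hK φ ψ h
        apply IntermediateField.algHom_ext_of_eq_adjoin ℚ hK
        intro x hx
        obtain rfl : x = α := hx
        exact h
      exact key _ rfl _ _ h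
    have h2 := congrArg (fun f : ℚ⟮α⟯ →ₐ[ℚ] ℂ => (f : ℚ⟮α⟯ →+* ℂ)) h1
    ext x
    exact DFunLike.congr_fun h1 x
  set S : Finset (ℚ⟮α⟯ →+* ℂ) := Finset.univ.filter fun σ => 1 < ‖σ g‖ with hS
  have hScard : S.card ≤ outside P := by
    have h1 : (S.image fun σ => σ g) ⊆
        ((P.map (Int.castRingHom ℂ)).roots.filter (fun z : ℂ => 1 < ‖z‖)).toFinset := by
      intro z hz
      rw [Finset.mem_image] at hz
      obtain ⟨σ, hσ, rfl⟩ := hz
      rw [Multiset.mem_toFinset, Multiset.mem_filter]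
      exact ⟨hroot σ, (Finset.mem_filter.mp hσ).2⟩
    calc S.card = (S.image fun σ => σ g).card :=
          (Finset.card_image_of_injective _ (fun σ τ h => hinj σ τ h)).symm
      _ ≤ _ := Finset.card_le_card h1
      _ ≤ outside P := Multiset.toFinset_card_le _
  have hSne : S.Nonempty := by
    obtain ⟨z, hz, hz1⟩ := exists_root P hP hM
    have h1 : z ∈ (minpoly ℚ g).rootSet ℂ := by
      have h2 : minpoly ℚ g = P.map (algebraMap ℤ ℚ) := by
        symm
        apply minpoly.eq_of_irreducible_of_monic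
        · exact (hP.irreducible_iff_irreducible_map_fraction_map).mp hirr
        · rw [aeval_map_algebraMap]; exact hgP
        · exact hP.map _
      rw [h2, mem_rootSet]
      refine ⟨(hP.map _).ne_zero, ?_⟩
      rw [aeval_map_algebraMap, aeval_def, algebraMap_int_eq]
      rw [mem_roots (hP.map _).ne_zero, IsRoot, eval_map] at hz
      exact hz
    rw [← NumberField.Embeddings.range_eval_eq_rootSet_minpoly ℚ⟮α⟯ ℂ g] at h1
    obtain ⟨σ, hσ⟩ := h1
    refine ⟨σ, Finset.mem_filter.mpr ⟨Finset.mem_univ _, ?_⟩⟩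
    have hσ' : σ g = z := hσ
    rw [hσ']
    exact hz1
  set A : Matrix (Fin 1) (Fin 1) (𝓞 ℚ⟮α⟯) := Matrix.scalar (Fin 1) a with hA
  have hAl : ∀ (σ : ℚ⟮α⟯ →+* ℂ) (l : ℂ), ((emb σ).mapMatrix A).charpoly.IsRoot l → l = σ g := by
    intro σ l hl
    rw [charpoly_one, IsRoot, eval_sub, eval_X, eval_C, sub_eq_zero] at hl
    rw [hl]
    have h1 : A 0 0 = a := by rw [hA, Matrix.scalar_apply, Matrix.diagonal_apply_eq]
    rw [RingHom.mapMatrix_apply, Matrix.map_apply, h1]
    rfl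
  obtain ⟨σ, hσ, l, hl, hle⟩ := H S A hSne hScard (haunit.map (Matrix.scalar (Fin 1)))
    (by
      intro σ hσ l hl
      rw [hAl σ l hl]
      by_contra hcon
      push Not at hcon
      exact hσ (Finset.mem_filter.mpr ⟨Finset.mem_univ _, hcon⟩))
    (by
      rintro N hN ⟨m, hm⟩
      have h1 : (a ^ N - 1) ^ m = 0 := by
        have h2 : Matrix.scalar (Fin 1) ((a ^ N - 1) ^ m) = 0 := by
          rw [map_pow, map_sub, map_pow, map_one]
          exact hm
        have h3 := congrFun (congrFun h2 0) 0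
        simpa using h3
      have hm0 : m ≠ 0 := by
        rintro rfl
        rw [pow_zero] at h1
        exact one_ne_zero h1
      have h2 : a ^ N = 1 := sub_eq_zero.mp ((pow_eq_zero_iff hm0).mp h1)
      obtain ⟨σ, hσ⟩ := hSne
      have h3 := (Finset.mem_filter.mp hσ).2
      have h4 : (σ g) ^ N = 1 := by
        have h5 : σ (algebraMap (𝓞 ℚ⟮α⟯) ℚ⟮α⟯ (a ^ N)) = σ (algebraMap (𝓞 ℚ⟮α⟯) ℚ⟮α⟯ 1) := by
          rw [h2]
        rw [map_pow, map_pow, map_one, map_one] at h5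
        exact h5
      have h5 : ‖σ g‖ ^ N = 1 := by rw [← norm_pow, h4, norm_one]
      exact absurd h5 (one_lt_pow₀ h3 hN.ne').ne')
  have h1 := root_le P hP _ (hroot σ)
  rw [hAl σ l hl] at hle
  by_contra hcon
  push Not at hcon
  have h2 : ‖σ g‖ ^ E ≤ (1 + ε) ^ E := pow_le_pow_left₀ (norm_nonneg _) (h1.trans hcon) _
  linarith

end Pool.Agent.R826.Leh
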