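import Mathlib

/-!
# The ordinal space `ω₁`, the long ray, and non-Hausdorff sets: definitions
-/

namespace Pool.Agent.R826.LongN

open Set Topology

/-- The ordinal `ω₁` as a well-ordered type. -/
def OmegaOne : Type := (Cardinal.aleph 1).ord.ToType

noncomputable instance : LinearOrder OmegaOne := linearOrder_toType (Cardinal.aleph 1).ord

/-- `ω₁` carries its order topology. -/
noncomputable instance : TopologicalSpace OmegaOne := Preorder.topology OmegaOne

/-- The long ray `ω₁ × [0, 1)` (with its initial point), ordered lexicographically. -/
def LongRay : Type := OmegaOne ×ₗ Set.Ico (0 : ℝ) 1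

noncomputable instance : LinearOrder LongRay :=
  Prod.Lex.instLinearOrder OmegaOne (Set.Ico (0 : ℝ) 1)

/-- The long ray carries its order topology. -/
noncomputable instance : TopologicalSpace LongRay := Preorder.topology LongRay

/-- `NH z`: the points `y ≠ z` which cannot be separated from `z` by disjoint open sets. -/
def NH {M : Type*} [TopologicalSpace M] (z : M) : Set M :=
  {y | y ≠ z ∧ ∀ U V : Set M, IsOpen U → IsOpen V → z ∈ U → y ∈ V → (U ∩ V).Nonempty}

/-- A copy of the space `X` in the subset `S` of `M`: a subspace of `S` homeomorphic to `X`, given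
by a topological embedding of `X` into `M` with values in `S`. -/
def HasCopy (X : Type*) [TopologicalSpace X] {M : Type*} [TopologicalSpace M] (S : Set M) : Prop :=
  ∃ ι : X → M, IsEmbedding ι ∧ ∀ x, ι x ∈ S

end Pool.Agent.R826.LongN
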