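import Pool.Agent.R826.LongDefs
import Pool.Agent.R826.Glue
import Pool.Agent.Helper185.Fat1

/-!
# A non-Hausdorff surface with a long ray of points not separated from a given point
-/

namespace Pool.Agent.R826.LongN

open Set Topology Filter Pool.Agent.Helper185.Fat

/-! ### Coherent injections -/

theorem exists_coherent_inj : ∃ e : Om1 → Om1 → ℕ,
    (∀ α β, {ξ | ξ ≤ α ∧ ξ ≤ β ∧ e α ξ ≠ e β ξ}.Finite) ∧
    ∀ α, Set.InjOn (e α) {ξ | ξ ≤ α} := by
  classical
  obtain ⟨e, he, hf⟩ := exists_coherent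
  let S : Om1 → Om1 → Set Om1 := fun α ξ => {η | η < ξ ∧ e α η = e α ξ}
  have hSfin : ∀ α ξ, ξ ≤ α → (S α ξ).Finite := by
    intro α ξ hξ
    refine (hf α (e α ξ)).subset ?_
    rintro η ⟨h1, h2⟩
    exact ⟨h1.le.trans hξ, h2.le⟩
  let e' : Om1 → Om1 → ℕ := fun α ξ => Nat.pair (e α ξ) (S α ξ).ncard
  have key : ∀ α β, α < β → {ξ | ξ ≤ α ∧ e' α ξ ≠ e' β ξ}.Finite := by
    intro α β hαβ
    have hD := he α β hαβ
    have hK : (e α '' {ξ | ξ ≤ α ∧ e α ξ ≠ e β ξ} ∪ e β '' {ξ | ξ ≤ α ∧ e α ξ ≠ e β ξ}).Finite :=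
      (hD.image _).union (hD.image _)
    have h1 : ({ξ | ξ ≤ α ∧ e α ξ ≠ e β ξ} ∪
        ⋃ k ∈ (e α '' {ξ | ξ ≤ α ∧ e α ξ ≠ e β ξ} ∪ e β '' {ξ | ξ ≤ α ∧ e α ξ ≠ e β ξ}),
          {ξ | ξ ≤ α ∧ e α ξ ≤ k}).Finite := hD.union (hK.biUnion (fun k _ => hf α k))
    refine h1.subset ?_
    rintro ξ ⟨h2, h3⟩
    by_cases h4 : e α ξ = e β ξ
    · right
      have h5 : S α ξ ≠ S β ξ := by
        intro h6
        apply h3
        show Nat.pair (e α ξ) (S α ξ).ncard = Nat.pair (e β ξ) (S β ξ).ncard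
        rw [h4, h6]
      have h7 : ∃ η, η < ξ ∧ e α η ≠ e β η ∧ (e α η = e α ξ ∨ e β η = e α ξ) := by
        by_contra hno
        push Not at hno
        apply h5
        ext η
        constructor
        · rintro ⟨h8, h9⟩
          refine ⟨h8, ?_⟩
          by_contra h10
          have h11 : e α η ≠ e β η := by
            intro h12
            apply h10
            rw [← h12, h9, h4]
          exact (hno η h8 h11).1 h9
        · rintro ⟨h8, h9⟩
          refine ⟨h8, ?_⟩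
          by_contra h10
          have h11 : e α η ≠ e β η := by
            intro h12
            apply h10
            rw [h12, h9, h4]
          exact (hno η h8 h11).2 (h9.trans h4.symm)
      obtain ⟨η, h8, h9, h10⟩ := h7
      rw [mem_iUnion₂]
      rcases h10 with h10 | h10
      · exact ⟨e α ξ, Or.inl ⟨η, ⟨h8.le.trans h2, h9⟩, h10⟩, h2, le_rfl⟩
      · exact ⟨e α ξ, Or.inr ⟨η, ⟨h8.le.trans h2, h9⟩, h10⟩, h2, le_rfl⟩
    · left
      exact ⟨h2, h4⟩
  refine ⟨e', ?_, ?_⟩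
  · intro α β
    rcases lt_trichotomy α β with h | h | h
    · refine (key α β h).subset ?_
      rintro ξ ⟨h1, _, h3⟩
      exact ⟨h1, h3⟩
    · subst h
      convert Set.finite_empty (α := Om1)
      ext ξ
      simp
    · refine (key β α h).subset ?_
      rintro ξ ⟨_, h2, h3⟩
      exact ⟨h2, h3.symm⟩
  · intro α
    have hlt : ∀ ξ η : Om1, ξ ≤ α → η ≤ α → ξ < η → e' α ξ ≠ e' α η := by
      intro ξ η hξ hη hlt h
      obtain ⟨h1, h2⟩ := Nat.pair_eq_pair.1 h
      have h3 : S α ξ ⊂ S α η := by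
        constructor
        · rintro ζ ⟨h4, h5⟩
          exact ⟨h4.trans hlt, h5.trans h1⟩
        · intro h4
          exact lt_irrefl ξ (h4 ⟨hlt, h1⟩).1
      exact absurd h2 (ne_of_lt (Set.ncard_lt_ncard h3 (hSfin α η hη)))
    intro ξ hξ η hη h
    by_contra hne
    rcases lt_or_gt_of_ne hne with h1 | h1
    · exact hlt ξ η hξ hη h1 h
    · exact hlt η ξ hη hξ h1 h.symm

/-! ### The long ray -/

instance : OrderTopology LongRay := ⟨rfl⟩

/-- The ordinal coordinate. -/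
def ord (x : LongRay) : Om1 := (ofLex x).1

/-- The real coordinate. -/
def frac (x : LongRay) : ℝ := ((ofLex x).2 : ℝ)

/-- The point with given coordinates. -/
def mkL (γ : Om1) (τ : ℝ) (h : 0 ≤ τ ∧ τ < 1) : LongRay := toLex ((γ : OmegaOne), ⟨τ, h.1, h.2⟩)

theorem ord_mkL (γ : Om1) (τ : ℝ) (h : 0 ≤ τ ∧ τ < 1) : ord (mkL γ τ h) = γ := rfl

theorem frac_mkL (γ : Om1) (τ : ℝ) (h : 0 ≤ τ ∧ τ < 1) : frac (mkL γ τ h) = τ := rfl

theorem frac_nonneg (x : LongRay) : 0 ≤ frac x := (ofLex x).2.2.1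

theorem frac_lt_one (x : LongRay) : frac x < 1 := (ofLex x).2.2.2

theorem long_lt {x y : LongRay} : x < y ↔ ord x < ord y ∨ ord x = ord y ∧ frac x < frac y :=
  Prod.Lex.lt_iff (x := x) (y := y)

theorem long_ext {x y : LongRay} (h1 : ord x = ord y) (h2 : frac x = frac y) : x = y := by
  apply ofLex.injective
  exact Prod.ext h1 (Subtype.ext h2)

theorem long_le {x y : LongRay} : x ≤ y ↔ ord x < ord y ∨ ord x = ord y ∧ frac x ≤ frac y :=
  Prod.Lex.le_iff (x := x) (y := y)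

theorem ord_mono {x y : LongRay} (h : x ≤ y) : ord x ≤ ord y := by
  rcases long_le.1 h with h | h
  · exact h.le
  · exact h.1.le

/-- There is no largest countable ordinal; the successor. -/
theorem exists_succ (γ : Om1) : ∃ γ' : Om1, ∀ δ, δ ≤ γ ↔ δ < γ' := by
  obtain ⟨β, hβ⟩ := exists_gt (Set.countable_singleton γ)
  obtain ⟨γ', h1, h2⟩ := exists_least (S := {δ | γ < δ}) ⟨β, hβ γ rfl⟩
  refine ⟨γ', fun δ => ⟨fun h => lt_of_le_of_lt h h1, fun h => ?_⟩⟩
  by_contra h3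
  exact absurd (h2 δ (not_le.1 h3)) (not_le_of_gt h)

theorem isOpen_ord_le (γ : Om1) : IsOpen {x : LongRay | ord x ≤ γ} := by
  obtain ⟨γ', h⟩ := exists_succ γ
  have : {x : LongRay | ord x ≤ γ} = Iio (mkL γ' 0 ⟨le_rfl, one_pos⟩) := by
    ext x
    rw [mem_Iio, long_lt, ord_mkL, frac_mkL]
    constructor
    · intro hx
      exact Or.inl ((h _).1 hx)
    · rintro (hx | hx)
      · exact (h _).2 hx
      · exact absurd (frac_nonneg x) (not_le_of_gt hx.2)
  rw [this]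
  exact isOpen_Iio

open Classical in
/-- The clamp functions. -/
noncomputable def cl (ξ : Om1) (x : LongRay) : ℝ :=
  if ord x < ξ then 0 else if ord x = ξ then frac x else 1

theorem cl_nonneg (ξ : Om1) (x : LongRay) : 0 ≤ cl ξ x := by
  unfold cl
  split_ifs
  · exact le_rfl
  · exact frac_nonneg x
  · exact zero_le_one

theorem cl_le_one (ξ : Om1) (x : LongRay) : cl ξ x ≤ 1 := by
  unfold cl
  split_ifs
  · exact zero_le_one
  · exact (frac_lt_one x).le
  · exact le_rfl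

theorem cl_mono (ξ : Om1) : Monotone (cl ξ) := by
  intro x y h
  rcases long_le.1 h with h1 | ⟨h1, h2⟩
  · by_cases h3 : ord x < ξ
    · have : cl ξ x = 0 := by unfold cl; rw [if_pos h3]
      rw [this]
      exact cl_nonneg ξ y
    · have h4 : ξ < ord y := lt_of_le_of_lt (not_lt.1 h3) h1
      have : cl ξ y = 1 := by
        unfold cl
        rw [if_neg (not_lt_of_gt h4), if_neg (ne_of_gt h4)]
      rw [this]
      exact cl_le_one ξ x
  · unfold cl
    rw [← h1]
    split_ifs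
    · exact le_rfl
    · exact h2
    · exact le_rfl

theorem cl_lt {x y : LongRay} (h : x < y) : cl (ord x) x < cl (ord x) y := by
  have h0 : cl (ord x) x = frac x := by
    unfold cl
    rw [if_neg (lt_irrefl _), if_pos rfl]
  rw [h0]
  rcases long_lt.1 h with h1 | ⟨h1, h2⟩
  · have : cl (ord x) y = 1 := by
      unfold cl
      rw [if_neg (not_lt_of_gt h1), if_neg (ne_of_gt h1)]
    rw [this]
    exact frac_lt_one x
  · have : cl (ord x) y = frac y := by
      unfold cl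
      rw [if_neg (by rw [h1]; exact lt_irrefl _), if_pos h1.symm]
    rw [this]
    exact h2

theorem cl_continuous (ξ : Om1) : Continuous (cl ξ) := by
  have h : Continuous (fun x : LongRay => (⟨cl ξ x, cl_nonneg ξ x, cl_le_one ξ x⟩ : Icc (0:ℝ) 1)) := by
    apply Monotone.continuous_of_surjective
    · intro x y hxy
      exact cl_mono ξ hxy
    · rintro ⟨y, h0, h1⟩
      rcases lt_or_eq_of_le h1 with h2 | h2
      · refine ⟨mkL ξ y ⟨h0, h2⟩, ?_⟩
        apply Subtype.ext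
        show cl ξ (mkL ξ y ⟨h0, h2⟩) = y
        unfold cl
        rw [ord_mkL, if_neg (lt_irrefl _), if_pos rfl, frac_mkL]
      · obtain ⟨γ', h⟩ := exists_succ ξ
        refine ⟨mkL γ' 0 ⟨le_rfl, one_pos⟩, ?_⟩
        apply Subtype.ext
        show cl ξ (mkL γ' 0 ⟨le_rfl, one_pos⟩) = y
        have h3 : ξ < γ' := (h ξ).1 le_rfl
        unfold cl
        rw [ord_mkL, if_neg (not_lt_of_gt h3), if_neg (ne_of_gt h3), h2]
  exact continuous_subtype_val.comp h

/-! ### The coordinate functions -/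

section coord

variable (e : Om1 → Om1 → ℕ)

open Classical in
/-- The summable weights. -/
noncomputable def wt (l : Om1) (ξ : Om1) : ℝ := if ξ ≤ l then (1 / 2 : ℝ) ^ (e l ξ) else 0

theorem wt_nonneg (l ξ : Om1) : 0 ≤ wt e l ξ := by
  unfold wt
  split_ifs
  · positivity
  · exact le_rfl

theorem wt_pos {l ξ : Om1} (h : ξ ≤ l) : 0 < wt e l ξ := by
  unfold wt
  rw [if_pos h]
  positivity

theorem wt_summable (hinj : ∀ α, Set.InjOn (e α) {ξ | ξ ≤ α}) (l : Om1) :
    Summable (wt e l) := by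
  have h1 : Summable (fun ξ : {ξ | ξ ≤ l} => (1 / 2 : ℝ) ^ (e l ξ.1)) := by
    have h2 : Function.Injective (fun ξ : {ξ | ξ ≤ l} => e l ξ.1) := by
      intro a b hab
      exact Subtype.ext (hinj l a.2 b.2 hab)
    exact summable_geometric_two.comp_injective h2
  have h3 := (summable_subtype_iff_indicator (f := fun ξ => (1 / 2 : ℝ) ^ (e l ξ))
    (s := {ξ | ξ ≤ l})).1 h1
  convert h3 using 1
  funext ξ
  unfold wt
  by_cases h : ξ ≤ l
  · rw [if_pos h, Set.indicator_of_mem (show ξ ∈ {ξ | ξ ≤ l} from h)]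
  · rw [if_neg h, Set.indicator_of_notMem (show ξ ∉ {ξ | ξ ≤ l} from h)]

/-- The coordinate function. -/
noncomputable def psi (l : Om1) (x : LongRay) (t : ℝ) : ℝ := ∑' ξ, min |t| (wt e l ξ) * cl ξ x

variable {e}

theorem term_nonneg (l ξ : Om1) (x : LongRay) (t : ℝ) : 0 ≤ min |t| (wt e l ξ) * cl ξ x :=
  mul_nonneg (le_min (abs_nonneg t) (wt_nonneg e l ξ)) (cl_nonneg ξ x)

theorem term_le (l ξ : Om1) (x : LongRay) (t : ℝ) : min |t| (wt e l ξ) * cl ξ x ≤ wt e l ξ := by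
  calc min |t| (wt e l ξ) * cl ξ x ≤ wt e l ξ * 1 :=
        mul_le_mul (min_le_right _ _) (cl_le_one ξ x) (cl_nonneg ξ x) (wt_nonneg e l ξ)
    _ = wt e l ξ := mul_one _

theorem term_summable (hinj : ∀ α, Set.InjOn (e α) {ξ | ξ ≤ α}) (l : Om1) (x : LongRay) (t : ℝ) :
    Summable (fun ξ => min |t| (wt e l ξ) * cl ξ x) :=
  Summable.of_nonneg_of_le (fun ξ => term_nonneg l ξ x t) (fun ξ => term_le l ξ x t)
    (wt_summable e hinj l)

theorem psi_continuous (hinj : ∀ α, Set.InjOn (e α) {ξ | ξ ≤ α}) (l : Om1) :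
    Continuous (fun p : LongRay × ℝ => psi e l p.1 p.2) := by
  unfold psi
  refine continuous_tsum (u := wt e l) ?_ (wt_summable e hinj l) ?_
  · intro ξ
    exact (continuous_snd.abs.min continuous_const).mul ((cl_continuous ξ).comp continuous_fst)
  · intro ξ p
    rw [Real.norm_eq_abs, abs_of_nonneg (term_nonneg l ξ p.1 p.2)]
    exact term_le l ξ p.1 p.2

theorem psi_zero (l : Om1) (x : LongRay) : psi e l x 0 = 0 := by
  unfold psi
  have : (fun ξ => min |(0:ℝ)| (wt e l ξ) * cl ξ x) = fun _ => 0 := by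
    funext ξ
    rw [abs_zero, min_eq_left (wt_nonneg e l ξ), zero_mul]
  rw [this, tsum_zero]

theorem psi_nonneg (l : Om1) (x : LongRay) (t : ℝ) : 0 ≤ psi e l x t :=
  tsum_nonneg (fun ξ => term_nonneg l ξ x t)

theorem psi_mono (hinj : ∀ α, Set.InjOn (e α) {ξ | ξ ≤ α}) (l : Om1) (t : ℝ) {x y : LongRay}
    (h : x ≤ y) : psi e l x t ≤ psi e l y t := by
  refine Summable.tsum_le_tsum ?_ (term_summable hinj l x t) (term_summable hinj l y t)
  intro ξ
  exact mul_le_mul_of_nonneg_left (cl_mono ξ h) (le_min (abs_nonneg t) (wt_nonneg e l ξ))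

theorem psi_lt (hinj : ∀ α, Set.InjOn (e α) {ξ | ξ ≤ α}) (l : Om1) {t : ℝ} (ht : t ≠ 0)
    {x y : LongRay} (hx : ord x ≤ l) (h : x < y) : psi e l x t < psi e l y t := by
  refine Summable.tsum_lt_tsum (i := ord x) ?_ ?_ (term_summable hinj l x t)
    (term_summable hinj l y t)
  · intro ξ
    exact mul_le_mul_of_nonneg_left (cl_mono ξ h.le) (le_min (abs_nonneg t) (wt_nonneg e l ξ))
  · exact mul_lt_mul_of_pos_left (cl_lt h) (lt_min (abs_pos.2 ht) (wt_pos e hx))

open Classical in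
/-- The value `a` if `p` holds and `0` otherwise. -/
noncomputable def ind (p : Prop) (a : ℝ) : ℝ := if p then a else 0

theorem ind_pos {p : Prop} (h : p) (a : ℝ) : ind p a = a := if_pos h

theorem ind_neg {p : Prop} (h : ¬ p) (a : ℝ) : ind p a = 0 := if_neg h

theorem ind_nonneg (p : Prop) {a : ℝ} (h : 0 ≤ a) : 0 ≤ ind p a := by
  unfold ind
  split_ifs
  · exact h
  · exact le_rfl

theorem ind_le (p : Prop) {a : ℝ} (h : 0 ≤ a) : ind p a ≤ a := by
  unfold ind
  split_ifs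
  · exact le_rfl
  · exact h

theorem ind_le_ind {p q : Prop} {a : ℝ} (h : 0 ≤ a) (hpq : p → q) : ind p a ≤ ind q a := by
  by_cases hp : p
  · rw [ind_pos hp, ind_pos (hpq hp)]
  · rw [ind_neg hp]
    exact ind_nonneg q h

theorem tsum_ind_eq (γ : Om1) (a : ℝ) : Summable (fun ξ => ind (ξ = γ) a) ∧
    ∑' ξ, ind (ξ = γ) a = a := by
  have h : ∀ ξ, ξ ≠ γ → ind (ξ = γ) a = 0 := fun ξ hξ => ind_neg hξ a
  constructor
  · refine summable_of_ne_finset_zero (s := {γ}) (fun ξ hξ => h ξ ?_)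
    simpa using hξ
  · rw [tsum_eq_single γ h, ind_pos rfl]

/-- Surjectivity. -/
theorem psi_surj (hinj : ∀ α, Set.InjOn (e α) {ξ | ξ ≤ α}) (l : Om1) {t : ℝ} (ht : t ≠ 0)
    {u : LongRay} {y : ℝ} (h0 : 0 ≤ y) (h1 : y < psi e l u t) :
    ∃ x, ord x ≤ l ∧ psi e l x t = y := by
  classical
  obtain ⟨W, hW⟩ : ∃ W : Om1 → ℝ, ∀ ξ, W ξ = min |t| (wt e l ξ) := ⟨_, fun _ => rfl⟩
  have hW0 : ∀ ξ, 0 ≤ W ξ := fun ξ => hW ξ ▸ le_min (abs_nonneg t) (wt_nonneg e l ξ)
  have hWs : Summable W := Summable.of_nonneg_of_le hW0 (fun ξ => hW ξ ▸ min_le_right _ _)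
    (wt_summable e hinj l)
  have hWi : ∀ p : Om1 → Prop, Summable (fun ξ => ind (p ξ) (W ξ)) := fun p =>
    Summable.of_nonneg_of_le (fun ξ => ind_nonneg _ (hW0 ξ)) (fun ξ => ind_le _ (hW0 ξ)) hWs
  obtain ⟨G, hG⟩ : ∃ G : Om1 → ℝ, ∀ γ, G γ = ∑' ξ, ind (ξ ≤ γ) (W ξ) := ⟨_, fun _ => rfl⟩
  have hul : psi e l u t ≤ G l := by
    rw [hG]
    unfold psi
    refine Summable.tsum_le_tsum ?_ (term_summable hinj l u t) (hWi _)
    intro ξ
    by_cases h : ξ ≤ l
    · rw [ind_pos h, ← hW]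
      calc W ξ * cl ξ u ≤ W ξ * 1 := mul_le_mul_of_nonneg_left (cl_le_one ξ u) (hW0 ξ)
        _ = W ξ := mul_one _
    · rw [ind_neg h]
      have : wt e l ξ = 0 := by
        unfold wt
        rw [if_neg h]
      rw [this, min_eq_right (abs_nonneg t), zero_mul]
  -- the least ordinal
  obtain ⟨γ, hγ, hmin⟩ := exists_least (S := {γ : Om1 | y < G γ}) ⟨l, lt_of_lt_of_le h1 hul⟩
  have hγ' : y < G γ := hγ
  have hγl : γ ≤ l := hmin l (lt_of_lt_of_le h1 hul)
  obtain ⟨A, hA⟩ : ∃ A : ℝ, A = ∑' ξ, ind (ξ < γ) (W ξ) := ⟨_, rfl⟩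
  have hAy : A ≤ y := by
    rw [hA]
    refine Summable.tsum_le_of_sum_le (hWi _) ?_
    intro s
    by_cases hs : (s.filter (fun ξ => ξ < γ)).Nonempty
    · obtain ⟨β, hβ, hmax⟩ := Finset.exists_max_image (s.filter (fun ξ => ξ < γ)) id hs
      have hβγ : β < γ := (Finset.mem_filter.1 hβ).2
      have h2 : ¬ y < G β := fun h3 =>
        absurd (hmin β h3) (not_le_of_gt hβγ)
      refine le_trans ?_ (not_lt.1 h2)
      rw [hG]
      refine le_trans ?_ ((hWi (fun ξ => ξ ≤ β)).sum_le_tsum s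
        (fun ξ _ => ind_nonneg _ (hW0 ξ)))
      refine Finset.sum_le_sum fun ξ hξ => ?_
      exact ind_le_ind (hW0 ξ) (fun h3 => hmax ξ (Finset.mem_filter.2 ⟨hξ, h3⟩))
    · rw [Finset.sum_eq_zero]
      · exact h0
      · intro ξ hξ
        apply ind_neg
        intro h3
        exact hs ⟨ξ, Finset.mem_filter.2 ⟨hξ, h3⟩⟩
  have hWγ : 0 < W γ := by
    rw [hW]
    exact lt_min (abs_pos.2 ht) (wt_pos e hγl)
  have hsplit : G γ = A + W γ := by
    rw [hG, hA]
    have h2 : (fun ξ => ind (ξ ≤ γ) (W ξ)) =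
        fun ξ => ind (ξ < γ) (W ξ) + ind (ξ = γ) (W γ) := by
      funext ξ
      rcases lt_trichotomy ξ γ with h | h | h
      · rw [ind_pos h.le, ind_pos h, ind_neg h.ne, add_zero]
      · subst h
        rw [ind_pos le_rfl, ind_neg (lt_irrefl _), ind_pos rfl, zero_add]
      · rw [ind_neg (not_le_of_gt h), ind_neg (not_lt_of_gt h), ind_neg h.ne', add_zero]
    rw [h2, Summable.tsum_add (hWi _) (tsum_ind_eq γ _).1, (tsum_ind_eq γ _).2]
  have hτ : 0 ≤ (y - A) / W γ ∧ (y - A) / W γ < 1 := by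
    constructor
    · exact div_nonneg (by linarith) hWγ.le
    · rw [div_lt_one hWγ]
      rw [hsplit] at hγ'
      linarith
  refine ⟨mkL γ ((y - A) / W γ) hτ, hγl, ?_⟩
  have h2 : (fun ξ => min |t| (wt e l ξ) * cl ξ (mkL γ ((y - A) / W γ) hτ)) =
      fun ξ => ind (ξ < γ) (W ξ) + ind (ξ = γ) (y - A) := by
    funext ξ
    rw [← hW]
    unfold cl
    rw [ord_mkL, frac_mkL]
    rcases lt_trichotomy ξ γ with h | h | h
    · rw [if_neg (not_lt_of_gt h), if_neg h.ne', ind_pos h, ind_neg h.ne, add_zero, mul_one]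
    · subst h
      rw [if_neg (lt_irrefl _), if_pos rfl, ind_neg (lt_irrefl _), ind_pos rfl, zero_add]
      field_simp
    · rw [if_pos h, ind_neg (not_lt_of_gt h), ind_neg h.ne', add_zero, mul_zero]
  unfold psi
  rw [h2, Summable.tsum_add (hWi _) (tsum_ind_eq γ _).1, (tsum_ind_eq γ _).2, ← hA]
  ring

end coord

end Pool.Agent.R826.LongN
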