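import Pool.Agent.R826.LongN

/-!
# The surface
-/

namespace Pool.Agent.R826.LongN

open Set Topology Filter Pool.Agent.Helper185.Fat Pool.Agent.R826.Glue

variable {e : Om1 → Om1 → ℕ}

theorem long_no_max (x : LongRay) : ∃ u, x < u := by
  obtain ⟨γ', h⟩ := exists_succ (ord x)
  exact ⟨mkL γ' 0 ⟨le_rfl, one_pos⟩, long_lt.2 (Or.inl ((h _).1 le_rfl))⟩

theorem psi_open (hinj : ∀ α, Set.InjOn (e α) {ξ | ξ ≤ α}) (l : Om1) (σ : ℝ → ℝ)
    (hσ : Continuous σ) (O : Set (LongRay × ℝ)) (hO : IsOpen O) :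
    IsOpen {q : ℝ × ℝ | ∃ p ∈ O, (∃ y, y < p.1) ∧ ord p.1 ≤ l ∧ 0 < σ p.2 ∧
      q = (psi e l p.1 (σ p.2), p.2)} := by
  rw [isOpen_iff_mem_nhds]
  rintro q ⟨⟨x0, t0⟩, hp, hy, hl, hσ0, rfl⟩
  obtain ⟨A, B, hA, hB, hxA, htB, hAB⟩ := isOpen_prod_iff.1 hO x0 t0 hp
  obtain ⟨a, b, hx, hab⟩ := (mem_nhds_iff_exists_Ioo_subset' hy (long_no_max x0)).1
    (hA.mem_nhds hxA)
  have hc : ∀ c, Continuous (fun q : ℝ × ℝ => psi e l c (σ q.2)) := fun c =>
    (psi_continuous hinj l).comp (continuous_const.prodMk (hσ.comp continuous_snd))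
  have hopen : IsOpen {q : ℝ × ℝ | psi e l a (σ q.2) < q.1 ∧ q.1 < psi e l b (σ q.2) ∧
      q.2 ∈ B ∧ 0 < σ q.2} := by
    refine (isOpen_lt (hc a) continuous_fst).inter ((isOpen_lt continuous_fst (hc b)).inter
      ((hB.preimage continuous_snd).inter (isOpen_lt continuous_const (hσ.comp continuous_snd))))
  refine Filter.mem_of_superset (hopen.mem_nhds ⟨?_, ?_, htB, hσ0⟩) ?_
  · exact psi_lt hinj l hσ0.ne' ((ord_mono hx.1.le).trans hl) hx.1
  · exact psi_lt hinj l hσ0.ne' hl hx.2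
  · rintro ⟨r, t⟩ ⟨h1, h2, h3, h4⟩
    simp only at h1 h2 h3 h4
    obtain ⟨x, hxl, hxr⟩ := psi_surj hinj l h4.ne' ((psi_nonneg l a (σ t)).trans h1.le) h2
    have hax : a < x := by
      by_contra h
      exact absurd (psi_mono hinj l (σ t) (not_lt.1 h)) (by rw [hxr]; exact not_le_of_gt h1)
    have hxb : x < b := by
      by_contra h
      exact absurd (psi_mono hinj l (σ t) (not_lt.1 h)) (by rw [hxr]; exact not_le_of_gt h2)
    exact ⟨(x, t), hAB ⟨hab ⟨hax, hxb⟩, h3⟩, ⟨a, hax⟩, hxl, h4, by rw [hxr]⟩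

theorem psi_injOn (hinj : ∀ α, Set.InjOn (e α) {ξ | ξ ≤ α}) (l : Om1) {t : ℝ} (ht : t ≠ 0)
    {x y : LongRay} (hx : ord x ≤ l) (hy : ord y ≤ l) (h : psi e l x t = psi e l y t) : x = y := by
  by_contra hne
  rcases lt_or_gt_of_ne hne with h1 | h1
  · exact absurd h (psi_lt hinj l ht hx h1).ne
  · exact absurd h (psi_lt hinj l ht hy h1).ne'

/-- Coherence of the coordinate functions for small times. -/
theorem psi_coh (hcoh : ∀ α β, {ξ | ξ ≤ α ∧ ξ ≤ β ∧ e α ξ ≠ e β ξ}.Finite) (l m : Om1) :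
    ∀ᶠ t in 𝓝 (0 : ℝ), ∀ x, ord x ≤ l → ord x ≤ m → psi e l x t = psi e m x t := by
  have h1 : ∀ᶠ t in 𝓝 (0 : ℝ), ∀ ξ ∈ {ξ | ξ ≤ l ∧ ξ ≤ m ∧ e l ξ ≠ e m ξ},
      |t| < wt e l ξ ∧ |t| < wt e m ξ := by
    rw [Filter.eventually_all_finite (hcoh l m)]
    rintro ξ ⟨h1, h2, _⟩
    have hlt : ∀ c : ℝ, 0 < c → ∀ᶠ t in 𝓝 (0 : ℝ), |t| < c := by
      intro c hc
      have : Tendsto (fun t : ℝ => |t|) (𝓝 0) (𝓝 |(0:ℝ)|) := continuous_abs.tendsto 0
      rw [abs_zero] at this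
      exact this.eventually (gt_mem_nhds hc)
    exact (hlt _ (wt_pos e h1)).and (hlt _ (wt_pos e h2))
  filter_upwards [h1] with t ht x hxl hxm
  unfold psi
  congr 1
  funext ξ
  by_cases h2 : ξ ≤ ord x
  · by_cases h3 : e l ξ = e m ξ
    · have : wt e l ξ = wt e m ξ := by
        unfold wt
        rw [if_pos (h2.trans hxl), if_pos (h2.trans hxm), h3]
      rw [this]
    · obtain ⟨h4, h5⟩ := ht ξ ⟨h2.trans hxl, h2.trans hxm, h3⟩
      rw [min_eq_left h4.le, min_eq_left h5.le]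
  · have : cl ξ x = 0 := by
      unfold cl
      rw [if_pos (not_le.1 h2)]
    rw [this, mul_zero, mul_zero]

/-- The underlying set of the surface. -/
def Surf (_ : Om1 → Om1 → ℕ) : Type := (ℝ × ℝ) ⊕ {p : LongRay × ℝ // (∃ y, y < p.1) ∧ p.2 ≤ 0}

/-- The pieces of the surface. -/
def Pc : Option Om1 → Type
  | none => ℝ × ℝ
  | some l => {p : LongRay × ℝ // (∃ y, y < p.1) ∧ ord p.1 ≤ l}

instance : ∀ i, TopologicalSpace (Pc i)
  | none => inferInstanceAs (TopologicalSpace (ℝ × ℝ))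
  | some l => inferInstanceAs
      (TopologicalSpace {p : LongRay × ℝ // (∃ y, y < p.1) ∧ ord p.1 ≤ l})

open Classical in
/-- The charts. -/
noncomputable def kap (e : Om1 → Om1 → ℕ) : ∀ i, Pc i → Surf e
  | none, v => Sum.inl v
  | some l, p => if h : 0 < p.1.2 then Sum.inl (psi e l p.1.1 p.1.2, p.1.2)
      else Sum.inr ⟨p.1, p.2.1, not_lt.1 h⟩

theorem kap_none (v : ℝ × ℝ) : kap e none v = Sum.inl v := rfl

theorem kap_pos {l : Om1} {p : Pc (some l)} (h : 0 < p.1.2) :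
    kap e (some l) p = Sum.inl (psi e l p.1.1 p.1.2, p.1.2) := dif_pos h

theorem kap_neg {l : Om1} {p : Pc (some l)} (h : ¬ 0 < p.1.2) :
    kap e (some l) p = Sum.inr ⟨p.1, p.2.1, not_lt.1 h⟩ := dif_neg h

theorem kap_inj (hinj : ∀ α, Set.InjOn (e α) {ξ | ξ ≤ α}) (i : Option Om1) :
    Function.Injective (kap e i) := by
  rcases i with _ | l
  · intro v w h
    exact Sum.inl_injective h
  · intro p q h
    by_cases hp : 0 < p.1.2
    · by_cases hq : 0 < q.1.2
      · rw [kap_pos hp, kap_pos hq] at h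
        have h1 := Sum.inl_injective h
        have h2 : p.1.2 = q.1.2 := (Prod.mk.inj h1).2
        have h3 : psi e l p.1.1 p.1.2 = psi e l q.1.1 q.1.2 := (Prod.mk.inj h1).1
        rw [← h2] at h3
        exact Subtype.ext (Prod.ext (psi_injOn hinj l hp.ne' p.2.2 q.2.2 h3) h2)
      · rw [kap_pos hp, kap_neg hq] at h
        exact absurd h Sum.inl_ne_inr
    · by_cases hq : 0 < q.1.2
      · rw [kap_neg hp, kap_pos hq] at h
        exact absurd h Sum.inr_ne_inl
      · rw [kap_neg hp, kap_neg hq] at h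
        have h1 := congrArg Subtype.val (Sum.inr_injective h)
        exact Subtype.ext h1

theorem mem_kap_inl {m : Om1} {O' : Set (LongRay × ℝ)} {q : ℝ × ℝ} :
    (Sum.inl q : Surf e) ∈ kap e (some m) '' {p : Pc (some m) | p.1 ∈ O'} ↔
      ∃ p ∈ O', (∃ y, y < p.1) ∧ ord p.1 ≤ m ∧ 0 < p.2 ∧ q = (psi e m p.1 p.2, p.2) := by
  constructor
  · rintro ⟨p, hp, h⟩
    by_cases h0 : 0 < p.1.2
    · rw [kap_pos h0] at h
      exact ⟨p.1, hp, p.2.1, p.2.2, h0, (Sum.inl_injective h).symm⟩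
    · rw [kap_neg h0] at h
      exact absurd h Sum.inr_ne_inl
  · rintro ⟨p, hp, hy, hm, h0, h⟩
    exact ⟨⟨p, hy, hm⟩, hp, (kap_pos (e := e) (l := m) (p := ⟨p, hy, hm⟩) h0).trans
      (congrArg Sum.inl h.symm)⟩

theorem mem_kap_inr {m : Om1} {O' : Set (LongRay × ℝ)}
    {q : {p : LongRay × ℝ // (∃ y, y < p.1) ∧ p.2 ≤ 0}} :
    (Sum.inr q : Surf e) ∈ kap e (some m) '' {p : Pc (some m) | p.1 ∈ O'} ↔
      q.1 ∈ O' ∧ ord q.1.1 ≤ m := by
  constructor
  · rintro ⟨p, hp, h⟩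
    by_cases h0 : 0 < p.1.2
    · rw [kap_pos h0] at h
      exact absurd h Sum.inl_ne_inr
    · rw [kap_neg h0] at h
      have h1 : p.1 = q.1 := congrArg Subtype.val (Sum.inr_injective h)
      exact ⟨h1 ▸ hp, h1 ▸ p.2.2⟩
  · rintro ⟨hq, hm⟩
    exact ⟨⟨q.1, q.2.1, hm⟩, hq,
      kap_neg (e := e) (l := m) (p := ⟨q.1, q.2.1, hm⟩) (not_lt.2 q.2.2)⟩

theorem kap_open (hinj : ∀ α, Set.InjOn (e α) {ξ | ξ ≤ α})
    (hcoh : ∀ α β, {ξ | ξ ≤ α ∧ ξ ≤ β ∧ e α ξ ≠ e β ξ}.Finite) (i j : Option Om1)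
    (O : Set (Pc j)) (hO : IsOpen O) : IsOpen (kap e i ⁻¹' (kap e j '' O)) := by
  rcases j with _ | m
  · rcases i with _ | l
    · rw [Set.preimage_image_eq _ (kap_inj hinj none)]
      exact hO
    · have hO' : IsOpen (X := ℝ × ℝ) O := hO
      have h1 : kap e (some l) ⁻¹' (kap e none '' O) =
          {p : Pc (some l) | 0 < p.1.2 ∧ (psi e l p.1.1 p.1.2, p.1.2) ∈ (O : Set (ℝ × ℝ))} := by
        ext p
        constructor
        · rintro ⟨v, hv, h⟩
          by_cases h0 : 0 < p.1.2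
          · rw [kap_pos h0] at h
            have h2 : v = (psi e l p.1.1 p.1.2, p.1.2) := Sum.inl_injective h
            exact ⟨h0, h2 ▸ hv⟩
          · rw [kap_neg h0] at h
            exact absurd h Sum.inl_ne_inr
        · rintro ⟨h0, h⟩
          exact ⟨_, h, (kap_pos h0).symm⟩
      rw [h1]
      have h2 : Continuous (fun p : Pc (some l) => p.1) := continuous_subtype_val
      have h3 : Continuous (fun p : Pc (some l) => (psi e l p.1.1 p.1.2, p.1.2)) :=
        ((psi_continuous hinj l).comp h2).prodMk (continuous_snd.comp h2)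
      exact (isOpen_lt continuous_const (continuous_snd.comp h2)).inter (hO'.preimage h3)
  · obtain ⟨O', hO', rfl⟩ := isOpen_induced_iff.1 hO
    have h1 := psi_open hinj m (fun t => t) continuous_id O' hO'
    rcases i with _ | l
    · have h2 : kap e none ⁻¹' (kap e (some m) '' (Subtype.val ⁻¹' O')) =
        ({q : ℝ × ℝ | ∃ p ∈ O', (∃ y, y < p.1) ∧ ord p.1 ≤ m ∧ 0 < p.2 ∧
          q = (psi e m p.1 p.2, p.2)} : Set (ℝ × ℝ)) := by
        ext q
        exact mem_kap_inl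
      rw [h2]
      exact h1
    · rw [isOpen_iff_mem_nhds]
      intro p hp
      have hval : Continuous (fun p : Pc (some l) => p.1) := continuous_subtype_val
      by_cases h0 : 0 < p.1.2
      · have h3 : Continuous (fun p : Pc (some l) => (psi e l p.1.1 p.1.2, p.1.2)) :=
          ((psi_continuous hinj l).comp hval).prodMk (continuous_snd.comp hval)
        have h4 := (isOpen_lt (continuous_const (y := (0:ℝ))) (continuous_snd.comp hval)).inter
          (h1.preimage h3)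
        refine Filter.mem_of_superset (h4.mem_nhds ⟨h0, ?_⟩) ?_
        · have h5 : kap e (some l) p ∈ kap e (some m) '' {p : Pc (some m) | p.1 ∈ O'} := hp
          rw [kap_pos h0] at h5
          exact mem_kap_inl.1 h5
        · rintro p' ⟨h6, h7⟩
          show kap e (some l) p' ∈ kap e (some m) '' {p : Pc (some m) | p.1 ∈ O'}
          rw [kap_pos h6]
          exact mem_kap_inl.2 h7
      · have h5 : kap e (some l) p ∈ kap e (some m) '' {p : Pc (some m) | p.1 ∈ O'} := hp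
        rw [kap_neg h0] at h5
        obtain ⟨h6, h7⟩ := mem_kap_inr.1 h5
        simp only at h6 h7
        have ev1 : ∀ᶠ p' in 𝓝 p, p'.1 ∈ O' := (hO'.preimage hval).mem_nhds h6
        have ev2 : ∀ᶠ p' : Pc (some l) in 𝓝 p, ord p'.1.1 ≤ m :=
          (((isOpen_ord_le m).preimage (continuous_fst.comp hval))).mem_nhds h7
        have ev3 : ∀ᶠ p' : Pc (some l) in 𝓝 p, ¬ 0 < p'.1.2 ∨
            ∀ x, ord x ≤ l → ord x ≤ m → psi e l x p'.1.2 = psi e m x p'.1.2 := by
          rcases lt_or_eq_of_le (not_lt.1 h0) with h8 | h8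
          · have : ∀ᶠ p' : Pc (some l) in 𝓝 p, p'.1.2 < 0 :=
              (isOpen_lt (continuous_snd.comp hval) continuous_const).mem_nhds h8
            filter_upwards [this] with p' hp'
            exact Or.inl (not_lt_of_gt hp')
          · have h9 : Tendsto (fun p' : Pc (some l) => p'.1.2) (𝓝 p) (𝓝 0) := by
              have := (continuous_snd.comp hval).tendsto p
              rw [← h8]
              exact this
            filter_upwards [h9.eventually (psi_coh hcoh l m)] with p' hp'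
            exact Or.inr hp'
        filter_upwards [ev1, ev2, ev3] with p' h8 h9 h10
        show kap e (some l) p' ∈ kap e (some m) '' {p : Pc (some m) | p.1 ∈ O'}
        by_cases h11 : 0 < p'.1.2
        · rw [kap_pos h11]
          rcases h10 with h10 | h10
          · exact absurd h11 h10
          · exact mem_kap_inl.2 ⟨p'.1, h8, p'.2.1, h9, h11, by rw [h10 _ p'.2.2 h9]⟩
        · rw [kap_neg h11]
          exact mem_kap_inr.2 ⟨h8, h9⟩

noncomputable instance : TopologicalSpace (Surf e) := glueTop (kap e)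

theorem kap_emb (hinj : ∀ α, Set.InjOn (e α) {ξ | ξ ≤ α})
    (hcoh : ∀ α β, {ξ | ξ ≤ α ∧ ξ ≤ β ∧ e α ξ ≠ e β ξ}.Finite) (i : Option Om1) :
    IsOpenEmbedding (kap e i) :=
  glue_isOpenEmbedding (kap e) (kap_inj hinj) (kap_open hinj hcoh) i

theorem kap_surj (z : Surf e) : ∃ i p, kap e i p = z := by
  rcases z with v | q
  · exact ⟨none, v, rfl⟩
  · exact ⟨some (ord q.1.1), ⟨q.1, q.2.1, le_rfl⟩,
      kap_neg (e := e) (l := ord q.1.1) (p := ⟨q.1, q.2.1, le_rfl⟩) (not_lt.2 q.2.2)⟩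

end Pool.Agent.R826.LongN
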