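import Pool.Agent.R826.LongS

/-!
# The surface: local structure, connectedness, the long ray in `NH`
-/

namespace Pool.Agent.R826.LongN

open Set Topology Filter Pool.Agent.Helper185.Fat Pool.Agent.R826.Glue

/-- A small box around a point. -/
theorem exists_box {U : Set (ℝ × ℝ)} (hU : IsOpen U) {q : ℝ × ℝ} (hq : q ∈ U) :
    ∃ s : ℝ × ℝ → ℝ × ℝ, IsOpenEmbedding s ∧ s 0 = q ∧ range s ⊆ U := by
  obtain ⟨A, B, hA, hB, hqA, hqB, hAB⟩ := isOpen_prod_iff.1 hU q.1 q.2 hq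
  have one : ∀ {A : Set ℝ} (_ : IsOpen A) {a : ℝ} (_ : a ∈ A),
      ∃ s : ℝ → ℝ, IsOpenEmbedding s ∧ s 0 = a ∧ range s ⊆ A := by
    intro A hA a ha
    obtain ⟨δ, hδ, hball⟩ := Metric.isOpen_iff.1 hA a ha
    let e1 : ℝ ≃ₜ Ioo (-1 : ℝ) 1 := (orderIsoIooNegOneOne ℝ).toHomeomorph
    have he1 : IsOpenEmbedding (fun x : ℝ => ((e1 x : Ioo (-1 : ℝ) 1) : ℝ)) :=
      (isOpen_Ioo.isOpenEmbedding_subtypeVal).comp e1.isOpenEmbedding
    obtain ⟨c, hc⟩ : ∃ c : ℝ, c = ((e1 0 : Ioo (-1 : ℝ) 1) : ℝ) := ⟨_, rfl⟩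
    have hc1 : |c| < 1 := by
      rw [hc]
      exact abs_lt.2 ⟨(e1 0).2.1, (e1 0).2.2⟩
    have h2 : IsOpenEmbedding (fun x : ℝ => (a - δ / 2 * c) + δ / 2 * x) :=
      ((Homeomorph.mulLeft₀ (δ / 2) (half_pos hδ).ne').trans
        (Homeomorph.addLeft (a - δ / 2 * c))).isOpenEmbedding
    refine ⟨fun x => (a - δ / 2 * c) + δ / 2 * ((e1 x : Ioo (-1 : ℝ) 1) : ℝ), h2.comp he1, ?_, ?_⟩
    · show (a - δ / 2 * c) + δ / 2 * ((e1 0 : Ioo (-1 : ℝ) 1) : ℝ) = a
      rw [← hc]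
      ring
    · rintro _ ⟨x, rfl⟩
      apply hball
      have h3 := (e1 x).2
      rw [Metric.mem_ball, Real.dist_eq]
      have h4 : |((e1 x : Ioo (-1 : ℝ) 1) : ℝ)| < 1 := abs_lt.2 ⟨h3.1, h3.2⟩
      show |(a - δ / 2 * c) + δ / 2 * ((e1 x : Ioo (-1 : ℝ) 1) : ℝ) - a| < δ
      have h5 : (a - δ / 2 * c) + δ / 2 * ((e1 x : Ioo (-1 : ℝ) 1) : ℝ) - a =
          δ / 2 * (((e1 x : Ioo (-1 : ℝ) 1) : ℝ) - c) := by ring
      rw [h5, abs_mul, abs_of_pos (half_pos hδ)]
      have h6 : |((e1 x : Ioo (-1 : ℝ) 1) : ℝ) - c| < 2 := by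
        rw [abs_lt] at h4 hc1 ⊢
        constructor <;> linarith [h4.1, h4.2, hc1.1, hc1.2]
      nlinarith
  obtain ⟨s1, h1, h10, h1r⟩ := one hA hqA
  obtain ⟨s2, h2, h20, h2r⟩ := one hB hqB
  refine ⟨Prod.map s1 s2, h1.prodMap h2, ?_, ?_⟩
  · show (s1 0, s2 0) = q
    rw [h10, h20]
  · rintro _ ⟨v, rfl⟩
    exact hAB ⟨h1r ⟨v.1, rfl⟩, h2r ⟨v.2, rfl⟩⟩

/-- Lifting the box through an open embedding. -/
theorem exists_lift {P : Type} [TopologicalSpace P] (g : P → ℝ × ℝ) (hg : IsOpenEmbedding g)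
    (p : P) : ∃ f : ℝ × ℝ → P, IsOpenEmbedding f ∧ f 0 = p := by
  obtain ⟨s, hs, hs0, hsr⟩ := exists_box hg.isOpen_range (mem_range_self p)
  have h : ∀ v, ∃ x, g x = s v := fun v => hsr ⟨v, rfl⟩
  choose f hf using h
  have hgf : g ∘ f = s := funext hf
  refine ⟨f, IsOpenEmbedding.of_comp f hg (hgf ▸ hs), ?_⟩
  apply hg.injective
  rw [hf, hs0]

variable {e : Om1 → Om1 → ℕ}

/-- The planar chart of a piece. -/
theorem chart_emb (hinj : ∀ α, Set.InjOn (e α) {ξ | ξ ≤ α}) (l : Om1) :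
    IsOpenEmbedding (fun p : Pc (some l) => (psi e l p.1.1 1, p.1.2)) := by
  have hval : Continuous (fun p : Pc (some l) => p.1) := continuous_subtype_val
  apply IsOpenEmbedding.of_continuous_injective_isOpenMap
  · exact ((psi_continuous hinj l).comp ((continuous_fst.comp hval).prodMk
      continuous_const)).prodMk (continuous_snd.comp hval)
  · intro p q h
    have h1 := (Prod.mk.inj h).1
    have h2 := (Prod.mk.inj h).2
    exact Subtype.ext (Prod.ext (psi_injOn hinj l one_ne_zero p.2.2 q.2.2 h1) h2)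
  · intro O hO
    obtain ⟨O', hO', rfl⟩ := isOpen_induced_iff.1 hO
    convert psi_open hinj l (fun _ => 1) continuous_const O' hO' using 1
    ext q
    constructor
    · rintro ⟨p, hp, rfl⟩
      exact ⟨p.1, hp, p.2.1, p.2.2, one_pos, rfl⟩
    · rintro ⟨p, hp, hy, hl, _, rfl⟩
      exact ⟨⟨p, hy, hl⟩, hp, rfl⟩

theorem surf_local (hinj : ∀ α, Set.InjOn (e α) {ξ | ξ ≤ α})
    (hcoh : ∀ α β, {ξ | ξ ≤ α ∧ ξ ≤ β ∧ e α ξ ≠ e β ξ}.Finite) (z : Surf e) :
    ∃ f : ℝ × ℝ → Surf e, IsOpenEmbedding f ∧ f 0 = z := by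
  obtain ⟨i, p, rfl⟩ := kap_surj z
  rcases i with _ | l
  · obtain ⟨f, hf, h0⟩ := exists_lift (P := ℝ × ℝ) id IsOpenEmbedding.id p
    exact ⟨kap e none ∘ f, (kap_emb hinj hcoh none).comp hf, by
      show kap e none (f 0) = _
      rw [h0]⟩
  · obtain ⟨f, hf, h0⟩ := exists_lift (P := Pc (some l)) _ (chart_emb hinj l) p
    exact ⟨kap e (some l) ∘ f, (kap_emb hinj hcoh (some l)).comp hf, by
      show kap e (some l) (f 0) = _
      rw [h0]⟩

theorem surf_connected (hinj : ∀ α, Set.InjOn (e α) {ξ | ξ ≤ α})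
    (hcoh : ∀ α β, {ξ | ξ ≤ α ∧ ξ ≤ β ∧ e α ξ ≠ e β ξ}.Finite) : ConnectedSpace (Surf e) := by
  have h0 : IsConnected (range (kap e none)) := by
    have : ConnectedSpace (Pc none) := inferInstanceAs (ConnectedSpace (ℝ × ℝ))
    exact isConnected_range (kap_emb hinj hcoh none).continuous
  have hz : ∀ z : Surf e, z ∈ connectedComponent (kap e none ((0, 0) : ℝ × ℝ)) := by
    intro z
    obtain ⟨i, p, rfl⟩ := kap_surj z
    rcases i with _ | l
    · exact h0.2.subset_connectedComponent (mem_range_self _) (mem_range_self p)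
    · let c : ℝ → Pc (some l) := fun t => ⟨(p.1.1, t), p.2.1, p.2.2⟩
      have hc : Continuous c := by
        apply Continuous.subtype_mk
        exact continuous_const.prodMk continuous_id
      have h1 : IsConnected (range (fun t => kap e (some l) (c t))) :=
        isConnected_range ((kap_emb hinj hcoh (some l)).continuous.comp hc)
      have h2 : kap e (some l) (c 1) ∈ connectedComponent (kap e none ((0, 0) : ℝ × ℝ)) := by
        have h3 : kap e (some l) (c 1) = kap e none (psi e l p.1.1 1, (1 : ℝ)) :=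
          kap_pos (p := c 1) (show (0:ℝ) < 1 from one_pos)
        rw [h3]
        exact h0.2.subset_connectedComponent (mem_range_self _) (mem_range_self _)
      have h4 := h1.2.subset_connectedComponent (x := kap e (some l) (c 1)) (mem_range_self 1)
        (mem_range_self p.1.2)
      rw [connectedComponent_eq h2]
      exact h4
  have hcc : connectedComponent (kap e none ((0, 0) : ℝ × ℝ)) = univ := by
    rw [eq_univ_iff_forall]
    exact hz
  exact connectedSpace_iff_univ.2 (hcc ▸ isConnected_connectedComponent)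

/-- The points of the line. -/
noncomputable def line (e : Om1 → Om1 → ℕ) (x : {x : LongRay // ∃ y, y < x}) : Surf e :=
  Sum.inr ⟨(x.1, 0), x.2, le_rfl⟩

theorem line_eq (x : {x : LongRay // ∃ y, y < x}) (l : Om1) (hl : ord x.1 ≤ l) :
    kap e (some l) ⟨(x.1, 0), x.2, hl⟩ = line e x :=
  kap_neg (e := e) (l := l) (p := ⟨(x.1, 0), x.2, hl⟩) (lt_irrefl (0 : ℝ))

theorem line_NH (hinj : ∀ α, Set.InjOn (e α) {ξ | ξ ≤ α})
    (hcoh : ∀ α β, {ξ | ξ ≤ α ∧ ξ ≤ β ∧ e α ξ ≠ e β ξ}.Finite)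
    (x : {x : LongRay // ∃ y, y < x}) : line e x ∈ NH (kap e none ((0, 0) : ℝ × ℝ)) := by
  refine ⟨Sum.inr_ne_inl, ?_⟩
  intro U V hU hV hzU hxV
  let l := ord x.1
  let c : ℝ → Pc (some l) := fun t => ⟨(x.1, t), x.2, le_rfl⟩
  have hc : Continuous c := by
    apply Continuous.subtype_mk
    exact continuous_const.prodMk continuous_id
  have hc' : Continuous (fun t : ℝ => ((psi e l x.1 t, t) : ℝ × ℝ)) :=
    ((psi_continuous hinj l).comp (continuous_const.prodMk continuous_id)).prodMk continuous_id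
  have e1 : ∀ᶠ t in 𝓝 (0 : ℝ), kap e (some l) (c t) ∈ V := by
    have h1 : Continuous (fun t => kap e (some l) (c t)) :=
      (kap_emb hinj hcoh (some l)).continuous.comp hc
    refine (hV.preimage h1).mem_nhds ?_
    show kap e (some l) (c 0) ∈ V
    rw [show kap e (some l) (c 0) = line e x from line_eq x l le_rfl]
    exact hxV
  have e2 : ∀ᶠ t in 𝓝 (0 : ℝ), kap e none ((psi e l x.1 t, t) : ℝ × ℝ) ∈ U := by
    have h1 : Continuous (fun t : ℝ => kap e none ((psi e l x.1 t, t) : ℝ × ℝ)) :=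
      (kap_emb hinj hcoh none).continuous.comp hc'
    refine (hU.preimage h1).mem_nhds ?_
    show kap e none ((psi e l x.1 0, 0) : ℝ × ℝ) ∈ U
    rw [psi_zero]
    exact hzU
  have e3 : ∀ᶠ t in 𝓝[>] (0 : ℝ), 0 < t := eventually_mem_nhdsWithin
  obtain ⟨t, h1, h2, h3⟩ := ((e1.filter_mono nhdsWithin_le_nhds).and
    ((e2.filter_mono nhdsWithin_le_nhds).and e3)).exists
  refine ⟨kap e none ((psi e l x.1 t, t) : ℝ × ℝ), h2, ?_⟩
  have h4 : kap e (some l) (c t) = kap e none ((psi e l x.1 t, t) : ℝ × ℝ) :=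
    kap_pos (p := c t) h3
  rw [← h4]
  exact h1

theorem line_emb (hinj : ∀ α, Set.InjOn (e α) {ξ | ξ ≤ α})
    (hcoh : ∀ α β, {ξ | ξ ≤ α ∧ ξ ≤ β ∧ e α ξ ≠ e β ξ}.Finite) : IsEmbedding (line e) := by
  have hcont : Continuous (line e) := by
    rw [continuous_iff_continuousAt]
    intro x
    obtain ⟨l, hl⟩ : ∃ l, l = ord x.1 := ⟨_, rfl⟩
    -- on the open set of points with ordinal coordinate at most `l`
    have hO : IsOpen {x' : {x : LongRay // ∃ y, y < x} | ord x'.1 ≤ l} :=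
      (isOpen_ord_le l).preimage continuous_subtype_val
    have hx : x ∈ {x' : {x : LongRay // ∃ y, y < x} | ord x'.1 ≤ l} := hl.symm.le
    rw [ContinuousAt]
    intro V hV
    obtain ⟨V', hV'V, hV', hxV'⟩ := mem_nhds_iff.1 hV
    have h1 := (hV'.preimage (kap_emb hinj hcoh (some l)).continuous)
    obtain ⟨O', hO', hO'eq⟩ := isOpen_induced_iff.1 h1
    have h2 : IsOpen {x' : {x : LongRay // ∃ y, y < x} | (x'.1, (0 : ℝ)) ∈ O'} :=
      hO'.preimage (continuous_subtype_val.prodMk continuous_const)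
    have key : ∀ x' : {x : LongRay // ∃ y, y < x}, ord x'.1 ≤ l →
        ((x'.1, (0 : ℝ)) ∈ O' ↔ line e x' ∈ V') := by
      intro x' hx'
      have h3 : (⟨(x'.1, (0 : ℝ)), x'.2, hx'⟩ : Pc (some l)) ∈ (Subtype.val ⁻¹' O' : Set (Pc (some l))) ↔
          (⟨(x'.1, (0 : ℝ)), x'.2, hx'⟩ : Pc (some l)) ∈ kap e (some l) ⁻¹' V' := by
        rw [hO'eq]
      rw [← line_eq x' l hx']
      exact h3
    have h4 : {x' : {x : LongRay // ∃ y, y < x} | ord x'.1 ≤ l} ∩
        {x' | (x'.1, (0 : ℝ)) ∈ O'} ∈ 𝓝 x :=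
      (hO.inter h2).mem_nhds ⟨hx, (key x hx).2 hxV'⟩
    refine Filter.mem_map.2 (Filter.mem_of_superset h4 ?_)
    rintro x' ⟨h5, h6⟩
    exact hV'V ((key x' h5).1 h6)
  refine ⟨⟨le_antisymm (continuous_iff_le_induced.1 hcont) ?_⟩, ?_⟩
  · intro O hO
    -- `O` is open in the line
    obtain ⟨A, hA, rfl⟩ := isOpen_induced_iff.1 hO
    refine isOpen_induced_iff.2 ⟨⋃ l, kap e (some l) '' {p : Pc (some l) | p.1.1 ∈ A}, ?_, ?_⟩
    · refine isOpen_iUnion fun l => (kap_emb hinj hcoh (some l)).isOpenMap _ ?_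
      have hval : Continuous (fun p : Pc (some l) => p.1) := continuous_subtype_val
      exact hA.preimage (continuous_fst.comp hval)
    · ext x
      constructor
      · intro hx
        obtain ⟨l, hx⟩ := mem_iUnion.1 hx
        exact (mem_kap_inr (O' := {p : LongRay × ℝ | p.1 ∈ A}).1 hx).1
      · intro hx
        refine mem_iUnion.2 ⟨ord x.1, ?_⟩
        exact mem_kap_inr (O' := {p : LongRay × ℝ | p.1 ∈ A}).2 ⟨hx, le_rfl⟩
  · intro x y h
    have h1 := congrArg Subtype.val (Sum.inr_injective h)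
    exact Subtype.ext (Prod.mk.inj h1).1

end Pool.Agent.R826.LongN
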