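import Pool.Agent.R826.LongT

/-!
# Copies of the long ray and of `ω₁`
-/

namespace Pool.Agent.R826.LongN

open Set Topology Filter Pool.Agent.Helper185.Fat Pool.Agent.R826.Glue

theorem half_mem {x : ℝ} (h0 : 0 ≤ x) (h1 : x < 1) : 0 ≤ (1 + x) / 2 ∧ (1 + x) / 2 < 1 := by
  constructor <;> linarith

open Classical in
/-- The shift of the long ray into itself avoiding the initial point. -/
noncomputable def sh (b : Om1) (x : LongRay) : LongRay :=
  if ord x = b then mkL b ((1 + frac x) / 2) (half_mem (frac_nonneg x) (frac_lt_one x)) else x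

theorem sh_strictMono {b : Om1} (hb : ∀ a, b ≤ a) : StrictMono (sh b) := by
  intro x y h
  unfold sh
  by_cases hx : ord x = b
  · rw [if_pos hx]
    by_cases hy : ord y = b
    · rw [if_pos hy]
      rw [long_lt, ord_mkL, ord_mkL, frac_mkL, frac_mkL]
      right
      refine ⟨rfl, ?_⟩
      rcases long_lt.1 h with h1 | h1
      · rw [hx, hy] at h1
        exact absurd h1 (lt_irrefl _)
      · linarith [h1.2]
    · rw [if_neg hy, long_lt, ord_mkL]
      left
      exact lt_of_le_of_ne (hb _) (Ne.symm hy)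
  · rw [if_neg hx]
    have hy : ord y ≠ b := by
      intro hy
      have h1 := ord_mono h.le
      rw [hy] at h1
      exact hx (le_antisymm h1 (hb _))
    rw [if_neg hy]
    exact h

theorem sh_ordConnected {b : Om1} (hb : ∀ a, b ≤ a) : OrdConnected (range (sh b)) := by
  have h : range (sh b) = Ici (mkL b (1 / 2) ⟨by norm_num, by norm_num⟩) := by
    ext y
    constructor
    · rintro ⟨x, rfl⟩
      rw [mem_Ici, long_le, ord_mkL, frac_mkL]
      unfold sh
      by_cases hx : ord x = b
      · rw [if_pos hx, ord_mkL, frac_mkL]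
        right
        refine ⟨rfl, ?_⟩
        have := frac_nonneg x
        linarith
      · rw [if_neg hx]
        left
        exact lt_of_le_of_ne (hb _) (Ne.symm hx)
    · intro hy
      rw [mem_Ici, long_le, ord_mkL, frac_mkL] at hy
      by_cases hx : ord y = b
      · have h1 : 1 / 2 ≤ frac y := by
          rcases hy with hy | hy
          · rw [hx] at hy
            exact absurd hy (lt_irrefl _)
          · exact hy.2
        have h2 := frac_lt_one y
        refine ⟨mkL b (2 * frac y - 1) ⟨by linarith, by linarith⟩, ?_⟩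
        unfold sh
        rw [ord_mkL, if_pos rfl]
        apply long_ext
        · rw [ord_mkL, hx]
        · rw [frac_mkL, frac_mkL]
          ring
      · exact ⟨y, if_neg hx⟩
  rw [h]
  exact ordConnected_Ici

theorem sh_pos {b : Om1} (hb : ∀ a, b ≤ a) (x : LongRay) : ∃ y, y < sh b x := by
  refine ⟨mkL b 0 ⟨le_rfl, one_pos⟩, ?_⟩
  unfold sh
  by_cases hx : ord x = b
  · rw [if_pos hx, long_lt, ord_mkL, ord_mkL, frac_mkL, frac_mkL]
    right
    refine ⟨rfl, ?_⟩
    have := frac_nonneg x
    linarith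
  · rw [if_neg hx, long_lt, ord_mkL]
    left
    exact lt_of_le_of_ne (hb _) (Ne.symm hx)

instance : OrderTopology OmegaOne := ⟨rfl⟩

theorem lt_mk0 (a : LongRay) (γ : Om1) : a < mkL γ 0 ⟨le_rfl, one_pos⟩ ↔ ord a < γ := by
  rw [long_lt, ord_mkL, frac_mkL]
  constructor
  · rintro (h | h)
    · exact h
    · exact absurd (frac_nonneg a) (not_le_of_gt h.2)
  · intro h
    exact Or.inl h

theorem mk0_lt (a : LongRay) (γ : Om1) : mkL γ 0 ⟨le_rfl, one_pos⟩ < a ↔
    γ < ord a ∨ γ = ord a ∧ 0 < frac a := by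
  rw [long_lt, ord_mkL, frac_mkL]

/-- The points with real coordinate zero. -/
def toL (γ : OmegaOne) : LongRay := mkL γ 0 ⟨le_rfl, one_pos⟩

theorem toL_lt_toL (γ δ : OmegaOne) : toL γ < toL δ ↔ γ < δ :=
  lt_mk0 (mkL γ 0 ⟨le_rfl, one_pos⟩) δ

/-- The ordinal space embeds in the long ray. -/
theorem omega_emb : IsEmbedding toL := by
  have hgen : ∀ a : LongRay, IsOpen {γ : OmegaOne | a < toL γ} ∧
      IsOpen {γ : OmegaOne | toL γ < a} := by
    intro a
    constructor
    · have h : {γ : OmegaOne | a < toL γ} = Ioi (ord a : OmegaOne) := by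
        ext γ
        exact lt_mk0 a γ
      rw [h]
      exact isOpen_Ioi
    · by_cases h0 : 0 < frac a
      · obtain ⟨γ', hγ'⟩ := exists_succ (ord a)
        have h : {γ : OmegaOne | toL γ < a} = Iio (γ' : OmegaOne) := by
          ext γ
          refine (mk0_lt a γ).trans ?_
          constructor
          · rintro (h | h)
            · exact (hγ' γ).1 h.le
            · exact (hγ' γ).1 h.1.le
          · intro h
            rcases lt_or_eq_of_le ((hγ' γ).2 h) with h1 | h1
            · exact Or.inl h1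
            · exact Or.inr ⟨h1, h0⟩
        rw [h]
        exact isOpen_Iio
      · have h : {γ : OmegaOne | toL γ < a} = Iio (ord a : OmegaOne) := by
          ext γ
          refine (mk0_lt a γ).trans ?_
          constructor
          · rintro (h | h)
            · exact h
            · exact absurd h.2 h0
          · intro h
            exact Or.inl h
        rw [h]
        exact isOpen_Iio
  have hcont : Continuous toL := by
    rw [OrderTopology.topology_eq_generate_intervals (α := LongRay), continuous_generateFrom_iff]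
    rintro s ⟨a, rfl | rfl⟩
    · exact (hgen a).1
    · exact (hgen a).2
  refine ⟨⟨le_antisymm (continuous_iff_le_induced.1 hcont) ?_⟩, ?_⟩
  · rw [OrderTopology.topology_eq_generate_intervals (α := OmegaOne)]
    apply le_generateFrom
    rintro s ⟨a, rfl | rfl⟩
    · refine isOpen_induced_iff.2 ⟨Ioi (toL a), isOpen_Ioi, ?_⟩
      ext γ
      exact toL_lt_toL a γ
    · refine isOpen_induced_iff.2 ⟨Iio (toL a), isOpen_Iio, ?_⟩
      ext γ
      exact toL_lt_toL γ a
  · intro γ δ h
    have := congrArg ord h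
    exact this

/-- The final construction. -/
theorem exists_manifold :
    ∃ (M : Type) (_ : TopologicalSpace M), ConnectedSpace M ∧
      (∀ x : M, ∃ U : Set M, IsOpen U ∧ x ∈ U ∧ Nonempty (U ≃ₜ ℝ × ℝ)) ∧
      ¬ T2Space M ∧
      (∀ x y : M, ∃ h : M ≃ₜ M, h x = y) ∧
      ∀ z : M, HasCopy OmegaOne (NH z) ∧ HasCopy LongRay (NH z) := by
  obtain ⟨e, hcoh, hinj⟩ := exists_coherent_inj
  have hconn := surf_connected hinj hcoh
  choose f hf hf0 using surf_local hinj hcoh
  obtain ⟨M, _, hM1, hM2, hM3, i, hi⟩ := exists_homog (Surf e) (ℝ × ℝ) 0 f hf hf0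
  obtain ⟨b, _, hb⟩ := exists_least (S := (Set.univ : Set Om1)) ⟨om1_nonempty.some, trivial⟩
  have hb' : ∀ a, b ≤ a := fun a => hb a trivial
  let z0 : Surf e := kap e none ((0, 0) : ℝ × ℝ)
  -- the copy of the long ray at the base point
  let ι0 : LongRay → Surf e := fun x => line e ⟨sh b x, sh_pos hb' x⟩
  have hι0 : IsEmbedding ι0 := by
    have h1 : IsEmbedding (sh b) := (sh_strictMono hb').isEmbedding_of_ordConnected
      (sh_ordConnected hb')
    exact (line_emb hinj hcoh).comp (h1.codRestrict {x | ∃ y, y < x} (sh_pos hb'))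
  have hNH : ∀ x, i (ι0 x) ∈ NH (i z0) := by
    intro x
    obtain ⟨h1, h2⟩ := line_NH hinj hcoh ⟨sh b x, sh_pos hb' x⟩
    refine ⟨fun h => h1 (hi.injective h), ?_⟩
    intro U V hU hV hz hx
    obtain ⟨p, hp1, hp2⟩ := h2 (i ⁻¹' U) (i ⁻¹' V) (hU.preimage hi.continuous)
      (hV.preimage hi.continuous) hz hx
    exact ⟨i p, hp1, hp2⟩
  have hlong : ∀ z : M, HasCopy LongRay (NH z) := by
    intro z
    obtain ⟨h, hh⟩ := hM2 (i z0) z
    refine ⟨fun x => h (i (ι0 x)), h.isEmbedding.comp (hi.isEmbedding.comp hι0), ?_⟩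
    intro x
    obtain ⟨h1, h2⟩ := hNH x
    refine ⟨fun h3 => h1 (h.injective (h3.trans hh.symm)), ?_⟩
    intro U V hU hV hz hx
    obtain ⟨p, hp1, hp2⟩ := h2 (h ⁻¹' U) (h ⁻¹' V) (hU.preimage h.continuous)
      (hV.preimage h.continuous) (by rw [mem_preimage, hh]; exact hz) hx
    exact ⟨h p, hp1, hp2⟩
  refine ⟨M, inferInstance, hM1, ?_, ?_, hM2, fun z => ⟨?_, hlong z⟩⟩
  · intro x
    obtain ⟨g, hg, hg0⟩ := hM3 x
    refine ⟨range g, hg.isOpen_range, ⟨0, hg0⟩, ⟨(hg.isEmbedding.toHomeomorph).symm⟩⟩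
  · intro hT2
    obtain ⟨x⟩ : Nonempty LongRay := ⟨mkL b 0 ⟨le_rfl, one_pos⟩⟩
    obtain ⟨h1, h2⟩ := hNH x
    obtain ⟨U, V, hU, hV, hzU, hxV, hd⟩ := t2_separation (Ne.symm h1)
    obtain ⟨p, hp1, hp2⟩ := h2 U V hU hV hzU hxV
    exact Set.disjoint_left.1 hd hp1 hp2
  · obtain ⟨ι, hι, hιN⟩ := hlong z
    exact ⟨fun γ => ι (toL γ), hι.comp omega_emb, fun γ => hιN _⟩

end Pool.Agent.R826.LongN
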