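import Mathlib

set_option autoImplicit false

/-!
# MP_fc9311_an: self-affine sponges, dimensions and the relative maximal dimension gap
-/

namespace Pool.Agent.R826.SP

open MeasureTheory Set Filter Topology
open scoped ENNReal

/-- A diagonal iterated function system on `[0,1]^d`: for every coordinate `i` a finite family
`(phi i a)`, `a ∈ A i`, of contracting similarities of `[0,1]` (reflections allowed), and a
nonempty set `E` of tuples of indices. -/
structure Sys (d : ℕ) where
  /-- the index set of the base maps of coordinate `i` -/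
  A : Fin d → Type
  fin : ∀ i, Finite (A i)
  /-- the base maps -/
  phi : ∀ i, A i → ℝ → ℝ
  /-- they are contracting similarities -/
  sim : ∀ i a, ∃ c t : ℝ, 0 < |c| ∧ |c| < 1 ∧ ∀ x, phi i a x = c * x + t
  /-- they map `[0,1]` into itself -/
  maps : ∀ i a, MapsTo (phi i a) (Icc 0 1) (Icc 0 1)
  /-- the set of symbols -/
  E : Set (∀ i, A i)
  ne : E.Nonempty

/-- The shift on sequences. -/
def shift {α : Type*} (ω : ℕ → α) : ℕ → α := fun n => ω (n + 1)

/-- The dimension of a measure `ν` on `ℝ^d`: the infimum of the Hausdorff dimensions of the sets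
whose complement is `ν`-null. -/
noncomputable def mdim {d : ℕ} (ν : Measure (Fin d → ℝ)) : ℝ≥0∞ :=
  ⨅ (T : Set (Fin d → ℝ)) (_ : ν Tᶜ = 0), dimH T

namespace Sys

variable {d : ℕ} (S : Sys d)

/-- The alphabet `E` as a type, with the discrete sigma algebra. -/
def Symb : Type := {a : ∀ i, S.A i // a ∈ S.E}

instance : MeasurableSpace S.Symb := ⊤

/-- The diagonal map of a symbol. -/
def map (a : S.Symb) (x : Fin d → ℝ) : Fin d → ℝ := fun i => S.phi i (a.1 i) (x i)

/-- `iter ω n = phi_(ω 0) ∘ ... ∘ phi_(ω (n-1))`. -/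
def iter (ω : ℕ → S.Symb) : ℕ → (Fin d → ℝ) → (Fin d → ℝ)
  | 0, x => x
  | n + 1, x => iter ω n (S.map (ω n) x)

/-- The coding map. -/
noncomputable def code (ω : ℕ → S.Symb) : Fin d → ℝ :=
  limUnder atTop (fun n => S.iter ω n 0)

/-- The Hausdorff dimension of the limit set. -/
noncomputable def HD : ℝ≥0∞ := dimH (range S.code)

/-- The dynamical dimension. -/
noncomputable def DynD : ℝ≥0∞ :=
  ⨆ (μ : Measure (ℕ → S.Symb)) (_ : IsProbabilityMeasure μ ∧ Ergodic shift μ),
    mdim (μ.map S.code)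

/-- The Barański condition. -/
def Baranski : Prop := ∀ i, ∀ a b : S.A i, a ≠ b →
  Disjoint (S.phi i a '' Ioo 0 1) (S.phi i b '' Ioo 0 1)

end Sys

/-- The relative maximal dimension gap. -/
noncomputable def MDG (d : ℕ) : ℝ≥0∞ :=
  ⨆ (S : Sys d) (_ : S.Baranski ∧ S.E.Nontrivial), (S.HD - S.DynD) / S.DynD

/-! ### The sponges of the construction -/

/-- the residue of `k - j` modulo `d`, in `1, ..., d - 1`, for `j ≠ k` -/
def res {d : ℕ} (j k : Fin d) : ℕ := if j.1 < k.1 then k.1 - j.1 else d - (j.1 - k.1)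

/-- the parameters: `d` is the dimension, `N` is the number of own digits, `c j k` the logarithmic
contraction of coordinate `j` under the symbols of type `k`. -/
structure Par (d N : ℕ) where
  c : Fin d → Fin d → ℝ
  diag : ∀ j, c j j = Real.log (2 * N)
  big : ∀ j k, Real.exp (-(c j k)) ≤ 1 / (2 * d)
  hN : 1 ≤ N
  hd : 1 ≤ d

variable {d N : ℕ}

namespace Par

variable (p : Par d N)

include p in
lemma d0 : (0:ℝ) < d := by
  have := p.hd
  exact_mod_cast this

include p in
lemma N0 : (0:ℝ) < N := by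
  have := p.hN
  exact_mod_cast this

lemma expdiag (j : Fin d) : Real.exp (-(p.c j j)) = 1 / (2 * N) := by
  have := p.N0
  rw [p.diag, Real.exp_neg, Real.exp_log (by positivity), one_div]

lemma half (j k : Fin d) : Real.exp (-(p.c j k)) ≤ 1 / 2 := by
  refine (p.big j k).trans ?_
  have h : (1:ℝ) ≤ d := by exact_mod_cast p.hd
  apply one_div_le_one_div_of_le (by norm_num)
  linarith

/-- the slope and the translation of the base maps -/
noncomputable def slope (i : Fin d) (a : Fin N ⊕ Fin d) : ℝ :=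
  a.elim (fun _ => 1 / (2 * N)) (fun k => Real.exp (-(p.c i k)))

/-- the translation of the base maps -/
noncomputable def trans (_p : Par d N) (a : Fin N ⊕ Fin d) : ℝ :=
  a.elim (fun m => (m.1 : ℝ) / (2 * N)) (fun k => 1 / 2 + (k.1 : ℝ) / (2 * d))

lemma slope_pos (i : Fin d) (a : Fin N ⊕ Fin d) : 0 < p.slope i a := by
  have := p.N0
  rcases a with a | k
  · simp only [slope, Sum.elim_inl]; positivity
  · simp only [slope, Sum.elim_inr]; positivity

lemma slope_le (i : Fin d) (a : Fin N ⊕ Fin d) : p.slope i a ≤ 1 / 2 := by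
  have h1 : (1:ℝ) ≤ N := by exact_mod_cast p.hN
  rcases a with a | k
  · simp only [slope, Sum.elim_inl]
    apply one_div_le_one_div_of_le (by norm_num)
    linarith
  · simp only [slope, Sum.elim_inr]
    exact p.half i k

lemma trans_nonneg (a : Fin N ⊕ Fin d) : 0 ≤ p.trans a := by
  have := p.N0
  have := p.d0
  rcases a with a | k
  · simp only [trans, Sum.elim_inl]; positivity
  · simp only [trans, Sum.elim_inr]; positivity

lemma trans_slope (i : Fin d) (a : Fin N ⊕ Fin d) : p.trans a + p.slope i a ≤ 1 := by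
  have hN := p.N0
  have hd := p.d0
  rcases a with a | k
  · simp only [slope, trans, Sum.elim_inl]
    have h : (a.1 : ℝ) + 1 ≤ N := by exact_mod_cast a.2
    rw [← add_div, div_le_one (by positivity)]
    linarith
  · simp only [slope, trans, Sum.elim_inr]
    have h : (k.1 : ℝ) + 1 ≤ d := by exact_mod_cast k.2
    have h2 := p.big i k
    have h3 : (k.1 : ℝ) / (2 * d) + 1 / (2 * d) ≤ 1 / 2 := by
      rw [← add_div, div_le_div_iff₀ (by positivity) (by norm_num)]
      linarith
    linarith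

/-- the symbol of type `j` with digit `a` -/
def sym (_p : Par d N) (j : Fin d) (a : Fin N) : Fin d → Fin N ⊕ Fin d :=
  fun i => if i = j then Sum.inl a else Sum.inr j

/-- the sponge -/
noncomputable def sys : Sys d where
  A := fun _ => Fin N ⊕ Fin d
  fin := fun _ => inferInstance
  phi := fun i a x => p.slope i a * x + p.trans a
  sim := fun i a => by
    have h1 := p.slope_pos i a
    have h2 := p.slope_le i a
    refine ⟨p.slope i a, p.trans a, by rwa [abs_of_pos h1], ?_, fun _ => rfl⟩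
    rw [abs_of_pos h1]
    linarith
  maps := fun i a => by
    intro x hx
    have h1 := p.slope_pos i a
    have h2 := p.trans_nonneg a
    have h3 := p.trans_slope i a
    constructor
    · have := mul_nonneg h1.le hx.1
      linarith
    · have : p.slope i a * x ≤ p.slope i a * 1 := mul_le_mul_of_nonneg_left hx.2 h1.le
      linarith
  E := range (fun q : Fin d × Fin N => p.sym q.1 q.2)
  ne := ⟨_, ⟨(⟨0, p.hd⟩, ⟨0, p.hN⟩), rfl⟩⟩

lemma sym_inj : Function.Injective (fun q : Fin d × Fin N => p.sym q.1 q.2) := by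
  rintro ⟨j, a⟩ ⟨j', a'⟩ h
  have h1 := congrFun h j
  simp only [sym, if_true] at h1
  by_cases hj : j = j'
  · subst hj
    simp only [if_true, Sum.inl.injEq] at h1
    rw [h1]
  · rw [if_neg hj] at h1
    exact absurd h1 (by simp)

/-- symbols are pairs (type, digit) -/
noncomputable def eqv : Fin d × Fin N ≃ p.sys.Symb :=
  Equiv.ofInjective _ p.sym_inj

lemma eqv_val (q : Fin d × Fin N) : (p.eqv q).1 = p.sym q.1 q.2 := rfl

/-- the type of a symbol -/
noncomputable def typ (s : p.sys.Symb) : Fin d := (p.eqv.symm s).1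

/-- the digit of a symbol -/
noncomputable def dig (s : p.sys.Symb) : Fin N := (p.eqv.symm s).2

@[simp] lemma typ_eqv (q : Fin d × Fin N) : p.typ (p.eqv q) = q.1 := by simp [typ]

@[simp] lemma dig_eqv (q : Fin d × Fin N) : p.dig (p.eqv q) = q.2 := by simp [dig]

lemma val_eq (s : p.sys.Symb) : s.1 = p.sym (p.typ s) (p.dig s) := by
  obtain ⟨q, rfl⟩ := p.eqv.surjective s
  rw [p.eqv_val, p.typ_eqv, p.dig_eqv]

lemma baranski : p.sys.Baranski := by
  have hN := p.N0
  have hd := p.d0
  -- the images are contained in disjoint open intervals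
  have key : ∀ (i : Fin d) (a : Fin N ⊕ Fin d), ∀ y ∈ p.sys.phi i a '' Ioo 0 1,
      p.trans a < y ∧ y < p.trans a + p.slope i a := by
    rintro i a y ⟨x, hx, rfl⟩
    have h1 := p.slope_pos i a
    have e : p.sys.phi i a x = p.slope i a * x + p.trans a := rfl
    rw [e]
    constructor
    · have := mul_pos h1 hx.1
      linarith
    · have : p.slope i a * x < p.slope i a * 1 := mul_lt_mul_of_pos_left hx.2 h1
      linarith
  have key2 : ∀ (i : Fin d) (a b : Fin N ⊕ Fin d), p.trans a + p.slope i a ≤ p.trans b →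
      Disjoint (p.sys.phi i a '' Ioo 0 1) (p.sys.phi i b '' Ioo 0 1) := by
    intro i a b hab
    rw [Set.disjoint_left]
    intro y hy1 hy2
    have h1 := (key i a y hy1).2
    have h2 := (key i b y hy2).1
    linarith
  have own : ∀ (i : Fin d) (a b : Fin N), a.1 < b.1 →
      p.trans (Sum.inl a : Fin N ⊕ Fin d) + p.slope i (Sum.inl a) ≤ p.trans (Sum.inl b) := by
    intro i a b hab
    simp only [trans, slope, Sum.elim_inl]
    rw [← add_div]
    have h : (a.1 : ℝ) + 1 ≤ b.1 := by exact_mod_cast hab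
    gcongr
  have oth : ∀ (i : Fin d) (a b : Fin d), a.1 < b.1 →
      p.trans (Sum.inr a : Fin N ⊕ Fin d) + p.slope i (Sum.inr a) ≤ p.trans (Sum.inr b) := by
    intro i a b hab
    simp only [trans, slope, Sum.elim_inr]
    have h : (a.1 : ℝ) + 1 ≤ b.1 := by exact_mod_cast hab
    have h2 := p.big i a
    have h3 : (a.1 : ℝ) / (2 * d) + 1 / (2 * d) ≤ (b.1 : ℝ) / (2 * d) := by
      rw [← add_div]
      gcongr
    linarith
  have mix : ∀ (i : Fin d) (a : Fin N) (b : Fin d),
      p.trans (Sum.inl a : Fin N ⊕ Fin d) + p.slope i (Sum.inl a) ≤ p.trans (Sum.inr b) := by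
    intro i a b
    simp only [trans, slope, Sum.elim_inr, Sum.elim_inl]
    have h : (a.1 : ℝ) + 1 ≤ N := by exact_mod_cast a.2
    have h3 : (a.1 : ℝ) / (2 * N) + 1 / (2 * N) ≤ 1 / 2 := by
      rw [← add_div, div_le_div_iff₀ (by positivity) (by norm_num)]
      linarith
    have h4 : (0:ℝ) ≤ (b.1 : ℝ) / (2 * d) := by positivity
    linarith
  intro i a b hab
  rcases a with a | a <;> rcases b with b | b
  · have hne : a.1 ≠ b.1 := fun h => hab (by rw [Fin.ext h])
    rcases lt_or_gt_of_ne hne with h | h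
    · exact key2 i _ _ (own i a b h)
    · exact (key2 i _ _ (own i b a h)).symm
  · exact key2 i _ _ (mix i a b)
  · exact (key2 i _ _ (mix i b a)).symm
  · have hne : a.1 ≠ b.1 := fun h => hab (by rw [Fin.ext h])
    rcases lt_or_gt_of_ne hne with h | h
    · exact key2 i _ _ (oth i a b h)
    · exact (key2 i _ _ (oth i b a h)).symm

/-! ### the coordinates of the coding map -/

/-- number of symbols of type `k` among the first `n` -/
def W (τ : ℕ → Fin d) (k : Fin d) (n : ℕ) : ℕ := ((Finset.range n).filter (fun m => τ m = k)).card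

/-- log-length of the level `n` interval of coordinate `i` -/
noncomputable def X (i : Fin d) (τ : ℕ → Fin d) (n : ℕ) : ℝ := ∑ m ∈ Finset.range n, p.c i (τ m)

/-- translation of coordinate `i` -/
noncomputable def tr (i : Fin d) (τ : ℕ → Fin d) (δ : ℕ → Fin N) (n : ℕ) : ℝ :=
  p.trans (p.sym (τ n) (δ n) i)

/-- left end point of the level `n` interval of coordinate `i` -/
noncomputable def L (i : Fin d) (τ : ℕ → Fin d) (δ : ℕ → Fin N) (n : ℕ) : ℝ :=
  ∑ m ∈ Finset.range n, Real.exp (-(p.X i τ m)) * p.tr i τ δ m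

lemma slope_sym (i j : Fin d) (a : Fin N) : p.slope i (p.sym j a i) = Real.exp (-(p.c i j)) := by
  by_cases h : i = j
  · subst h
    simp only [sym, if_true, slope, Sum.elim_inl]
    rw [p.expdiag]
  · simp only [sym, if_neg h, slope, Sum.elim_inr]

lemma X_zero (i : Fin d) (τ : ℕ → Fin d) : p.X i τ 0 = 0 := by simp [X]

lemma X_succ (i : Fin d) (τ : ℕ → Fin d) (n : ℕ) :
    p.X i τ (n + 1) = p.X i τ n + p.c i (τ n) := by simp [X, Finset.sum_range_succ]

lemma exp_succ (i : Fin d) (τ : ℕ → Fin d) (n : ℕ) :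
    Real.exp (-(p.X i τ (n + 1))) = Real.exp (-(p.X i τ n)) * Real.exp (-(p.c i (τ n))) := by
  rw [p.X_succ, neg_add, Real.exp_add]

lemma L_succ (i : Fin d) (τ : ℕ → Fin d) (δ : ℕ → Fin N) (n : ℕ) :
    p.L i τ δ (n + 1) = p.L i τ δ n + Real.exp (-(p.X i τ n)) * p.tr i τ δ n := by
  simp [L, Finset.sum_range_succ]

lemma iter_eq (ω : ℕ → p.sys.Symb) (n : ℕ) (x : Fin d → ℝ) (i : Fin d) :
    p.sys.iter ω n x i = p.L i (fun m => p.typ (ω m)) (fun m => p.dig (ω m)) n +
      Real.exp (-(p.X i (fun m => p.typ (ω m)) n)) * x i := by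
  induction n generalizing x with
  | zero => simp [Sys.iter, L, X]
  | succ n ih =>
    rw [Sys.iter, ih, L_succ, exp_succ]
    have e : p.sys.map (ω n) x i = p.slope i ((ω n).1 i) * x i + p.trans ((ω n).1 i) := rfl
    rw [e, p.val_eq (ω n), p.slope_sym]
    simp only [tr]
    ring

lemma tr_nonneg (i : Fin d) (τ : ℕ → Fin d) (δ : ℕ → Fin N) (n : ℕ) : 0 ≤ p.tr i τ δ n :=
  p.trans_nonneg _

lemma tr_le (i : Fin d) (τ : ℕ → Fin d) (δ : ℕ → Fin N) (n : ℕ) :
    p.tr i τ δ n + Real.exp (-(p.c i (τ n))) ≤ 1 := by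
  rw [← p.slope_sym i (τ n) (δ n)]
  exact p.trans_slope _ _

lemma L_mono (i : Fin d) (τ : ℕ → Fin d) (δ : ℕ → Fin N) : Monotone (p.L i τ δ) := by
  refine monotone_nat_of_le_succ fun n => ?_
  rw [L_succ]
  have := mul_nonneg (Real.exp_pos (-(p.X i τ n))).le (p.tr_nonneg i τ δ n)
  linarith

/-- right end point -/
lemma U_anti (i : Fin d) (τ : ℕ → Fin d) (δ : ℕ → Fin N) :
    Antitone (fun n => p.L i τ δ n + Real.exp (-(p.X i τ n))) := by
  refine antitone_nat_of_succ_le fun n => ?_
  rw [L_succ, exp_succ]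
  have h1 := p.tr_le i τ δ n
  have h2 := mul_le_mul_of_nonneg_left h1 (Real.exp_pos (-(p.X i τ n))).le
  rw [mul_one, mul_add] at h2
  linarith

lemma L_le_U (i : Fin d) (τ : ℕ → Fin d) (δ : ℕ → Fin N) (n m : ℕ) :
    p.L i τ δ n ≤ p.L i τ δ m + Real.exp (-(p.X i τ m)) := by
  rcases le_total n m with h | h
  · have h1 := p.L_mono i τ δ h
    have h2 := Real.exp_pos (-(p.X i τ m))
    linarith
  · have h1 := p.U_anti i τ δ h
    simp only at h1
    have h2 := Real.exp_pos (-(p.X i τ n))
    linarith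

/-- coordinate `i` of the coded point -/
noncomputable def pt (i : Fin d) (τ : ℕ → Fin d) (δ : ℕ → Fin N) : ℝ := ⨆ n, p.L i τ δ n

lemma L_bdd (i : Fin d) (τ : ℕ → Fin d) (δ : ℕ → Fin N) : BddAbove (range (p.L i τ δ)) :=
  ⟨_, by rintro _ ⟨n, rfl⟩; exact p.L_le_U i τ δ n 0⟩

lemma tendsto_L (i : Fin d) (τ : ℕ → Fin d) (δ : ℕ → Fin N) :
    Tendsto (p.L i τ δ) atTop (𝓝 (p.pt i τ δ)) :=
  tendsto_atTop_ciSup (p.L_mono i τ δ) (p.L_bdd i τ δ)

lemma L_le_pt (i : Fin d) (τ : ℕ → Fin d) (δ : ℕ → Fin N) (n : ℕ) :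
    p.L i τ δ n ≤ p.pt i τ δ := le_ciSup (p.L_bdd i τ δ) n

lemma pt_le (i : Fin d) (τ : ℕ → Fin d) (δ : ℕ → Fin N) (n : ℕ) :
    p.pt i τ δ ≤ p.L i τ δ n + Real.exp (-(p.X i τ n)) :=
  ciSup_le fun m => p.L_le_U i τ δ m n

lemma tendsto_iter (ω : ℕ → p.sys.Symb) :
    Tendsto (fun n => p.sys.iter ω n 0) atTop
      (𝓝 (fun i => p.pt i (fun m => p.typ (ω m)) (fun m => p.dig (ω m)))) := by
  rw [tendsto_pi_nhds]
  intro i
  have h := p.tendsto_L i (fun m => p.typ (ω m)) (fun m => p.dig (ω m))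
  refine h.congr fun n => ?_
  rw [p.iter_eq]
  simp

lemma code_eq (ω : ℕ → p.sys.Symb) :
    p.sys.code ω = fun i => p.pt i (fun m => p.typ (ω m)) (fun m => p.dig (ω m)) :=
  (p.tendsto_iter ω).limUnder_eq

end Par

end Pool.Agent.R826.SP
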