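import Pool.Agent.R826.SPUp

set_option autoImplicit false

/-!
# MP_fc9311_an: ergodic measures, bounds for the dynamical dimension
-/

namespace Pool.Agent.R826.SP

open MeasureTheory Set Filter Topology ProbabilityTheory
open scoped ENNReal
open Par (W)

lemma shift_iter {α : Type*} (n : ℕ) (ω : ℕ → α) : shift^[n] ω = fun k => ω (n + k) := by
  induction n generalizing ω with
  | zero => simp
  | succ n ih =>
    rw [Function.iterate_succ_apply, ih]
    funext k
    simp only [shift]
    congr 1
    omega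

lemma measurable_shift {α : Type*} [MeasurableSpace α] : Measurable (shift : (ℕ → α) → (ℕ → α)) :=
  measurable_pi_iff.2 fun n => measurable_pi_apply (n + 1)

/-- the Bernoulli shift is ergodic -/
theorem ergodic_PP (N : ℕ) [IsProbabilityMeasure (unif N)] : Ergodic shift (PP N) := by
  refine { measurable := measurable_shift, map_eq := ?_, aeconst_set := ?_ }
  · have h := Measure.map_infinitePi_infinitePi_of_inj (P := fun _ : ℕ => unif N)
      (f := fun n : ℕ => n + 1) (fun a b h => by simpa using h)
    exact h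
  · intro s hs hinv
    have hP : IsProbabilityMeasure (PP N) := by unfold PP; infer_instance
    set σ : ℕ → MeasurableSpace (ℕ → Fin N) := fun n =>
      MeasurableSpace.comap (fun ω => ω n) inferInstance with hσ
    have h1 : iIndep σ (PP N) := by
      have := iIndepFun_infinitePi (P := fun _ : ℕ => unif N) (X := fun _ ω => ω)
        (fun _ => measurable_id)
      exact this
    have hle : ∀ n, σ n ≤ MeasurableSpace.pi := fun n =>
      Measurable.comap_le (measurable_pi_apply n)
    have htail : MeasurableSet[limsup σ atTop] s := by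
      rw [limsup_eq_iInf_iSup_of_nat, MeasurableSpace.measurableSet_iInf]
      intro n
      have h2 : s = (fun ω : ℕ → Fin N => fun k => ω (n + k)) ⁻¹' s := by
        have h3 : (shift^[n]) ⁻¹' s = s := by
          have : ∀ m, (shift^[m]) ⁻¹' s = s := by
            intro m
            induction m with
            | zero => simp
            | succ m ih => rw [Function.iterate_succ', preimage_comp, hinv, ih]
          exact this n
        conv_lhs => rw [← h3]
        ext ω
        simp only [mem_preimage, shift_iter]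
      rw [h2]
      refine (?_ : @Measurable _ _ (⨆ i, ⨆ (_ : i ≥ n), σ i) _
        (fun ω : ℕ → Fin N => fun k => ω (n + k))) hs
      refine @measurable_pi_iff _ _ _ (⨆ i, ⨆ (_ : i ≥ n), σ i) _ _ |>.2 fun k => ?_
      have h4 : σ (n + k) ≤ ⨆ i, ⨆ (_ : i ≥ n), σ i :=
        le_iSup₂_of_le (n + k) (by omega) le_rfl
      exact measurable_iff_comap_le.2 h4
    rcases measure_zero_or_one_of_measurableSet_limsup_atTop hle h1 htail with h5 | h5
    · rw [eventuallyConst_set']
      left
      exact ae_eq_empty.2 h5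
    · rw [eventuallyConst_set']
      right
      have h6 : (PP N) sᶜ = 0 := by
        rw [measure_compl hs (measure_ne_top _ _), h5, measure_univ, tsub_self]
      exact ae_eq_univ.2 h6

namespace Par

variable {d N : ℕ} (p : Par d N)

lemma W_sum (τ : ℕ → Fin d) (n : ℕ) : ∑ k, W τ k n = n := by
  induction n with
  | zero => simp [W]
  | succ n ih =>
    simp only [W_succ, Finset.sum_add_distrib, ih]
    simp

/-- Frequencies of an ergodic measure. -/
theorem exists_freq (μ : Measure (ℕ → p.sys.Symb)) [IsProbabilityMeasure μ]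
    (hμ : Ergodic shift μ) : ∃ w : Fin d → ℝ, (∀ k, 0 ≤ w k) ∧ ∑ k, w k = 1 ∧
      ∀ ε > 0, ∀ᵐ ω ∂μ, ∃ M, ω ∈ p.Freq w ε M := by
  classical
  set φ : Fin d → (ℕ → p.sys.Symb) → ℝ := fun k ω => if p.typ (ω 0) = k then 1 else 0 with hφ
  have hmeas : ∀ k, Measurable (φ k) := fun k =>
    (measurable_from_top (f := fun s : p.sys.Symb => if p.typ s = k then (1:ℝ) else 0)).comp
      (measurable_pi_apply 0)
  have hb : ∀ k, ∃ C, ∀ x, |φ k x| ≤ C := by
    intro k
    refine ⟨1, fun x => ?_⟩
    simp only [hφ]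
    split_ifs <;> simp
  have hint : ∀ k, Integrable (φ k) μ := by
    intro k
    obtain ⟨C, hC⟩ := hb k
    exact Integrable.of_bound (hmeas k).aestronglyMeasurable C (Eventually.of_forall hC)
  have hbk : ∀ k, ∀ᵐ ω ∂μ, Tendsto (fun n : ℕ => (W (fun m => p.typ (ω m)) k n : ℝ) / n) atTop
      (𝓝 (∫ x, φ k x ∂μ)) := by
    intro k
    filter_upwards [Pool.Agent.H165R3.birkhoff hμ (φ k) (hmeas k) (hb k)] with ω hω
    refine hω.congr fun n => ?_
    have h1 : ∑ m ∈ Finset.range n, φ k (shift^[m] ω) = (W (fun m => p.typ (ω m)) k n : ℝ) := by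
      simp only [hφ, shift_iter, add_zero]
      rw [Finset.sum_boole]
      rfl
    rw [h1]
    ring
  refine ⟨fun k => ∫ x, φ k x ∂μ, ?_, ?_, ?_⟩
  · intro k
    apply integral_nonneg
    intro x
    simp only [hφ, Pi.zero_apply]
    split_ifs <;> norm_num
  · rw [← integral_finsetSum _ (fun k _ => hint k)]
    have : ∀ x : ℕ → p.sys.Symb, ∑ k, φ k x = 1 := by
      intro x
      simp only [hφ]
      rw [Finset.sum_ite_eq Finset.univ]
      simp
    simp only [this]
    simp
  · intro ε hε
    have hall := (ae_all_iff.2 hbk)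
    filter_upwards [hall] with ω hω
    have h2 : ∀ k, ∀ᶠ n : ℕ in atTop, |(W (fun m => p.typ (ω m)) k n : ℝ) / n -
        ∫ x, φ k x ∂μ| < ε := by
      intro k
      have := (Metric.tendsto_nhds.1 (hω k)) ε hε
      simpa [Real.dist_eq] using this
    have h3 := eventually_all.2 h2
    obtain ⟨M, hM⟩ := eventually_atTop.1 h3
    refine ⟨max M 1, fun n hn k => ?_⟩
    have h4 := hM n (le_trans (le_max_left _ _) hn) k
    have hn1 : 1 ≤ n := le_trans (le_max_right _ _) hn
    have hn0 : (0:ℝ) < n := by exact_mod_cast hn1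
    have h5 : (W (fun m => p.typ (ω m)) k n : ℝ) - (∫ x, φ k x ∂μ) * n =
        ((W (fun m => p.typ (ω m)) k n : ℝ) / n - ∫ x, φ k x ∂μ) * n := by
      field_simp
    rw [h5, abs_mul, abs_of_pos hn0]
    exact mul_le_mul_of_nonneg_right h4.le hn0.le

/-- positivity of the dynamical dimension -/
theorem DynD_pos (hN : 2 ≤ N) : 0 < p.sys.DynD := by
  have := unif_prob N p.hN
  have hP : IsProbabilityMeasure (PP N) := by unfold PP; infer_instance
  have hR := p.logpos
  set τ : ℕ → Fin d := fun _ => p.d0' with hτ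
  set f : (ℕ → Fin N) → (ℕ → p.sys.Symb) := fun δ n => p.eqv (τ n, δ n) with hf
  have hfm : Measurable f := by
    rw [measurable_pi_iff]
    intro n
    exact (measurable_of_finite (fun a : Fin N => p.eqv (τ n, a))).comp (measurable_pi_apply n)
  set μ := (PP N).map f with hμ
  have hμP : IsProbabilityMeasure μ := Measure.isProbabilityMeasure_map hfm.aemeasurable
  have herg : Ergodic shift μ :=
    MeasurePreserving.ergodic_of_ergodic_semiconj (⟨hfm, rfl⟩ : MeasurePreserving f (PP N) μ)
      (ergodic_PP N) measurable_shift (fun δ => rfl)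
  have hmap : μ.map p.sys.code = (PP N).map (p.pm τ) := by
    rw [hμ, Measure.map_map p.measurable_code hfm]
    congr 1
    funext δ
    exact p.pm_code τ δ
  have hlogN : 0 < Real.log N := Real.log_pos (by
    have : (2:ℝ) ≤ N := by exact_mod_cast hN
    linarith)
  have hdim : ENNReal.ofReal (Real.log N * (1 / Real.log (2 * N))) ≤ mdim (μ.map p.sys.code) := by
    unfold mdim
    refine le_iInf₂ fun T hT => ?_
    rw [hmap] at hT
    refine p.dim_ge τ _ 1 1 (by positivity) ?_ T ?_
    · intro b hb
      have hb0 : 0 < b := by linarith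
      set v := b / Real.log (2 * N) with hv
      have hv0 : 0 < v := by positivity
      have hceil : 0 < ⌈v⌉₊ := Nat.ceil_pos.2 hv0
      have h2 : (((⌈v⌉₊ - 1 : ℕ) : ℝ)) + 1 = (⌈v⌉₊ : ℝ) := by
        have : ⌈v⌉₊ - 1 + 1 = ⌈v⌉₊ := by omega
        exact_mod_cast this
      refine ⟨fun j => if j = p.d0' then ⌈v⌉₊ - 1 else 0, ?_, ?_⟩
      · intro j
        change p.X j τ (if j = p.d0' then ⌈v⌉₊ - 1 else 0) < b
        by_cases hj : j = p.d0'
        · rw [if_pos hj, hj]
          have h1 := Nat.ceil_lt_add_one hv0.le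
          have h3 : p.X p.d0' τ (⌈v⌉₊ - 1) = ((⌈v⌉₊ - 1 : ℕ) : ℝ) * Real.log (2 * N) := by
            simp only [X, hτ]
            rw [Finset.sum_const, Finset.card_range, nsmul_eq_mul, p.diag]
          rw [h3]
          have h4 : ((⌈v⌉₊ - 1 : ℕ) : ℝ) < v := by linarith
          rw [hv, lt_div_iff₀ hR] at h4
          exact h4
        · rw [if_neg hj, X_zero]
          exact hb0
      · have h3 : ((⌈v⌉₊ - 1 : ℕ) : ℝ) ≤
            ((∑ j, W τ j (if j = p.d0' then ⌈v⌉₊ - 1 else 0) : ℕ) : ℝ) := by
          have h4 : W τ p.d0' (⌈v⌉₊ - 1) = ⌈v⌉₊ - 1 := by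
            simp [W, hτ]
          have h5 := Finset.single_le_sum
            (f := fun j => W τ j (if j = p.d0' then ⌈v⌉₊ - 1 else 0))
            (fun _ _ => Nat.zero_le _) (Finset.mem_univ p.d0')
          simp only [if_true, h4] at h5
          exact_mod_cast h5
        refine le_trans ?_ h3
        have h6 := Nat.le_ceil v
        have h7 : 1 / Real.log (2 * N) * b = v := by rw [hv]; ring
        linarith
    · intro h0
      have hprob : IsProbabilityMeasure ((PP N).map (p.pm τ)) :=
        Measure.isProbabilityMeasure_map (p.measurable_pm τ).aemeasurable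
      have h1 : ((PP N).map (p.pm τ)) univ ≤ 0 := by
        rw [← union_compl_self T]
        exact (measure_union_le _ _).trans (by rw [h0, hT, add_zero])
      rw [measure_univ] at h1
      exact absurd h1 (by simp)
  have h1 : mdim (μ.map p.sys.code) ≤ p.sys.DynD :=
    le_iSup₂ (f := fun (μ : Measure (ℕ → p.sys.Symb))
      (_ : IsProbabilityMeasure μ ∧ Ergodic shift μ) => mdim (μ.map p.sys.code)) μ ⟨hμP, herg⟩
  refine lt_of_lt_of_le ?_ (hdim.trans h1)
  rw [ENNReal.ofReal_pos]
  positivity

/-- upper bound for the dynamical dimension -/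
theorem DynD_le (χm : ℝ) (hχm : 0 < χm) (t : ℝ) (hc : ∀ j k, χm ≤ p.c j k)
    (h : ∀ w : Fin d → ℝ, (∀ k, 0 ≤ w k) → ∑ k, w k = 1 →
      Real.log d / χm + ∑ j, w j * Real.log N / (∑ k, p.c j k * w k) < t) :
    p.sys.DynD ≤ ENNReal.ofReal t := by
  unfold Sys.DynD
  refine iSup₂_le fun μ hμ => ?_
  have := hμ.1
  obtain ⟨w, hw, hw1, hfreq⟩ := p.exists_freq μ hμ.2
  refine p.mdim_le μ w hw hfreq (fun j => ∑ k, p.c j k * w k) (fun _ => rfl) χm hχm ?_ t
    (h w hw hw1)
  intro j
  calc χm = ∑ k, χm * w k := by rw [← Finset.mul_sum, hw1, mul_one]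
    _ ≤ _ := Finset.sum_le_sum fun k _ => mul_le_mul_of_nonneg_right (hc j k) (hw k)

end Par

end Pool.Agent.R826.SP
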