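import Pool.Agent.R826.SPErg

set_option autoImplicit false

/-!
# MP_fc9311_an: choice of the parameters, and the growth of the gap
-/

namespace Pool.Agent.R826.SP

open MeasureTheory Set Filter Topology
open scoped ENNReal

/-- sums of numbers with small triple products -/
theorem sum_u {d : ℕ} (u : Fin d → ℝ) (κ : ℝ) (hκ : 0 ≤ κ) (h0 : ∀ j, 0 ≤ u j)
    (h1 : ∀ j, u j ≤ 1) (h2 : ∀ j k, j ≠ k → u j + u k ≤ 1)
    (h3 : ∀ a b c, a ≠ b → b ≠ c → a ≠ c → u a * u b * u c ≤ κ ^ 3) :
    ∑ j, u j ≤ 1 + d * κ := by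
  classical
  rcases Nat.eq_zero_or_pos d with rfl | hd
  · simp
  have hne : (Finset.univ : Finset (Fin d)).Nonempty := ⟨⟨0, hd⟩, Finset.mem_univ _⟩
  obtain ⟨a, _, ha⟩ := Finset.exists_max_image _ u hne
  have hdκ : 0 ≤ (d:ℝ) * κ := by positivity
  rw [← Finset.add_sum_erase _ u (Finset.mem_univ a)]
  rcases (Finset.univ.erase a).eq_empty_or_nonempty with he | hne2
  · rw [he]
    simp only [Finset.sum_empty, add_zero]
    linarith [h1 a]
  obtain ⟨b, hb, hbm⟩ := Finset.exists_max_image _ u hne2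
  rw [← Finset.add_sum_erase _ u hb]
  have hab : b ≠ a := (Finset.mem_erase.1 hb).1
  have h4 : ∀ c ∈ (Finset.univ.erase a).erase b, u c ≤ κ := by
    intro c hc
    have hcb : c ≠ b := (Finset.mem_erase.1 hc).1
    have hc2 := (Finset.mem_erase.1 hc).2
    have hca : c ≠ a := (Finset.mem_erase.1 hc2).1
    have h5 := h3 a b c hab.symm hcb.symm hca.symm
    have h6 : u c ≤ u b := hbm c hc2
    have h7 : u c ≤ u a := ha c (Finset.mem_univ _)
    have h8 : u c ^ 3 ≤ κ ^ 3 := by
      refine le_trans ?_ h5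
      have : u c ^ 3 = u c * u c * u c := by ring
      rw [this]
      apply mul_le_mul_of_nonneg_right _ (h0 c)
      exact mul_le_mul h7 h6 (h0 c) (h0 a)
    exact (pow_le_pow_iff_left₀ (h0 c) hκ (by norm_num)).1 h8
  have h5 := Finset.sum_le_card_nsmul _ _ _ h4
  have h6 : (((Finset.univ.erase a).erase b).card : ℝ) ≤ d := by
    have : ((Finset.univ.erase a).erase b).card ≤ (Finset.univ : Finset (Fin d)).card :=
      Finset.card_le_card ((Finset.erase_subset _ _).trans (Finset.erase_subset _ _))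
    rw [Finset.card_univ, Fintype.card_fin] at this
    exact_mod_cast this
  rw [nsmul_eq_mul] at h5
  have h7 := mul_le_mul_of_nonneg_right h6 hκ
  have h8 := h2 a b hab.symm
  linarith

/-- the matrix -/
noncomputable def gam (d G : ℕ) (j k : Fin d) : ℝ :=
  if j = k then 1 else (G:ℝ) ^ d / (G:ℝ) ^ (2 * res j k)

lemma res_add {d : ℕ} {j k : Fin d} (h : j ≠ k) : res j k + res k j = d := by
  have h1 : j.1 ≠ k.1 := fun e => h (Fin.ext e)
  have := j.2
  have := k.2
  unfold res
  split_ifs <;> omega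

lemma res_triple {d : ℕ} {a b c : Fin d} (h1 : a.1 < b.1) (h2 : b.1 < c.1) :
    res a b + res b c + res c a = d := by
  have := c.2
  unfold res
  rw [if_pos h1, if_pos h2, if_neg (by omega)]
  omega

section
variable {d G : ℕ} (hG : 1 ≤ G)
include hG

lemma G0 : (0:ℝ) < G := by exact_mod_cast hG

lemma gam_pos (j k : Fin d) : 0 < gam d G j k := by
  have := G0 hG
  unfold gam
  split_ifs <;> positivity

lemma gam_pair {j k : Fin d} (h : j ≠ k) : gam d G j k * gam d G k j = 1 := by
  have h0 := G0 hG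
  unfold gam
  rw [if_neg h, if_neg h.symm, div_mul_div_comm, ← pow_add, ← pow_add]
  have h1 := res_add h
  have h2 : 2 * res j k + 2 * res k j = d + d := by omega
  rw [h2]
  exact div_self (by positivity)

lemma gam_triple {a b c : Fin d} (h1 : a.1 < b.1) (h2 : b.1 < c.1) :
    gam d G a b * gam d G b c * gam d G c a = (G:ℝ) ^ d := by
  have h0 := G0 hG
  unfold gam
  rw [if_neg (fun e => by rw [e] at h1; omega), if_neg (fun e => by rw [e] at h2; omega),
    if_neg (fun e => by rw [e] at h2; omega)]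
  have h3 := res_triple h1 h2
  have h4 : (G:ℝ) ^ d / (G:ℝ) ^ (2 * res a b) * ((G:ℝ) ^ d / (G:ℝ) ^ (2 * res b c)) *
      ((G:ℝ) ^ d / (G:ℝ) ^ (2 * res c a)) =
      (G:ℝ) ^ (d + d + d) / (G:ℝ) ^ (2 * res a b + 2 * res b c + 2 * res c a) := by
    rw [pow_add, pow_add, pow_add, pow_add]
    field_simp
  rw [h4]
  have h5 : 2 * res a b + 2 * res b c + 2 * res c a = d + d := by omega
  rw [h5, pow_add (G:ℝ) (d + d) d]
  have h6 : (G:ℝ) ^ (d + d) ≠ 0 := by positivity
  field_simp

lemma gam_lower (j k : Fin d) : 1 / (G:ℝ) ^ d ≤ gam d G j k := by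
  have h0 := G0 hG
  have h1 : (1:ℝ) ≤ G := by exact_mod_cast hG
  have h2 : (1:ℝ) ≤ (G:ℝ) ^ d := one_le_pow₀ h1
  unfold gam
  split_ifs with h
  · rw [div_le_one (by positivity)]
    exact h2
  · have hr : res j k ≤ d := by
      have := res_add h
      omega
    rw [div_le_div_iff₀ (by positivity) (by positivity), one_mul, ← pow_add]
    exact pow_le_pow_right₀ h1 (by omega)

end

/-- the weighted sum -/
theorem sum_gam {d g : ℕ} (hg : 1 ≤ g) (w : Fin d → ℝ) (hw : ∀ k, 0 ≤ w k)
    (hw1 : ∑ k, w k = 1) :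
    ∑ j, w j / (∑ k, gam d (g ^ 3) j k * w k) ≤ 1 + d * (1 / (g:ℝ) ^ d) := by
  classical
  have hG : 1 ≤ g ^ 3 := Nat.one_le_pow _ _ hg
  have hg0 : (0:ℝ) < g := by exact_mod_cast hg
  have hterm : ∀ j k, 0 ≤ gam d (g ^ 3) j k * w k := fun j k =>
    mul_nonneg (gam_pos hG j k).le (hw k)
  have hD : ∀ j, 0 < ∑ k, gam d (g ^ 3) j k * w k := by
    intro j
    have h1 : ∑ k, (1 / ((g ^ 3 : ℕ) : ℝ) ^ d) * w k ≤ ∑ k, gam d (g ^ 3) j k * w k :=
      Finset.sum_le_sum fun k _ => mul_le_mul_of_nonneg_right (gam_lower hG j k) (hw k)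
    rw [← Finset.mul_sum, hw1, mul_one] at h1
    refine lt_of_lt_of_le ?_ h1
    have := G0 hG
    positivity
  have hown : ∀ j, w j ≤ ∑ k, gam d (g ^ 3) j k * w k := by
    intro j
    have h1 := Finset.single_le_sum (f := fun k => gam d (g ^ 3) j k * w k)
      (fun k _ => hterm j k) (Finset.mem_univ j)
    have h2 : gam d (g ^ 3) j j = 1 := by simp [gam]
    rwa [h2, one_mul] at h1
  have hone : ∀ j k, gam d (g ^ 3) j k * w k ≤ ∑ k, gam d (g ^ 3) j k * w k := fun j k =>
    Finset.single_le_sum (f := fun k => gam d (g ^ 3) j k * w k)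
      (fun k _ => hterm j k) (Finset.mem_univ k)
  have htwo : ∀ j k, j ≠ k → w j + gam d (g ^ 3) j k * w k ≤
      ∑ k, gam d (g ^ 3) j k * w k := by
    intro j k hjk
    have h1 : ∑ l ∈ ({j, k} : Finset (Fin d)), gam d (g ^ 3) j l * w l ≤
        ∑ k, gam d (g ^ 3) j k * w k :=
      Finset.sum_le_sum_of_subset_of_nonneg (Finset.subset_univ _) (fun l _ _ => hterm j l)
    rw [Finset.sum_pair hjk] at h1
    have h2 : gam d (g ^ 3) j j = 1 := by simp [gam]
    rwa [h2, one_mul] at h1
  refine sum_u _ _ (by positivity) ?_ ?_ ?_ ?_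
  · intro j
    exact div_nonneg (hw j) (hD j).le
  · intro j
    rw [div_le_one (hD j)]
    exact hown j
  · intro j k hjk
    have hγ := gam_pos hG j k
    have hγ2 := gam_pair hG hjk
    have hj := htwo j k hjk
    have hk := htwo k j hjk.symm
    set Dj := ∑ l, gam d (g ^ 3) j l * w l with hDj
    set Dk := ∑ l, gam d (g ^ 3) k l * w l with hDk
    have hDj0 : 0 < Dj := hD j
    have hDk0 : 0 < Dk := hD k
    rcases (hw j).eq_or_lt with h0 | h0
    · rw [← h0, zero_div, zero_add, div_le_one hDk0]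
      exact hown k
    · have hE : 0 < w j + gam d (g ^ 3) j k * w k := by
        have := hterm j k
        linarith
      have h1 : w j / Dj ≤ w j / (w j + gam d (g ^ 3) j k * w k) :=
        div_le_div_of_nonneg_left (hw j) hE hj
      have hE2 : 0 < w k + gam d (g ^ 3) k j * w j := by
        have := mul_pos (gam_pos hG k j) h0
        have := hw k
        linarith
      have h2 : w k / Dk ≤ w k / (w k + gam d (g ^ 3) k j * w j) :=
        div_le_div_of_nonneg_left (hw k) hE2 hk
      have h3 : w k / (w k + gam d (g ^ 3) k j * w j) =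
          gam d (g ^ 3) j k * w k / (w j + gam d (g ^ 3) j k * w k) := by
        rw [div_eq_div_iff hE2.ne' hE.ne']
        have e : gam d (g ^ 3) j k * w k * (w k + gam d (g ^ 3) k j * w j) =
          w k * (gam d (g ^ 3) j k * w k + (gam d (g ^ 3) j k * gam d (g ^ 3) k j) * w j) := by
          ring
        rw [e, hγ2]
        ring
      have h4 : w j / (w j + gam d (g ^ 3) j k * w k) +
          gam d (g ^ 3) j k * w k / (w j + gam d (g ^ 3) j k * w k) = 1 := by
        rw [← add_div, div_self hE.ne']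
      linarith
  · -- triples
    have key : ∀ a b c : Fin d, a.1 < b.1 → b.1 < c.1 →
        (w a / (∑ k, gam d (g ^ 3) a k * w k)) * (w b / (∑ k, gam d (g ^ 3) b k * w k)) *
        (w c / (∑ k, gam d (g ^ 3) c k * w k)) ≤ (1 / (g:ℝ) ^ d) ^ 3 := by
      intro a b c hab hbc
      have h1 := hone a b
      have h2 := hone b c
      have h3 := hone c a
      have hDa := hD a
      have hDb := hD b
      have hDc := hD c
      set Da := ∑ k, gam d (g ^ 3) a k * w k
      set Db := ∑ k, gam d (g ^ 3) b k * w k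
      set Dc := ∑ k, gam d (g ^ 3) c k * w k
      have h4 : (gam d (g ^ 3) a b * w b) * (gam d (g ^ 3) b c * w c) *
          (gam d (g ^ 3) c a * w a) ≤ Da * Db * Dc :=
        mul_le_mul (mul_le_mul h1 h2 (hterm b c) hDa.le) h3 (hterm c a)
          (mul_nonneg hDa.le hDb.le)
      have h5 : (gam d (g ^ 3) a b * w b) * (gam d (g ^ 3) b c * w c) *
          (gam d (g ^ 3) c a * w a) = ((g ^ 3 : ℕ) : ℝ) ^ d * (w a * w b * w c) := by
        rw [← gam_triple hG hab hbc]
        ring
      rw [h5] at h4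
      have h6 : w a / Da * (w b / Db) * (w c / Dc) = (w a * w b * w c) / (Da * Db * Dc) := by
        field_simp
      rw [h6, div_le_iff₀ (by positivity)]
      have h7 : (1 / (g:ℝ) ^ d) ^ 3 = 1 / ((g ^ 3 : ℕ) : ℝ) ^ d := by
        push_cast
        rw [div_pow, one_pow, ← pow_mul, ← pow_mul, mul_comm]
      rw [h7, div_mul_eq_mul_div, one_mul, le_div_iff₀ (by positivity)]
      linarith
    intro a b c hab hbc hac
    have hab' : a.1 ≠ b.1 := fun e => hab (Fin.ext e)
    have hbc' : b.1 ≠ c.1 := fun e => hbc (Fin.ext e)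
    have hac' : a.1 ≠ c.1 := fun e => hac (Fin.ext e)
    rcases lt_or_gt_of_ne hab' with h1 | h1 <;> rcases lt_or_gt_of_ne hbc' with h2 | h2 <;>
      rcases lt_or_gt_of_ne hac' with h3 | h3
    · exact key a b c h1 h2
    · omega
    · refine le_trans (le_of_eq ?_) (key a c b h3 h2); ring
    · refine le_trans (le_of_eq ?_) (key c a b h3 h1); ring
    · refine le_trans (le_of_eq ?_) (key b a c h1 h3); ring
    · refine le_trans (le_of_eq ?_) (key b c a h2 h3); ring
    · omega
    · refine le_trans (le_of_eq ?_) (key c b a h2 h1); ring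

/-- The sponges. -/
theorem exists_sponge (d : ℕ) (hd : 2 ≤ d) (η : ℝ) (hη : 0 < η) :
    ∃ S : Sys d, S.Baranski ∧ S.E.Nontrivial ∧ 0 < S.DynD ∧ S.DynD ≤ ENNReal.ofReal (1 + η) ∧
      ENNReal.ofReal ((((d - 1) / 2 : ℕ) : ℝ) - η) ≤ S.HD := by
  have hd0 : (0:ℝ) < d := by
    have : 0 < d := by omega
    exact_mod_cast this
  have hd2 : (2:ℝ) ≤ d := by exact_mod_cast hd
  set M : ℝ := 2 * d / η + 2 with hM
  have hdη : 0 < 2 * d / η := by positivity
  have hM1 : 1 < M := by linarith
  obtain ⟨g, hg⟩ := exists_nat_ge (2 * d * M)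
  have hgM : 2 * d * M ≤ g := hg
  have hg4 : (4:ℝ) ≤ g := by nlinarith
  have hg1 : 1 ≤ g := by
    have : (1:ℝ) ≤ g := by linarith
    exact_mod_cast this
  have hg2 : 2 ≤ g := by
    have : (2:ℝ) ≤ g := by linarith
    exact_mod_cast this
  set G := g ^ 3 with hGd
  have hG1 : 1 ≤ G := Nat.one_le_pow _ _ hg1
  have hGg : g ≤ G := by
    rw [hGd]
    calc g = g ^ 1 := (pow_one g).symm
      _ ≤ g ^ 3 := Nat.pow_le_pow_right hg1 (by norm_num)
  have hG2 : 2 ≤ G := hg2.trans hGg
  have hG0 : (0:ℝ) < G := by exact_mod_cast hG1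
  have hGd0 : (0:ℝ) < (G:ℝ) ^ d := by positivity
  have hlogd : 0 ≤ Real.log d := Real.log_nonneg (by linarith)
  have hlog2d : 0 ≤ Real.log (2 * d) := Real.log_nonneg (by linarith)
  have hlog2 : 0 < Real.log 2 := Real.log_pos (by norm_num)
  -- the number of digits
  set R0 : ℝ := (G:ℝ) ^ d * Real.log (2 * d) + 2 * ((G:ℝ) ^ d * Real.log d) / η + 1 +
    2 * d * Real.log 2 / η with hR0
  obtain ⟨N, hN⟩ := exists_nat_ge (Real.exp R0 + 2)
  have hN2 : (2:ℝ) ≤ N := by
    have := Real.exp_pos R0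
    linarith
  have hN2' : 2 ≤ N := by exact_mod_cast hN2
  have hN0 : (0:ℝ) < N := by linarith
  have hR : R0 ≤ Real.log (2 * N) := by
    rw [Real.le_log_iff_exp_le (by positivity)]
    linarith
  have hp1 : 0 ≤ (G:ℝ) ^ d * Real.log (2 * d) := by positivity
  have hp2 : 0 ≤ 2 * ((G:ℝ) ^ d * Real.log d) / η := by positivity
  have hp3 : 0 < 2 * d * Real.log 2 / η := by positivity
  have hR1 : 0 < Real.log (2 * N) := by linarith
  set R := Real.log (2 * N) with hRd
  have hcl : ∀ j k : Fin d, R * (1 / (G:ℝ) ^ d) ≤ R * gam d G j k := fun j k =>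
    mul_le_mul_of_nonneg_left (gam_lower hG1 j k) hR1.le
  let p : Par d N :=
    { c := fun j k => R * gam d G j k
      diag := fun j => by simp [gam, hRd]
      big := fun j k => by
        have h1 := hcl j k
        have h2 : Real.log (2 * d) ≤ R * (1 / (G:ℝ) ^ d) := by
          rw [mul_one_div, le_div_iff₀ hGd0]
          linarith
        rw [Real.exp_neg, one_div]
        apply inv_anti₀ (by positivity)
        rw [← Real.log_le_iff_le_exp (by positivity)]
        linarith
      hN := by omega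
      hd := by omega }
  have hpc : ∀ j k, p.c j k = R * gam d G j k := fun _ _ => rfl
  have hpG : p.IsG G := fun j k => rfl
  refine ⟨p.sys, p.baranski, ?_, p.DynD_pos hN2', ?_, ?_⟩
  · refine ⟨p.sym p.d0' ⟨0, by omega⟩, ⟨(p.d0', ⟨0, by omega⟩), rfl⟩, p.sym p.d0' ⟨1, by omega⟩,
      ⟨(p.d0', ⟨1, by omega⟩), rfl⟩, ?_⟩
    intro h
    have h1 := p.sym_inj (a₁ := (p.d0', (⟨0, by omega⟩ : Fin N)))
      (a₂ := (p.d0', (⟨1, by omega⟩ : Fin N))) h
    simp at h1
  · refine p.DynD_le (R * (1 / (G:ℝ) ^ d)) (by positivity) (1 + η) (fun j k => hcl j k) ?_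
    intro w hw hw1
    have h1 : Real.log d / (R * (1 / (G:ℝ) ^ d)) < η / 2 := by
      rw [div_lt_iff₀ (by positivity)]
      have h2 : 2 * ((G:ℝ) ^ d * Real.log d) / η < R := by linarith
      rw [div_lt_iff₀ hη] at h2
      rw [mul_one_div, mul_div_assoc', lt_div_iff₀ hGd0]
      linarith
    have h3 : ∑ j, w j * Real.log N / (∑ k, p.c j k * w k) ≤
        ∑ j, w j / (∑ k, gam d (g ^ 3) j k * w k) := by
      refine Finset.sum_le_sum fun j _ => ?_
      have h4 : ∑ k, p.c j k * w k = R * ∑ k, gam d (g ^ 3) j k * w k := by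
        rw [Finset.mul_sum]
        exact Finset.sum_congr rfl fun k _ => by rw [hpc]; ring
      have h5 : 0 < ∑ k, gam d (g ^ 3) j k * w k := by
        have h6 : ∑ k, (1 / (G:ℝ) ^ d) * w k ≤ ∑ k, gam d (g ^ 3) j k * w k :=
          Finset.sum_le_sum fun k _ => mul_le_mul_of_nonneg_right (gam_lower hG1 j k) (hw k)
        rw [← Finset.mul_sum, hw1, mul_one] at h6
        refine lt_of_lt_of_le ?_ h6
        positivity
      rw [h4, div_le_div_iff₀ (by positivity) h5]
      have h7 : Real.log N ≤ R := Real.log_le_log hN0 (by linarith)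
      have h8 := mul_le_mul_of_nonneg_left h7 (mul_nonneg (hw j) h5.le)
      linarith
    have h4 := sum_gam hg1 w hw hw1
    have h5 : (d:ℝ) * (1 / (g:ℝ) ^ d) ≤ η / 2 := by
      have h6 : (g:ℝ) ≤ (g:ℝ) ^ d := by
        calc (g:ℝ) = (g:ℝ) ^ 1 := (pow_one _).symm
          _ ≤ _ := pow_le_pow_right₀ (by linarith) (by omega)
      have h7 : 2 * d / η ≤ g := by nlinarith
      rw [div_le_iff₀ hη] at h7
      rw [mul_one_div, div_le_iff₀ (by positivity)]
      nlinarith
    linarith
  · have hm : 2 * ((d - 1) / 2) + 1 ≤ d := by omega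
    have hGM : 2 * d * M ≤ G := hgM.trans (by exact_mod_cast hGg)
    refine le_trans ?_ (p.HD_ge hG2 hpG M hM1 hGM ((d - 1) / 2) hm)
    apply ENNReal.ofReal_le_ofReal
    set m := (d - 1) / 2 with hmd
    have hmd' : (m:ℝ) ≤ d := by
      have : m ≤ d := by omega
      exact_mod_cast this
    have hm0 : (0:ℝ) ≤ m := by positivity
    have hlogN : Real.log N = R - Real.log 2 := by
      rw [hRd, Real.log_mul (by norm_num) (by positivity)]
      ring
    rw [← hRd, hlogN]
    have hx : Real.log 2 / R ≤ η / (2 * d) := by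
      rw [div_le_div_iff₀ hR1 (by positivity)]
      have h2 : 2 * d * Real.log 2 / η ≤ R := by linarith
      rw [div_le_iff₀ hη] at h2
      linarith
    have hy : 1 / M ≤ η / (2 * d) := by
      rw [div_le_div_iff₀ (by linarith) (by positivity)]
      have : M * η = 2 * d + 2 * η := by
        rw [hM]
        field_simp
      linarith
    have hx0 : 0 ≤ Real.log 2 / R := by positivity
    have hy0 : 0 ≤ 1 / M := by
      have : 0 < M := by linarith
      positivity
    have e : (R - Real.log 2) * (m * ((1 - 1 / M) / R)) =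
        m * ((1 - Real.log 2 / R) * (1 - 1 / M)) := by
      field_simp
    rw [e]
    have h1 : 1 - η / d ≤ (1 - Real.log 2 / R) * (1 - 1 / M) := by
      have h2 : η / d = η / (2 * d) + η / (2 * d) := by
        field_simp
        norm_num
      rw [h2]
      have h3 := mul_nonneg hx0 hy0
      have h4 : (1 - Real.log 2 / R) * (1 - 1 / M) =
          1 - Real.log 2 / R - 1 / M + Real.log 2 / R * (1 / M) := by ring
      rw [h4]
      linarith
    have h3 := mul_le_mul_of_nonneg_left h1 hm0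
    have h4 : (m:ℝ) * (1 - η / d) = m - m * η / d := by ring
    have h5 : (m:ℝ) * η / d ≤ η := by
      rw [div_le_iff₀ hd0]
      have := mul_le_mul_of_nonneg_right hmd' hη.le
      linarith
    linarith

/-- The lower bound for the relative maximal dimension gap. -/
theorem MDG_ge (d : ℕ) (hd : 2 ≤ d) : (((d + 1) / 2 - 2 : ℕ) : ℝ≥0∞) ≤ MDG d := by
  set m := (d - 1) / 2 with hm
  have h1 : (((d + 1) / 2 - 2 : ℕ) : ℝ≥0∞) = ENNReal.ofReal ((m:ℝ) - 1) := by
    have e : (d + 1) / 2 - 2 = m - 1 := by omega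
    rw [e]
    rcases Nat.eq_zero_or_pos m with h0 | h0
    · rw [h0]
      simp
    · obtain ⟨k, hk⟩ : ∃ k, m = k + 1 := ⟨m - 1, by omega⟩
      rw [hk]
      simp
  rw [h1]
  -- limit in η
  have hlim : Tendsto (fun η : ℝ => ENNReal.ofReal (((m:ℝ) - η - (1 + η)) / (1 + η))) (𝓝[>] 0)
      (𝓝 (ENNReal.ofReal (((m:ℝ) - 0 - (1 + 0)) / (1 + 0)))) := by
    apply ENNReal.tendsto_ofReal
    have hc : ContinuousAt (fun η : ℝ => ((m:ℝ) - η - (1 + η)) / (1 + η)) 0 := by
      apply ContinuousAt.div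
      · fun_prop
      · fun_prop
      · norm_num
    exact hc.tendsto.mono_left nhdsWithin_le_nhds
  have h2 : ((m:ℝ) - 0 - (1 + 0)) / (1 + 0) = (m:ℝ) - 1 := by ring
  rw [h2] at hlim
  refine le_of_tendsto hlim ?_
  filter_upwards [self_mem_nhdsWithin] with η hη
  have hη0 : (0:ℝ) < η := hη
  obtain ⟨S, hB, hE, hpos, hD, hH⟩ := exists_sponge d hd η hη0
  have hle : (S.HD - S.DynD) / S.DynD ≤ MDG d :=
    le_iSup₂ (f := fun (S : Sys d) (_ : S.Baranski ∧ S.E.Nontrivial) =>
      (S.HD - S.DynD) / S.DynD) S ⟨hB, hE⟩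
  refine le_trans ?_ hle
  rw [ENNReal.ofReal_div_of_pos (by linarith), ENNReal.ofReal_sub _ (by linarith)]
  exact ENNReal.div_le_div (tsub_le_tsub hH hD) hD

end Pool.Agent.R826.SP
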