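import Pool.Agent.R826.SPSch

set_option autoImplicit false

/-!
# MP_fc9311_an: the lower bound for the Hausdorff dimension
-/

namespace Pool.Agent.R826.SP

open MeasureTheory Set Filter Topology
open scoped ENNReal
open Par (W)

namespace Par

variable {d N : ℕ} (p : Par d N)

lemma pm_code (τ : ℕ → Fin d) (δ : ℕ → Fin N) :
    p.sys.code (fun n => p.eqv (τ n, δ n)) = p.pm τ δ := by
  rw [p.code_eq]
  funext i
  simp [pm]

lemma inv_pow_eq (hN : 1 ≤ N) (n : ℕ) :
    ((N : ℝ≥0∞)⁻¹) ^ n = ENNReal.ofReal (Real.exp (-(Real.log N * n))) := by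
  have hN0 : (0:ℝ) < N := by exact_mod_cast hN
  have h1 : (N : ℝ≥0∞)⁻¹ = ENNReal.ofReal (Real.exp (-(Real.log N))) := by
    rw [Real.exp_neg, Real.exp_log hN0, ENNReal.ofReal_inv_of_pos hN0, ENNReal.ofReal_natCast]
  rw [h1, ← ENNReal.ofReal_pow (Real.exp_pos _).le, ← Real.exp_nat_mul]
  congr 2
  ring

/-- from a bound for the exponents to a bound for the dimension -/
theorem dim_ge [IsProbabilityMeasure (unif N)] (τ : ℕ → Fin d) (a B b0 : ℝ) (ha : 0 ≤ a)
    (h : ∀ b : ℝ, b0 ≤ b → ∃ n' : Fin d → ℕ, (∀ j, p.X j τ (n' j) < b) ∧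
      a * b - B ≤ ((∑ j, W τ j (n' j) : ℕ) : ℝ)) (T : Set (Fin d → ℝ))
    (hT : ((PP N).map (p.pm τ)) T ≠ 0) :
    ENNReal.ofReal (Real.log N * a) ≤ dimH T := by
  have hN1 : (1:ℝ) ≤ N := by exact_mod_cast p.hN
  have hlog : 0 ≤ Real.log N := Real.log_nonneg hN1
  have hla : 0 ≤ Real.log N * a := mul_nonneg hlog ha
  have key := dimH_ge_of_mass ((PP N).map (p.pm τ)) T hT (Real.toNNReal (Real.log N * a))
    (3 ^ d * Real.exp (Real.log N * B)) b0 (by positivity) ?_
  · exact key
  · intro b hb U hUc hU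
    obtain ⟨n', hn1, hn2⟩ := h b hb
    rw [Measure.map_apply (p.measurable_pm τ) hUc.measurableSet]
    have h1 := p.mass τ n' U ?_
    · refine h1.trans ?_
      rw [inv_pow_eq p.hN]
      have h2 : (3:ℝ≥0∞) ^ d = ENNReal.ofReal (3 ^ d) := by
        rw [ENNReal.ofReal_pow (by norm_num)]
        simp
      rw [h2, ← ENNReal.ofReal_mul (by positivity)]
      apply ENNReal.ofReal_le_ofReal
      rw [mul_assoc]
      apply mul_le_mul_of_nonneg_left _ (by positivity)
      rw [← Real.exp_add]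
      apply Real.exp_le_exp.2
      have h3 := mul_le_mul_of_nonneg_left hn2 hlog
      rw [Real.coe_toNNReal _ hla]
      nlinarith
    · intro x hx y hy i
      have h3 : edist x y ≤ ENNReal.ofReal (Real.exp (-b)) :=
        (Metric.edist_le_ediam_of_mem hx hy).trans hU
      rw [edist_dist] at h3
      have h4 := (ENNReal.ofReal_le_ofReal_iff (Real.exp_pos _).le).1 h3
      have h5 := dist_le_pi_dist x y i
      rw [Real.dist_eq] at h5
      have h6 : Real.exp (-b) < Real.exp (-(p.X i τ (n' i))) :=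
        Real.exp_lt_exp.2 (by linarith [hn1 i])
      linarith

/-- the lower bound for the Hausdorff dimension -/
theorem HD_ge {G : ℕ} (hG : 2 ≤ G) (hp : p.IsG G) (M : ℝ) (hM : 1 < M)
    (hGM : 2 * d * M ≤ G) (m : ℕ) (hm : 2 * m + 1 ≤ d) :
    ENNReal.ofReal (Real.log N * (m * ((1 - 1 / M) / Real.log (2 * N)))) ≤ p.sys.HD := by
  have := unif_prob N p.hN
  have hR := p.logpos
  have hMi : 0 < 1 - 1 / M := by
    rw [sub_pos, div_lt_one (by linarith)]
    exact hM
  refine p.dim_ge (sched d G p.hd) _ m (Real.log (2 * N) + 1) (by positivity) ?_ _ ?_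
  · intro b hb
    obtain ⟨n', h1, h2⟩ := p.sched_main hG hp M hM hGM m hm b (by linarith)
    refine ⟨n', h1, le_trans (le_of_eq ?_) h2⟩
    ring
  · have h1 : PP N univ ≤ ((PP N).map (p.pm (sched d G p.hd))) (range p.sys.code) := by
      refine le_trans (measure_mono ?_)
        (Measure.le_map_apply (p.measurable_pm (sched d G p.hd)).aemeasurable _)
      intro δ _
      exact ⟨_, p.pm_code (sched d G p.hd) δ⟩
    have h2 : PP N univ = 1 := by
      rw [PP]
      exact measure_univ
    rw [h2] at h1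
    intro h0
    rw [h0] at h1
    exact absurd h1 (by simp)

end Par

end Pool.Agent.R826.SP
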