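import Pool.Agent.R826.SPLow

set_option autoImplicit false

/-!
# MP_fc9311_an: the schedule of types, and the lower bound for the Hausdorff dimension
-/

namespace Pool.Agent.R826.SP

open MeasureTheory Set Filter Topology
open scoped ENNReal
open Par (W)

/-- beginning of phase `k` -/
def sph (G : ℕ) (k : ℕ) : ℕ := ∑ i ∈ Finset.range k, G ^ (2 * i)

/-- the phase of time `n` -/
def phs (G n : ℕ) : ℕ := Nat.findGreatest (fun k => sph G k ≤ n) n

/-- the schedule of types -/
def sched (d G : ℕ) (hd : 1 ≤ d) (n : ℕ) : Fin d := ⟨phs G n % d, Nat.mod_lt _ hd⟩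

lemma sph_succ (G k : ℕ) : sph G (k + 1) = sph G k + G ^ (2 * k) := by
  simp [sph, Finset.sum_range_succ]

lemma sph_mono (G : ℕ) : Monotone (sph G) :=
  monotone_nat_of_le_succ fun k => by rw [sph_succ]; omega

lemma le_sph (G k : ℕ) (hG : 1 ≤ G) : k ≤ sph G k := by
  induction k with
  | zero => simp
  | succ k ih =>
    rw [sph_succ]
    have : 1 ≤ G ^ (2 * k) := Nat.one_le_pow _ _ hG
    omega

lemma phs_eq (G k q : ℕ) (hG : 1 ≤ G) (hq : q < G ^ (2 * k)) : phs G (sph G k + q) = k := by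
  rw [phs, Nat.findGreatest_eq_iff]
  refine ⟨(le_sph G k hG).trans (Nat.le_add_right _ _), fun _ => Nat.le_add_right _ _, ?_⟩
  intro n hn _
  have h1 : sph G (k + 1) ≤ sph G n := sph_mono G hn
  rw [sph_succ] at h1
  omega

lemma W_succ {d : ℕ} (τ : ℕ → Fin d) (i : Fin d) (n : ℕ) :
    W τ i (n + 1) = W τ i n + if τ n = i then 1 else 0 := by
  unfold W
  rw [Finset.range_add_one, Finset.filter_insert]
  by_cases h : τ n = i
  · rw [if_pos h, if_pos h, Finset.card_insert_of_notMem (by simp)]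
  · rw [if_neg h, if_neg h, add_zero]

lemma W_phase {d G : ℕ} (hd : 1 ≤ d) (hG : 1 ≤ G) (i : Fin d) (k q : ℕ) (hq : q ≤ G ^ (2 * k)) :
    W (sched d G hd) i (sph G k + q) = W (sched d G hd) i (sph G k) +
      if k % d = i.1 then q else 0 := by
  induction q with
  | zero => simp
  | succ q ih =>
    rw [← add_assoc, W_succ, ih (by omega)]
    have h1 : sched d G hd (sph G k + q) = ⟨k % d, Nat.mod_lt _ hd⟩ := by
      unfold sched
      rw [Fin.mk.injEq, phs_eq G k q hG (by omega)]
    rw [h1]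
    by_cases h : k % d = i.1
    · rw [if_pos h, if_pos h, if_pos (Fin.ext h)]
      omega
    · rw [if_neg h, if_neg h, if_neg (fun e => h (congrArg Fin.val e))]

lemma W_sph {d G : ℕ} (hd : 1 ≤ d) (hG : 1 ≤ G) (i : Fin d) (k : ℕ) :
    W (sched d G hd) i (sph G k) = ∑ l ∈ (Finset.range k).filter (fun l => l % d = i.1),
      G ^ (2 * l) := by
  induction k with
  | zero => simp [W, sph]
  | succ k ih =>
    rw [sph_succ, W_phase hd hG i k _ le_rfl, ih, Finset.range_add_one, Finset.filter_insert]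
    by_cases h : k % d = i.1
    · rw [if_pos h, if_pos h, Finset.sum_insert (by simp)]
      omega
    · rw [if_neg h, if_neg h, add_zero]

lemma sph_le (G k : ℕ) (hG : 2 ≤ G) : sph G (k + 1) ≤ 2 * G ^ (2 * k) := by
  induction k with
  | zero => simp [sph]
  | succ k ih =>
    rw [sph_succ]
    have h1 : G ^ (2 * (k + 1)) = G * G * G ^ (2 * k) := by ring
    have h2 : 4 * G ^ (2 * k) ≤ G * G * G ^ (2 * k) := Nat.mul_le_mul_right _ (by nlinarith)
    omega

lemma W_bound {d G : ℕ} (hd : 1 ≤ d) (hG : 2 ≤ G) (i : Fin d) (k r : ℕ)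
    (h : ∀ l < k, l % d = i.1 → l + r ≤ k) :
    W (sched d G hd) i (sph G k) * G ^ (2 * r) ≤ 2 * G ^ (2 * k) := by
  rw [W_sph hd (by omega), Finset.sum_mul]
  have h1 : ∑ l ∈ (Finset.range k).filter (fun l => l % d = i.1), G ^ (2 * l) * G ^ (2 * r) =
      ∑ l ∈ ((Finset.range k).filter (fun l => l % d = i.1)).image (fun l => l + r),
        G ^ (2 * l) := by
    rw [Finset.sum_image (fun a _ b _ hab => by simpa using hab)]
    exact Finset.sum_congr rfl fun l _ => by ring
  rw [h1]
  refine le_trans ?_ (sph_le G k hG)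
  refine Finset.sum_le_sum_of_subset ?_
  intro l' hl'
  rw [Finset.mem_image] at hl'
  obtain ⟨l, hl, rfl⟩ := hl'
  rw [Finset.mem_filter, Finset.mem_range] at hl
  rw [Finset.mem_range]
  have := h l hl.1 hl.2
  omega

/-- distance of congruent phases -/
lemma dist_phase {d : ℕ} (k l : ℕ) (i j : Fin d) (hk : k % d = j.1) (hl : l % d = i.1)
    (hlk : l < k) : l + (if i = j then d else d - res j i) ≤ k := by
  have hj := j.2
  have hi := i.2
  have e1 := Nat.div_add_mod k d
  have e2 := Nat.div_add_mod l d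
  rw [hk] at e1
  rw [hl] at e2
  generalize k / d = a at e1
  generalize l / d = b at e2
  have hij : i = j ↔ i.1 = j.1 := Fin.ext_iff
  unfold res
  rcases Nat.lt_trichotomy a b with h | h | h
  · exfalso
    obtain ⟨e, rfl⟩ := Nat.exists_eq_add_of_lt h
    have : d * (a + e + 1) = d * a + d * e + d := by ring
    omega
  · subst h
    have h3 : i.1 < j.1 := by omega
    rw [if_neg (by rw [hij]; omega), if_neg (by omega)]
    omega
  · obtain ⟨e, rfl⟩ := Nat.exists_eq_add_of_lt h
    have h4 : d * (b + e + 1) = d * b + d * e + d := by ring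
    by_cases h5 : i = j
    · rw [if_pos h5]
      rw [hij] at h5
      omega
    · rw [if_neg h5]
      rw [hij] at h5
      by_cases h6 : j.1 < i.1
      · rw [if_pos h6]
        omega
      · rw [if_neg h6]
        omega

namespace Par

variable {d N : ℕ} (p : Par d N)

/-- the matrix of the construction -/
def IsG (p : Par d N) (G : ℕ) : Prop := ∀ j k, p.c j k =
  Real.log (2 * N) * (if j = k then 1 else (G:ℝ) ^ d / (G:ℝ) ^ (2 * res j k))

lemma X_eq (j : Fin d) (τ : ℕ → Fin d) (n : ℕ) :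
    p.X j τ n = ∑ i, p.c j i * W τ i n := by
  induction n with
  | zero => simp [X, W]
  | succ n ih =>
    rw [X_succ, ih]
    simp only [W_succ]
    push_cast
    simp only [mul_add, Finset.sum_add_distrib]
    simp

include p in
lemma logpos : 0 < Real.log (2 * N) := by
  apply Real.log_pos
  have : (1:ℝ) ≤ N := by exact_mod_cast p.hN
  linarith

omit p in
lemma res_le (j i : Fin d) : res j i ≤ d := by
  have := j.2
  have := i.2
  unfold res
  split_ifs <;> omega

lemma X_start {G : ℕ} (hG : 2 ≤ G) (hp : p.IsG G) (k : ℕ) (j : Fin d) (hk : k % d = j.1) :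
    p.X j (sched d G p.hd) (sph G k) ≤
      d * (2 * Real.log (2 * N) * (G:ℝ) ^ (2 * k) / (G:ℝ) ^ d) := by
  rw [X_eq]
  have hR := p.logpos
  have hG0 : (0:ℝ) < G := by
    have : 0 < G := by omega
    exact_mod_cast this
  have hG1 : (1:ℝ) ≤ G := by
    have : 1 ≤ G := by omega
    exact_mod_cast this
  have hterm : ∀ i ∈ (Finset.univ : Finset (Fin d)), p.c j i * W (sched d G p.hd) i (sph G k) ≤
      2 * Real.log (2 * N) * (G:ℝ) ^ (2 * k) / (G:ℝ) ^ d := by
    intro i _
    have hb := W_bound p.hd hG i k (if i = j then d else d - res j i)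
      (fun l hl hli => dist_phase k l i j hk hli hl)
    have hb' : (W (sched d G p.hd) i (sph G k) : ℝ) *
        (G:ℝ) ^ (2 * (if i = j then d else d - res j i)) ≤ 2 * (G:ℝ) ^ (2 * k) := by
      exact_mod_cast hb
    rw [hp j i]
    by_cases hij : i = j
    · rw [if_pos hij] at hb'
      rw [if_pos hij.symm, mul_one, le_div_iff₀ (by positivity)]
      have h1 : (G:ℝ) ^ d ≤ (G:ℝ) ^ (2 * d) := pow_le_pow_right₀ hG1 (by omega)
      have h2 : (W (sched d G p.hd) i (sph G k) : ℝ) * (G:ℝ) ^ d ≤ 2 * (G:ℝ) ^ (2 * k) :=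
        le_trans (mul_le_mul_of_nonneg_left h1 (by positivity)) hb'
      calc Real.log (2 * N) * (W (sched d G p.hd) i (sph G k) : ℝ) * (G:ℝ) ^ d
          = Real.log (2 * N) * ((W (sched d G p.hd) i (sph G k) : ℝ) * (G:ℝ) ^ d) := by ring
        _ ≤ Real.log (2 * N) * (2 * (G:ℝ) ^ (2 * k)) := mul_le_mul_of_nonneg_left h2 hR.le
        _ = _ := by ring
    · rw [if_neg hij] at hb'
      rw [if_neg (fun e => hij e.symm)]
      have hres := res_le j i
      have h3 : (G:ℝ) ^ (2 * d) = (G:ℝ) ^ (2 * (d - res j i)) * (G:ℝ) ^ (2 * res j i) := by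
        rw [← pow_add]
        congr 1
        omega
      have h4 : (G:ℝ) ^ (2 * d) = (G:ℝ) ^ d * (G:ℝ) ^ d := by
        rw [← pow_add]
        congr 1
        omega
      have hA : (0:ℝ) < (G:ℝ) ^ (2 * res j i) := by positivity
      have hB : (0:ℝ) < (G:ℝ) ^ d := by positivity
      rw [le_div_iff₀ hB]
      have h5 : Real.log (2 * N) * ((G:ℝ) ^ d / (G:ℝ) ^ (2 * res j i)) *
          (W (sched d G p.hd) i (sph G k) : ℝ) * (G:ℝ) ^ d =
          Real.log (2 * N) * ((W (sched d G p.hd) i (sph G k) : ℝ) *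
            (G:ℝ) ^ (2 * (d - res j i))) := by
        have h6 : (G:ℝ) ^ (2 * (d - res j i)) = (G:ℝ) ^ d * (G:ℝ) ^ d / (G:ℝ) ^ (2 * res j i) := by
          rw [eq_div_iff hA.ne', ← h3, h4]
        rw [h6]
        ring
      rw [h5]
      calc Real.log (2 * N) * ((W (sched d G p.hd) i (sph G k) : ℝ) *
            (G:ℝ) ^ (2 * (d - res j i))) ≤ Real.log (2 * N) * (2 * (G:ℝ) ^ (2 * k)) :=
            mul_le_mul_of_nonneg_left hb' hR.le
        _ = _ := by ring
  refine (Finset.sum_le_card_nsmul _ _ _ hterm).trans ?_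
  simp

lemma X_phase {G : ℕ} (hG : 1 ≤ G) (k q : ℕ) (j : Fin d) (hk : k % d = j.1)
    (hq : q ≤ G ^ (2 * k)) :
    p.X j (sched d G p.hd) (sph G k + q) = p.X j (sched d G p.hd) (sph G k) +
      q * Real.log (2 * N) := by
  rw [X_eq, X_eq]
  have h1 : ∀ i, W (sched d G p.hd) i (sph G k + q) = W (sched d G p.hd) i (sph G k) +
      if j = i then q else 0 := by
    intro i
    rw [W_phase p.hd hG i k q hq, hk]
    simp only [Fin.ext_iff]
  simp only [h1]
  push_cast
  simp only [mul_add, Finset.sum_add_distrib, mul_ite, mul_zero]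
  rw [Finset.sum_ite_eq Finset.univ j, if_pos (Finset.mem_univ _), p.diag]
  ring

/-- The schedule is good at every scale. -/
theorem sched_main {G : ℕ} (hG : 2 ≤ G) (hp : p.IsG G) (M : ℝ) (hM : 1 < M)
    (hGM : 2 * d * M ≤ G) (m : ℕ) (hm : 2 * m + 1 ≤ d) (b : ℝ) (hb : Real.log (2 * N) < b) :
    ∃ n' : Fin d → ℕ, (∀ j, p.X j (sched d G p.hd) (n' j) < b) ∧
      (m:ℝ) * (b * (1 - 1 / M) / Real.log (2 * N) - 1) ≤
        ((∑ j, W (sched d G p.hd) j (n' j) : ℕ) : ℝ) := by
  classical
  have hR := p.logpos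
  set R := Real.log (2 * N) with hRdef
  have hb0 : 0 < b := hR.trans hb
  have hG0 : (0:ℝ) < G := by
    have : 0 < G := by omega
    exact_mod_cast this
  have hG1 : (1:ℝ) < G := by
    have : 1 < G := by omega
    exact_mod_cast this
  have hM0 : 0 < M := by linarith
  have hex : ∃ k : ℕ, b ≤ R * (G:ℝ) ^ (2 * k) := by
    obtain ⟨k, hk⟩ := pow_unbounded_of_one_lt (b / R) hG1
    refine ⟨k, ?_⟩
    rw [div_lt_iff₀ hR] at hk
    have h1 : (G:ℝ) ^ k ≤ (G:ℝ) ^ (2 * k) := pow_le_pow_right₀ hG1.le (by omega)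
    have h2 := mul_le_mul_of_nonneg_left h1 hR.le
    linarith
  set k0 := Nat.find hex with hk0
  have hk0s : b ≤ R * (G:ℝ) ^ (2 * k0) := Nat.find_spec hex
  have hk0pos : k0 ≠ 0 := by
    intro h
    rw [h] at hk0s
    simp at hk0s
    linarith
  obtain ⟨k1, hk1⟩ := Nat.exists_eq_succ_of_ne_zero hk0pos
  have hk0m : R * (G:ℝ) ^ (2 * k1) < b := by
    have := Nat.find_min hex (m := k1) (by rw [← hk0, hk1]; exact Nat.lt_succ_self _)
    push Not at this
    exact this
  -- the number of symbols in the active phase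
  set v := b * (1 - 1 / M) / R with hv
  have hMi : 0 < 1 - 1 / M := by
    rw [sub_pos, div_lt_one hM0]
    exact hM
  have hMi1 : 1 - 1 / M < 1 := by
    have : 0 < 1 / M := by positivity
    linarith
  have hv0 : 0 < v := by positivity
  set q := ⌈v⌉₊ - 1 with hq
  have hceil : 0 < ⌈v⌉₊ := Nat.ceil_pos.2 hv0
  have hq1 : (q:ℝ) < v := by
    have h1 := Nat.ceil_lt_add_one hv0.le
    have h2 : ((q:ℝ)) + 1 = (⌈v⌉₊ : ℝ) := by
      rw [hq]
      have : ⌈v⌉₊ - 1 + 1 = ⌈v⌉₊ := by omega
      exact_mod_cast this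
    linarith
  have hq2 : v - 1 ≤ (q:ℝ) := by
    have h1 := Nat.le_ceil v
    have h2 : ((q:ℝ)) + 1 = (⌈v⌉₊ : ℝ) := by
      rw [hq]
      have : ⌈v⌉₊ - 1 + 1 = ⌈v⌉₊ := by omega
      exact_mod_cast this
    linarith
  have hqle : ∀ i : ℕ, q ≤ G ^ (2 * (k0 + i)) := by
    intro i
    have h1 : (q:ℝ) ≤ (G:ℝ) ^ (2 * (k0 + i)) := by
      have h2 : v ≤ b / R := by
        rw [hv]
        apply div_le_div_of_nonneg_right _ hR.le
        nlinarith
      have h3 : b / R ≤ (G:ℝ) ^ (2 * k0) := by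
        rw [div_le_iff₀ hR]
        linarith
      have h4 : (G:ℝ) ^ (2 * k0) ≤ (G:ℝ) ^ (2 * (k0 + i)) :=
        pow_le_pow_right₀ hG1.le (by omega)
      linarith
    exact_mod_cast h1
  have : NeZero d := ⟨by have := p.hd; omega⟩
  set κ : Fin d := ⟨k0 % d, Nat.mod_lt _ p.hd⟩ with hκ
  have hstep : ∀ j : Fin d, ∃ n : ℕ, p.X j (sched d G p.hd) n < b ∧
      (if (j - κ).val < m then q else 0) ≤ W (sched d G p.hd) j n := by
    intro j
    by_cases hj : (j - κ).val < m
    · rw [if_pos hj]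
      set i := (j - κ).val with hi
      have hkj : (k0 + i) % d = j.1 := by
        have h1 : κ + (j - κ) = j := by abel
        have h2 := congrArg Fin.val h1
        rw [Fin.val_add] at h2
        rw [← h2, hκ, ← hi]
        simp only
        rw [Nat.mod_add_mod]
      refine ⟨sph G (k0 + i) + q, ?_, ?_⟩
      · rw [p.X_phase (by omega) (k0 + i) q j hkj (hqle i)]
        have h1 := p.X_start hG hp (k0 + i) j hkj
        rw [← hRdef] at h1 ⊢
        have h2 : d * (2 * R * (G:ℝ) ^ (2 * (k0 + i)) / (G:ℝ) ^ d) ≤ b / M := by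
          rw [le_div_iff₀ hM0]
          have h3 : (G:ℝ) ^ (2 * (k0 + i)) = (G:ℝ) ^ (2 * k1) * (G:ℝ) ^ (2 * i + 2) := by
            rw [← pow_add]
            congr 1
            omega
          have h4 : (G:ℝ) ^ (2 * i + 2) * G ≤ (G:ℝ) ^ d := by
            rw [← pow_succ]
            exact pow_le_pow_right₀ hG1.le (by omega)
          have h5 : 2 * d * M * (G:ℝ) ^ (2 * i + 2) ≤ (G:ℝ) ^ d := by
            refine le_trans ?_ h4
            rw [mul_comm ((G:ℝ) ^ (2 * i + 2)) (G:ℝ)]
            exact mul_le_mul_of_nonneg_right hGM (by positivity)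
          have hB : (0:ℝ) < (G:ℝ) ^ d := by positivity
          have h6 : d * (2 * R * (G:ℝ) ^ (2 * (k0 + i)) / (G:ℝ) ^ d) * M =
              R * (G:ℝ) ^ (2 * k1) * ((2 * d * M * (G:ℝ) ^ (2 * i + 2)) / (G:ℝ) ^ d) := by
            rw [h3]
            field_simp
          rw [h6]
          have h7 : (2 * d * M * (G:ℝ) ^ (2 * i + 2)) / (G:ℝ) ^ d ≤ 1 := by
            rw [div_le_one hB]
            exact h5
          have h8 : 0 ≤ R * (G:ℝ) ^ (2 * k1) := by positivity
          have h9 := mul_le_mul_of_nonneg_left h7 h8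
          linarith
        have h10 : (q:ℝ) * R < b * (1 - 1 / M) := by
          rw [hv] at hq1
          rwa [lt_div_iff₀ hR] at hq1
        have h11 : b * (1 - 1 / M) = b - b / M := by ring
        linarith
      · rw [W_phase p.hd (by omega) j (k0 + i) q (hqle i), if_pos hkj]
        omega
    · rw [if_neg hj]
      refine ⟨0, ?_, Nat.zero_le _⟩
      rw [X_zero]
      exact hb0
  choose n' hn1 hn2 using hstep
  refine ⟨n', hn1, ?_⟩
  have hsum : m * q ≤ ∑ j, W (sched d G p.hd) j (n' j) := by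
    refine le_trans ?_ (Finset.sum_le_sum fun j _ => hn2 j)
    have h1 : ∑ j : Fin d, (if (j - κ).val < m then q else 0) =
        ∑ j : Fin d, (if j.val < m then q else 0) :=
      Equiv.sum_comp (Equiv.subRight κ) (fun j : Fin d => if j.val < m then q else 0)
    rw [h1, Fin.sum_univ_eq_sum_range (fun j => if j < m then q else 0) d,
      ← Finset.sum_filter]
    rw [Finset.sum_const, smul_eq_mul]
    apply Nat.mul_le_mul_right
    have h2 : (Finset.range m) ⊆ (Finset.range d).filter (fun j => j < m) := by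
      intro x hx
      rw [Finset.mem_range] at hx
      rw [Finset.mem_filter, Finset.mem_range]
      omega
    have h3 := Finset.card_le_card h2
    rwa [Finset.card_range] at h3
  have hsum' : (m:ℝ) * q ≤ ((∑ j, W (sched d G p.hd) j (n' j) : ℕ) : ℝ) := by
    exact_mod_cast hsum
  refine le_trans ?_ hsum'
  exact mul_le_mul_of_nonneg_left hq2 (by positivity)

end Par

end Pool.Agent.R826.SP
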