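import Pool.Agent.R826.SPHD
import Pool.Agent.H165R3.Birk

set_option autoImplicit false

/-!
# MP_fc9311_an: the upper bound for the dimension of the ergodic measures
-/

namespace Pool.Agent.R826.SP

open MeasureTheory Set Filter Topology
open scoped ENNReal
open Par (W)

/-- upper bound for the dimension by covers -/
theorem dimH_le_of_cover {Y : Type*} [EMetricSpace Y] [MeasurableSpace Y] [BorelSpace Y]
    (T : Set Y) (t : ℝ) (ht : 0 < t) (ι : ℕ → Type) [∀ b, Fintype (ι b)]
    (U : ∀ b, ι b → Set Y) (b0 : ℕ) (hcov : ∀ b : ℕ, b0 ≤ b → T ⊆ ⋃ i, U b i)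
    (α β B : ℝ) (hα : 0 < α)
    (hdiam : ∀ b i, Metric.ediam (U b i) ≤ ENNReal.ofReal (Real.exp (-(α * b) + B)))
    (hcard : ∀ b : ℕ, (Fintype.card (ι b) : ℝ) ≤ Real.exp (β * b)) (hlt : β < t * α) :
    dimH T ≤ ENNReal.ofReal t := by
  have hr : Tendsto (fun b : ℕ => ENNReal.ofReal (Real.exp (-(α * b) + B))) atTop (𝓝 0) := by
    rw [← ENNReal.ofReal_zero]
    apply ENNReal.tendsto_ofReal
    apply Real.tendsto_exp_atBot.comp
    apply tendsto_atBot_add_const_right
    exact tendsto_neg_atTop_atBot.comp (tendsto_natCast_atTop_atTop.const_mul_atTop hα)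
  have key := Measure.hausdorffMeasure_le_liminf_sum (β := ℕ) (ι := ι) t T (l := atTop)
    (fun b : ℕ => ENNReal.ofReal (Real.exp (-(α * b) + B))) hr U
    (Eventually.of_forall hdiam) (by
      filter_upwards [eventually_ge_atTop b0] with b hb
      exact hcov b hb)
  have hle : ∀ b : ℕ, ∑ i, Metric.ediam (U b i) ^ t ≤
      ENNReal.ofReal (Real.exp ((β - t * α) * b + t * B)) := by
    intro b
    have h1 : ∀ i ∈ (Finset.univ : Finset (ι b)), Metric.ediam (U b i) ^ t ≤
        ENNReal.ofReal (Real.exp (t * (-(α * b) + B))) := by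
      intro i _
      refine (ENNReal.rpow_le_rpow (hdiam b i) ht.le).trans ?_
      rw [ENNReal.ofReal_rpow_of_pos (Real.exp_pos _), ← Real.exp_mul, mul_comm]
    refine (Finset.sum_le_card_nsmul _ _ _ h1).trans ?_
    rw [nsmul_eq_mul, Finset.card_univ]
    have h2 : ((Fintype.card (ι b) : ℕ) : ℝ≥0∞) ≤ ENNReal.ofReal (Real.exp (β * b)) := by
      rw [← ENNReal.ofReal_natCast]
      exact ENNReal.ofReal_le_ofReal (hcard b)
    refine (mul_le_mul_left h2 _).trans ?_
    rw [← ENNReal.ofReal_mul (Real.exp_pos _).le, ← Real.exp_add]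
    apply ENNReal.ofReal_le_ofReal
    apply Real.exp_le_exp.2
    apply le_of_eq
    ring
  have hlim : Tendsto (fun b : ℕ => ENNReal.ofReal (Real.exp ((β - t * α) * b + t * B))) atTop
      (𝓝 0) := by
    rw [← ENNReal.ofReal_zero]
    apply ENNReal.tendsto_ofReal
    apply Real.tendsto_exp_atBot.comp
    apply tendsto_atBot_add_const_right
    exact tendsto_natCast_atTop_atTop.const_mul_atTop_of_neg (by linarith)
  have hzero : (μH[t] : Measure Y) T = 0 := by
    refine le_antisymm (key.trans ?_) zero_le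
    refine (liminf_le_liminf (Eventually.of_forall hle)).trans ?_
    rw [hlim.liminf_eq]
  have h3 := dimH_le_of_hausdorffMeasure_ne_top (s := T) (d := Real.toNNReal t) (by
    rw [Real.coe_toNNReal _ ht.le, hzero]
    exact ENNReal.zero_ne_top)
  exact h3

/-- extension of a finite word -/
def ext {α : Type*} {K : ℕ} (v : Fin K → α) (a0 : α) (m : ℕ) : α :=
  if h : m < K then v ⟨m, h⟩ else a0

lemma ext_lt {α : Type*} {K : ℕ} (v : Fin K → α) (a0 : α) (m : ℕ) (h : m < K) :
    ext v a0 m = v ⟨m, h⟩ := dif_pos h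

lemma ext_fin {α : Type*} {K : ℕ} (v : Fin K → α) (a0 : α) (m : Fin K) :
    ext v a0 (m : ℕ) = v m := ext_lt v a0 m m.2

namespace Par

variable {d N : ℕ} (p : Par d N)

/-- default type -/
def d0' (p : Par d N) : Fin d := ⟨0, p.hd⟩

/-- default digit -/
def N0' (p : Par d N) : Fin N := ⟨0, p.hN⟩

/-- the words at one scale -/
def Good (n : Fin d → ℕ) (K S : ℕ) (y : Fin d → ℝ) (q : (Fin K → Fin d) × (Fin K → Fin N)) :
    Prop :=
  (∑ j, W (ext q.1 p.d0') j (n j) ≤ S) ∧
  (∀ m : Fin K, ¬ ((m : ℕ) < n (q.1 m)) → q.2 m = p.N0') ∧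
  ∀ j, y j ≤ p.X j (ext q.1 p.d0') (n j)

/-- the box of a word -/
def Box (n : Fin d → ℕ) {K : ℕ} (q : (Fin K → Fin d) × (Fin K → Fin N)) : Set (Fin d → ℝ) :=
  {x | ∀ j, p.L j (ext q.1 p.d0') (ext q.2 p.N0') (n j) ≤ x j ∧
    x j ≤ p.L j (ext q.1 p.d0') (ext q.2 p.N0') (n j) +
      Real.exp (-(p.X j (ext q.1 p.d0') (n j)))}

lemma isClosed_Box (n : Fin d → ℕ) {K : ℕ} (q : (Fin K → Fin d) × (Fin K → Fin N)) :
    IsClosed (p.Box n q) := by
  have : p.Box n q = ⋂ j, {x : Fin d → ℝ | p.L j (ext q.1 p.d0') (ext q.2 p.N0') (n j) ≤ x j} ∩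
      {x | x j ≤ p.L j (ext q.1 p.d0') (ext q.2 p.N0') (n j) +
      Real.exp (-(p.X j (ext q.1 p.d0') (n j)))} := by
    ext x
    simp [Box]
  rw [this]
  exact isClosed_iInter fun j => (isClosed_le continuous_const (continuous_apply j)).inter
    (isClosed_le (continuous_apply j) continuous_const)

lemma ediam_Box (n : Fin d → ℕ) {K : ℕ} (q : (Fin K → Fin d) × (Fin K → Fin N)) (y : ℝ)
    (h : ∀ j, y ≤ p.X j (ext q.1 p.d0') (n j)) :
    Metric.ediam (p.Box n q) ≤ ENNReal.ofReal (Real.exp (-y)) := by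
  refine Metric.ediam_le fun x hx z hz => ?_
  rw [edist_dist]
  apply ENNReal.ofReal_le_ofReal
  rw [dist_pi_le_iff (Real.exp_pos _).le]
  intro j
  have h1 := hx j
  have h2 := hz j
  have h3 : Real.exp (-(p.X j (ext q.1 p.d0') (n j))) ≤ Real.exp (-y) :=
    Real.exp_le_exp.2 (by linarith [h j])
  rw [Real.dist_eq, abs_le]
  constructor <;> linarith [h1.1, h1.2, h2.1, h2.2]

lemma card_good (n : Fin d → ℕ) (K S : ℕ) (y : Fin d → ℝ) (hK : ∀ j, n j ≤ K)
    [DecidablePred (p.Good n K S y)] :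
    ((Finset.univ : Finset ((Fin K → Fin d) × (Fin K → Fin N))).filter
      (p.Good n K S y)).card ≤ d ^ K * N ^ S := by
  classical
  rw [Finset.card_eq_sum_card_fiberwise (f := Prod.fst) (t := Finset.univ)
    (fun _ _ => Finset.mem_coe.2 (Finset.mem_univ _))]
  have h1 : ∀ τ ∈ (Finset.univ : Finset (Fin K → Fin d)),
      (((Finset.univ : Finset ((Fin K → Fin d) × (Fin K → Fin N))).filter
      (p.Good n K S y)).filter (fun q => q.1 = τ)).card ≤ N ^ S := by
    intro τ _
    rcases Finset.eq_empty_or_nonempty (((Finset.univ :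
      Finset ((Fin K → Fin d) × (Fin K → Fin N))).filter
      (p.Good n K S y)).filter (fun q => q.1 = τ)) with he | ⟨q0, hq0⟩
    · rw [he]; simp
    rw [Finset.mem_filter, Finset.mem_filter] at hq0
    have hS : ∑ j, W (ext τ p.d0') j (n j) ≤ S := by
      have := hq0.1.2.1
      rwa [hq0.2] at this
    have h2 : (((Finset.univ : Finset ((Fin K → Fin d) × (Fin K → Fin N))).filter
      (p.Good n K S y)).filter (fun q => q.1 = τ)).card ≤
      (Fintype.piFinset (fun m : Fin K => if (m : ℕ) < n (τ m) then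
        (Finset.univ : Finset (Fin N)) else {p.N0'})).card := by
      refine Finset.card_le_card_of_injOn Prod.snd ?_ ?_
      · intro q hq
        rw [Finset.mem_coe, Finset.mem_filter, Finset.mem_filter] at hq
        rw [Finset.mem_coe, Fintype.mem_piFinset]
        intro m
        by_cases hm : (m : ℕ) < n (τ m)
        · rw [if_pos hm]; exact Finset.mem_univ _
        · rw [if_neg hm, Finset.mem_singleton]
          refine hq.1.2.2.1 m ?_
          rw [hq.2]
          exact hm
      · intro q hq q' hq' he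
        rw [Finset.mem_coe, Finset.mem_filter] at hq hq'
        exact Prod.ext (hq.2.trans hq'.2.symm) he
    refine h2.trans ?_
    rw [Fintype.card_piFinset]
    have h3 : ∏ m : Fin K, (if (m : ℕ) < n (τ m) then
        (Finset.univ : Finset (Fin N)) else {p.N0'}).card =
        ∏ m ∈ Finset.range K, (if m < n (ext τ p.d0' m) then N else 1) := by
      rw [← Fin.prod_univ_eq_prod_range (fun m => if m < n (ext τ p.d0' m) then N else 1) K]
      refine Finset.prod_congr rfl fun m _ => ?_
      rw [ext_fin]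
      split_ifs <;> simp
    rw [h3, ← Finset.prod_filter, Finset.prod_const, card_W _ n K hK]
    exact Nat.pow_le_pow_right p.hN hS
  refine (Finset.sum_le_card_nsmul _ _ _ h1).trans ?_
  simp

/-- the symbols of `ω` have frequencies `w` up to `ε` from time `M` on -/
def Freq (p : Par d N) (w : Fin d → ℝ) (ε : ℝ) (M : ℕ) : Set (ℕ → p.sys.Symb) :=
  {ω | ∀ n ≥ M, ∀ k, |(W (fun m => p.typ (ω m)) k n : ℝ) - w k * n| ≤ ε * n}

open Classical in
/-- the cover at scale `b` contains the coded point -/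
lemma code_mem (n : Fin d → ℕ) (K S : ℕ) (y : Fin d → ℝ) (hK : ∀ j, n j ≤ K)
    (ω : ℕ → p.sys.Symb)
    (hS : ∑ j, W (fun m => p.typ (ω m)) j (n j) ≤ S)
    (hy : ∀ j, y j ≤ p.X j (fun m => p.typ (ω m)) (n j)) :
    ∃ q, p.Good n K S y q ∧ p.sys.code ω ∈ p.Box n q := by
  set τ : Fin K → Fin d := fun m => p.typ (ω m) with hτ
  set δ : Fin K → Fin N := fun m => if (m : ℕ) < n (τ m) then p.dig (ω m) else p.N0' with hδ
  have e1 : ∀ j, ∀ l < n j, ext τ p.d0' l = p.typ (ω l) := fun j l hl => by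
    rw [ext_lt _ _ _ (hl.trans_le (hK j))]
  have hW : ∀ j, W (ext τ p.d0') j (n j) = W (fun m => p.typ (ω m)) j (n j) := by
    intro j
    unfold W
    congr 1
    refine Finset.filter_congr fun l hl => ?_
    rw [e1 j l (Finset.mem_range.1 hl)]
  have hX : ∀ j, p.X j (ext τ p.d0') (n j) = p.X j (fun m => p.typ (ω m)) (n j) := fun j =>
    p.X_congr j _ _ _ (e1 j)
  have hL : ∀ j, p.L j (ext τ p.d0') (ext δ p.N0') (n j) =
      p.L j (fun m => p.typ (ω m)) (fun m => p.dig (ω m)) (n j) := by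
    intro j
    refine p.L_congr j _ _ _ _ _ (e1 j) ?_
    intro l hl hlj
    have hlK := hl.trans_le (hK j)
    rw [ext_lt δ _ _ hlK, hδ]
    simp only
    have h2 : τ ⟨l, hlK⟩ = j := by
      rw [← hlj, ext_lt _ _ _ hlK]
    rw [if_pos (by rw [h2]; exact hl)]
  refine ⟨(τ, δ), ⟨?_, ?_, ?_⟩, ?_⟩
  · simp only [hW]
    exact hS
  · intro m hm
    simp only [hδ]
    exact if_neg hm
  · intro j
    simp only
    rw [hX]
    exact hy j
  · intro j
    simp only
    rw [hL, hX, p.code_eq]
    exact ⟨p.L_le_pt _ _ _ _, p.pt_le _ _ _ _⟩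

lemma measurable_code : Measurable p.sys.code := by
  have h1 : p.sys.code = fun ω i => p.pt i (fun m => p.typ (ω m)) (fun m => p.dig (ω m)) := by
    funext ω
    exact p.code_eq ω
  rw [h1, measurable_pi_iff]
  intro i
  refine measurable_of_tendsto_metrizable
    (f := fun n ω => p.L i (fun m => p.typ (ω m)) (fun m => p.dig (ω m)) n) ?_ ?_
  · intro n
    refine Finset.measurable_fun_sum _ fun m _ => ?_
    refine Measurable.mul ?_ ?_
    · refine Real.measurable_exp.comp ?_
      refine Measurable.neg ?_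
      refine Finset.measurable_fun_sum _ fun l _ => ?_
      exact (measurable_from_top (f := fun s : p.sys.Symb => p.c i (p.typ s))).comp
        (measurable_pi_apply l)
    · exact (measurable_from_top (f := fun s : p.sys.Symb =>
        p.trans (p.sym (p.typ s) (p.dig s) i))).comp (measurable_pi_apply m)
  · rw [tendsto_pi_nhds]
    intro ω
    exact p.tendsto_L _ _ _

/-- The dimension of an image measure, in terms of the frequencies. -/
theorem mdim_le (μ : Measure (ℕ → p.sys.Symb)) (w : Fin d → ℝ) (hw : ∀ k, 0 ≤ w k)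
    (hfreq : ∀ ε > 0, ∀ᵐ ω ∂μ, ∃ M, ω ∈ p.Freq w ε M)
    (χ : Fin d → ℝ) (hχ : ∀ j, χ j = ∑ k, p.c j k * w k) (χm : ℝ) (hχm : 0 < χm)
    (hχm2 : ∀ j, χm ≤ χ j) (t : ℝ)
    (ht : Real.log d / χm + ∑ j, w j * Real.log N / χ j < t) :
    mdim (μ.map p.sys.code) ≤ ENNReal.ofReal t := by
  classical
  have hlogN : 0 ≤ Real.log N := Real.log_nonneg (by exact_mod_cast p.hN)
  have hlogd : 0 ≤ Real.log d := Real.log_nonneg (by exact_mod_cast p.hd)
  have hχ0 : ∀ j, 0 < χ j := fun j => hχm.trans_le (hχm2 j)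
  have ht0 : 0 < t := by
    refine lt_of_le_of_lt ?_ ht
    have : 0 ≤ ∑ j, w j * Real.log N / χ j := Finset.sum_nonneg fun j _ =>
      div_nonneg (mul_nonneg (hw j) hlogN) (hχ0 j).le
    positivity
  have hc0 : ∀ j k, 0 ≤ p.c j k := by
    intro j k
    have h1 := p.half j k
    by_contra hcon
    push Not at hcon
    have h2 : 1 ≤ Real.exp (-(p.c j k)) := Real.one_le_exp (by linarith)
    linarith
  set C := ∑ j, ∑ k, p.c j k with hC
  have hCj : ∀ j, ∑ k, p.c j k ≤ C := fun j =>
    Finset.single_le_sum (f := fun j => ∑ k, p.c j k)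
      (fun j _ => Finset.sum_nonneg fun k _ => hc0 j k) (Finset.mem_univ j)
  have hC0 : 0 ≤ C := Finset.sum_nonneg fun j _ => Finset.sum_nonneg fun k _ => hc0 j k
  set B := ∑ j, χ j with hB
  have hBj : ∀ j, χ j ≤ B := fun j =>
    Finset.single_le_sum (f := χ) (fun j _ => (hχ0 j).le) (Finset.mem_univ j)
  set t0 := Real.log d / χm + ∑ j, w j * Real.log N / χ j with ht0d
  -- the choice of ε
  obtain ⟨ε, hε, hε1, hε2⟩ : ∃ ε > 0, ε * C < χm ∧
      t0 + ε * ((∑ j, Real.log N / χ j) + t * (C / χm)) < t := by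
    have h1 : Tendsto (fun ε : ℝ => ε * C) (𝓝[>] 0) (𝓝 (0 * C)) :=
      (tendsto_id.mul_const C).mono_left nhdsWithin_le_nhds
    rw [zero_mul] at h1
    have h2 : Tendsto (fun ε : ℝ => t0 + ε * ((∑ j, Real.log N / χ j) + t * (C / χm))) (𝓝[>] 0)
        (𝓝 (t0 + 0 * ((∑ j, Real.log N / χ j) + t * (C / χm)))) :=
      ((tendsto_id.mul_const _).const_add t0).mono_left nhdsWithin_le_nhds
    rw [zero_mul, add_zero] at h2
    obtain ⟨ε, hε⟩ := ((h1.eventually (gt_mem_nhds hχm)).and
      ((h2.eventually (gt_mem_nhds ht)).and self_mem_nhdsWithin)).exists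
    exact ⟨ε, hε.2.2, hε.1, hε.2.1⟩
  set κ := ε * C / χm with hκ
  have hκ0 : 0 ≤ κ := by positivity
  have hκ1 : κ < 1 := by rw [hκ, div_lt_one hχm]; exact hε1
  -- the scales
  set n : ℕ → Fin d → ℕ := fun b j => ⌊(b:ℝ) / χ j⌋₊ with hn
  set K : ℕ → ℕ := fun b => ⌊(b:ℝ) / χm⌋₊ with hKd
  set S : ℕ → ℕ := fun b => ⌊∑ j, (w j + ε) * (b / χ j)⌋₊ with hSd
  set y : ℕ → Fin d → ℝ := fun b _ => b * (1 - κ) - B with hy
  have hnK : ∀ b j, n b j ≤ K b := by
    intro b j
    apply Nat.floor_le_floor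
    exact div_le_div_of_nonneg_left (by positivity) hχm (hχm2 j)
  -- points with good frequencies
  have hgood : ∀ ω M, ω ∈ p.Freq w ε M → ∀ b : ℕ, (∀ j, M ≤ n b j) →
      ∃ q, p.Good (n b) (K b) (S b) (y b) q ∧ p.sys.code ω ∈ p.Box (n b) q := by
    intro ω M hω b hb
    refine p.code_mem (n b) (K b) (S b) (y b) (hnK b) ω ?_ ?_
    · apply Nat.le_floor
      push_cast
      refine Finset.sum_le_sum fun j _ => ?_
      have h1 := (abs_le.1 (hω (n b j) (hb j) j)).2
      have h2 : (n b j : ℝ) ≤ b / χ j := Nat.floor_le (div_nonneg (by positivity) (hχ0 j).le)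
      have h3 : (w j + ε) * (n b j : ℝ) ≤ (w j + ε) * (b / χ j) :=
        mul_le_mul_of_nonneg_left h2 (by linarith [hw j])
      linarith
    · intro j
      rw [p.X_eq]
      have h1 : ∑ k, p.c j k * (w k * n b j - ε * n b j) ≤
          ∑ k, p.c j k * (W (fun m => p.typ (ω m)) k (n b j) : ℝ) := by
        refine Finset.sum_le_sum fun k _ => ?_
        apply mul_le_mul_of_nonneg_left _ (hc0 j k)
        linarith [(abs_le.1 (hω (n b j) (hb j) k)).1]
      refine le_trans ?_ h1
      have h2 : ∑ k, p.c j k * (w k * n b j - ε * n b j) =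
          (χ j - ε * ∑ k, p.c j k) * n b j := by
        rw [hχ j]
        have e : ∀ k, p.c j k * (w k * n b j - ε * n b j) =
          (p.c j k * w k) * n b j - (ε * n b j) * p.c j k := fun k => by ring
        simp only [e, Finset.sum_sub_distrib, ← Finset.sum_mul, ← Finset.mul_sum]
        ring
      rw [h2]
      have h3 : χ j - ε * C ≤ χ j - ε * ∑ k, p.c j k := by
        have := mul_le_mul_of_nonneg_left (hCj j) hε.le
        linarith
      have h4 : (b:ℝ) / χ j - 1 < n b j := Nat.sub_one_lt_floor _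
      have h5 : 0 < χ j - ε * C := by linarith [hχm2 j]
      have h6 : (χ j - ε * C) * (b / χ j - 1) ≤ (χ j - ε * ∑ k, p.c j k) * n b j := by
        calc (χ j - ε * C) * (b / χ j - 1) ≤ (χ j - ε * C) * n b j :=
              mul_le_mul_of_nonneg_left h4.le h5.le
          _ ≤ _ := mul_le_mul_of_nonneg_right h3 (by positivity)
      refine le_trans ?_ h6
      have h7 : (χ j - ε * C) * (b / χ j - 1) = b - ε * C * b / χ j - χ j + ε * C := by
        have := (hχ0 j).ne'
        field_simp
        ring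
      rw [h7]
      have h8 : ε * C * b / χ j ≤ ε * C * b / χm :=
        div_le_div_of_nonneg_left (by positivity) hχm (hχm2 j)
      have h9 : ε * C * b / χm = b * κ := by rw [hκ]; ring
      have h10 := hBj j
      have h11 : 0 ≤ ε * C := by positivity
      simp only [hy]
      linarith
  -- the target set
  set D : ℕ → Set (Fin d → ℝ) := fun M => ⋂ b ∈ Set.Ici M, ⋃ q ∈
    ((Finset.univ : Finset ((Fin (K b) → Fin d) × (Fin (K b) → Fin N))).filter
      (p.Good (n b) (K b) (S b) (y b))), p.Box (n b) q with hD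
  have hDmeas : ∀ M, MeasurableSet (D M) := fun M =>
    MeasurableSet.biInter (Set.to_countable _) fun b _ =>
      Finset.measurableSet_biUnion _ fun q _ => (p.isClosed_Box (n b) q).measurableSet
  have hfull : (μ.map p.sys.code) (⋃ M, D M)ᶜ = 0 := by
    rw [Measure.map_apply p.measurable_code (MeasurableSet.iUnion hDmeas).compl]
    have h1 := hfreq ε hε
    refine measure_mono_null ?_ h1
    intro ω hω
    simp only [mem_preimage, mem_compl_iff, mem_iUnion, not_exists] at hω
    simp only [mem_compl_iff, mem_ofPred_eq, not_exists]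
    intro M hM
    -- find a large scale
    obtain ⟨b1, hb1⟩ := exists_nat_ge ((M:ℝ) * B + B)
    refine hω b1 ?_
    rw [hD]
    simp only [mem_iInter, mem_iUnion]
    intro b hb
    have hMb : ∀ j, M ≤ n b j := by
      intro j
      apply Nat.le_floor
      rw [le_div_iff₀ (hχ0 j)]
      have h2 : (b1:ℝ) ≤ b := by exact_mod_cast hb
      have h3 : (M:ℝ) * χ j ≤ M * B := mul_le_mul_of_nonneg_left (hBj j) (by positivity)
      have h4 : 0 < B := (hχ0 j).trans_le (hBj j)
      linarith
    obtain ⟨q, hq1, hq2⟩ := hgood ω M hM b hMb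
    exact ⟨q, Finset.mem_filter.2 ⟨Finset.mem_univ _, hq1⟩, hq2⟩
  have hdim : dimH (⋃ M, D M) ≤ ENNReal.ofReal t := by
    rw [dimH_iUnion]
    refine iSup_le fun M => ?_
    refine dimH_le_of_cover (D M) t ht0
      (fun b => {q // q ∈ ((Finset.univ : Finset ((Fin (K b) → Fin d) × (Fin (K b) → Fin N))).filter
      (p.Good (n b) (K b) (S b) (y b)))}) (fun b q => p.Box (n b) q.1) M ?_
      (1 - κ) (Real.log d / χm + ∑ j, (w j + ε) * Real.log N / χ j) B (by linarith) ?_ ?_ ?_
    · intro b hb x hx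
      rw [hD] at hx
      simp only [mem_iInter, mem_iUnion] at hx
      obtain ⟨q, hq1, hq2⟩ := hx b hb
      exact mem_iUnion.2 ⟨⟨q, hq1⟩, hq2⟩
    · intro b q
      refine (p.ediam_Box (n b) q.1 (b * (1 - κ) - B) ?_).trans (le_of_eq ?_)
      · exact (Finset.mem_filter.1 q.2).2.2.2
      · congr 2
        ring
    · intro b
      rw [Fintype.card_coe]
      have h1 := p.card_good (n b) (K b) (S b) (y b) (hnK b)
      have h2 : ((((Finset.univ : Finset ((Fin (K b) → Fin d) × (Fin (K b) → Fin N))).filter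
        (p.Good (n b) (K b) (S b) (y b))).card : ℕ) : ℝ) ≤ (d:ℝ) ^ K b * (N:ℝ) ^ S b := by
        exact_mod_cast h1
      refine h2.trans ?_
      have hd0 := p.d0
      have hN0 := p.N0
      have h3 : (d:ℝ) ^ K b = Real.exp (K b * Real.log d) := by
        rw [Real.exp_nat_mul, Real.exp_log hd0]
      have h4 : (N:ℝ) ^ S b = Real.exp (S b * Real.log N) := by
        rw [Real.exp_nat_mul, Real.exp_log hN0]
      rw [h3, h4, ← Real.exp_add]
      apply Real.exp_le_exp.2
      have h5 : (K b : ℝ) ≤ b / χm := Nat.floor_le (by positivity)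
      have h6 : (S b : ℝ) ≤ ∑ j, (w j + ε) * (b / χ j) :=
        Nat.floor_le (Finset.sum_nonneg fun j _ =>
          mul_nonneg (by linarith [hw j]) (div_nonneg (by positivity) (hχ0 j).le))
      have h7 := mul_le_mul_of_nonneg_right h5 hlogd
      have h8 := mul_le_mul_of_nonneg_right h6 hlogN
      have h9 : (∑ j, (w j + ε) * ((b:ℝ) / χ j)) * Real.log N =
          (∑ j, (w j + ε) * Real.log N / χ j) * b := by
        rw [Finset.sum_mul, Finset.sum_mul]
        exact Finset.sum_congr rfl fun j _ => by ring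
      have h10 : (b:ℝ) / χm * Real.log d = Real.log d / χm * b := by ring
      rw [h9] at h8
      rw [h10] at h7
      linarith
    · have h1 : ∑ j, (w j + ε) * Real.log N / χ j =
          ∑ j, w j * Real.log N / χ j + ε * ∑ j, Real.log N / χ j := by
        rw [Finset.mul_sum, ← Finset.sum_add_distrib]
        exact Finset.sum_congr rfl fun j _ => by ring
      rw [h1]
      have h2 : t * (1 - κ) = t - ε * (t * (C / χm)) := by
        rw [hκ]
        ring
      rw [h2]
      rw [ht0d] at hε2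
      linarith
  exact (iInf₂_le (⋃ M, D M) hfull).trans hdim

end Par

end Pool.Agent.R826.SP
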